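import Pool.Agent.Lib.MP_02e52a_al.Cnt.Defs

/-! # Basic identities -/

namespace MP_02e52a.Cnt

open MP_02e52a.M7

variable {p : ℕ} [Fact p.Prime]

theorem sq_mul (a b : F2 p) : M7.sq (a * b) = M7.sq a * M7.sq b := by
  ext i j
  fin_cases i <;> fin_cases j <;>
    simp [M7.sq, Matrix.mul_apply, Fin.sum_univ_succ] <;> ring

theorem actM_mul (a b : F2 p) (x : M6 p) : actM (a * b) x = actM a (actM b x) := by
  simp only [actM_apply, sq_mul, Matrix.adjugate_mul_distrib, Matrix.mul_assoc]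

theorem sq_one : M7.sq (1 : F2 p) = 1 := by
  ext i j
  fin_cases i <;> fin_cases j <;> simp [M7.sq]

theorem actM_one (x : M6 p) : actM (1 : F2 p) x = x := by
  rw [actM_apply, sq_one, Matrix.adjugate_one, Matrix.mul_one, Matrix.one_mul]

theorem sq_smul (c : ZMod p) (a : F2 p) : M7.sq (c • a) = c ^ 2 • M7.sq a := by
  ext i j
  fin_cases i <;> fin_cases j <;> simp [M7.sq] <;> ring

theorem actM_smul (c : ZMod p) (a : F2 p) (x : M6 p) : actM (c • a) x = c ^ 3 • actM a x := by
  rw [actM_apply, sq_smul, Matrix.adjugate_smul, actM_apply]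
  simp [smul_smul]
  ring_nf

/-- polar form of `sq` -/
def sqB (a b : F2 p) : Matrix (Fin 3) (Fin 3) (ZMod p) :=
  !![2 * a 0 0 * b 0 0, 2 * a 0 1 * b 0 1, a 0 0 * b 0 1 + a 0 1 * b 0 0;
    2 * a 1 0 * b 1 0, 2 * a 1 1 * b 1 1, a 1 0 * b 1 1 + a 1 1 * b 1 0;
    2 * (a 0 0 * b 1 0 + a 1 0 * b 0 0), 2 * (a 0 1 * b 1 1 + a 1 1 * b 0 1),
      a 0 0 * b 1 1 + a 1 1 * b 0 0 + a 0 1 * b 1 0 + a 1 0 * b 0 1]

theorem sqB_right (b z : F2 p) : sqB b (b * z) = M7.sq b * dsq z := by
  ext i j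
  fin_cases i <;> fin_cases j <;>
    simp [sqB, dsq, M7.sq, Matrix.mul_apply, Fin.sum_univ_succ] <;> ring

theorem sqB_left (b z : F2 p) : sqB b (z * b) = dsq z * M7.sq b := by
  ext i j
  fin_cases i <;> fin_cases j <;>
    simp [sqB, dsq, M7.sq, Matrix.mul_apply, Fin.sum_univ_succ] <;> ring

/-- `dact` is transported by conjugation -/
theorem actM_dact (b z z' : F2 p) (h : b * z = z' * b) (x : M6 p) :
    actM b (dact z x) = dact z' (actM b x) := by
  simp only [actM_apply, dact_apply, Matrix.mul_add, Matrix.add_mul]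
  congr 1
  · rw [← Matrix.mul_assoc, ← Matrix.mul_assoc, ← Matrix.mul_assoc, ← sqB_right, h, sqB_left]
  · simp only [Matrix.mul_assoc]
    rw [← Matrix.adjugate_mul_distrib, h, Matrix.adjugate_mul_distrib]

theorem actM_entry (a : F2 p) (T : M6 p) (i : Fin 3) (j : Fin 2) : actM a T i j =
    (M7.sq a i 0 * T 0 0 + M7.sq a i 1 * T 1 0 + M7.sq a i 2 * T 2 0) * a.adjugate 0 j +
    (M7.sq a i 0 * T 0 1 + M7.sq a i 1 * T 1 1 + M7.sq a i 2 * T 2 1) * a.adjugate 1 j := by
  rw [actM_apply]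
  simp only [Matrix.mul_apply, Fin.sum_univ_two, Fin.sum_univ_three]

theorem dact_entry (a : F2 p) (T : M6 p) (i : Fin 3) (j : Fin 2) : dact a T i j =
    (dsq a i 0 * T 0 j + dsq a i 1 * T 1 j + dsq a i 2 * T 2 j) +
    (T i 0 * a.adjugate 0 j + T i 1 * a.adjugate 1 j) := by
  rw [dact_apply]
  simp only [Matrix.add_apply, Matrix.mul_apply, Fin.sum_univ_two, Fin.sum_univ_three]

theorem actM_dact_comm (z : F2 p) (x : M6 p) : actM z (dact z x) = dact z (actM z x) :=
  actM_dact z z z rfl x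

theorem eq_of_trace (z : F2 p) (h : z.trace = 0) : z = !![z 0 0, z 0 1; z 1 0, -z 0 0] := by
  rw [Matrix.trace_fin_two] at h
  ext i j
  fin_cases i <;> fin_cases j
  · rfl
  · rfl
  · rfl
  · simpa using (eq_neg_of_add_eq_zero_right h)

theorem mul_self_of_trace (z : F2 p) (h : z.trace = 0) : z * z = (-z.det) • (1 : F2 p) := by
  rw [eq_of_trace z h]
  ext i j
  fin_cases i <;> fin_cases j <;> simp [Matrix.mul_apply, Fin.sum_univ_succ, Matrix.det_fin_two] <;> ring

theorem actM_actM (z : F2 p) (h : z.trace = 0) (x : M6 p) : actM z (actM z x) = (-z.det) ^ 3 • x := by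
  rw [← actM_mul, mul_self_of_trace z h, actM_smul, actM_one]

/-- `D R² = 2 ρ R + 3 D²` -/
theorem dact_dact (z : F2 p) (h : z.trace = 0) (x : M6 p) :
    (-z.det) • dact z (dact z x) = (2 : ZMod p) • actM z (dact z x) + (3 * (-z.det) ^ 2) • x := by
  rw [eq_of_trace z h]
  ext i j
  simp only [Matrix.add_apply, Matrix.smul_apply, actM_entry, dact_entry, Matrix.adjugate_fin_two, M7.sq, dsq]
  fin_cases i <;> fin_cases j <;> simp [Matrix.det_fin_two] <;> ring

/-- expansion of `actM (α + β z)` -/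
theorem actM_comb (z : F2 p) (h : z.trace = 0) (α β : ZMod p) (x : M6 p) :
    (-z.det) • actM (α • (1 : F2 p) + β • z) x = (-z.det * α ^ 3) • x + (-z.det * α ^ 2 * β) • dact z x +
      (α * β ^ 2) • actM z (dact z x) + (-z.det * β ^ 3) • actM z x := by
  rw [eq_of_trace z h]
  ext i j
  simp only [Matrix.add_apply, Matrix.smul_apply, actM_entry, dact_entry, Matrix.adjugate_fin_two, M7.sq, dsq]
  fin_cases i <;> fin_cases j <;> simp [Matrix.det_fin_two] <;> ring

theorem dsq_lie (z y : F2 p) : dsq z * dsq y - dsq y * dsq z = dsq (z * y - y * z) := by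
  ext i j
  fin_cases i <;> fin_cases j <;>
    simp [dsq, Matrix.mul_apply, Fin.sum_univ_succ] <;> ring

theorem dact_lie (z y : F2 p) (x : M6 p) :
    dact z (dact y x) - dact y (dact z x) = dact (z * y - y * z) x := by
  have h := congrArg (fun m => m * x) (dsq_lie z y)
  simp only [Matrix.sub_mul, Matrix.mul_assoc] at h
  have h2 : (z * y - y * z).adjugate = y.adjugate * z.adjugate - z.adjugate * y.adjugate := by
    rw [← Matrix.adjugate_mul_distrib, ← Matrix.adjugate_mul_distrib]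
    simp only [Matrix.adjugate_fin_two]
    ext i j
    fin_cases i <;> fin_cases j <;> simp <;> ring
  simp only [dact_apply, Matrix.mul_add, Matrix.add_mul]
  rw [← h, h2, Matrix.mul_sub]
  simp only [← Matrix.mul_assoc]
  abel

/-- eigenvalues on `HH` : `actM (α + β z) = u + v Z` -/
theorem actM_HH (z : F2 p) (h : z.trace = 0) (hz : z.det ≠ 0) (α β : ZMod p) (x : M6 p) (hx : x ∈ HH z) :
    (-z.det) • actM (α • (1 : F2 p) + β • z) x = (-z.det * (α ^ 3 + 3 * α * β ^ 2 * (-z.det))) • x +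
      (3 * α ^ 2 * β + β ^ 3 * (-z.det)) • actM z x := by
  rw [mem_HH] at hx
  have hD : -z.det ≠ 0 := neg_ne_zero.2 hz
  have h2 : actM z (dact z x) = (3 * (-z.det) ^ 2) • x := by
    have h3 := congrArg (actM z) hx
    rw [map_smul, map_smul, actM_actM z h, smul_smul] at h3
    have h4 := congrArg (fun m => (-z.det)⁻¹ • m) h3
    simp only [smul_smul] at h4
    rw [inv_mul_cancel₀ hD, one_smul] at h4
    rw [h4]
    congr 1
    field_simp
  have h5 : (-z.det * α ^ 2 * β) • dact z x = (3 * α ^ 2 * β) • actM z x := by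
    rw [show -z.det * α ^ 2 * β = (α ^ 2 * β) * (-z.det) by ring, mul_smul, hx, smul_smul]
    congr 1; ring
  rw [actM_comb z h, h5, h2]
  module

/-- eigenvalues on `QQ` : `actM (α + β z) = d (α - β Z)` -/
theorem actM_QQ (z : F2 p) (h : z.trace = 0) (hz : z.det ≠ 0) (α β : ZMod p) (x : M6 p) (hx : x ∈ QQ z) :
    (-z.det) • actM (α • (1 : F2 p) + β • z) x =
      (α ^ 2 - β ^ 2 * (-z.det)) • ((-z.det * α) • x - β • actM z x) := by
  rw [mem_QQ] at hx
  have hD : -z.det ≠ 0 := neg_ne_zero.2 hz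
  have h2 : actM z (dact z x) = (-(-z.det) ^ 2) • x := by
    have h3 := congrArg (actM z) hx
    rw [map_smul, map_neg, actM_actM z h] at h3
    have h4 := congrArg (fun m => (-z.det)⁻¹ • m) h3
    simp only [smul_smul, smul_neg] at h4
    rw [inv_mul_cancel₀ hD, one_smul] at h4
    rw [h4, neg_smul]
    congr 2
    field_simp
  have h5 : (-z.det * α ^ 2 * β) • dact z x = (-(α ^ 2 * β)) • actM z x := by
    rw [show -z.det * α ^ 2 * β = (α ^ 2 * β) * (-z.det) by ring, mul_smul, hx, smul_neg, neg_smul]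
  rw [actM_comb z h, h5, h2]
  module

end MP_02e52a.Cnt
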