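import Pool.Agent.Lib.MP_02e52a_al.Cnt.Stab

/-! # The planes with a stabiliser of order three: definitions -/

namespace MP_02e52a.Cnt

open MP_02e52a.M7

variable {p : ℕ} [Fact p.Prime]

/-- the plane spanned by `E01 + e E10` and `u E00 + v E21` -/
def PA (e u v : ZMod p) : Submodule (ZMod p) (M6 p) :=
  Submodule.span (ZMod p) {!![0, 1; e, 0; 0, 0], !![u, 0; 0, 0; 0, v]}

/-- the plane spanned by `E01 + e E10` and `u E11 + v E20` -/
def PB (e u v : ZMod p) : Submodule (ZMod p) (M6 p) :=
  Submodule.span (ZMod p) {!![0, 1; e, 0; 0, 0], !![0, 0; 0, u; v, 0]}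

/-- planes without involution and unipotent element in the stabiliser -/
def NI (P : Submodule (ZMod p) (M6 p)) : Prop := ¬ (JJ P).Nonempty ∧ ¬ (KK P).Nonempty

end MP_02e52a.Cnt
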