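import Pool.Agent.Lib.MP_02e52a_al.Cnt.Mat2

/-! # The decomposition HH + QQ -/

namespace MP_02e52a.Cnt

open MP_02e52a.M7

variable {p : ℕ} [Fact p.Prime]

private theorem two_ne (hp : p ≠ 2) : (2 : ZMod p) ≠ 0 := by
  intro h
  have h1 : ((2 : ℕ) : ZMod p) = 0 := by exact_mod_cast h
  rw [ZMod.natCast_eq_zero_iff] at h1
  exact hp ((Nat.prime_dvd_prime_iff_eq (Fact.out) Nat.prime_two).1 h1)

private theorem det_comb (z : F2 p) (hz : z.trace = 0) (α β : ZMod p) :
    (α • (1 : F2 p) + β • z).det = α ^ 2 - β ^ 2 * (-z.det) := by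
  rw [Matrix.trace_fin_two] at hz
  simp only [Matrix.det_fin_two, Matrix.add_apply, Matrix.smul_apply, smul_eq_mul]
  simp
  linear_combination (α * β) * hz

private theorem actM_combG (z : F2 p) (α β : ZMod p) (x : M6 p) :
    actM (α • (1 : F2 p) + β • z) (actM z x) = actM z (actM (α • (1 : F2 p) + β • z) x) := by
  rw [← actM_mul, ← actM_mul]
  congr 1
  congr 1
  simp [Matrix.add_mul, Matrix.mul_add]

theorem T1_split (hp : p ≠ 2) (P : Gr p) (z : F2 p) (hz : z.trace = 0) (hzd : z.det ≠ 0) (α β : ZMod p)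
    (hα : α ≠ 0) (hβ : β ≠ 0) (hs : St P.1 (α • (1 : F2 p) + β • z)) (x : M6 p) (hx : x ∈ P.1) :
    ∃ h q : M6 p, x = h + q ∧ h ∈ HH z ∧ q ∈ QQ z ∧ h ∈ P.1 ∧ q ∈ P.1 ∧ actM z q ∈ P.1 ∧
      (3 * α ^ 2 + β ^ 2 * (-z.det) ≠ 0 → actM z h ∈ P.1) := by
  have h2 := two_ne hp
  have hD : -z.det ≠ 0 := neg_ne_zero.2 hzd
  have h4 : (4 * (-z.det) ^ 2 : ZMod p) ≠ 0 := by
    have : (4 : ZMod p) = 2 * 2 := by norm_num
    rw [this]
    exact mul_ne_zero (mul_ne_zero h2 h2) (pow_ne_zero _ hD)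
  have hdd : α ^ 2 - β ^ 2 * (-z.det) ≠ 0 := by
    rw [← det_comb z hz]; exact hs.1
  set D : ZMod p := -z.det with hDdef
  obtain ⟨h, q, hxhq, hhH, hqQ⟩ : ∃ h q : M6 p, x = h + q ∧ h ∈ HH z ∧ q ∈ QQ z := by
    set c : ZMod p := (4 * D ^ 2)⁻¹ with hc
    have hcc : c * (4 * D ^ 2) = 1 := inv_mul_cancel₀ h4
    set h : M6 p := c • (dact z (actM z x) + D ^ 2 • x) with hh
    set q : M6 p := c • ((3 * D ^ 2) • x - dact z (actM z x)) with hq
    have e0 : dact z (actM z (actM z x)) = D ^ 3 • dact z x := by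
      rw [actM_actM z hz, map_smul]
    have e1 : D • dact z (dact z (actM z x)) = (2 * D ^ 3) • dact z x + (3 * D ^ 2) • actM z x := by
      rw [dact_dact z hz, actM_dact_comm, e0, smul_smul]
    have e2 : actM z (dact z (actM z x)) = D ^ 3 • dact z x := by
      rw [actM_dact_comm, e0]
    have hxhq : x = h + q := by
      have : h + q = (c * (4 * D ^ 2)) • x := by rw [hh, hq]; module
      rw [this, hcc, one_smul]
    have hhH : h ∈ HH z := by
      rw [mem_HH, hh]
      simp only [map_smul, map_add]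
      rw [e2]
      have : D • c • (dact z (dact z (actM z x)) + D ^ 2 • dact z x) =
          c • (D • dact z (dact z (actM z x))) + (c * D ^ 3) • dact z x := by module
      rw [this, e1]
      module
    have hqQ : q ∈ QQ z := by
      rw [mem_QQ, hq]
      simp only [map_smul, map_sub]
      rw [e2]
      have : D • c • ((3 * D ^ 2) • dact z x - dact z (dact z (actM z x))) =
          (3 * c * D ^ 3) • dact z x - c • (D • dact z (dact z (actM z x))) := by module
      rw [this, e1]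
      module
    exact ⟨h, q, hxhq, hhH, hqQ⟩
  set d : ZMod p := α ^ 2 - β ^ 2 * D with hd
  set u : ZMod p := α ^ 3 + 3 * α * β ^ 2 * D with hu
  set v : ZMod p := 3 * α ^ 2 * β + β ^ 3 * D with hv
  set a : F2 p := α • (1 : F2 p) + β • z with ha
  have g1 : D • actM a h = (D * u) • h + v • actM z h := actM_HH z hz hzd α β h hhH
  have g2 : D • actM a q = d • ((D * α) • q - β • actM z q) := actM_QQ z hz hzd α β q hqQ
  have hcomm : ∀ y, actM a (actM z y) = actM z (actM a y) := fun y => actM_combG z α β y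
  have r1 : D • actM a (actM z h) = (D * u) • actM z h + (v * D ^ 3) • h := by
    rw [hcomm, ← map_smul, g1, map_add, map_smul, map_smul, actM_actM z hz, smul_smul]
  have r2 : D • actM a (actM z q) = (d * D * α) • actM z q - (d * β * D ^ 3) • q := by
    rw [hcomm, ← map_smul, g2, map_smul, map_sub, map_smul, map_smul, actM_actM z hz]
    module
  have k1 : D ^ 2 • actM a (actM a h) = (D ^ 2 * u ^ 2 + v ^ 2 * D ^ 3) • h + (2 * D * u * v) • actM z h := by
    have : D ^ 2 • actM a (actM a h) = D • actM a (D • actM a h) := by rw [map_smul]; module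
    rw [this, g1, map_add, map_smul, map_smul]
    have : D • ((D * u) • actM a h + v • actM a (actM z h)) =
        (D * u) • (D • actM a h) + v • (D • actM a (actM z h)) := by module
    rw [this, g1, r1]
    module
  have k2 : D ^ 2 • actM a (actM a q) = (d ^ 2 * (D ^ 2 * α ^ 2 + β ^ 2 * D ^ 3)) • q
      - (2 * d ^ 2 * D * α * β) • actM z q := by
    have : D ^ 2 • actM a (actM a q) = D • actM a (D • actM a q) := by rw [map_smul]; module
    rw [this, g2, map_smul, map_sub, map_smul, map_smul]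
    have : D • d • ((D * α) • actM a q - β • actM a (actM z q)) =
        (d * D * α) • (D • actM a q) - (d * β) • (D • actM a (actM z q)) := by module
    rw [this, g2, r2]
    module
  have hud : u ^ 2 - v ^ 2 * D = d ^ 3 := by rw [hu, hv, hd]; ring
  have m1 : D ^ 2 • (actM a (actM a h) - (2 * u) • actM a h + d ^ 3 • h) = 0 := by
    have : D ^ 2 • (actM a (actM a h) - (2 * u) • actM a h + d ^ 3 • h) =
      D ^ 2 • actM a (actM a h) - (2 * u * D) • (D • actM a h) + (D ^ 2 * d ^ 3) • h := by module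
    rw [this, k1, g1, ← hud]
    module
  have m2 : D ^ 2 • (actM a (actM a q) - (2 * d * α) • actM a q + d ^ 3 • q) = 0 := by
    have : D ^ 2 • (actM a (actM a q) - (2 * d * α) • actM a q + d ^ 3 • q) =
      D ^ 2 • actM a (actM a q) - (2 * d * α * D) • (D • actM a q) + (D ^ 2 * d ^ 3) • q := by module
    rw [this, k2, g2]
    have e : d ^ 3 = d ^ 2 * (α ^ 2 - β ^ 2 * D) := by rw [hd]; ring
    rw [e]
    module
  have hD2 : D ^ 2 ≠ 0 := pow_ne_zero _ hD
  have m1' := (smul_eq_zero.1 m1).resolve_left hD2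
  have m2' := (smul_eq_zero.1 m2).resolve_left hD2
  have key : actM a (actM a x) - (2 * u) • actM a x + d ^ 3 • x = (-(8 * α * β ^ 2 * D)) • actM a q := by
    have e : actM a (actM a x) - (2 * u) • actM a x + d ^ 3 • x =
        (actM a (actM a h) - (2 * u) • actM a h + d ^ 3 • h) +
        (actM a (actM a q) - (2 * d * α) • actM a q + d ^ 3 • q) + (2 * (d * α - u)) • actM a q := by
      conv_lhs => rw [hxhq]
      simp only [map_add]
      module
    rw [e, m1', m2', zero_add, zero_add]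
    congr 1
    rw [hd, hu]; ring
  have hGx : actM a x ∈ P.1 := hs.2 x hx
  have hGGx : actM a (actM a x) ∈ P.1 := hs.2 _ hGx
  have hmem : (-(8 * α * β ^ 2 * D)) • actM a q ∈ P.1 := by
    rw [← key]
    exact P.1.add_mem (P.1.sub_mem hGGx (P.1.smul_mem _ hGx)) (P.1.smul_mem _ hx)
  have hne : (-(8 * α * β ^ 2 * D)) ≠ 0 := by
    have : (8 : ZMod p) = 2 * 2 * 2 := by norm_num
    rw [this]
    exact neg_ne_zero.2 (mul_ne_zero (mul_ne_zero (mul_ne_zero (mul_ne_zero (mul_ne_zero h2 h2) h2) hα)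
      (pow_ne_zero _ hβ)) hD)
  have hGq : actM a q ∈ P.1 := (P.1.smul_mem_iff hne).1 hmem
  have hqP : q ∈ P.1 := (hs.mem_iff q).1 hGq
  have hhP : h ∈ P.1 := by
    have : h = x - q := by rw [hxhq]; abel
    rw [this]
    exact P.1.sub_mem hx hqP
  refine ⟨h, q, hxhq, hhH, hqQ, hhP, hqP, ?_, ?_⟩
  · have e : (d * β) • actM z q = (d * (D * α)) • q - D • actM a q := by
      rw [g2]; module
    have : (d * β) • actM z q ∈ P.1 := by
      rw [e]; exact P.1.sub_mem (P.1.smul_mem _ hqP) (P.1.smul_mem _ hGq)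
    exact (P.1.smul_mem_iff (mul_ne_zero hdd hβ)).1 this
  · intro h3
    have e : v • actM z h = D • actM a h - (D * u) • h := by
      rw [g1]; module
    have : v • actM z h ∈ P.1 := by
      rw [e]; exact P.1.sub_mem (P.1.smul_mem _ (hs.2 _ hhP)) (P.1.smul_mem _ hhP)
    have hvne : v ≠ 0 := by
      have : v = β * (3 * α ^ 2 + β ^ 2 * D) := by rw [hv]; ring
      rw [this]
      exact mul_ne_zero hβ h3
    exact (P.1.smul_mem_iff hvne).1 this

/-- [C5 T1b] PROOF: `T1_split`; `z ∈ JJ P` as `actM z x = actM z h + actM z q ∈ P`. -/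
theorem T1_mem (hp : p ≠ 2) (P : Gr p) (z : F2 p) (hz : z.trace = 0) (hzd : z.det ≠ 0) (α β : ZMod p)
    (hα : α ≠ 0) (hβ : β ≠ 0) (hs : St P.1 (α • (1 : F2 p) + β • z)) (h3 : 3 * α ^ 2 + β ^ 2 * (-z.det) ≠ 0) :
    z ∈ JJ P.1 := by
  refine ⟨hz, hzd, fun x hx => ?_⟩
  obtain ⟨h, q, hxq, _, _, _, _, h5, h6⟩ := T1_split hp P z hz hzd α β hα hβ hs x hx
  rw [hxq, map_add]
  exact P.1.add_mem (h6 h3) h5

/-- [C5 T1c] PROOF: for `x` in both: `3 ρ x = - ρ x`, `4 ρ x = 0`. -/
theorem HH_inf_QQ (hp : p ≠ 2) (z : F2 p) (hzd : z.det ≠ 0) (x : M6 p) (h : x ∈ HH z) (h' : x ∈ QQ z) : x = 0 := by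
  rw [mem_HH] at h
  rw [mem_QQ] at h'
  have h2 := two_ne hp
  have e : (4 : ZMod p) • actM z x = 0 := by
    have : (4 : ZMod p) • actM z x = (3 : ZMod p) • actM z x - (- actM z x) := by module
    rw [this, ← h, ← h', sub_self]
  have h4 : (4 : ZMod p) ≠ 0 := by
    have : (4 : ZMod p) = 2 * 2 := by norm_num
    rw [this]; exact mul_ne_zero h2 h2
  have e' := (smul_eq_zero.1 e).resolve_left h4
  exact actM_inj z hzd (by rw [e', map_zero])

end MP_02e52a.Cnt
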