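import Pool.Agent.Lib.MP_02e52a_al.Cnt.Mat2

/-! # Finrank of HH, description of QQ -/

namespace MP_02e52a.Cnt

open MP_02e52a.M7

variable {p : ℕ} [Fact p.Prime]

private theorem t2_comm (b : F2 p) (hb : b.det ≠ 0) (z : F2 p) (x : M6 p) :
    actM (cj b z) (actM b x) = actM b (actM z x) := by
  rw [← actM_mul, cj_mul_self b hb, actM_mul]

/-- [C5 T2a] transport of `HH`. PROOF: `D' = D` (`cj_det`), `actM_dact` with `b z = cj b z b`, `actM_mul`. -/
theorem HH_cj (b : F2 p) (hb : b.det ≠ 0) (z : F2 p) (x : M6 p) : actM b x ∈ HH (cj b z) ↔ x ∈ HH z := by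
  rw [mem_HH, mem_HH, cj_det b hb, ← actM_dact b z (cj b z) (cj_mul_self b hb z).symm, t2_comm b hb,
    ← map_smul (actM b) (-z.det), ← map_smul (actM b) (3 : ZMod p), (actM_inj b hb).eq_iff]

/-- [C5 T2b] -/
theorem QQ_cj (b : F2 p) (hb : b.det ≠ 0) (z : F2 p) (x : M6 p) : actM b x ∈ QQ (cj b z) ↔ x ∈ QQ z := by
  rw [mem_QQ, mem_QQ, cj_det b hb, ← actM_dact b z (cj b z) (cj_mul_self b hb z).symm, t2_comm b hb,
    ← map_smul, ← map_neg, (actM_inj b hb).eq_iff]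

omit [Fact p.Prime] in
private theorem t2_ext (x y : M6 p) : x = y ↔ x 0 0 = y 0 0 ∧ x 0 1 = y 0 1 ∧ x 1 0 = y 1 0 ∧
    x 1 1 = y 1 1 ∧ x 2 0 = y 2 0 ∧ x 2 1 = y 2 1 := by
  constructor
  · rintro rfl
    exact ⟨rfl, rfl, rfl, rfl, rfl, rfl⟩
  · rintro ⟨h1, h2, h3, h4, h5, h6⟩
    ext i j
    fin_cases i <;> fin_cases j <;> assumption

private theorem t2_dact (D : ZMod p) (x : M6 p) : dact !![0, D; 1, 0] x =
    !![D * x 2 0 - x 0 1, D * x 2 1 - D * x 0 0; x 2 0 - x 1 1, x 2 1 - D * x 1 0;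
      2 * x 0 0 + 2 * D * x 1 0 - x 2 1, 2 * x 0 1 + 2 * D * x 1 1 - D * x 2 0] := by
  ext i j
  rw [dact_entry]
  fin_cases i <;> fin_cases j <;> simp [dsq, Matrix.adjugate_fin_two] <;> ring

private theorem t2_actM (D : ZMod p) (x : M6 p) : actM !![0, D; 1, 0] x =
    !![-D ^ 2 * x 1 1, -D ^ 3 * x 1 0; - x 0 1, - D * x 0 0; - D * x 2 1, -D ^ 2 * x 2 0] := by
  ext i j
  rw [actM_entry]
  fin_cases i <;> fin_cases j <;> simp [M7.sq, Matrix.adjugate_fin_two] <;> ring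

private theorem t2_det (D : ZMod p) : -(!![0, D; 1, 0] : F2 p).det = D := by
  rw [Matrix.det_fin_two]; simp

private theorem t2_HH (hp : p ≠ 2) (D : ZMod p) (hD : D ≠ 0) : HH (!![0, D; 1, 0] : F2 p) =
    Submodule.span (ZMod p) {!![D, 0; 1, 0; 0, -2 * D], !![0, D; 0, 1; -2, 0]} := by
  have h2 : (2 : ZMod p) ≠ 0 := by
    intro h
    have h' : ((2 : ℕ) : ZMod p) = 0 := by exact_mod_cast h
    rw [ZMod.natCast_eq_zero_iff] at h'
    exact hp ((Nat.prime_dvd_prime_iff_eq (Fact.out : p.Prime) Nat.prime_two).1 h')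
  ext x
  rw [mem_HH, t2_dact, t2_actM, t2_det, t2_ext, Submodule.mem_span_pair]
  change (D * (D * x 2 0 - x 0 1) = 3 * (-D ^ 2 * x 1 1) ∧
    D * (D * x 2 1 - D * x 0 0) = 3 * (-D ^ 3 * x 1 0) ∧
    D * (x 2 0 - x 1 1) = 3 * (- x 0 1) ∧ D * (x 2 1 - D * x 1 0) = 3 * (- D * x 0 0) ∧
    D * (2 * x 0 0 + 2 * D * x 1 0 - x 2 1) = 3 * (- D * x 2 1) ∧
    D * (2 * x 0 1 + 2 * D * x 1 1 - D * x 2 0) = 3 * (-D ^ 2 * x 2 0)) ↔ _
  constructor
  · rintro ⟨e1, e2, e3, e4, e5, e6⟩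
    have f1 : D * x 2 0 - x 0 1 = -3 * D * x 1 1 :=
      mul_left_cancel₀ hD (by linear_combination e1)
    have f6 : x 0 1 + D * x 1 1 = - D * x 2 0 :=
      mul_left_cancel₀ (mul_ne_zero h2 hD) (by linear_combination e6)
    have f2 : x 2 1 - x 0 0 = -3 * D * x 1 0 :=
      mul_left_cancel₀ (mul_ne_zero hD hD) (by linear_combination e2)
    have f5 : x 0 0 + D * x 1 0 = - x 2 1 :=
      mul_left_cancel₀ (mul_ne_zero h2 hD) (by linear_combination e5)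
    have g0 : x 0 0 = D * x 1 0 := mul_left_cancel₀ h2 (by linear_combination f5 - f2)
    have g1 : x 2 1 = -2 * D * x 1 0 := by linear_combination f2 + g0
    have g2 : x 2 0 = -2 * x 1 1 :=
      mul_left_cancel₀ (mul_ne_zero h2 hD) (by linear_combination f1 + f6)
    have g3 : x 0 1 = D * x 1 1 := by linear_combination f6 - D * g2
    refine ⟨x 1 0, x 1 1, ?_⟩
    rw [t2_ext]
    refine ⟨?_, ?_, ?_, ?_, ?_, ?_⟩
    · simp only [Matrix.add_apply, Matrix.smul_apply, smul_eq_mul]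
      change x 1 0 * D + x 1 1 * 0 = x 0 0
      rw [g0]; ring
    · change x 1 0 * 0 + x 1 1 * D = x 0 1
      rw [g3]; ring
    · change x 1 0 * 1 + x 1 1 * 0 = x 1 0
      ring
    · change x 1 0 * 0 + x 1 1 * 1 = x 1 1
      ring
    · change x 1 0 * 0 + x 1 1 * (-2) = x 2 0
      rw [g2]; ring
    · change x 1 0 * (-2 * D) + x 1 1 * 0 = x 2 1
      rw [g1]; ring
  · rintro ⟨s, t, rfl⟩
    have e1 : (s • !![D, 0; 1, 0; 0, -2 * D] + t • !![0, D; 0, 1; -2, 0] : M6 p) 0 0 =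
      s * D + t * 0 := rfl
    have e2 : (s • !![D, 0; 1, 0; 0, -2 * D] + t • !![0, D; 0, 1; -2, 0] : M6 p) 0 1 =
      s * 0 + t * D := rfl
    have e3 : (s • !![D, 0; 1, 0; 0, -2 * D] + t • !![0, D; 0, 1; -2, 0] : M6 p) 1 0 =
      s * 1 + t * 0 := rfl
    have e4 : (s • !![D, 0; 1, 0; 0, -2 * D] + t • !![0, D; 0, 1; -2, 0] : M6 p) 1 1 =
      s * 0 + t * 1 := rfl
    have e5 : (s • !![D, 0; 1, 0; 0, -2 * D] + t • !![0, D; 0, 1; -2, 0] : M6 p) 2 0 =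
      s * 0 + t * (-2) := rfl
    have e6 : (s • !![D, 0; 1, 0; 0, -2 * D] + t • !![0, D; 0, 1; -2, 0] : M6 p) 2 1 =
      s * (-2 * D) + t * 0 := rfl
    rw [e1, e2, e3, e4, e5, e6]
    refine ⟨?_, ?_, ?_, ?_, ?_, ?_⟩ <;> ring

/-- [C5 T2c] PROOF: by `conj_comp` and `HH_cj` (`HH (cj b z) = (HH z).map (actM b)`, `LinearEquiv.finrank_map_eq` with `trE`) let `z = (0, D; 1, 0)`. The equations `D R T = 3 ρ T` read (`R T = (D T20 - T01, D T21 - D T00; T20 - T11,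
T21 - D T10; 2 T00 + 2 D T10 - T21, 2 T01 + 2 D T11 - D T20)`, `ρ T = (- D² T11, - D³ T10; - T01, - D T00; - D T21, - D² T20)`): `T00 = D T10, T21 = - 2 D T10, T01 = D T11, T20 = - 2 T11`; so `HH z = span {(D, 0; 1, 0; 0, - 2 D),
(0, D; 0, 1; -2, 0)}`. -/
theorem finrank_HH (hp : p ≠ 2) (z : F2 p) (hz : z.trace = 0) (hzd : z.det ≠ 0) :
    Module.finrank (ZMod p) (HH z) = 2 := by
  obtain ⟨b, hb, hbz⟩ := conj_comp hp z hz hzd
  have h1 : (HH z).map (trE b hb).toLinearMap = HH (cj b z) := by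
    ext y
    constructor
    · rintro ⟨x, hx, rfl⟩
      exact (HH_cj b hb z x).2 hx
    · intro hy
      obtain ⟨x, rfl⟩ := (trE b hb).surjective y
      exact ⟨x, (HH_cj b hb z x).1 hy, rfl⟩
  rw [← LinearEquiv.finrank_map_eq (trE b hb) (HH z), h1, hbz, t2_HH hp _ (neg_ne_zero.2 hzd)]
  have h : LinearIndependent (ZMod p) ![(!![-z.det, 0; 1, 0; 0, -2 * -z.det] : M6 p),
      !![0, -z.det; 0, 1; -2, 0]] := by
    rw [LinearIndependent.pair_iff]
    intro s t h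
    have h1 := congrFun (congrFun h 1) 0
    have h2 := congrFun (congrFun h 1) 1
    simp at h1 h2
    exact ⟨h1, h2⟩
  have h2 := finrank_span_eq_card h
  rw [Fintype.card_fin, Matrix.range_cons, Matrix.range_cons, Matrix.range_empty, Set.union_empty,
    Set.singleton_union] at h2
  exact h2

/-- `kap z φ` -/
def kap (z : F2 p) (φ : Fin 2 → ZMod p) : M6 p :=
  !![-z 0 1 * φ 0, -z 0 1 * φ 1; z 1 0 * φ 0, z 1 0 * φ 1; 2 * z 0 0 * φ 0, 2 * z 0 0 * φ 1]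

/-- [C5 T2d] PROOF: entries, `ring` (`actM_entry`; `J bᵀ = adj b J`). -/
theorem actM_kap (b z : F2 p) (hz : z.trace = 0) (φ : Fin 2 → ZMod p) :
    actM b (kap z φ) = kap (b * z * b.adjugate) (Matrix.vecMul φ b.adjugate) := by
  have h11 : z 1 1 = - z 0 0 := by
    rw [Matrix.trace_fin_two] at hz
    exact eq_neg_of_add_eq_zero_right hz
  ext i j
  rw [actM_entry]
  fin_cases i <;> fin_cases j <;>
    simp [M7.sq, Matrix.adjugate_fin_two, kap, Matrix.mul_apply, Fin.sum_univ_two, Matrix.vecMul,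
      dotProduct, h11] <;> ring

private theorem t2_kap_smul (c : ZMod p) (z : F2 p) (φ : Fin 2 → ZMod p) :
    kap (c • z) φ = kap z (c • φ) := by
  rw [t2_ext]
  refine ⟨?_, ?_, ?_, ?_, ?_, ?_⟩ <;> simp [kap] <;> ring

private theorem t2_kap_smul' (c : ZMod p) (z : F2 p) (φ : Fin 2 → ZMod p) :
    c • kap z φ = kap z (c • φ) := by
  rw [t2_ext]
  refine ⟨?_, ?_, ?_, ?_, ?_, ?_⟩ <;> simp [kap] <;> ring

private theorem t2_phi_smul (c : ZMod p) (v : Fin 2 → ZMod p) : c • phi v = phi (c • v) := by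
  rw [t2_ext]
  refine ⟨?_, ?_, ?_, ?_, ?_, ?_⟩ <;> simp [phi]

/-- [C5 T2e] PROOF: by `conj_comp`, `QQ_cj`, `actM_phi`, `actM_kap` (note `b z adj b = det b • cj b z` and `kap (c • z) φ = kap z (c • φ)`) let `z = (0, D; 1, 0)`. The equations `D R T = - ρ T` (see `finrank_HH`) read
`T01 = D (T20 - T11)`, `T21 = T00 + D T10`. Take `v = (T21, T20)`, `φ = (T10, T11 - T20)`. -/
theorem QQ_form (hp : p ≠ 2) (z : F2 p) (hz : z.trace = 0) (hzd : z.det ≠ 0) (x : M6 p) (hx : x ∈ QQ z) :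
    ∃ v φ, x = phi v + kap z φ := by
  obtain ⟨b, hb, hbz⟩ := conj_comp hp z hz hzd
  have hy := (QQ_cj b hb z x).2 hx
  set y := actM b x with hyd
  obtain ⟨D, hDd⟩ : ∃ D : ZMod p, D = -z.det := ⟨_, rfl⟩
  have hD : D ≠ 0 := by rw [hDd]; exact neg_ne_zero.2 hzd
  rw [← hDd] at hbz
  have hyf : y = phi ![y 2 1, y 2 0] + kap (cj b z) ![y 1 0, y 1 1 - y 2 0] := by
    rw [mem_QQ, hbz, t2_dact, t2_actM, t2_det, t2_ext] at hy
    obtain ⟨e1, e2, -⟩ := hy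
    change D * (D * y 2 0 - y 0 1) = -(-D ^ 2 * y 1 1) at e1
    change D * (D * y 2 1 - D * y 0 0) = -(-D ^ 3 * y 1 0) at e2
    have f1 : D * y 2 0 - y 0 1 = D * y 1 1 :=
      mul_left_cancel₀ hD (by linear_combination e1)
    have f2 : y 2 1 - y 0 0 = D * y 1 0 :=
      mul_left_cancel₀ (mul_ne_zero hD hD) (by linear_combination e2)
    rw [hbz, t2_ext]
    refine ⟨?_, ?_, ?_, ?_, ?_, ?_⟩
    · simp [phi, kap]
      linear_combination -f2
    · simp [phi, kap]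
      linear_combination -f1
    · simp [phi, kap]
    · simp [phi, kap]
    · simp [phi, kap]
    · simp [phi, kap]
  have h3 : b.det ^ 3 ≠ 0 := pow_ne_zero 3 hb
  have h4 : b.det ^ 3 • x = actM b.adjugate y := (actM_adj b x).symm
  have htr : (cj b z).trace = 0 := by rw [cj_trace b hb, hz]
  have haa : b.adjugate.adjugate = b := by
    rw [Matrix.adjugate_adjugate b (by simp)]
    simp
  have h5 : b.adjugate * cj b z * b = b.det • z := by
    rw [Matrix.mul_assoc, cj_mul_self b hb, ← Matrix.mul_assoc, Matrix.adjugate_mul, Matrix.smul_mul,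
      Matrix.one_mul]
  rw [hyf, map_add, actM_phi, actM_kap _ _ htr, haa, h5, t2_kap_smul, t2_phi_smul] at h4
  refine ⟨(b.det ^ 3)⁻¹ • (b.adjugate.det • b.adjugate.mulVec ![y 2 1, y 2 0]),
    (b.det ^ 3)⁻¹ • (b.det • Matrix.vecMul ![y 1 0, y 1 1 - y 2 0] b), ?_⟩
  rw [← t2_phi_smul, ← t2_kap_smul', ← smul_add, ← h4, smul_smul, inv_mul_cancel₀ h3, one_smul]

end MP_02e52a.Cnt
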