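import Pool.Agent.Lib.MP_02e52a_al.Cnt.C0
import Pool.Agent.Lib.MP_02e52a_al.Cnt.T1
import Pool.Agent.Lib.MP_02e52a_al.Cnt.T2

/-! # Planes with a stabiliser of order three: normal form -/

namespace MP_02e52a.Cnt

open MP_02e52a.M7

variable {p : ℕ} [Fact p.Prime]

private theorem c1_two (hp : p ≠ 2) : (2 : ZMod p) ≠ 0 := by
  intro h
  have h2 : ((2 : ℕ) : ZMod p) = 0 := by exact_mod_cast h
  rw [ZMod.natCast_eq_zero_iff] at h2
  exact hp ((Nat.prime_dvd_prime_iff_eq Fact.out Nat.prime_two).1 h2)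

private theorem c1_HH (z : F2 p) (x : M6 p) (h : x ∈ HH z) : actM z x ∈ HH z := by
  rw [mem_HH] at h ⊢
  rw [← actM_dact_comm, ← map_smul, h, map_smul]

private theorem c1_QQ (z : F2 p) (x : M6 p) (h : x ∈ QQ z) : actM z x ∈ QQ z := by
  rw [mem_QQ] at h ⊢
  rw [← actM_dact_comm, ← map_smul, h, map_neg]

/-- [C5 C1a] PROOF. Write `g = α + z`, `α = tr g / 2`, `z` traceless, `z ≠ 0`. `α ≠ 0` (otherwise `g ∈ JJ P`). `det z ≠ 0` (otherwise `z z = 0` and `α⁻¹ z ∈ KK P`). Let `D = - det z`. If `3 α² + D ≠ 0` then `z ∈ JJ P` by `T1_mem` (β = 1), excluded. So `D = - 3 α²`.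
By `T1_split` (β = 1) every `x ∈ P` is `h + q` with `h ∈ P ⊓ HH z`, `q ∈ P ⊓ QQ z`, `ρ q ∈ P` (`ρ = actM z`). If `P ≤ QQ z` then `P` is stable under `ρ`, so `z ∈ JJ P`, excluded; if `P ≤ HH z` then `P = HH z` (`finrank_HH`, `Submodule.eq_of_le_of_finrank_eq`) is stable under `ρ` (`actM_dact_comm`), excluded. So there are
`0 ≠ h ∈ P ⊓ HH z`, `0 ≠ q ∈ P ⊓ QQ z`; they are independent (`HH_inf_QQ`) and span `P`; `ρ q ∈ P ⊓ QQ z` so `ρ q = c' q` (an element `x h + y q` of `QQ z` has `x h ∈ HH z ⊓ QQ z`, so `x = 0`), and `c'² = D³` (`actM_actM`). With `c = c' / D`: `c² = D`, `c³ = c'`. If `ρ h = k h` then `P` is stable under `ρ`, excluded. -/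
theorem C1a (hp : p ≠ 2) (P : Gr p) (hP : NI P.1) (g : F2 p) (hg : St P.1 g) (hs : ¬ Sc g) :
    ∃ (α c : ZMod p) (z : F2 p) (h q : M6 p), g = α • (1 : F2 p) + z ∧ α ≠ 0 ∧ c ≠ 0 ∧ z.trace = 0 ∧
      -z.det = c ^ 2 ∧ c ^ 2 = -3 * α ^ 2 ∧ h ∈ HH z ∧ q ∈ QQ z ∧ q ≠ 0 ∧ actM z q = c ^ 3 • q ∧
      (∀ k : ZMod p, actM z h ≠ k • h) ∧ P.1 = Submodule.span (ZMod p) {h, q} := by
  have h2 := c1_two hp
  obtain ⟨hJ, hK⟩ := hP
  obtain ⟨α, hα'⟩ : ∃ α : ZMod p, g.trace = 2 * α := ⟨g.trace / 2, by field_simp⟩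
  obtain ⟨z, hz'⟩ : ∃ z : F2 p, g = α • (1 : F2 p) + z := ⟨g - α • (1 : F2 p), by abel⟩
  have hzt : z.trace = 0 := by
    have h1 := hα'
    rw [hz', Matrix.trace_add, Matrix.trace_smul, Matrix.trace_one] at h1
    simp at h1
    linear_combination h1
  have hz0 : z ≠ 0 := by
    rintro rfl
    apply hs
    rw [hz']
    refine ⟨?_, ?_, ?_⟩ <;> simp
  have hα : α ≠ 0 := by
    rintro rfl
    apply hJ
    refine ⟨g, ?_, hg⟩
    rw [hα', mul_zero]
  have hzd : z.det ≠ 0 := by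
    intro h0
    apply hK
    have h1 : (α⁻¹ • z) * (α⁻¹ • z) = 0 := by
      rw [Matrix.smul_mul, Matrix.mul_smul, mul_self_of_trace z hzt, h0]
      simp
    refine ⟨α⁻¹ • z, smul_ne_zero (inv_ne_zero hα) hz0, h1, ?_⟩
    apply St.of_smul hα
    rw [smul_add, smul_smul, mul_inv_cancel₀ hα, one_smul, ← hz']
    exact hg
  have hD : -z.det ≠ 0 := neg_ne_zero.2 hzd
  have hg' : St P.1 (α • (1 : F2 p) + (1 : ZMod p) • z) := by
    rw [one_smul, ← hz']
    exact hg
  have hzJ : z ∉ JJ P.1 := fun h => hJ ⟨z, h⟩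
  have h3 : 3 * α ^ 2 + -z.det = 0 := by
    by_contra h3
    exact hzJ (T1_mem hp P z hzt hzd α 1 hα one_ne_zero hg' (by simpa using h3))
  have hsplit := T1_split hp P z hzt hzd α 1 hα one_ne_zero hg'
  -- existence of `q`
  have hq : ∃ q ∈ P.1, q ∈ QQ z ∧ actM z q ∈ P.1 ∧ q ≠ 0 := by
    by_contra hc
    push Not at hc
    have hle : P.1 ≤ HH z := by
      intro x hx
      obtain ⟨h, q, h1, h4, h5, h6, h7, h8, _⟩ := hsplit x hx
      have hq0 := hc q h7 h5 h8
      rw [h1, hq0, add_zero]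
      exact h4
    have heq : P.1 = HH z := Submodule.eq_of_le_of_finrank_eq hle
      (by rw [P.2, finrank_HH hp z hzt hzd])
    apply hzJ
    refine ⟨hzt, hzd, fun x hx => ?_⟩
    rw [heq] at hx ⊢
    exact c1_HH z x hx
  have hh : ∃ h ∈ P.1, h ∈ HH z ∧ h ≠ 0 := by
    by_contra hc
    push Not at hc
    apply hzJ
    refine ⟨hzt, hzd, fun x hx => ?_⟩
    obtain ⟨h, q, h1, h4, h5, h6, h7, h8, _⟩ := hsplit x hx
    have hh0 := hc h h6 h4
    rw [h1, hh0, zero_add]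
    exact h8
  obtain ⟨q, hqP, hqQ, hρq, hq0⟩ := hq
  obtain ⟨h, hhP, hhH, hh0⟩ := hh
  have hli : LinearIndependent (ZMod p) ![h, q] := by
    rw [LinearIndependent.pair_iff]
    intro s t hst
    have h1 : s • h = 0 := by
      apply HH_inf_QQ hp z hzd _ ((HH z).smul_mem _ hhH)
      have : s • h = (-t) • q := by
        rw [neg_smul]
        exact eq_neg_of_add_eq_zero_left hst
      rw [this]
      exact (QQ z).smul_mem _ hqQ
    have hs0 : s = 0 := (smul_eq_zero.1 h1).resolve_right hh0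
    refine ⟨hs0, ?_⟩
    rw [h1, zero_add] at hst
    exact (smul_eq_zero.1 hst).resolve_right hq0
  have hfr := finrank_span_eq_card hli
  rw [Fintype.card_fin, Matrix.range_cons, Matrix.range_cons, Matrix.range_empty, Set.union_empty,
    Set.singleton_union] at hfr
  have hspan : P.1 = Submodule.span (ZMod p) {h, q} := by
    refine (Submodule.eq_of_le_of_finrank_eq ?_ (by rw [hfr, P.2])).symm
    rw [Submodule.span_le]
    rintro x (rfl | rfl)
    · exact hhP
    · exact hqP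
  obtain ⟨b, hb⟩ : ∃ b : ZMod p, actM z q = b • q := by
    rw [hspan, Submodule.mem_span_pair] at hρq
    obtain ⟨s, t, hst⟩ := hρq
    have h1 : s • h = 0 := by
      apply HH_inf_QQ hp z hzd _ ((HH z).smul_mem _ hhH)
      have : s • h = actM z q - t • q := by rw [← hst]; abel
      rw [this]
      exact (QQ z).sub_mem (c1_QQ z q hqQ) ((QQ z).smul_mem _ hqQ)
    exact ⟨t, by rw [← hst, h1, zero_add]⟩
  have hbb : b ^ 2 = (-z.det) ^ 3 := by
    have h1 := actM_actM z hzt q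
    rw [hb, map_smul, hb, smul_smul, ← sub_eq_zero, ← sub_smul] at h1
    have := (smul_eq_zero.1 h1).resolve_right hq0
    linear_combination this
  have hc2 : (b / -z.det) ^ 2 = -z.det := by
    rw [div_pow, hbb]
    field_simp
  have hc3 : (b / -z.det) ^ 3 = b := by
    rw [pow_succ, hc2]
    field_simp
  refine ⟨α, b / -z.det, z, h, q, hz', hα, ?_, hzt, hc2.symm, ?_, hhH, hqQ, hq0, ?_, ?_, hspan⟩
  · intro h0
    rw [h0] at hc2
    apply hD
    rw [← hc2]
    ring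
  · rw [hc2]
    linear_combination h3
  · rw [hc3]
    exact hb
  · intro k hk
    apply hzJ
    refine ⟨hzt, hzd, fun x hx => ?_⟩
    rw [hspan, Submodule.mem_span_pair] at hx
    obtain ⟨s, t, rfl⟩ := hx
    rw [map_add, map_smul, map_smul, hk, hb]
    exact P.1.add_mem (P.1.smul_mem _ (P.1.smul_mem _ hhP)) (P.1.smul_mem _ (P.1.smul_mem _ hqP))

private theorem c1_span (a : ZMod p) (ha : a ≠ 0) (x y : M6 p) :
    Submodule.span (ZMod p) {a • x, y} = Submodule.span (ZMod p) {x, y} := by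
  ext w
  rw [Submodule.mem_span_pair, Submodule.mem_span_pair]
  constructor
  · rintro ⟨s, t, rfl⟩
    exact ⟨s * a, t, by rw [smul_smul]⟩
  · rintro ⟨s, t, rfl⟩
    exact ⟨s * a⁻¹, t, by rw [smul_smul, mul_assoc, inv_mul_cancel₀ ha, mul_one]⟩

/-- [C5 C1b] PROOF: for `z = (c, 0; 0, -c)`: `dact z` is diagonal on the `E_ij`: `E00: c, E01: 3c, E10: -3c, E11: -c, E20: -c, E21: c`, `actM z`: `E00: -c³, E01: c³, E10: -c³, E11: c³, E20: c³, E21: -c³`. So `HH z = span {E01, E10}`, `QQ z = span {E00, E21, E11, E20}` (`p ≠ 2`), and `q` is in `span {E00, E21}` or in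
`span {E11, E20}`. `h = x E01 + y E10` with `x, y ≠ 0` (otherwise it is an eigenvector); `e = y / x`. -/
theorem C1b (hp : p ≠ 2) (P : Gr p) (c : ZMod p) (hc : c ≠ 0) (h q : M6 p) (hh : h ∈ HH !![c, 0; 0, -c])
    (hq : q ∈ QQ !![c, 0; 0, -c]) (hq0 : q ≠ 0)
    (hq1 : actM !![c, 0; 0, -c] q = c ^ 3 • q ∨ actM !![c, 0; 0, -c] q = (-c ^ 3) • q)
    (hh1 : ∀ k : ZMod p, actM !![c, 0; 0, -c] h ≠ k • h) (hP : P.1 = Submodule.span (ZMod p) {h, q}) :
    ∃ e u v : ZMod p, e ≠ 0 ∧ (u ≠ 0 ∨ v ≠ 0) ∧ (P.1 = PA e u v ∨ P.1 = PB e u v) := by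
  have h2 := c1_two hp
  have h4 : (4 : ZMod p) * c ^ 3 ≠ 0 := by
    have : (4 : ZMod p) = 2 * 2 := by norm_num
    rw [this]
    exact mul_ne_zero (mul_ne_zero h2 h2) (pow_ne_zero 3 hc)
  have h2c : (2 : ZMod p) * c ^ 3 ≠ 0 := mul_ne_zero h2 (pow_ne_zero 3 hc)
  have hact : ∀ T : M6 p, actM !![c, 0; 0, -c] T =
      !![-c ^ 3 * T 0 0, c ^ 3 * T 0 1; -c ^ 3 * T 1 0, c ^ 3 * T 1 1;
        c ^ 3 * T 2 0, -c ^ 3 * T 2 1] := by
    intro T
    ext i j
    rw [actM_entry]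
    fin_cases i <;> fin_cases j <;> simp [M7.sq, Matrix.adjugate_fin_two] <;> ring
  have hdact : ∀ T : M6 p, dact !![c, 0; 0, -c] T =
      !![c * T 0 0, 3 * c * T 0 1; -(3 * c) * T 1 0, -c * T 1 1; -c * T 2 0, c * T 2 1] := by
    intro T
    ext i j
    rw [dact_entry]
    fin_cases i <;> fin_cases j <;> simp [dsq, Matrix.adjugate_fin_two] <;> ring
  have hdet : -(!![c, 0; 0, -c] : F2 p).det = c ^ 2 := by
    rw [Matrix.det_fin_two]
    simp
    ring
  rw [mem_HH, hact, hdact, hdet] at hh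
  rw [mem_QQ, hact, hdact, hdet] at hq
  have a00 := congrFun (congrFun hh 0) 0
  have a11 := congrFun (congrFun hh 1) 1
  have a20 := congrFun (congrFun hh 2) 0
  have a21 := congrFun (congrFun hh 2) 1
  have b01 := congrFun (congrFun hq 0) 1
  have b10 := congrFun (congrFun hq 1) 0
  simp at a00 a11 a20 a21 b01 b10
  have h00 : h 0 0 = 0 := (mul_eq_zero.1 (show (4 * c ^ 3) * h 0 0 = 0 by
    linear_combination a00)).resolve_left h4
  have h11 : h 1 1 = 0 := (mul_eq_zero.1 (show (4 * c ^ 3) * h 1 1 = 0 by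
    linear_combination -a11)).resolve_left h4
  have h20 : h 2 0 = 0 := (mul_eq_zero.1 (show (4 * c ^ 3) * h 2 0 = 0 by
    linear_combination -a20)).resolve_left h4
  have h21 : h 2 1 = 0 := (mul_eq_zero.1 (show (4 * c ^ 3) * h 2 1 = 0 by
    linear_combination a21)).resolve_left h4
  have q01 : q 0 1 = 0 := (mul_eq_zero.1 (show (4 * c ^ 3) * q 0 1 = 0 by
    linear_combination b01)).resolve_left h4
  have q10 : q 1 0 = 0 := (mul_eq_zero.1 (show (4 * c ^ 3) * q 1 0 = 0 by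
    linear_combination -b10)).resolve_left h4
  have h01 : h 0 1 ≠ 0 := by
    intro h0
    apply hh1 (-c ^ 3)
    rw [hact]
    ext i j
    fin_cases i <;> fin_cases j <;> simp [h0, h00, h11, h20, h21]
  have h10 : h 1 0 ≠ 0 := by
    intro h0
    apply hh1 (c ^ 3)
    rw [hact]
    ext i j
    fin_cases i <;> fin_cases j <;> simp [h0, h00, h11, h20, h21]
  have hX : h = h 0 1 • !![0, 1; h 1 0 / h 0 1, 0; 0, 0] := by
    ext i j
    fin_cases i <;> fin_cases j
    · simpa using h00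
    · simp
    · simp; field_simp
    · simpa using h11
    · simpa using h20
    · simpa using h21
  rw [hact] at hq1
  rcases hq1 with hq1 | hq1
  · have c00 := congrFun (congrFun hq1 0) 0
    have c21 := congrFun (congrFun hq1 2) 1
    simp at c00 c21
    have q00 : q 0 0 = 0 := (mul_eq_zero.1 (show (2 * c ^ 3) * q 0 0 = 0 by
      linear_combination -c00)).resolve_left h2c
    have q21 : q 2 1 = 0 := (mul_eq_zero.1 (show (2 * c ^ 3) * q 2 1 = 0 by
      linear_combination -c21)).resolve_left h2c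
    have hY : q = !![0, 0; 0, q 1 1; q 2 0, 0] := by
      ext i j
      fin_cases i <;> fin_cases j <;> simp [q00, q01, q10, q21]
    refine ⟨h 1 0 / h 0 1, q 1 1, q 2 0, div_ne_zero h10 h01, ?_, Or.inr ?_⟩
    · by_contra hcon
      push Not at hcon
      apply hq0
      rw [hY, hcon.1, hcon.2]
      ext i j
      fin_cases i <;> fin_cases j <;> simp
    · rw [PB, ← hY, ← c1_span (h 0 1) h01 !![0, 1; h 1 0 / h 0 1, 0; 0, 0] q, ← hX]
      exact hP
  · have c11 := congrFun (congrFun hq1 1) 1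
    have c20 := congrFun (congrFun hq1 2) 0
    simp at c11 c20
    have q11 : q 1 1 = 0 := (mul_eq_zero.1 (show (2 * c ^ 3) * q 1 1 = 0 by
      linear_combination c11)).resolve_left h2c
    have q20 : q 2 0 = 0 := (mul_eq_zero.1 (show (2 * c ^ 3) * q 2 0 = 0 by
      linear_combination c20)).resolve_left h2c
    have hY : q = !![q 0 0, 0; 0, 0; 0, q 2 1] := by
      ext i j
      fin_cases i <;> fin_cases j <;> simp [q11, q01, q10, q20]
    refine ⟨h 1 0 / h 0 1, q 0 0, q 2 1, div_ne_zero h10 h01, ?_, Or.inl ?_⟩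
    · by_contra hcon
      push Not at hcon
      apply hq0
      rw [hY, hcon.1, hcon.2]
      ext i j
      fin_cases i <;> fin_cases j <;> simp
    · rw [PA, ← hY, ← c1_span (h 0 1) h01 !![0, 1; h 1 0 / h 0 1, 0; 0, 0] q, ← hX]
      exact hP

end MP_02e52a.Cnt
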