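import Pool.Agent.Lib.MP_02e52a_al.Cnt.C1

/-! # Planes with a stabiliser of order three: normal form, continued -/

namespace MP_02e52a.Cnt

open MP_02e52a.M7

variable {p : ℕ} [Fact p.Prime]

private theorem c2_three (hp : p ≠ 3) : (3 : ZMod p) ≠ 0 := by
  intro h
  have h2 : ((3 : ℕ) : ZMod p) = 0 := by exact_mod_cast h
  rw [ZMod.natCast_eq_zero_iff] at h2
  exact hp ((Nat.prime_dvd_prime_iff_eq Fact.out Nat.prime_three).1 h2)

private theorem c2_two (hp : p ≠ 2) : (2 : ZMod p) ≠ 0 := by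
  intro h
  have h2 : ((2 : ℕ) : ZMod p) = 0 := by exact_mod_cast h
  rw [ZMod.natCast_eq_zero_iff] at h2
  exact hp ((Nat.prime_dvd_prime_iff_eq Fact.out Nat.prime_two).1 h2)

private theorem c2_ne_one (h3 : p ≠ 3) (ω : ZMod p) (hω : ω ^ 2 + ω + 1 = 0) : ω ≠ 1 := by
  rintro rfl
  apply c2_three h3
  linear_combination hω

/-- [C5 C2a] PROOF: `ω ≠ 1` (`3 ≠ 0`), `ω³ = 1`, so `3` divides the order `p - 1` of the unit group (`orderOf_dvd_card`). -/
theorem mod_three (h3 : p ≠ 3) (ω : ZMod p) (hω : ω ^ 2 + ω + 1 = 0) : p % 3 = 1 := by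
  have h1 := c2_ne_one h3 ω hω
  have hc : ω ^ 3 = 1 := by linear_combination (ω - 1) * hω
  have h0 : ω ≠ 0 := by
    rintro rfl
    simp at hω
  have : Fact (Nat.Prime 3) := ⟨Nat.prime_three⟩
  have ho : orderOf ω = 3 := orderOf_eq_prime hc h1
  have hd := ZMod.orderOf_dvd_card_sub_one h0
  rw [ho] at hd
  have hp1 : 1 ≤ p := (Fact.out : p.Prime).one_lt.le
  omega

/-- [C5 C2b] PROOF: a primitive root (cyclic group of order `p - 1` divisible by `3`). -/
theorem exists_omega (h : p % 3 = 1) : ∃ ω : ZMod p, ω ^ 2 + ω + 1 = 0 := by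
  have : Fact (Nat.Prime 3) := ⟨Nat.prime_three⟩
  have hp1 : 1 ≤ p := (Fact.out : p.Prime).one_lt.le
  have hd : 3 ∣ Fintype.card (ZMod p)ˣ := by
    rw [ZMod.card_units]
    omega
  obtain ⟨x, hx⟩ := exists_prime_orderOf_dvd_card 3 hd
  have h3 : x ^ 3 = 1 := by rw [← hx]; exact pow_orderOf_eq_one x
  have h3' : (x : ZMod p) ^ 3 = 1 := by
    rw [← Units.val_pow_eq_pow_val, h3, Units.val_one]
  have hne : (x : ZMod p) ≠ 1 := by
    intro h1
    have : x = 1 := Units.ext h1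
    rw [this, orderOf_one] at hx
    norm_num at hx
  refine ⟨x, ?_⟩
  have : ((x : ZMod p) - 1) * ((x : ZMod p) ^ 2 + x + 1) = 0 := by linear_combination h3'
  exact (mul_eq_zero.1 this).resolve_left (sub_ne_zero.2 hne)

/-- [C5 C2c] PROOF: `C1a`: `tr g = 2 α`, `det g = α² - c² = 4 α²`. `p ≠ 3` because `c² = - 3 α² ≠ 0`. `ω = (c / α - 1) / 2`: `4 (ω² + ω + 1) = (c / α)² + 3 = 0`; `mod_three`. `conj_diag` gives `b` with `cj b z = (c, 0; 0, -c)`, so `cj b g = (α + c, 0; 0, α - c) = k (ω, 0; 0, 1)` with `k = α - c = - 2 ω α ≠ 0`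
(`α + c = 2 (ω + 1) α = - 2 ω² α`). Apply `C1b` to `trG b P` with `actM b h`, `actM b q` (`HH_cj`, `QQ_cj`, `actM_mul` and `cj_mul_self`). -/
theorem C2c (hp : p ≠ 2) (P : Gr p) (hP : NI P.1) (g : F2 p) (hg : St P.1 g) (hs : ¬ Sc g) :
    g.trace ^ 2 = g.det ∧ p % 3 = 1 ∧ ∃ (b : F2 p) (hb : b.det ≠ 0) (k ω e u v : ZMod p), k ≠ 0 ∧
      ω ^ 2 + ω + 1 = 0 ∧ cj b g = k • !![ω, 0; 0, 1] ∧ e ≠ 0 ∧ (u ≠ 0 ∨ v ≠ 0) ∧
      ((trG b hb P).1 = PA e u v ∨ (trG b hb P).1 = PB e u v) := by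
  have h2 := c2_two hp
  obtain ⟨α, c, z, h, q, hgz, hα, hc, hz, hzc, hc2, hh, hq, hq0, hq1, hh1, hspan⟩ :=
    C1a hp P hP g hg hs
  have h3 : p ≠ 3 := by
    rintro rfl
    apply pow_ne_zero 2 hc
    rw [hc2]
    have : (3 : ZMod 3) = 0 := rfl
    rw [neg_mul, this, zero_mul, neg_zero]
  have hzd : z.det = -c ^ 2 := by linear_combination -hzc
  have hz11 : z 1 1 = -z 0 0 := by
    rw [Matrix.trace_fin_two] at hz
    exact eq_neg_of_add_eq_zero_right hz
  have htr : g.trace = 2 * α := by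
    rw [hgz, Matrix.trace_add, Matrix.trace_smul, Matrix.trace_one, hz]
    simp
    ring
  have hdet : g.det = 4 * α ^ 2 := by
    have h1 : g.det = α ^ 2 + z.det := by
      rw [hgz, Matrix.det_fin_two, Matrix.det_fin_two]
      simp [hz11]
      ring
    rw [h1, hzd, hc2]
    ring
  obtain ⟨ω, hω⟩ : ∃ ω : ZMod p, c = (2 * ω + 1) * α :=
    ⟨(c / α - 1) / 2, by field_simp; ring⟩
  have hω2 : ω ^ 2 + ω + 1 = 0 := by
    have : (4 * α ^ 2) * (ω ^ 2 + ω + 1) = 0 := by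
      rw [hω] at hc2
      linear_combination hc2
    refine (mul_eq_zero.1 this).resolve_left (mul_ne_zero ?_ (pow_ne_zero 2 hα))
    have : (4 : ZMod p) = 2 * 2 := by norm_num
    rw [this]
    exact mul_ne_zero h2 h2
  have hω0 : ω ≠ 0 := by
    rintro rfl
    simp at hω2
  obtain ⟨b, hb, hbz⟩ := conj_diag hp z hz c hc hzc
  refine ⟨?_, mod_three h3 ω hω2, b, hb, -2 * ω * α, ω, ?_⟩
  · rw [htr, hdet]
    ring
  have hcjg : cj b g = (-2 * ω * α) • !![ω, 0; 0, 1] := by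
    rw [hgz, cj_add, cj_smul, cj_one b hb, hbz]
    ext i j
    fin_cases i <;> fin_cases j
    · simp
      linear_combination hω + 2 * α * hω2
    · simp
    · simp
    · simp
      linear_combination -hω
  have hkey : ∀ x : M6 p, actM !![c, 0; 0, -c] (actM b x) = actM b (actM z x) := by
    intro x
    rw [← hbz, ← actM_mul, cj_mul_self b hb, actM_mul]
  obtain ⟨e, u, v, he, huv, hPP⟩ := C1b hp (trG b hb P) c hc (actM b h) (actM b q)
    (by rw [← hbz, HH_cj b hb]; exact hh) (by rw [← hbz, QQ_cj b hb]; exact hq)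
    (by
      intro h0
      apply hq0
      apply actM_inj b hb
      rw [h0, map_zero])
    (Or.inl (by rw [hkey, hq1, map_smul]))
    (by
      intro k hk
      apply hh1 k
      apply actM_inj b hb
      rw [← hkey, hk, map_smul])
    (by rw [trG_val, hspan, Submodule.map_span, Set.image_pair])
  refine ⟨e, u, v, ?_, hω2, hcjg, he, huv, hPP⟩
  exact mul_ne_zero (mul_ne_zero (neg_ne_zero.2 h2) hω0) hα

/-- [C5 C2d] PROOF: `C1a` for `g = (ω, 0; 0, 1)` (not a scalar: `ω ≠ 1` because `p ≠ 3`): `z = g - α` is diagonal and traceless, `z = (c', 0; 0, -c')` with `c'² = c²`, so `c³ = ± c'³`; `C1b` with `c'`. -/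
theorem C2d (hp : p ≠ 2) (h3 : p ≠ 3) (P : Gr p) (hP : NI P.1) (ω : ZMod p) (hω : ω ^ 2 + ω + 1 = 0)
    (hg : St P.1 !![ω, 0; 0, 1]) :
    ∃ e u v : ZMod p, e ≠ 0 ∧ (u ≠ 0 ∨ v ≠ 0) ∧ (P.1 = PA e u v ∨ P.1 = PB e u v) := by
  have h1 := c2_ne_one h3 ω hω
  have hs : ¬ Sc (!![ω, 0; 0, 1] : F2 p) := by
    rintro ⟨_, _, h⟩
    simp at h
    exact h1 h
  obtain ⟨α, c, z, h, q, hgz, hα, hc, hz, hzc, hc2, hh, hq, hq0, hq1, hh1, hspan⟩ :=
    C1a hp P hP _ hg hs
  have z01 : z 0 1 = 0 := by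
    have := congrFun (congrFun hgz 0) 1
    simp at this
    exact this.symm
  have z10 : z 1 0 = 0 := by
    have := congrFun (congrFun hgz 1) 0
    simp at this
    exact this.symm
  have z11 : z 1 1 = -z 0 0 := by
    rw [Matrix.trace_fin_two] at hz
    exact eq_neg_of_add_eq_zero_right hz
  obtain ⟨c', hc'⟩ : ∃ c', z 0 0 = c' := ⟨_, rfl⟩
  have hze : z = !![c', 0; 0, -c'] := by
    ext i j
    fin_cases i <;> fin_cases j
    · exact hc'
    · exact z01
    · exact z10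
    · rw [← hc']; exact z11
  have hcc : c' ^ 2 = c ^ 2 := by
    rw [← hzc, hze, Matrix.det_fin_two]
    simp
    ring
  have hc0 : c' ≠ 0 := by
    rintro rfl
    apply pow_ne_zero 2 hc
    rw [← hcc]
    ring
  rw [hze] at hh hq hq1 hh1
  refine C1b hp P c' hc0 h q hh hq hq0 ?_ hh1 hspan
  rcases sq_eq_sq_iff_eq_or_eq_neg.1 hcc with h4 | h4
  · left
    rw [hq1, h4]
  · right
    rw [hq1, h4]
    congr 1
    ring

end MP_02e52a.Cnt
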