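import Pool.Agent.Lib.MP_02e52a_al.Cnt.C0

/-! # Stabiliser of PA -/

namespace MP_02e52a.Cnt

open MP_02e52a.M7

variable {p : ℕ} [Fact p.Prime]

private theorem c3_two (hp : p ≠ 2) : (2 : ZMod p) ≠ 0 := by
  intro h
  have h2 : ((2 : ℕ) : ZMod p) = 0 := by exact_mod_cast h
  rw [ZMod.natCast_eq_zero_iff] at h2
  exact hp ((Nat.prime_dvd_prime_iff_eq Fact.out Nat.prime_two).1 h2)

private theorem c3_three (hp : p ≠ 3) : (3 : ZMod p) ≠ 0 := by
  intro h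
  have h2 : ((3 : ℕ) : ZMod p) = 0 := by exact_mod_cast h
  rw [ZMod.natCast_eq_zero_iff] at h2
  exact hp ((Nat.prime_dvd_prime_iff_eq Fact.out Nat.prime_three).1 h2)

/-- entries of `actM` -/
private theorem c3_ent (g : F2 p) (T : M6 p) :
    actM g T 0 0 = (g 0 0 ^ 2 * T 0 0 + g 0 1 ^ 2 * T 1 0 + g 0 0 * g 0 1 * T 2 0) * g 1 1 -
      (g 0 0 ^ 2 * T 0 1 + g 0 1 ^ 2 * T 1 1 + g 0 0 * g 0 1 * T 2 1) * g 1 0 ∧
    actM g T 0 1 = (g 0 0 ^ 2 * T 0 1 + g 0 1 ^ 2 * T 1 1 + g 0 0 * g 0 1 * T 2 1) * g 0 0 -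
      (g 0 0 ^ 2 * T 0 0 + g 0 1 ^ 2 * T 1 0 + g 0 0 * g 0 1 * T 2 0) * g 0 1 ∧
    actM g T 1 0 = (g 1 0 ^ 2 * T 0 0 + g 1 1 ^ 2 * T 1 0 + g 1 0 * g 1 1 * T 2 0) * g 1 1 -
      (g 1 0 ^ 2 * T 0 1 + g 1 1 ^ 2 * T 1 1 + g 1 0 * g 1 1 * T 2 1) * g 1 0 ∧
    actM g T 1 1 = (g 1 0 ^ 2 * T 0 1 + g 1 1 ^ 2 * T 1 1 + g 1 0 * g 1 1 * T 2 1) * g 0 0 -
      (g 1 0 ^ 2 * T 0 0 + g 1 1 ^ 2 * T 1 0 + g 1 0 * g 1 1 * T 2 0) * g 0 1 ∧
    actM g T 2 0 = (2 * g 0 0 * g 1 0 * T 0 0 + 2 * g 0 1 * g 1 1 * T 1 0 +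
      (g 0 0 * g 1 1 + g 0 1 * g 1 0) * T 2 0) * g 1 1 -
      (2 * g 0 0 * g 1 0 * T 0 1 + 2 * g 0 1 * g 1 1 * T 1 1 +
      (g 0 0 * g 1 1 + g 0 1 * g 1 0) * T 2 1) * g 1 0 ∧
    actM g T 2 1 = (2 * g 0 0 * g 1 0 * T 0 1 + 2 * g 0 1 * g 1 1 * T 1 1 +
      (g 0 0 * g 1 1 + g 0 1 * g 1 0) * T 2 1) * g 0 0 -
      (2 * g 0 0 * g 1 0 * T 0 0 + 2 * g 0 1 * g 1 1 * T 1 0 +
      (g 0 0 * g 1 1 + g 0 1 * g 1 0) * T 2 0) * g 0 1 := by
  refine ⟨?_, ?_, ?_, ?_, ?_, ?_⟩ <;>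
    simp only [actM_entry, Matrix.adjugate_fin_two, M7.sq] <;> simp <;> ring

private theorem c3_mem (e u v : ZMod p) (x : M6 p) :
    x ∈ PA e u v ↔ ∃ s t : ZMod p, x = !![t * u, s; e * s, 0; 0, t * v] := by
  rw [PA, Submodule.mem_span_pair]
  refine exists_congr fun s => exists_congr fun t => ?_
  have h : s • (!![0, 1; e, 0; 0, 0] : M6 p) + t • !![u, 0; 0, 0; 0, v] =
      !![t * u, s; e * s, 0; 0, t * v] := by
    ext i j
    fin_cases i <;> fin_cases j <;> simp [mul_comm]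
  rw [h]
  exact eq_comm

private theorem c3_X (e u v : ZMod p) : (!![0, 1; e, 0; 0, 0] : M6 p) ∈ PA e u v :=
  Submodule.subset_span (by simp)

private theorem c3_Y (e u v : ZMod p) : (!![u, 0; 0, 0; 0, v] : M6 p) ∈ PA e u v :=
  Submodule.subset_span (by simp)

/-- the equations of `actM g X ∈ PA e u v` -/
private theorem c3_eqX (e u v : ZMod p) (g : F2 p) (hg : St (PA e u v) g) : ∃ s t : ZMod p,
    g 0 1 ^ 2 * e * g 1 1 - g 0 0 ^ 2 * g 1 0 = t * u ∧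
    g 0 0 ^ 3 - g 0 1 ^ 3 * e = s ∧
    g 1 1 ^ 3 * e - g 1 0 ^ 3 = e * s ∧
    g 1 0 ^ 2 * g 0 0 - g 1 1 ^ 2 * e * g 0 1 = 0 ∧
    2 * g 0 1 * g 1 1 ^ 2 * e - 2 * g 0 0 * g 1 0 ^ 2 = 0 ∧
    2 * g 0 0 ^ 2 * g 1 0 - 2 * g 0 1 ^ 2 * g 1 1 * e = t * v := by
  obtain ⟨s, t, h⟩ := (c3_mem e u v _).1 (hg.2 _ (c3_X e u v))
  obtain ⟨h1, h2, h3, h4, h5, h6⟩ := c3_ent g !![0, 1; e, 0; 0, 0]
  rw [h] at h1 h2 h3 h4 h5 h6
  simp at h1 h2 h3 h4 h5 h6
  refine ⟨s, t, ?_, ?_, ?_, ?_, ?_, ?_⟩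
  · rw [h1]
  · rw [h2]; ring
  · rw [h3]; ring
  · linear_combination -h4
  · linear_combination -h5
  · rw [h6]; ring

/-- the equations of `actM g Y ∈ PA e u v` -/
private theorem c3_eqY (e u v : ZMod p) (g : F2 p) (hg : St (PA e u v) g) : ∃ s t : ZMod p,
    g 0 0 ^ 2 * u * g 1 1 - g 0 0 * g 0 1 * v * g 1 0 = t * u ∧
    g 0 0 ^ 2 * g 0 1 * v - g 0 0 ^ 2 * g 0 1 * u = s ∧
    g 1 0 ^ 2 * u * g 1 1 - g 1 0 ^ 2 * g 1 1 * v = e * s ∧
    g 1 0 * g 1 1 * v * g 0 0 - g 1 0 ^ 2 * u * g 0 1 = 0 ∧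
    2 * g 0 0 * g 1 0 * u * g 1 1 - (g 0 0 * g 1 1 + g 0 1 * g 1 0) * v * g 1 0 = 0 ∧
    (g 0 0 * g 1 1 + g 0 1 * g 1 0) * v * g 0 0 - 2 * g 0 0 * g 1 0 * u * g 0 1 = t * v := by
  obtain ⟨s, t, h⟩ := (c3_mem e u v _).1 (hg.2 _ (c3_Y e u v))
  obtain ⟨h1, h2, h3, h4, h5, h6⟩ := c3_ent g !![u, 0; 0, 0; 0, v]
  rw [h] at h1 h2 h3 h4 h5 h6
  simp at h1 h2 h3 h4 h5 h6
  refine ⟨s, t, ?_, ?_, ?_, ?_, ?_, ?_⟩
  · rw [h1]
  · rw [h2]; ring
  · rw [h3]; ring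
  · linear_combination -h4
  · linear_combination -h5
  · rw [h6]

/-- [C5 C3a] finrank. -/
theorem finrank_PA (e u v : ZMod p) (h : u ≠ 0 ∨ v ≠ 0) : Module.finrank (ZMod p) (PA e u v) = 2 := by
  have h1 : LinearIndependent (ZMod p) ![(!![0, 1; e, 0; 0, 0] : M6 p), !![u, 0; 0, 0; 0, v]] := by
    rw [LinearIndependent.pair_iff]
    intro s t h1
    have h2 := congrFun (congrFun h1 0) 1
    have h3 := congrFun (congrFun h1 0) 0
    have h4 := congrFun (congrFun h1 2) 1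
    simp at h2 h3 h4
    refine ⟨h2, ?_⟩
    rcases h3 with h3 | h3
    · exact h3
    · rcases h4 with h4 | h4
      · exact h4
      · rcases h with h | h
        · exact absurd h3 h
        · exact absurd h4 h
  have h2 := finrank_span_eq_card h1
  rw [Fintype.card_fin, Matrix.range_cons, Matrix.range_cons, Matrix.range_empty, Set.union_empty,
    Set.singleton_union] at h2
  exact h2

/-- [C5 C3b] PROOF. Let `g = (a, b; c, d)`, `X = (0, 1; e, 0; 0, 0)`. The contraction `κ (T) = (T00 + T21 / 2, T11 + T20 / 2)` satisfies `κ (actM g T) = det g • g κ (T)` (entries, `ring`). `κ X = 0`, `κ (u E00 + v E21) = ((2 u + v) / 2, 0) ≠ 0`. So `κ` maps `PA` onto the line of `e0`, and `g` preserves this line: `c = 0`; and `actM g X ∈ PA ⊓ ker κ = F X`.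
With `c = 0`: `actM g X = (e b² d, a³ - e b³; e d³, - e b d²; 2 e b d², - 2 e b² d)`; entry `T20` gives `b = 0` (`d ≠ 0`, `e ≠ 0`, `p ≠ 2`), and then `T10 = e T01` gives `a³ = d³`. -/
theorem St_PA1 (hp : p ≠ 2) (e u v : ZMod p) (he : e ≠ 0) (huv : 2 * u + v ≠ 0) (g : F2 p)
    (hg : St (PA e u v) g) : g 0 1 = 0 ∧ g 1 0 = 0 ∧ g 0 0 ^ 3 = g 1 1 ^ 3 := by
  have h2 := c3_two hp
  obtain ⟨s, t, x1, x2, x3, x4, x5, x6⟩ := c3_eqX e u v g hg
  obtain ⟨s', t', y1, y2, y3, y4, y5, y6⟩ := c3_eqY e u v g hg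
  have hd := hg.1
  rw [Matrix.det_fin_two] at hd
  have hc : g 1 0 = 0 := by
    have : (g 0 0 * g 1 1 - g 0 1 * g 1 0) * (2 * u + v) * g 1 0 = 0 := by
      linear_combination 2 * y4 + y5
    rcases mul_eq_zero.1 this with h | h
    · exact absurd h (mul_ne_zero hd huv)
    · exact h
  rw [hc] at hd x1 x3 x4 x5 x6
  have hd' : g 1 1 ≠ 0 := by
    rintro h
    rw [h] at hd
    simp at hd
  have hb : g 0 1 = 0 := by
    have : (g 1 1 ^ 2 * e) * g 0 1 = 0 := by linear_combination -x4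
    rcases mul_eq_zero.1 this with h | h
    · exact absurd h (mul_ne_zero (pow_ne_zero 2 hd') he)
    · exact h
  refine ⟨hb, hc, ?_⟩
  rw [hb] at x2
  have : e * (g 0 0 ^ 3 - g 1 1 ^ 3) = 0 := by linear_combination e * x2 - x3
  rcases mul_eq_zero.1 this with h | h
  · exact absurd h he
  · exact sub_eq_zero.1 h

/-- [C5 C3c] PROOF. Let `g = (a, b; c, d)`, `Y = E00 - 2 E21` (we may take `u = 1`). `actM g Y = (a² d + 2 a b c, - 3 a² b; 3 c² d, - b c² - 2 a c d; 4 a c d + 2 b c², - 4 a b c - 2 a² d) ∈ span {X, Y}` gives `T11 = 0`: `c (b c + 2 a d) = 0`, and `T10 = e T01`: `c² d = - e a² b` (`p ≠ 3`). If `c = 0`: `a ≠ 0`, so `b = 0`. If `c ≠ 0`: `b c = - 2 a d`, so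
`c³ d = - e a² b c = 2 e a³ d`. If `d = 0` then `b = 0`, `det g = 0`, impossible. So `c³ = 2 e a³`, `a ≠ 0` and `2 e = (c / a)³`, excluded. Hence `b = c = 0` and `actM g X = (0, a³; e d³, 0; 0, 0)` gives `a³ = d³`. -/
theorem St_PA2 (hp : p ≠ 2) (h3 : p ≠ 3) (e u : ZMod p) (he : e ≠ 0) (hu : u ≠ 0)
    (hk : ∀ k : ZMod p, 2 * e ≠ k ^ 3) (g : F2 p)
    (hg : St (PA e u (-2 * u)) g) : g 0 1 = 0 ∧ g 1 0 = 0 ∧ g 0 0 ^ 3 = g 1 1 ^ 3 := by
  have h2 := c3_two hp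
  have h3' := c3_three h3
  obtain ⟨s, t, x1, x2, x3, x4, x5, x6⟩ := c3_eqX e u _ g hg
  obtain ⟨s', t', y1, y2, y3, y4, y5, y6⟩ := c3_eqY e u _ g hg
  have hd := hg.1
  rw [Matrix.det_fin_two] at hd
  have e1 : g 1 0 * (g 0 1 * g 1 0 + 2 * g 0 0 * g 1 1) = 0 := by
    have : u * (g 1 0 * (g 0 1 * g 1 0 + 2 * g 0 0 * g 1 1)) = 0 := by linear_combination -y4
    exact (mul_eq_zero.1 this).resolve_left hu
  have e2 : g 1 0 ^ 2 * g 1 1 = -e * g 0 0 ^ 2 * g 0 1 := by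
    have : (3 * u) * (g 1 0 ^ 2 * g 1 1 + e * g 0 0 ^ 2 * g 0 1) = 0 := by
      linear_combination y3 - e * y2
    have := (mul_eq_zero.1 this).resolve_left (mul_ne_zero h3' hu)
    linear_combination this
  have hc : g 1 0 = 0 := by
    by_contra hc
    have e3 := (mul_eq_zero.1 e1).resolve_left hc
    have hd' : g 1 1 ≠ 0 := by
      intro h
      rw [h] at e3 hd
      have : g 0 1 * g 1 0 = 0 := by linear_combination e3
      rw [this] at hd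
      simp at hd
    have e4 : g 1 0 ^ 3 = 2 * e * g 0 0 ^ 3 := by
      have : g 1 1 * (g 1 0 ^ 3 - 2 * e * g 0 0 ^ 3) = 0 := by
        linear_combination g 1 0 * e2 - e * g 0 0 ^ 2 * e3
      have := (mul_eq_zero.1 this).resolve_left hd'
      linear_combination this
    have ha : g 0 0 ≠ 0 := by
      intro h
      rw [h] at e4
      simp at e4
      exact hc e4
    apply hk (g 1 0 / g 0 0)
    rw [div_pow, e4, mul_div_assoc, div_self (pow_ne_zero 3 ha), mul_one]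
  rw [hc] at hd x1 x3 x4 x5 x6 e2
  have ha : g 0 0 ≠ 0 := by
    intro h
    rw [h] at hd
    simp at hd
  have hb : g 0 1 = 0 := by
    have : (e * g 0 0 ^ 2) * g 0 1 = 0 := by linear_combination e2
    exact (mul_eq_zero.1 this).resolve_left (mul_ne_zero he (pow_ne_zero 2 ha))
  refine ⟨hb, hc, ?_⟩
  rw [hb] at x2
  have : e * (g 0 0 ^ 3 - g 1 1 ^ 3) = 0 := by linear_combination e * x2 - x3
  rcases mul_eq_zero.1 this with h | h
  · exact absurd h he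
  · exact sub_eq_zero.1 h

/-- stability under `actM g` from the generators -/
private theorem c3_st (e u v : ZMod p) (g : F2 p) (hd : g.det ≠ 0)
    (hX : actM g !![0, 1; e, 0; 0, 0] ∈ PA e u v) (hY : actM g !![u, 0; 0, 0; 0, v] ∈ PA e u v) :
    St (PA e u v) g := by
  refine ⟨hd, fun x hx => ?_⟩
  rw [PA, Submodule.mem_span_pair] at hx
  obtain ⟨s, t, rfl⟩ := hx
  rw [map_add, map_smul, map_smul]
  exact Submodule.add_mem _ (Submodule.smul_mem _ _ hX) (Submodule.smul_mem _ _ hY)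

/-- [C5 C3d] PROOF: `g = (1, 2 / k; k, -1)` (trace `0`, `det = -3 ≠ 0`; `k ≠ 0` as `k³ = 2 e ≠ 0`): with `X = (0, 1; e, 0; 0, 0)`, `Y = (1, 0; 0, 0; 0, -2)`: `actM g X = - 3 X - 3 k Y`, `actM g Y = (-5 + ... )` (compute: by the formula of `St_PA2` with `a = 1, b = 2 / k, c = k, d = -1`: `T00 = -1 + 4 = 3`, `T01 = - 6 / k`, `T10 = - 3 k² = e T01`, `T11 = 0`, `T20 = 0`,
`T21 = - 8 + 2 = - 6`), i.e. `actM g Y = 3 Y - (6 / k) X`. -/
theorem JJ_PA (hp : p ≠ 2) (h3 : p ≠ 3) (e u k : ZMod p) (he : e ≠ 0) (hu : u ≠ 0) (hk : 2 * e = k ^ 3) :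
    (JJ (PA e u (-2 * u))).Nonempty := by
  have h2 := c3_two hp
  have h3' := c3_three h3
  have hk0 : k ≠ 0 := by
    rintro rfl
    have : 2 * e = 0 := by rw [hk]; ring
    exact (mul_ne_zero h2 he) this
  have he' : e = k ^ 3 / 2 := by field_simp; linear_combination hk
  refine ⟨!![1, 2 / k; k, -1], ?_, c3_st _ _ _ _ ?_ ?_ ?_⟩
  · simp [Matrix.trace_fin_two]
  · rw [Matrix.det_fin_two]
    simp
    have : (-1 : ZMod p) - 2 / k * k = -3 := by field_simp; ring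
    rw [this]
    exact neg_ne_zero.2 h3'
  · rw [c3_mem]
    refine ⟨-3, -3 * k / u, ?_⟩
    obtain ⟨h1, h2, h3, h4, h5, h6⟩ := c3_ent (!![1, 2 / k; k, -1] : F2 p) !![0, 1; e, 0; 0, 0]
    ext i j
    fin_cases i <;> fin_cases j
    · refine h1.trans ?_
      simp [he']; field_simp; ring
    · refine h2.trans ?_
      simp [he']; field_simp; ring
    · refine h3.trans ?_
      simp [he']; field_simp; ring
    · refine h4.trans ?_
      simp [he']; field_simp; ring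
    · refine h5.trans ?_
      simp [he']; field_simp; ring
    · refine h6.trans ?_
      simp [he']; field_simp; ring
  · rw [c3_mem]
    refine ⟨-6 / k * u, 3, ?_⟩
    obtain ⟨h1, h2, h3, h4, h5, h6⟩ := c3_ent (!![1, 2 / k; k, -1] : F2 p) !![u, 0; 0, 0; 0, -2 * u]
    ext i j
    fin_cases i <;> fin_cases j
    · refine h1.trans ?_
      simp [he']; field_simp; ring
    · refine h2.trans ?_
      simp [he']; field_simp; ring
    · refine h3.trans ?_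
      simp [he']; field_simp; ring
    · refine h4.trans ?_
      simp [he']; field_simp; ring
    · refine h5.trans ?_
      simp [he']; field_simp; ring
    · refine h6.trans ?_
      simp [he']; field_simp; ring

/-- [C5 C3e] PROOF: `actM (a, 0; 0, d)` is diagonal: `E01: a³, E10: d³, E00: a² d, E21: a² d`. -/
theorem St_PA_diag (e u v a d : ZMod p) (ha : a ≠ 0) (h : a ^ 3 = d ^ 3) : St (PA e u v) !![a, 0; 0, d] := by
  have hd : d ≠ 0 := by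
    rintro rfl
    simp at h
    exact ha h
  refine c3_st _ _ _ _ ?_ ?_ ?_
  · rw [Matrix.det_fin_two]
    simp [ha, hd]
  · rw [c3_mem]
    refine ⟨a ^ 3, 0, ?_⟩
    obtain ⟨h1, h2, h3, h4, h5, h6⟩ := c3_ent (!![a, 0; 0, d] : F2 p) !![0, 1; e, 0; 0, 0]
    ext i j
    fin_cases i <;> fin_cases j
    · refine h1.trans ?_
      simp
    · refine h2.trans ?_
      simp; ring
    · refine h3.trans ?_
      simp [h]; ring
    · refine h4.trans ?_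
      simp
    · refine h5.trans ?_
      simp
    · refine h6.trans ?_
      simp
  · rw [c3_mem]
    refine ⟨0, a ^ 2 * d, ?_⟩
    obtain ⟨h1, h2, h3, h4, h5, h6⟩ := c3_ent (!![a, 0; 0, d] : F2 p) !![u, 0; 0, 0; 0, v]
    ext i j
    fin_cases i <;> fin_cases j
    · refine h1.trans ?_
      simp; ring
    · refine h2.trans ?_
      simp
    · refine h3.trans ?_
      simp
    · refine h4.trans ?_
      simp
    · refine h5.trans ?_
      simp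
    · refine h6.trans ?_
      simp; ring

end MP_02e52a.Cnt
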