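import Pool.Agent.Lib.MP_02e52a_al.Cnt.C3

/-! # Stabiliser of PA and PB -/

namespace MP_02e52a.Cnt

open MP_02e52a.M7

variable {p : ℕ} [Fact p.Prime]

private theorem c4_two (hp : p ≠ 2) : (2 : ZMod p) ≠ 0 := by
  intro h
  have h2 : ((2 : ℕ) : ZMod p) = 0 := by exact_mod_cast h
  rw [ZMod.natCast_eq_zero_iff] at h2
  exact hp ((Nat.prime_dvd_prime_iff_eq Fact.out Nat.prime_two).1 h2)

private theorem c4_NI (hp : p ≠ 2) (P : Submodule (ZMod p) (M6 p))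
    (H : ∀ g, St P g → g 0 1 = 0 ∧ g 1 0 = 0 ∧ g 0 0 ^ 3 = g 1 1 ^ 3) : NI P := by
  have h2 := c4_two hp
  constructor
  · rintro ⟨s, hs, hs'⟩
    obtain ⟨h01, h10, h3⟩ := H s hs'
    rw [Matrix.trace_fin_two] at hs
    have hd := hs'.1
    rw [Matrix.det_fin_two, h01] at hd
    have h11 : s 1 1 = -s 0 0 := eq_neg_of_add_eq_zero_right hs
    rw [h11] at h3
    have : 2 * s 0 0 ^ 3 = 0 := by linear_combination h3
    have h00 : s 0 0 = 0 := by
      have := (mul_eq_zero.1 this).resolve_left h2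
      exact pow_eq_zero_iff (by norm_num) |>.1 this
    rw [h00] at hd
    simp at hd
  · rintro ⟨n, hn0, hn, hn'⟩
    obtain ⟨h01, h10, _⟩ := H _ hn'
    simp at h01 h10
    apply hn0
    have h00 : n 0 0 = 0 := by
      have := congrFun (congrFun hn 0) 0
      simp [Matrix.mul_apply, h01] at this
      exact this
    have h11 : n 1 1 = 0 := by
      have := congrFun (congrFun hn 1) 1
      simp [Matrix.mul_apply, h10] at this
      exact this
    ext i j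
    fin_cases i <;> fin_cases j
    · exact h00
    · exact h01
    · exact h10
    · exact h11

private theorem c4_cases (hp : p ≠ 2) (h3 : p ≠ 3) (e u v : ZMod p) (he : e ≠ 0)
    (huv : u ≠ 0 ∨ v ≠ 0) (h : 2 * u + v ≠ 0 ∨ ∀ k : ZMod p, 2 * e ≠ k ^ 3) (g : F2 p)
    (hg : St (PA e u v) g) : g 0 1 = 0 ∧ g 1 0 = 0 ∧ g 0 0 ^ 3 = g 1 1 ^ 3 := by
  by_cases h1 : 2 * u + v = 0
  · have hk := h.resolve_left (not_not.2 h1)
    have hv : v = -2 * u := by linear_combination h1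
    subst hv
    have hu : u ≠ 0 := by
      rintro rfl
      simp at huv
    exact St_PA2 hp h3 e u he hu hk g hg
  · exact St_PA1 hp e u v he h1 g hg

/-- [C5 C4a] PROOF: (→) if `2 u + v = 0` then `u ≠ 0`, `v = - 2 u`, and `JJ_PA` excludes `2 e = k³`. (←) `St_PA1` / `St_PA2`: an element of `JJ` would be `(a, 0; 0, -a)` with `a³ = - a³`, so `a = 0`; an element `n` of `KK`: `1 + n` is diagonal, so `n` is diagonal and nilpotent, `n = 0`. -/
theorem NI_PA (hp : p ≠ 2) (h3 : p ≠ 3) (e u v : ZMod p) (he : e ≠ 0) (huv : u ≠ 0 ∨ v ≠ 0) :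
    NI (PA e u v) ↔ (2 * u + v ≠ 0 ∨ ∀ k : ZMod p, 2 * e ≠ k ^ 3) := by
  constructor
  · intro h
    by_contra hc
    push Not at hc
    obtain ⟨h1, k, hk⟩ := hc
    have hv : v = -2 * u := by linear_combination h1
    subst hv
    have hu : u ≠ 0 := by
      rintro rfl
      simp at huv
    exact h.1 (JJ_PA hp h3 e u k he hu hk)
  · intro h
    exact c4_NI hp _ (c4_cases hp h3 e u v he huv h)

/-- [C5 C4b] PROOF: `St_PA1`, `St_PA2`, `St_PA_diag` (`NI_PA` tells which case). -/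
theorem St_PA (hp : p ≠ 2) (h3 : p ≠ 3) (e u v : ZMod p) (he : e ≠ 0) (huv : u ≠ 0 ∨ v ≠ 0)
    (h : NI (PA e u v)) (g : F2 p) :
    St (PA e u v) g ↔ g 0 1 = 0 ∧ g 1 0 = 0 ∧ g 0 0 ≠ 0 ∧ g 0 0 ^ 3 = g 1 1 ^ 3 := by
  constructor
  · intro hg
    obtain ⟨h01, h10, h4⟩ := c4_cases hp h3 e u v he huv ((NI_PA hp h3 e u v he huv).1 h) g hg
    refine ⟨h01, h10, ?_, h4⟩
    intro h00
    have hd := hg.1
    rw [Matrix.det_fin_two, h01, h00] at hd
    simp at hd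
  · rintro ⟨h01, h10, h00, h4⟩
    have e1 : g = !![g 0 0, 0; 0, g 1 1] := by
      ext i j
      fin_cases i <;> fin_cases j
      · rfl
      · exact h01
      · exact h10
      · rfl
    rw [e1]
    exact St_PA_diag e u v _ _ h00 h4

/-- [C5 C4c] PROOF: with `w = (0, 1; 1, 0)`: `actM w`: `E01 ↦ - E10, E10 ↦ - E01, E00 ↦ - E11, E11 ↦ - E00, E20 ↦ - E21, E21 ↦ - E20`. -/
theorem PB_eq (e u v : ZMod p) (he : e ≠ 0) : (PA e⁻¹ u v).map (actM !![0, 1; 1, 0]) = PB e u v := by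
  have h1 : actM !![0, 1; 1, 0] (!![0, 1; e⁻¹, 0; 0, 0] : M6 p) =
      (-e⁻¹) • !![0, 1; e, 0; 0, 0] := by
    ext i j
    rw [actM_entry]
    fin_cases i <;> fin_cases j <;> simp [M7.sq, Matrix.adjugate_fin_two, he]
  have h2 : actM !![0, 1; 1, 0] (!![u, 0; 0, 0; 0, v] : M6 p) = (-1 : ZMod p) • !![0, 0; 0, u; v, 0] := by
    ext i j
    rw [actM_entry]
    fin_cases i <;> fin_cases j <;> simp [M7.sq, Matrix.adjugate_fin_two]
  ext x
  rw [PA, PB, Submodule.map_span, Set.image_pair, h1, h2, Submodule.mem_span_pair,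
    Submodule.mem_span_pair]
  constructor
  · rintro ⟨s, t, rfl⟩
    exact ⟨s * (-e⁻¹), t * (-1), by rw [smul_smul, smul_smul]⟩
  · rintro ⟨s, t, rfl⟩
    refine ⟨s * (-e), t * (-1), ?_⟩
    rw [smul_smul, smul_smul]
    congr 2
    · field_simp
    · ring

/-- [C5 C4d] PROOF: from `PB_eq` by transport (`JJ_cj`, `KK_cj`, `St_trG` with `b = w`), `NI (PB e u v) ↔ NI (PA e⁻¹ u v)`, and `(a, 0; 0, d) w = w (d, 0; 0, a)`. -/
theorem St_PB (hp : p ≠ 2) (h3 : p ≠ 3) (e u v : ZMod p) (he : e ≠ 0) (huv : u ≠ 0 ∨ v ≠ 0)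
    (h : NI (PB e u v)) (g : F2 p) :
    St (PB e u v) g ↔ g 0 1 = 0 ∧ g 1 0 = 0 ∧ g 0 0 ≠ 0 ∧ g 0 0 ^ 3 = g 1 1 ^ 3 := by
  have hw : (!![0, 1; 1, 0] : F2 p).det ≠ 0 := by
    rw [Matrix.det_fin_two]
    simp
  let Q : Gr p := ⟨PA e⁻¹ u v, finrank_PA _ _ _ huv⟩
  have hQ : (trG _ hw Q).1 = PB e u v := by
    rw [trG_val]
    exact PB_eq e u v he
  have hNI : NI Q.1 := by
    constructor
    · rw [← JJ_nonempty_trG _ hw Q, hQ]
      exact h.1
    · rw [← KK_nonempty_trG _ hw Q, hQ]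
      exact h.2
  have hs : (g * !![0, 1; 1, 0] : F2 p) = !![0, 1; 1, 0] * !![g 1 1, g 1 0; g 0 1, g 0 0] := by
    ext i j
    fin_cases i <;> fin_cases j <;> simp [Matrix.mul_apply]
  rw [← hQ, St_trG _ hw Q _ g hs, St_PA hp h3 e⁻¹ u v (inv_ne_zero he) huv hNI]
  simp only [Matrix.of_apply, Matrix.cons_val', Matrix.cons_val_zero, Matrix.cons_val_one,
    Matrix.cons_val_fin_one]
  constructor
  · rintro ⟨h1, h2, h4, h5⟩
    refine ⟨h2, h1, ?_, h5.symm⟩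
    intro h0
    rw [h0] at h5
    exact h4 (pow_eq_zero_iff (n := 3) (by norm_num) |>.1 (by rw [h5]; ring))
  · rintro ⟨h1, h2, h4, h5⟩
    refine ⟨h2, h1, ?_, h5.symm⟩
    intro h0
    rw [h0] at h5
    exact h4 (pow_eq_zero_iff (n := 3) (by norm_num) |>.1 (by rw [h5]; ring))

end MP_02e52a.Cnt
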