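import Pool.Agent.Lib.MP_02e52a_al.Cnt.C2
import Pool.Agent.Lib.MP_02e52a_al.Cnt.C4

/-! # Counting the planes with a stabiliser of order three -/

namespace MP_02e52a.Cnt

open MP_02e52a.M7

variable {p : ℕ} [Fact p.Prime]

private theorem c5_mem_PA (e u v : ZMod p) (x : M6 p) :
    x ∈ PA e u v ↔ ∃ a b : ZMod p, x = !![b * u, a; a * e, 0; 0, b * v] := by
  rw [PA, Submodule.mem_span_pair]
  constructor
  · rintro ⟨a, b, rfl⟩
    refine ⟨a, b, ?_⟩
    ext i j
    fin_cases i <;> fin_cases j <;> simp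
  · rintro ⟨a, b, rfl⟩
    refine ⟨a, b, ?_⟩
    ext i j
    fin_cases i <;> fin_cases j <;> simp

private theorem c5_mem_PB (e u v : ZMod p) (x : M6 p) :
    x ∈ PB e u v ↔ ∃ a b : ZMod p, x = !![0, a; a * e, b * u; b * v, 0] := by
  rw [PB, Submodule.mem_span_pair]
  constructor
  · rintro ⟨a, b, rfl⟩
    refine ⟨a, b, ?_⟩
    ext i j
    fin_cases i <;> fin_cases j <;> simp
  · rintro ⟨a, b, rfl⟩
    refine ⟨a, b, ?_⟩
    ext i j
    fin_cases i <;> fin_cases j <;> simp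

/-- the first coordinate of a point of the projective line -/
private def c5u : Option (ZMod p) → ZMod p
  | none => 0
  | some _ => 1

/-- the second coordinate of a point of the projective line -/
private def c5v : Option (ZMod p) → ZMod p
  | none => 1
  | some v => v

private theorem c5_ne (o : Option (ZMod p)) : c5u o ≠ 0 ∨ c5v o ≠ 0 := by
  cases o with
  | none => exact Or.inr one_ne_zero
  | some v => exact Or.inl one_ne_zero

private theorem c5_inj (o o' : Option (ZMod p)) (b : ZMod p) (h1 : c5u o = b * c5u o')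
    (h2 : c5v o = b * c5v o') : o = o' := by
  cases o with
  | none =>
    cases o' with
    | none => rfl
    | some v =>
      simp only [c5u, c5v, mul_one] at h1 h2
      rw [← h1, zero_mul] at h2
      exact absurd h2 one_ne_zero
  | some w =>
    cases o' with
    | none =>
      simp only [c5u, mul_zero] at h1
      exact absurd h1 one_ne_zero
    | some v =>
      simp only [c5u, c5v, mul_one] at h1 h2
      rw [← h1, one_mul] at h2
      rw [h2]

private theorem c5_normA (e u v c : ZMod p) (hc : c ≠ 0) : PA e (c * u) (c * v) = PA e u v := by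
  ext x
  rw [c5_mem_PA, c5_mem_PA]
  constructor
  · rintro ⟨a, b, rfl⟩
    exact ⟨a, b * c, by simp only [mul_assoc]⟩
  · rintro ⟨a, b, rfl⟩
    refine ⟨a, b * c⁻¹, ?_⟩
    have h : ∀ t : ZMod p, b * c⁻¹ * (c * t) = b * t := by
      intro t
      field_simp
    rw [h, h]

private theorem c5_normB (e u v c : ZMod p) (hc : c ≠ 0) : PB e (c * u) (c * v) = PB e u v := by
  ext x
  rw [c5_mem_PB, c5_mem_PB]
  constructor
  · rintro ⟨a, b, rfl⟩
    exact ⟨a, b * c, by simp only [mul_assoc]⟩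
  · rintro ⟨a, b, rfl⟩
    refine ⟨a, b * c⁻¹, ?_⟩
    have h : ∀ t : ZMod p, b * c⁻¹ * (c * t) = b * t := by
      intro t
      field_simp
    rw [h, h]

private theorem c5_norm (u v : ZMod p) (h : u ≠ 0 ∨ v ≠ 0) :
    ∃ (o : Option (ZMod p)) (c : ZMod p), c ≠ 0 ∧ u = c * c5u o ∧ v = c * c5v o := by
  by_cases hu : u = 0
  · have hv : v ≠ 0 := by
      rcases h with h | h
      · exact absurd hu h
      · exact h
    exact ⟨none, v, hv, by simp [c5u, hu], by simp [c5v]⟩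
  · refine ⟨some (v / u), u, hu, by simp [c5u], ?_⟩
    simp only [c5v]
    field_simp

private theorem c5_wdet : (!![0, 1; 1, 0] : F2 p).det ≠ 0 := by
  rw [Matrix.det_fin_two_of]
  simp

/-- the planes `PA` -/
private noncomputable def c5A (t : (ZMod p)ˣ × Option (ZMod p)) : Gr p :=
  ⟨PA (t.1 : ZMod p) (c5u t.2) (c5v t.2), finrank_PA _ _ _ (c5_ne t.2)⟩

/-- the planes `PB` -/
private noncomputable def c5B (t : (ZMod p)ˣ × Option (ZMod p)) : Gr p :=
  trG !![0, 1; 1, 0] c5_wdet (c5A t)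

private theorem c5B_val (t : (ZMod p)ˣ × Option (ZMod p)) :
    (c5B t).1 = PB ((t.1⁻¹ : (ZMod p)ˣ) : ZMod p) (c5u t.2) (c5v t.2) := by
  rw [← PB_eq _ _ _ (Units.ne_zero _)]
  unfold c5B c5A
  rw [trG_val, Units.val_inv_eq_inv_val, inv_inv]

private theorem c5A_inj : Function.Injective (c5A (p := p)) := by
  rintro ⟨e, o⟩ ⟨e', o'⟩ h
  have h0 : PA (e : ZMod p) (c5u o) (c5v o) = PA (e' : ZMod p) (c5u o') (c5v o') :=
    congrArg Subtype.val h
  have h1 : (!![0 * c5u o, 1; 1 * (e : ZMod p), 0; 0, 0 * c5v o] : M6 p) ∈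
      PA (e' : ZMod p) (c5u o') (c5v o') := by
    rw [← h0, c5_mem_PA]
    exact ⟨1, 0, rfl⟩
  have h2 : (!![1 * c5u o, 0; 0 * (e : ZMod p), 0; 0, 1 * c5v o] : M6 p) ∈
      PA (e' : ZMod p) (c5u o') (c5v o') := by
    rw [← h0, c5_mem_PA]
    exact ⟨0, 1, rfl⟩
  rw [c5_mem_PA] at h1 h2
  obtain ⟨a, b, h1⟩ := h1
  obtain ⟨a', b', h2⟩ := h2
  have e1 : (1 : ZMod p) = a := congrFun (congrFun h1 0) 1
  have e2 : 1 * (e : ZMod p) = a * (e' : ZMod p) := congrFun (congrFun h1 1) 0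
  have e3 : 1 * c5u o = b' * c5u o' := congrFun (congrFun h2 0) 0
  have e4 : 1 * c5v o = b' * c5v o' := congrFun (congrFun h2 2) 1
  rw [← e1, one_mul, one_mul] at e2
  rw [one_mul] at e3 e4
  have he : e = e' := Units.ext e2
  have ho : o = o' := c5_inj o o' b' e3 e4
  rw [he, ho]

private theorem c5B_inj : Function.Injective (c5B (p := p)) :=
  (trG !![0, 1; 1, 0] c5_wdet).injective.comp c5A_inj

private theorem c5_disj (s t : (ZMod p)ˣ × Option (ZMod p)) : c5A s ≠ c5B t := by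
  intro h
  have h0 : PA (s.1 : ZMod p) (c5u s.2) (c5v s.2) =
      PB ((t.1⁻¹ : (ZMod p)ˣ) : ZMod p) (c5u t.2) (c5v t.2) := by
    rw [← c5B_val, ← h]
    rfl
  have h2 : (!![1 * c5u s.2, 0; 0 * (s.1 : ZMod p), 0; 0, 1 * c5v s.2] : M6 p) ∈
      PB ((t.1⁻¹ : (ZMod p)ˣ) : ZMod p) (c5u t.2) (c5v t.2) := by
    rw [← h0, c5_mem_PA]
    exact ⟨0, 1, rfl⟩
  rw [c5_mem_PB] at h2
  obtain ⟨a, b, h2⟩ := h2
  have e3 : 1 * c5u s.2 = 0 := congrFun (congrFun h2 0) 0
  have e4 : 1 * c5v s.2 = 0 := congrFun (congrFun h2 2) 1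
  rw [one_mul] at e3 e4
  rcases c5_ne s.2 with h | h
  · exact h e3
  · exact h e4

private theorem c5_NI_trG (b : F2 p) (hb : b.det ≠ 0) (P : Gr p) :
    NI (trG b hb P).1 ↔ NI P.1 := by
  unfold NI
  rw [JJ_nonempty_trG, KK_nonempty_trG]

private theorem c5_omega (ω : ZMod p) (hω : ω ^ 2 + ω + 1 = 0) : ω ≠ 0 ∧ ω ^ 3 = 1 := by
  constructor
  · rintro rfl
    simp at hω
  · linear_combination (ω - 1) * hω

/-- the set of the planes -/
private theorem c5_set (hp : p ≠ 2) (h3 : p ≠ 3) (ω : ZMod p) (hω : ω ^ 2 + ω + 1 = 0) :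
    {P : Gr p | NI P.1 ∧ St P.1 !![ω, 0; 0, 1]} =
      c5A '' {t | NI (c5A t).1} ∪ c5B '' {t | NI (c5A t).1} := by
  obtain ⟨hω0, hω3⟩ := c5_omega ω hω
  ext P
  simp only [Set.mem_ofPred_eq, Set.mem_union, Set.mem_image]
  constructor
  · rintro ⟨hP, hS⟩
    obtain ⟨e, u, v, he, huv, h⟩ := C2d hp h3 P hP ω hω hS
    obtain ⟨o, c, hc, rfl, rfl⟩ := c5_norm u v huv
    rcases h with h | h
    · left
      rw [c5_normA _ _ _ _ hc] at h
      have h5 : c5A (Units.mk0 e he, o) = P := Subtype.ext h.symm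
      exact ⟨(Units.mk0 e he, o), by rw [h5]; exact hP, h5⟩
    · right
      rw [c5_normB _ _ _ _ hc] at h
      have h5 : c5B ((Units.mk0 e he)⁻¹, o) = P := by
        apply Subtype.ext
        rw [c5B_val, h]
        simp
      refine ⟨((Units.mk0 e he)⁻¹, o), ?_, h5⟩
      rw [← c5_NI_trG !![0, 1; 1, 0] c5_wdet]
      change NI (c5B _).1
      rw [h5]
      exact hP
  · rintro (⟨t, ht, rfl⟩ | ⟨t, ht, rfl⟩)
    · refine ⟨ht, ?_⟩
      have h5 := St_PA hp h3 (t.1 : ZMod p) (c5u t.2) (c5v t.2) (Units.ne_zero _) (c5_ne _) ht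
        !![ω, 0; 0, 1]
      exact h5.2 ⟨rfl, rfl, hω0, by simpa using hω3⟩
    · have ht' : NI (c5B t).1 := (c5_NI_trG _ _ _).2 ht
      refine ⟨ht', ?_⟩
      rw [c5B_val] at ht' ⊢
      have h5 := St_PB hp h3 ((t.1⁻¹ : (ZMod p)ˣ) : ZMod p) (c5u t.2) (c5v t.2) (Units.ne_zero _)
        (c5_ne _) ht' !![ω, 0; 0, 1]
      exact h5.2 ⟨rfl, rfl, hω0, by simpa using hω3⟩

/-- the number of the cubes -/
private theorem c5_cubes (h : p % 3 = 1) :
    3 * Nat.card (powMonoidHom 3 : (ZMod p)ˣ →* (ZMod p)ˣ).range = p - 1 := by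
  have hp := (Fact.out : p.Prime).two_le
  rw [IsCyclic.card_powMonoidHom_range]
  have h1 : Nat.card (ZMod p)ˣ = p - 1 := by
    rw [Nat.card_eq_fintype_card, ZMod.card_units]
  rw [h1]
  have h2 : 3 ∣ p - 1 := by omega
  rw [Nat.gcd_eq_right h2]
  omega

/-- the number of the excluded parameters -/
private theorem c5_excl (hp : p ≠ 2) (h3 : p ≠ 3) (h : p % 3 = 1) :
    3 * ({t : (ZMod p)ˣ × Option (ZMod p) | ¬ NI (c5A t).1}).ncard = p - 1 := by
  have h2 : (2 : ZMod p) ≠ 0 := by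
    intro h0
    have h1 : ((2 : ℕ) : ZMod p) = 0 := by exact_mod_cast h0
    rw [ZMod.natCast_eq_zero_iff] at h1
    exact hp ((Nat.prime_dvd_prime_iff_eq Fact.out Nat.prime_two).1 h1)
  let c : (ZMod p)ˣ := Units.mk0 2 h2
  rw [← c5_cubes h]
  congr 1
  have h5 : {t : (ZMod p)ˣ × Option (ZMod p) | ¬ NI (c5A t).1} =
      (fun x : (ZMod p)ˣ => ((c⁻¹ * x, some (-2)) : (ZMod p)ˣ × Option (ZMod p))) ''
        ((powMonoidHom 3 : (ZMod p)ˣ →* (ZMod p)ˣ).range : Set (ZMod p)ˣ) := by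
    ext ⟨e, o⟩
    simp only [Set.mem_ofPred_eq, Set.mem_image, SetLike.mem_coe, MonoidHom.mem_range,
      powMonoidHom_apply, Prod.mk.injEq]
    have h6 := NI_PA hp h3 (e : ZMod p) (c5u o) (c5v o) (Units.ne_zero _) (c5_ne _)
    change (¬ NI (PA (e : ZMod p) (c5u o) (c5v o))) ↔ _
    rw [h6]
    push Not
    constructor
    · rintro ⟨h7, k, hk⟩
      have hk0 : k ≠ 0 := by
        rintro rfl
        rw [zero_pow (by norm_num)] at hk
        exact (mul_ne_zero h2 (Units.ne_zero e)) hk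
      refine ⟨c * e, ⟨Units.mk0 k hk0, ?_⟩, ?_, ?_⟩
      · apply Units.ext
        simp only [Units.val_pow_eq_pow_val, Units.val_mk0, Units.val_mul, c]
        exact hk.symm
      · rw [inv_mul_cancel_left]
      · cases o with
        | none =>
          simp [c5u, c5v] at h7
        | some v =>
          simp only [c5u, c5v, mul_one] at h7
          congr 1
          linear_combination -h7
    · rintro ⟨x, ⟨k, rfl⟩, h7, h8⟩
      subst h8
      refine ⟨by simp [c5u, c5v], (k : ZMod p), ?_⟩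
      have h9 : c * e = k ^ 3 := by
        rw [← h7, mul_inv_cancel_left]
      have h10 := congrArg (Units.val) h9
      simpa [c] using h10
  rw [h5, Set.ncard_image_of_injective]
  · rfl
  · intro x y hxy
    simpa using hxy

/-- [C5 C5a] PROOF: by `C2d` these planes are the `PA e u v` and the `PB e u v` with `e ≠ 0`, `(u, v) ≠ 0`, which satisfy `NI`; all of these are stable under `(ω, 0; 0, 1)` (`St_PA`, `St_PB`; `ω³ = 1`). `PA e u v = PA e' u' v'` iff `e = e'` and `(u, v) ∝ (u', v')`; `PA ≠ PB`. By `NI_PA` the number of the `PA` is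
`(p - 1)(p + 1) - #{e ≠ 0 : 2 e is a cube} = (p² - 1) - (p - 1) / 3` (the cubes form a subgroup of index `3` because `p % 3 = 1`; only the point `(u, v) ∝ (1, -2)` is excluded for such `e`). By `PB_eq` (transport by `w`, which exchanges `PA e⁻¹ u v` and `PB e u v`) the number of the `PB` is the same. -/
theorem card_C5a (hp : p ≠ 2) (h : p % 3 = 1) (ω : ZMod p) (hω : ω ^ 2 + ω + 1 = 0) :
    3 * Nat.card {P : Gr p // NI P.1 ∧ St P.1 !![ω, 0; 0, 1]} = 2 * (p - 1) * (3 * p + 2) := by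
  classical
  have h3 : p ≠ 3 := by
    rintro rfl
    norm_num at h
  have hp2 := (Fact.out : p.Prime).two_le
  have e1 : Nat.card {P : Gr p // NI P.1 ∧ St P.1 !![ω, 0; 0, 1]} =
      ({P : Gr p | NI P.1 ∧ St P.1 !![ω, 0; 0, 1]}).ncard := rfl
  rw [e1, c5_set hp h3 ω hω, Set.ncard_union_eq ?_ (Set.toFinite _) (Set.toFinite _),
    Set.ncard_image_of_injective _ c5A_inj, Set.ncard_image_of_injective _ c5B_inj]
  · have h4 := Set.ncard_add_ncard_compl {t : (ZMod p)ˣ × Option (ZMod p) | NI (c5A t).1}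
      (Set.toFinite _) (Set.toFinite _)
    have h5 : ({t : (ZMod p)ˣ × Option (ZMod p) | NI (c5A t).1})ᶜ =
      {t : (ZMod p)ˣ × Option (ZMod p) | ¬ NI (c5A t).1} := rfl
    have h6 : Nat.card ((ZMod p)ˣ × Option (ZMod p)) = (p - 1) * (p + 1) := by
      rw [Nat.card_prod, Nat.card_eq_fintype_card, ZMod.card_units, Nat.card_eq_fintype_card,
        Fintype.card_option, ZMod.card]
    rw [h5, h6] at h4
    have h7 := c5_excl hp h3 h
    obtain ⟨q, rfl⟩ : ∃ q, p = q + 1 := ⟨p - 1, by omega⟩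
    simp only [Nat.add_sub_cancel] at h4 h7 ⊢
    nlinarith
  · rw [Set.disjoint_left]
    rintro _ ⟨s, _, rfl⟩ ⟨t, _, ht⟩
    exact c5_disj s t ht.symm

private theorem c5_count (ω : ZMod p) (h3 : p ≠ 3) (hω : ω ^ 2 + ω + 1 = 0) :
    Nat.card {g : F2 p // g.trace ^ 2 = g.det ∧ (g 0 1 = 0 ∧ g 1 0 = 0 ∧ g 0 0 ≠ 0 ∧
      g 0 0 ^ 3 = g 1 1 ^ 3)} = 2 * (p - 1) := by
  obtain ⟨hω0, hω3⟩ := c5_omega ω hω
  have h30 : (3 : ZMod p) ≠ 0 := by
    intro h0
    have h1 : ((3 : ℕ) : ZMod p) = 0 := by exact_mod_cast h0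
    rw [ZMod.natCast_eq_zero_iff] at h1
    exact h3 ((Nat.prime_dvd_prime_iff_eq Fact.out Nat.prime_three).1 h1)
  have hω1 : ω ≠ 1 := by
    rintro rfl
    apply h30
    linear_combination hω
  have hω2 : ω ≠ ω ^ 2 := by
    intro h
    apply hω1
    have h5 : ω * (ω - 1) = 0 := by linear_combination -h
    rcases mul_eq_zero.1 h5 with h6 | h6
    · exact absurd h6 hω0
    · linear_combination h6
  have h1 : Nat.card (Bool × (ZMod p)ˣ) = 2 * (p - 1) := by
    rw [Nat.card_prod, Nat.card_eq_fintype_card, Nat.card_eq_fintype_card, ZMod.card_units,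
      Fintype.card_bool]
  rw [← h1]
  symm
  let r : Bool → ZMod p := fun b => if b then ω else ω ^ 2
  have hr : ∀ b, r b ≠ 0 ∧ r b ^ 2 + r b + 1 = 0 := by
    intro b
    cases b
    · simp only [r, Bool.false_eq_true, if_false]
      refine ⟨pow_ne_zero _ hω0, ?_⟩
      linear_combination (ω ^ 2 - ω + 1) * hω
    · simp only [r, if_true]
      exact ⟨hω0, hω⟩
  refine Nat.card_congr (Equiv.ofBijective (fun x : Bool × (ZMod p)ˣ =>
    ⟨!![r x.1 * x.2, 0; 0, (x.2 : ZMod p)], ?_, rfl, rfl, ?_, ?_⟩) ⟨?_, ?_⟩)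
  · rw [Matrix.trace_fin_two_of, Matrix.det_fin_two_of]
    linear_combination (x.2 : ZMod p) ^ 2 * (hr x.1).2
  · exact mul_ne_zero (hr x.1).1 (Units.ne_zero _)
  · simp only [Matrix.of_apply, Matrix.cons_val', Matrix.cons_val_zero, Matrix.cons_val_one,
      Matrix.cons_val_fin_one]
    linear_combination (x.2 : ZMod p) ^ 3 * (r x.1 - 1) * (hr x.1).2
  · rintro ⟨b, d⟩ ⟨b', d'⟩ hx
    have hx := congrArg Subtype.val hx
    have e1 := congrFun (congrFun hx 1) 1
    have e2 := congrFun (congrFun hx 0) 0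
    simp at e1 e2
    have hd : d = d' := Units.ext e1
    subst hd
    have hb : r b = r b' := by
      have := Units.ne_zero d
      simpa [this] using e2
    congr 1
    cases b <;> cases b'
    · rfl
    · simp only [r, Bool.false_eq_true, if_false, if_true] at hb
      exact absurd hb.symm hω2
    · simp only [r, Bool.false_eq_true, if_false, if_true] at hb
      exact absurd hb hω2
    · rfl
  · rintro ⟨g, hg1, hg2, hg3, hg4, hg5⟩
    have hd : g 1 1 ≠ 0 := by
      intro h0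
      rw [h0, zero_pow (by norm_num)] at hg5
      exact hg4 (pow_eq_zero_iff (by norm_num) |>.1 hg5)
    rw [Matrix.trace_fin_two, Matrix.det_fin_two, hg2, hg3] at hg1
    have h5 : (g 0 0 - ω * g 1 1) * (g 0 0 - ω ^ 2 * g 1 1) = 0 := by
      linear_combination hg1 + (-(g 0 0) * g 1 1) * hω + g 1 1 ^ 2 * (ω - 1) * hω
    have h6 : ∃ b, g 0 0 = r b * g 1 1 := by
      rcases mul_eq_zero.1 h5 with h6 | h6
      · exact ⟨true, by simp only [r, if_true]; linear_combination h6⟩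
      · exact ⟨false, by simp only [r, Bool.false_eq_true, if_false]; linear_combination h6⟩
    obtain ⟨b, hb⟩ := h6
    refine ⟨(b, Units.mk0 _ hd), ?_⟩
    apply Subtype.ext
    ext i j
    fin_cases i <;> fin_cases j
    · simpa using hb.symm
    · simpa using hg2.symm
    · simpa using hg3.symm
    · simp

/-- [C5 C5b] PROOF: `C2c` (transport by `b`), `St_PA`, `St_PB`: after transport the stabiliser is `{(a, 0; 0, d) : a³ = d³ ≠ 0}`; `(a + d)² = a d` iff `a² + a d + d² = 0` iff (`a³ = d³` and `a ≠ d`) (`p ≠ 3`), so for each `d ≠ 0` there are the two values `a = ω d, ω² d`. -/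
theorem card_C5b (hp : p ≠ 2) (P : Gr p) (hP : NI P.1) (hg : ∃ g, St P.1 g ∧ ¬ Sc g) :
    Nat.card {g : F2 p // g.trace ^ 2 = g.det ∧ St P.1 g} = 2 * (p - 1) := by
  obtain ⟨g, hg, hs⟩ := hg
  obtain ⟨_, hp3, b, hb, k, ω, e, u, v, _, hω, _, he, huv, h⟩ := C2c hp P hP g hg hs
  have h3 : p ≠ 3 := by
    rintro rfl
    norm_num at hp3
  rw [← c5_count ω h3 hω]
  have hN : NI (trG b hb P).1 := (c5_NI_trG b hb P).2 hP
  have hS : ∀ g' : F2 p, St (trG b hb P).1 g' ↔
      g' 0 1 = 0 ∧ g' 1 0 = 0 ∧ g' 0 0 ≠ 0 ∧ g' 0 0 ^ 3 = g' 1 1 ^ 3 := by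
    intro g'
    rcases h with h | h
    · rw [h] at hN ⊢
      exact St_PA hp h3 e u v he huv hN g'
    · rw [h] at hN ⊢
      exact St_PB hp h3 e u v he huv hN g'
  refine Nat.card_congr ((cjE b hb).subtypeEquiv fun x => ?_)
  rw [← hS, cjE_apply, cj_trace b hb, cj_det b hb, St_cj]

end MP_02e52a.Cnt
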