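import Pool.Agent.Lib.MP_02e52a_al.Cnt.C2

/-! # Elements of order three -/

namespace MP_02e52a.Cnt

open MP_02e52a.M7

variable {p : ℕ} [Fact p.Prime]

private theorem O3_card_ne (m : ZMod p) (hm : m ≠ 0) :
    Nat.card {q : ZMod p × ZMod p // q.1 * q.2 = m} = p - 1 := by
  have e : {q : ZMod p × ZMod p // q.1 * q.2 = m} ≃ (ZMod p)ˣ :=
    { toFun := fun q => Units.mk0 q.1.1 (fun h => hm (by rw [← q.2, h, zero_mul]))
      invFun := fun u => ⟨(u, (u : ZMod p)⁻¹ * m), by
        change (u : ZMod p) * ((u : ZMod p)⁻¹ * m) = m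
        rw [mul_inv_cancel_left₀ u.ne_zero]⟩
      left_inv := by
        rintro ⟨⟨a, b⟩, h⟩
        have ha : a ≠ 0 := fun h0 => hm (by rw [← h, h0, zero_mul])
        apply Subtype.ext
        apply Prod.ext
        · rfl
        · change a⁻¹ * m = b
          rw [← h]
          change a⁻¹ * (a * b) = b
          rw [inv_mul_cancel_left₀ ha]
      right_inv := fun u => Units.ext rfl }
  rw [Nat.card_congr e, Nat.card_eq_fintype_card, ZMod.card_units p]

private theorem O3_card_zero :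
    Nat.card {q : ZMod p × ZMod p // q.1 * q.2 = 0} = 2 * p - 1 := by
  classical
  have h1 : Nat.card {q : ZMod p × ZMod p // q.1 * q.2 = 0} =
      ((Finset.univ.filter fun q : ZMod p × ZMod p => q.1 * q.2 = 0)).card := by
    rw [Nat.card_eq_fintype_card, Fintype.card_subtype]
  have h2 : (Finset.univ.filter fun q : ZMod p × ZMod p => q.1 * q.2 = 0) =
      ({0} : Finset (ZMod p)) ×ˢ (Finset.univ : Finset (ZMod p)) ∪
        (Finset.univ : Finset (ZMod p)) ×ˢ ({0} : Finset (ZMod p)) := by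
    ext q
    simp only [Finset.mem_filter, Finset.mem_univ, true_and, Finset.mem_union, Finset.mem_product,
      Finset.mem_singleton, and_true, mul_eq_zero]
  have h3 : ({0} : Finset (ZMod p)) ×ˢ (Finset.univ : Finset (ZMod p)) ∩
        (Finset.univ : Finset (ZMod p)) ×ˢ ({0} : Finset (ZMod p)) = {(0, 0)} := by
    ext q
    simp only [Finset.mem_inter, Finset.mem_univ, true_and, Finset.mem_product,
      Finset.mem_singleton, and_true, Prod.ext_iff]
  have h4 := Finset.card_union_add_card_inter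
    (({0} : Finset (ZMod p)) ×ˢ (Finset.univ : Finset (ZMod p)))
    ((Finset.univ : Finset (ZMod p)) ×ˢ ({0} : Finset (ZMod p)))
  rw [h3, ← h2, ← h1] at h4
  simp only [Finset.card_product, Finset.card_singleton, Finset.card_univ, ZMod.card] at h4
  omega

private theorem O3_roots (h3 : p ≠ 3) (ω : ZMod p) (hω : ω ^ 2 + ω + 1 = 0) :
    Nat.card {x : ZMod p // -(x ^ 2 - x + 1) = 0} = 2 := by
  classical
  have hne : -ω ≠ -ω ^ 2 := by
    intro h
    have h1 : ω = ω ^ 2 := neg_injective h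
    have h2 : (3 : ZMod p) = 0 := by
      linear_combination (4 - (2 * ω + 1)) * hω - (2 * ω + 1) * h1
    have h4 : ((3 : ℕ) : ZMod p) = 0 := by exact_mod_cast h2
    rw [ZMod.natCast_eq_zero_iff] at h4
    exact h3 ((Nat.prime_dvd_prime_iff_eq (Fact.out : p.Prime) Nat.prime_three).1 h4)
  rw [Nat.card_eq_fintype_card, Fintype.card_subtype]
  have : (Finset.univ.filter fun x : ZMod p => -(x ^ 2 - x + 1) = 0) = {-ω, -ω ^ 2} := by
    ext x
    simp only [Finset.mem_filter, Finset.mem_univ, true_and, Finset.mem_insert, Finset.mem_singleton]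
    have key : x ^ 2 - x + 1 = (x - -ω) * (x - -ω ^ 2) := by
      linear_combination (-x + 1 - ω) * hω
    rw [neg_eq_zero, key, mul_eq_zero, sub_eq_zero, sub_eq_zero]
  rw [this, Finset.card_pair hne]

/-- [C5 O3a] PROOF: `g = (a, b; c, d)`: `(a + d)² = a d - b c`, i.e. `b c = - (a² + a d + d²)`. There are `2 p - 1` pairs `(a, d)` with `a² + a d + d² = 0` (`p % 3 = 1`: `a = ω d` or `a = ω² d`), each with `2 p - 1` pairs `(b, c)`; the other `(p - 1)²` pairs have `p - 1` pairs `(b, c)`. Total `(2p-1)² + (p-1)³`. Those with `det g = 0` have trace `0`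
and are the `p²` nilpotent matrices (`card_nilp` or count again). `(2p-1)² + (p-1)³ - p² = p³ - p`. -/
theorem card_O3 (hp : p ≠ 2) (h : p % 3 = 1) :
    Nat.card {g : F2 p // g.trace ^ 2 = g.det ∧ g.det ≠ 0} = p * (p ^ 2 - 1) := by
  classical
  obtain ⟨ω, hω⟩ := exists_omega h
  have h3 : p ≠ 3 := by rintro rfl; omega
  have hp1 : 1 < p := (Fact.out : p.Prime).one_lt
  have e : {g : F2 p // g.trace ^ 2 = g.det ∧ g.det ≠ 0} ≃
      (ZMod p)ˣ × {w : ZMod p × ZMod p × ZMod p // w.2.1 * w.2.2 = -(w.1 ^ 2 - w.1 + 1)} :=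
    { toFun := fun g =>
        have ht : g.1.trace ≠ 0 := fun h0 => g.2.2 (by rw [← g.2.1, h0]; ring)
        ⟨Units.mk0 g.1.trace ht,
          ⟨(g.1.trace⁻¹ * g.1 0 0, g.1.trace⁻¹ * g.1 0 1, g.1.trace⁻¹ * g.1 1 0), by
            have h1 := g.2.1
            rw [Matrix.det_fin_two] at h1
            have h2 : g.1.trace⁻¹ * g.1.trace = 1 := inv_mul_cancel₀ ht
            have h4 := Matrix.trace_fin_two g.1
            have h5 : g.1 1 1 = g.1.trace - g.1 0 0 := by rw [h4]; ring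
            rw [h5] at h1
            generalize g.1.trace = t at *
            generalize t⁻¹ = s at *
            change s * g.1 0 1 * (s * g.1 1 0) = -((s * g.1 0 0) ^ 2 - s * g.1 0 0 + 1)
            linear_combination (s ^ 2) * h1 - (s * t + 1 - s * g.1 0 0) * h2⟩⟩
      invFun := fun y => ⟨(y.1 : ZMod p) • !![y.2.1.1, y.2.1.2.1; y.2.1.2.2, 1 - y.2.1.1], by
        have h1 := y.2.2
        have ht : (((y.1 : ZMod p) • !![y.2.1.1, y.2.1.2.1; y.2.1.2.2, 1 - y.2.1.1] : F2 p)).trace = y.1 := by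
          rw [Matrix.trace_fin_two]
          simp
          ring
        have hd : (((y.1 : ZMod p) • !![y.2.1.1, y.2.1.2.1; y.2.1.2.2, 1 - y.2.1.1] : F2 p)).det =
            (y.1 : ZMod p) ^ 2 := by
          rw [Matrix.det_fin_two]
          simp only [Matrix.smul_apply, Matrix.of_apply, Matrix.cons_val', Matrix.cons_val_zero, Matrix.cons_val_one,
            Matrix.cons_val_fin_one, smul_eq_mul]
          linear_combination (-(y.1 : ZMod p) ^ 2) * h1
        rw [ht, hd]
        exact ⟨rfl, pow_ne_zero _ y.1.ne_zero⟩⟩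
      left_inv := by
        rintro ⟨g, hg1, hg2⟩
        have ht : g.trace ≠ 0 := fun h0 => hg2 (by rw [← hg1, h0]; ring)
        have h4 := Matrix.trace_fin_two g
        apply Subtype.ext
        change g.trace • !![g.trace⁻¹ * g 0 0, g.trace⁻¹ * g 0 1; g.trace⁻¹ * g 1 0, 1 - g.trace⁻¹ * g 0 0] = g
        ext i j
        fin_cases i <;> fin_cases j
        · change g.trace * (g.trace⁻¹ * g 0 0) = g 0 0
          rw [mul_inv_cancel_left₀ ht]
        · change g.trace * (g.trace⁻¹ * g 0 1) = g 0 1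
          rw [mul_inv_cancel_left₀ ht]
        · change g.trace * (g.trace⁻¹ * g 1 0) = g 1 0
          rw [mul_inv_cancel_left₀ ht]
        · change g.trace * (1 - g.trace⁻¹ * g 0 0) = g 1 1
          rw [mul_sub, mul_inv_cancel_left₀ ht, mul_one, h4]
          ring
      right_inv := by
        rintro ⟨u, ⟨⟨x, b, c⟩, hbc⟩⟩
        have hu : (u : ZMod p) ≠ 0 := u.ne_zero
        have ht : (((u : ZMod p) • !![x, b; c, 1 - x] : F2 p)).trace = u := by
          rw [Matrix.trace_fin_two]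
          simp
          ring
        refine Prod.ext (Units.ext ht) (Subtype.ext (Prod.ext ?_ (Prod.ext ?_ ?_)))
        · change (((u : ZMod p) • !![x, b; c, 1 - x] : F2 p)).trace⁻¹ * (u * x) = x
          rw [ht, inv_mul_cancel_left₀ hu]
        · change (((u : ZMod p) • !![x, b; c, 1 - x] : F2 p)).trace⁻¹ * (u * b) = b
          rw [ht, inv_mul_cancel_left₀ hu]
        · change (((u : ZMod p) • !![x, b; c, 1 - x] : F2 p)).trace⁻¹ * (u * c) = c
          rw [ht, inv_mul_cancel_left₀ hu] }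
  have e2 : {w : ZMod p × ZMod p × ZMod p // w.2.1 * w.2.2 = -(w.1 ^ 2 - w.1 + 1)} ≃
      Σ x : ZMod p, {q : ZMod p × ZMod p // q.1 * q.2 = -(x ^ 2 - x + 1)} :=
    { toFun := fun w => ⟨w.1.1, w.1.2, w.2⟩
      invFun := fun s => ⟨(s.1, s.2.1), s.2.2⟩
      left_inv := fun _ => rfl
      right_inv := fun _ => rfl }
  rw [Nat.card_congr e, Nat.card_prod, Nat.card_congr e2, Nat.card_sigma]
  have hs : ∀ x : ZMod p, Nat.card {q : ZMod p × ZMod p // q.1 * q.2 = -(x ^ 2 - x + 1)} =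
      (p - 1) + p * (if -(x ^ 2 - x + 1) = 0 then 1 else 0) := by
    intro x
    by_cases hx : -(x ^ 2 - x + 1) = 0
    · rw [if_pos hx, hx, O3_card_zero]
      omega
    · rw [if_neg hx, O3_card_ne _ hx, mul_zero, add_zero]
  rw [Finset.sum_congr rfl fun x _ => hs x, Finset.sum_add_distrib, ← Finset.mul_sum, Finset.sum_boole,
    Finset.sum_const, Finset.card_univ, ZMod.card, Nat.card_eq_fintype_card, ZMod.card_units p]
  have h6 := O3_roots h3 ω hω
  rw [Nat.card_eq_fintype_card, Fintype.card_subtype] at h6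
  rw [h6]
  obtain ⟨n, rfl⟩ : ∃ n, p = n + 1 := ⟨p - 1, by omega⟩
  simp only [Nat.add_sub_cancel, smul_eq_mul, Nat.cast_ofNat]
  have : (n + 1) ^ 2 - 1 = n ^ 2 + 2 * n := by
    have : (n + 1) ^ 2 = n ^ 2 + 2 * n + 1 := by ring
    omega
  rw [this]
  ring

/-- [C5 O3b] PROOF: the characteristic polynomial `X² - τ X + τ²` (`τ = tr g ≠ 0`) has the roots `- ω τ ≠ - ω² τ`; choose eigenvectors as columns: `cj b g = (- ω² τ, 0; 0, - ω τ)` for example, and `- ω² τ = ω (- ω τ)`, `k = - ω τ`. -/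
theorem O3_conj (hp : p ≠ 2) (h3 : p ≠ 3) (ω : ZMod p) (hω : ω ^ 2 + ω + 1 = 0) (g : F2 p) (hg : g.trace ^ 2 = g.det)
    (hd : g.det ≠ 0) : ∃ (b : F2 p) (k : ZMod p), b.det ≠ 0 ∧ k ≠ 0 ∧ cj b g = k • !![ω, 0; 0, 1] := by
  have ht : g.trace ≠ 0 := fun h0 => hd (by rw [← hg, h0]; ring)
  have h2 : (2 : ZMod p) ≠ 0 := by
    intro h
    have h4 : ((2 : ℕ) : ZMod p) = 0 := by exact_mod_cast h
    rw [ZMod.natCast_eq_zero_iff] at h4
    exact hp ((Nat.prime_dvd_prime_iff_eq (Fact.out : p.Prime) Nat.prime_two).1 h4)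
  have h3' : (3 : ZMod p) ≠ 0 := by
    intro h
    have h4 : ((3 : ℕ) : ZMod p) = 0 := by exact_mod_cast h
    rw [ZMod.natCast_eq_zero_iff] at h4
    exact h3 ((Nat.prime_dvd_prime_iff_eq (Fact.out : p.Prime) Nat.prime_three).1 h4)
  have hω0 : ω ≠ 0 := by
    rintro rfl
    simp at hω
  have h22 : (2 : ZMod p)⁻¹ * 2 = 1 := inv_mul_cancel₀ h2
  set τ := g.trace with hτ
  set s : ZMod p := (2 : ZMod p)⁻¹ with hs
  have h4 := Matrix.trace_fin_two g
  rw [← hτ] at h4
  rw [Matrix.det_fin_two] at hg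
  have hz0 : (g + (-(s * τ)) • (1 : F2 p)).trace = 0 := by
    rw [Matrix.trace_fin_two]
    simp only [Matrix.add_apply, Matrix.smul_apply, Matrix.one_apply_eq, smul_eq_mul, mul_one]
    linear_combination (-τ) * h22 - h4
  have hz1 : -(g + (-(s * τ)) • (1 : F2 p)).det = (s * (ω - ω ^ 2) * τ) ^ 2 := by
    rw [Matrix.det_fin_two]
    simp only [Matrix.add_apply, Matrix.smul_apply, Matrix.one_apply_eq, smul_eq_mul, mul_one, ne_eq, zero_ne_one,
      not_false_eq_true, Matrix.one_apply_ne, mul_zero, add_zero, one_ne_zero]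
    linear_combination hg - (s * τ) * h4 + (τ ^ 2 * (s + 1)) * h22 - (s ^ 2 * τ ^ 2 * (ω ^ 2 - 3 * ω + 3)) * hω
  have hc : s * (ω - ω ^ 2) * τ ≠ 0 := by
    refine mul_ne_zero (mul_ne_zero (inv_ne_zero h2) ?_) ht
    intro h
    apply h3'
    linear_combination (ω ^ 2 - 3 * ω + 3) * hω - (ω - ω ^ 2) * h
  obtain ⟨b, hb, hbz⟩ := conj_diag hp _ hz0 _ hc hz1
  refine ⟨b, -ω * τ, hb, mul_ne_zero (neg_ne_zero.2 hω0) ht, ?_⟩
  rw [cj_add, cj_smul, cj_one b hb] at hbz
  have : cj b g = !![s * (ω - ω ^ 2) * τ, 0; 0, -(s * (ω - ω ^ 2) * τ)] + (s * τ) • (1 : F2 p) := by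
    rw [← hbz, add_assoc, ← add_smul]
    simp
  rw [this]
  ext i j
  fin_cases i <;> fin_cases j
  · simp
    linear_combination (τ * s) * hω - (τ * ω ^ 2) * h22
  · simp
  · simp
  · simp
    linear_combination (τ * s) * hω - (τ * ω) * h22

end MP_02e52a.Cnt
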