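import Pool.Agent.Lib.MP_02e52a_al.Cnt.C5
import Pool.Agent.Lib.MP_02e52a_al.Cnt.O3

/-! # Number of planes with a stabiliser of order three -/

namespace MP_02e52a.Cnt

open MP_02e52a.M7

variable {p : ℕ} [Fact p.Prime]

private theorem c6_three (hp : p ≠ 3) : (3 : ZMod p) ≠ 0 := by
  intro h
  have h2 : ((3 : ℕ) : ZMod p) = 0 := by exact_mod_cast h
  rw [ZMod.natCast_eq_zero_iff] at h2
  exact hp ((Nat.prime_dvd_prime_iff_eq Fact.out Nat.prime_three).1 h2)

/-- elements of order three are not scalar -/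
private theorem c6_sc (h3 : p ≠ 3) (g : F2 p) (hg : g.trace ^ 2 = g.det) (hd : g.det ≠ 0) : ¬ Sc g := by
  rintro ⟨h01, h10, h11⟩
  rw [Matrix.trace_fin_two, Matrix.det_fin_two, h01, h11] at hg
  rw [Matrix.det_fin_two, h01, h11] at hd
  have h4 : (3 : ZMod p) * g 1 1 ^ 2 = 0 := by linear_combination hg
  have h5 := (mul_eq_zero.1 h4).resolve_left (c6_three h3)
  have h6 : g 1 1 = 0 := pow_eq_zero_iff (by norm_num) |>.1 h5
  rw [h6] at hd
  simp at hd

private theorem c6_NI (b : F2 p) (hb : b.det ≠ 0) (P : Gr p) : NI (trG b hb P).1 ↔ NI P.1 := by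
  unfold NI
  rw [JJ_nonempty_trG, KK_nonempty_trG]

/-- number of planes of an element of order three -/
private theorem c6_planes (hp : p ≠ 2) (h : p % 3 = 1) (g : F2 p) (hg : g.trace ^ 2 = g.det)
    (hd : g.det ≠ 0) :
    3 * Nat.card {P : Gr p // NI P.1 ∧ St P.1 g} = 2 * (p - 1) * (3 * p + 2) := by
  have h3 : p ≠ 3 := by rintro rfl; norm_num at h
  obtain ⟨ω, hω⟩ := exists_omega h
  obtain ⟨b, k, hb, hk, hbk⟩ := O3_conj hp h3 ω hω g hg hd
  rw [← card_C5a hp h ω hω]
  congr 1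
  refine Nat.card_congr ((trG b hb).subtypeEquiv fun P => ?_)
  rw [c6_NI, ← St_cj b hb P g, hbk, St.smul_iff hk]

/-- [C5 C6] PROOF: if `p % 3 ≠ 1` the set is empty by `C2c`. If `p % 3 = 1` count the pairs `(P, g)`, `P` in the set, `tr g ² = det g`, `St P g`, in two ways (`Nat.card_sigma`): by `card_C5b` their number is `2 (p - 1) N`; by `O3_conj` (transport, `JJ_nonempty_trG`, `KK_nonempty_trG`, `St_cj`, `St.smul_iff`) and `card_C5a` each
`g` with `tr g ² = det g ≠ 0` belongs to `2 (p - 1)(3 p + 2) / 3` planes with `NI P`, `St P g` (such `g` is not a scalar, so these planes are in the set); `card_O3`. -/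
theorem card_C (hp : p ≠ 2) :
    (p % 3 = 1 → 3 * Nat.card {P : Gr p // NI P.1 ∧ ∃ g, St P.1 g ∧ ¬ Sc g} = p * (p ^ 2 - 1) * (3 * p + 2)) ∧
    (p % 3 ≠ 1 → Nat.card {P : Gr p // NI P.1 ∧ ∃ g, St P.1 g ∧ ¬ Sc g} = 0) := by
  classical
  constructor
  · intro h
    have h3 : p ≠ 3 := by rintro rfl; norm_num at h
    have hp2 : 2 ≤ p := (Fact.out : p.Prime).two_le
    let A := {P : Gr p // NI P.1 ∧ ∃ g, St P.1 g ∧ ¬ Sc g}
    let B := {g : F2 p // g.trace ^ 2 = g.det ∧ g.det ≠ 0}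
    have : Fintype A := Fintype.ofFinite _
    have : Fintype B := Fintype.ofFinite _
    have key := card_dc (A := A) (B := B) (fun P g => St P.1.1 g.1)
    have h1 : ∀ P : A, Nat.card {g : B // St P.1.1 g.1} = 2 * (p - 1) := by
      intro P
      rw [← card_C5b hp P.1 P.2.1 P.2.2]
      exact Nat.card_congr
        { toFun := fun g => ⟨g.1.1, g.1.2.1, g.2⟩
          invFun := fun g => ⟨⟨g.1, g.2.1, g.2.2.1⟩, g.2.2⟩
          left_inv := fun _ => rfl
          right_inv := fun _ => rfl }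
    have h2 : ∀ g : B, 3 * Nat.card {P : A // St P.1.1 g.1} = 2 * (p - 1) * (3 * p + 2) := by
      intro g
      rw [← c6_planes hp h g.1 g.2.1 g.2.2]
      congr 1
      exact Nat.card_congr
        { toFun := fun P => ⟨P.1.1, P.1.2.1, P.2⟩
          invFun := fun P => ⟨⟨P.1, P.2.1, g.1, P.2.2, c6_sc h3 g.1 g.2.1 g.2.2⟩, P.2.2⟩
          left_inv := fun _ => rfl
          right_inv := fun _ => rfl }
    have h4 : (∑ P : A, Nat.card {g : B // St P.1.1 g.1}) = Nat.card A * (2 * (p - 1)) := by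
      rw [Finset.sum_congr rfl fun P _ => h1 P, Finset.sum_const, Finset.card_univ,
        Nat.card_eq_fintype_card, smul_eq_mul]
    have h5 : 3 * (∑ g : B, Nat.card {P : A // St P.1.1 g.1}) =
        Nat.card B * (2 * (p - 1) * (3 * p + 2)) := by
      rw [Finset.mul_sum, Finset.sum_congr rfl fun g _ => h2 g, Finset.sum_const,
        Finset.card_univ, Nat.card_eq_fintype_card, smul_eq_mul]
    have h6 : Nat.card B = p * (p ^ 2 - 1) := card_O3 hp h
    rw [← key, h4, h6] at h5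
    have h7 : 0 < 2 * (p - 1) := by omega
    apply Nat.eq_of_mul_eq_mul_right h7
    change 3 * Nat.card A * (2 * (p - 1)) = _
    rw [mul_assoc, h5]
    ring
  · intro h
    have : IsEmpty {P : Gr p // NI P.1 ∧ ∃ g, St P.1 g ∧ ¬ Sc g} := by
      refine ⟨fun P => ?_⟩
      obtain ⟨P, hP, g, hg, hs⟩ := P
      exact h (C2c hp P hP g hg hs).2.1
    exact Nat.card_of_isEmpty

end MP_02e52a.Cnt
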