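import Pool.Agent.Lib.MP_02e52a_al.Cnt.T5

/-! # Classification of the sets of involutions -/

namespace MP_02e52a.Cnt

open MP_02e52a.M7

variable {p : ℕ} [Fact p.Prime]

private theorem cl_two (hp : p ≠ 2) : (2 : ZMod p) ≠ 0 := by
  intro h
  have h1 : ((2 : ℕ) : ZMod p) = 0 := by exact_mod_cast h
  rw [ZMod.natCast_eq_zero_iff] at h1
  exact hp ((Nat.prime_dvd_prime_iff_eq Fact.out Nat.prime_two).1 h1)

/-- [C5 CL] PROOF. Suppose first that there are `s, t ∈ JJ P`, `t` not a multiple of `s`, with `tr (s t) ≠ 0`. `g = s t = α + y`, `α = tr (s t) / 2 ≠ 0`, `y = (s t - t s) / 2` traceless, nonzero (otherwise `s t = α`, `t` is a multiple of `s`), and `tr (s y) = 0`. `St P g`. If `det y = 0` then `α⁻¹ y ∈ KK P`, excluded. So `det y ≠ 0`: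
`T3_cases` (for `z := y`, `β := 1`) gives `y ∈ JJ P` and `P ≤ QQ y ∨ P ≤ HH y`. For `t` traceless with `det t ≠ 0`, `tr (y t) = 0`: `t = (α' + β' y) s` (`exists_comb`), and `det (α' + β' y) ≠ 0`, so `t ∈ JJ P` by `T3_torus` and `St.mul`. With `T5` this is the third case with `z = y`.
Otherwise any two elements of `JJ P` are proportional or anticommute (have `tr (s t) = 0`). Let `s ∈ JJ P`. If all others are multiples of `s`: first case. Else take `t ∈ JJ P`, not a multiple of `s`, `tr (s t) = 0`. If some `r ∈ JJ P` is not a multiple of `s`, nor of `t`, then `tr (r s) = tr (r t) = 0` and `r = c (s t)` by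
`exists_smul_of_perp`. Second case. -/
theorem CL (hp : p ≠ 2) (P : Gr p) (hP : P.1 ≠ P0) (hJ : (JJ P.1).Nonempty) (hK : ¬ (KK P.1).Nonempty) :
    (∃ s ∈ JJ P.1, ∀ t ∈ JJ P.1, ∃ c : ZMod p, t = c • s) ∨
    (∃ s ∈ JJ P.1, ∃ t ∈ JJ P.1, (s * t).trace = 0 ∧ ∀ r ∈ JJ P.1, (∃ c : ZMod p, r = c • s) ∨
      (∃ c : ZMod p, r = c • t) ∨ ∃ c : ZMod p, r = c • (s * t)) ∨
    (∃ z ∈ JJ P.1, (∀ t : F2 p, t.trace = 0 → t.det ≠ 0 → (z * t).trace = 0 → t ∈ JJ P.1) ∧
      ∀ t ∈ JJ P.1, (∃ c : ZMod p, t = c • z) ∨ (z * t).trace = 0) := by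
  classical
  have h2 := cl_two hp
  by_cases H : ∃ s ∈ JJ P.1, ∃ t ∈ JJ P.1, (∀ c : ZMod p, t ≠ c • s) ∧ (s * t).trace ≠ 0
  · right; right
    obtain ⟨s, hs, t, ht, hst, htr⟩ := H
    have hac := anticomm s t hs.1 ht.1
    obtain ⟨y, hy⟩ : ∃ y : F2 p, y = (2 : ZMod p)⁻¹ • (s * t - t * s) := ⟨_, rfl⟩
    obtain ⟨α, hα⟩ : ∃ α : ZMod p, α = (2 : ZMod p)⁻¹ * (s * t).trace := ⟨_, rfl⟩
    have hα0 : α ≠ 0 := by rw [hα]; exact mul_ne_zero (inv_ne_zero h2) htr
    have hg : s * t = α • (1 : F2 p) + (1 : ZMod p) • y := by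
      rw [hα, hy, one_smul, mul_smul, ← hac, ← smul_add]
      rw [show s * t + t * s + (s * t - t * s) = (2 : ZMod p) • (s * t) by
        rw [two_smul]; abel]
      rw [smul_smul, inv_mul_cancel₀ h2, one_smul]
    have hyt : y.trace = 0 := by
      rw [hy, Matrix.trace_smul, Matrix.trace_sub, Matrix.trace_mul_comm s t, sub_self, smul_zero]
    have hsy : (s * y).trace = 0 := by
      have e : (s * (t * s)).trace = (s * (s * t)).trace := by
        rw [Matrix.trace_mul_comm s (t * s), Matrix.mul_assoc, Matrix.trace_mul_comm t (s * s),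
          Matrix.mul_assoc]
      rw [hy, Matrix.mul_smul, Matrix.trace_smul, Matrix.mul_sub, Matrix.trace_sub, e, sub_self,
        smul_zero]
    have hSg : St P.1 (s * t) := hs.2.mul ht.2
    have hyne : y ≠ 0 := by
      intro h0
      rw [h0, smul_zero, add_zero] at hg
      have h3 : s * (s * t) = α • s := by rw [hg, Matrix.mul_smul, Matrix.mul_one]
      rw [← Matrix.mul_assoc, mul_self_of_trace s hs.1, Matrix.smul_mul, Matrix.one_mul] at h3
      have hd : -s.det ≠ 0 := neg_ne_zero.2 hs.2.1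
      apply hst ((-s.det)⁻¹ * α)
      rw [mul_smul, ← h3, smul_smul, inv_mul_cancel₀ hd, one_smul]
    have hyd : y.det ≠ 0 := by
      intro hd
      apply hK
      refine ⟨α⁻¹ • y, smul_ne_zero (inv_ne_zero hα0) hyne, ?_, ?_⟩
      · rw [Matrix.smul_mul, Matrix.mul_smul, mul_self_of_trace y hyt, hd, neg_zero, zero_smul,
          smul_zero, smul_zero]
      · have h4 : (1 : F2 p) + α⁻¹ • y = α⁻¹ • (s * t) := by
          rw [hg, smul_add, smul_smul, inv_mul_cancel₀ hα0, one_smul, one_smul]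
        rw [h4]
        exact hSg.smul (inv_ne_zero hα0)
    obtain ⟨hyJ, hPy⟩ := T3_cases hp P y s hyt hyd α 1 hα0 one_ne_zero (hg ▸ hSg) hs hsy
    have hys : (y * s).trace = 0 := by rw [Matrix.trace_mul_comm]; exact hsy
    refine ⟨y, hyJ, ?_, ?_⟩
    · intro t' ht' htd' hyt'
      obtain ⟨a, b, hab⟩ := exists_comb hp y s t' hyt hs.1 ht' hyd hs.2.1 hys hyt'
      refine ⟨ht', ?_⟩
      have hd : (a • (1 : F2 p) + b • y).det ≠ 0 := by
        intro h0
        apply htd'
        rw [hab, Matrix.det_mul, h0, zero_mul]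
      rw [hab]
      exact (T3_torus P y hyJ hPy a b hd).mul hs.2
    · intro t' ht'
      exact T5 hp P hP y s t' hyJ hs hys hPy ht'
  · have H' : ∀ s ∈ JJ P.1, ∀ t ∈ JJ P.1, (∃ c : ZMod p, t = c • s) ∨ (s * t).trace = 0 := by
      intro s hs t ht
      by_contra hc
      push_neg at hc
      exact H ⟨s, hs, t, ht, hc.1, hc.2⟩
    obtain ⟨s, hs⟩ := hJ
    by_cases h1 : ∀ t ∈ JJ P.1, ∃ c : ZMod p, t = c • s
    · exact Or.inl ⟨s, hs, h1⟩
    · push_neg at h1
      obtain ⟨t, ht, htc⟩ := h1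
      have hst : (s * t).trace = 0 := by
        rcases H' s hs t ht with ⟨c, hc⟩ | h
        · exact absurd hc (htc c)
        · exact h
      refine Or.inr (Or.inl ⟨s, hs, t, ht, hst, fun r hr => ?_⟩)
      rcases H' s hs r hr with h | h3
      · exact Or.inl h
      · rcases H' t ht r hr with h | h4
        · exact Or.inr (Or.inl h)
        · refine Or.inr (Or.inr ?_)
          exact exists_smul_of_perp hp s t r hs.1 ht.1 hr.1 hs.2.1 ht.2.1 hst
            (by rw [Matrix.trace_mul_comm]; exact h3) (by rw [Matrix.trace_mul_comm]; exact h4)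

end MP_02e52a.Cnt
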