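import Pool.Agent.Lib.MP_02e52a_al.M7.FinDefs

/-! # Counting the planes of the space of `3 × 2` matrices with trivial stabiliser in `PGL2` : definitions -/

namespace MP_02e52a.Cnt

open MP_02e52a.M7

variable {p : ℕ} [Fact p.Prime]

abbrev F2 (p : ℕ) := Matrix (Fin 2) (Fin 2) (ZMod p)
abbrev M6 (p : ℕ) := Matrix (Fin 3) (Fin 2) (ZMod p)

/-- the planes of `M6` -/
abbrev Gr (p : ℕ) [Fact p.Prime] := {P : Submodule (ZMod p) (M6 p) // Module.finrank (ZMod p) P = 2}

/-- `a` is invertible and stabilises `P` -/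
def St (P : Submodule (ZMod p) (M6 p)) (a : F2 p) : Prop := a.det ≠ 0 ∧ ∀ x ∈ P, actM a x ∈ P

/-- the elements of trace `0` of the stabiliser (involutions in `PGL2`) -/
def JJ (P : Submodule (ZMod p) (M6 p)) : Set (F2 p) := {s | s.trace = 0 ∧ St P s}

/-- the unipotent elements of the stabiliser -/
def KK (P : Submodule (ZMod p) (M6 p)) : Set (F2 p) := {n | n ≠ 0 ∧ n * n = 0 ∧ St P (1 + n)}

/-- anticommuting pairs of involutions of the stabiliser -/
def JP (P : Submodule (ZMod p) (M6 p)) : Set (F2 p × F2 p) :=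
  {q | q.1 ∈ JJ P ∧ q.2 ∈ JJ P ∧ (q.1 * q.2).trace = 0}

/-- `a` is a scalar matrix -/
def Sc (a : F2 p) : Prop := a 0 1 = 0 ∧ a 1 0 = 0 ∧ a 0 0 = a 1 1

/-- the plane fixed by all of `GL2` -/
def P0 : Submodule (ZMod p) (M6 p) :=
  Submodule.span (ZMod p) {!![1, 0; 0, 0; 0, 1], !![0, 0; 0, 1; 1, 0]}

/-- derivative of `sq` at `1` -/
def dsq (z : F2 p) : Matrix (Fin 3) (Fin 3) (ZMod p) :=
  !![2 * z 0 0, 0, z 0 1; 0, 2 * z 1 1, z 1 0; 2 * z 1 0, 2 * z 0 1, z 0 0 + z 1 1]

/-- derivative of `actM` at `1` -/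
def dact (z : F2 p) : M6 p →ₗ[ZMod p] M6 p where
  toFun T := dsq z * T + T * z.adjugate
  map_add' := by intro x y; rw [Matrix.mul_add, Matrix.add_mul]; abel
  map_smul' := by intro c x; simp [smul_add]

/-- the part of `M6` on which `dact z = 3 Z`, `Z = actM z / D`, `D = - det z` -/
def HH (z : F2 p) : Submodule (ZMod p) (M6 p) :=
  LinearMap.ker ((-z.det) • dact z - (3 : ZMod p) • actM z)

/-- the part of `M6` on which `dact z = - Z`, `Z = actM z / D`, `D = - det z` -/
def QQ (z : F2 p) : Submodule (ZMod p) (M6 p) :=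
  LinearMap.ker ((-z.det) • dact z + actM z)

theorem mem_HH (z : F2 p) (x : M6 p) : x ∈ HH z ↔ (-z.det) • dact z x = (3 : ZMod p) • actM z x := by
  rw [HH, LinearMap.mem_ker, LinearMap.sub_apply, LinearMap.smul_apply, LinearMap.smul_apply, sub_eq_zero]

theorem mem_QQ (z : F2 p) (x : M6 p) : x ∈ QQ z ↔ (-z.det) • dact z x = - actM z x := by
  rw [QQ, LinearMap.mem_ker, LinearMap.add_apply, LinearMap.smul_apply, add_eq_zero_iff_eq_neg]

theorem actM_apply (a : F2 p) (T : M6 p) : actM a T = M7.sq a * T * a.adjugate := rfl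
theorem dact_apply (z : F2 p) (T : M6 p) : dact z T = dsq z * T + T * z.adjugate := rfl

/-- number of classes of an equivalence relation whose classes all have `k` elements -/
theorem card_quot {X : Type*} [Finite X] (r : X → X → Prop) (hr : Equivalence r) (k : ℕ)
    (hk : ∀ x, Nat.card {y // r x y} = k) : Nat.card X = Nat.card (Quot r) * k := by
  classical
  have e : X ≃ Σ c : Quot r, {x // Quot.mk r x = c} := (Equiv.sigmaFiberEquiv (Quot.mk r)).symm
  have : Finite (Quot r) := Finite.of_surjective (Quot.mk r) Quot.mk_surjective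
  have : Fintype (Quot r) := Fintype.ofFinite _
  rw [Nat.card_congr e, Nat.card_sigma]
  rw [Finset.sum_const_nat (m := k), Finset.card_univ, Nat.card_eq_fintype_card]
  intro c _
  induction c using Quot.ind with
  | mk x =>
    rw [← hk x]
    refine Nat.card_congr (Equiv.subtypeEquivRight fun y => ?_)
    rw [Quot.eq, hr.eqvGen_iff]
    exact ⟨hr.symm, hr.symm⟩

/-- double counting -/
theorem card_dc {A B : Type*} [Fintype A] [Fintype B] (R : A → B → Prop) :
    ∑ a, Nat.card {b // R a b} = ∑ b, Nat.card {a // R a b} := by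
  classical
  have h1 : Nat.card {q : A × B // R q.1 q.2} = ∑ a, Nat.card {b // R a b} := by
    rw [← Nat.card_sigma]
    exact Nat.card_congr
      { toFun := fun q => ⟨q.1.1, q.1.2, q.2⟩
        invFun := fun q => ⟨(q.1, q.2.1), q.2.2⟩
        left_inv := fun _ => rfl
        right_inv := fun _ => rfl }
  have h2 : Nat.card {q : A × B // R q.1 q.2} = ∑ b, Nat.card {a // R a b} := by
    rw [← Nat.card_sigma]
    exact Nat.card_congr
      { toFun := fun q => ⟨q.1.2, q.1.1, q.2⟩
        invFun := fun q => ⟨(q.2.1, q.1), q.2.2⟩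
        left_inv := fun _ => rfl
        right_inv := fun _ => rfl }
  rw [← h1, h2]

end MP_02e52a.Cnt
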