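import Pool.Agent.Lib.MP_02e52a_al.Cnt.Defs

/-! # Family F -/

namespace MP_02e52a.Cnt

open MP_02e52a.M7

variable {p : ℕ} [Fact p.Prime]

/-- [C5 F1a] PROOF: `(A00, A11) ≠ 0`, `A01, A10` arbitrary: `(p² - 1) p²`. -/
theorem cardF : Nat.card {A : F2 p // (Par.F A).Ok} = p ^ 4 - p ^ 2 := by
  classical
  have e1 : {A : F2 p // A 0 0 = 0 ∧ A 1 1 = 0} ≃ ZMod p × ZMod p :=
    { toFun := fun A => (A.1 0 1, A.1 1 0)
      invFun := fun q => ⟨!![0, q.1; q.2, 0], by simp⟩
      left_inv := by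
        rintro ⟨A, hA⟩
        apply Subtype.ext
        ext i j
        fin_cases i <;> fin_cases j <;> simp [hA.1, hA.2]
      right_inv := by
        rintro ⟨x, y⟩
        simp }
  have h1 : Fintype.card {A : F2 p // A 0 0 = 0 ∧ A 1 1 = 0} = p ^ 2 := by
    rw [Fintype.card_congr e1, Fintype.card_prod, ZMod.card, _root_.sq]
  have h2 : Fintype.card (F2 p) = p ^ 4 := by
    have : Fintype.card (F2 p) = Fintype.card (Fin 2 → Fin 2 → ZMod p) := rfl
    rw [this]
    simp only [Fintype.card_pi, ZMod.card, Finset.prod_const, Finset.card_univ, Fintype.card_fin]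
    ring
  have e2 : {A : F2 p // (Par.F A).Ok} ≃ {A : F2 p // ¬ (A 0 0 = 0 ∧ A 1 1 = 0)} := by
    refine Equiv.subtypeEquivRight (fun A => ?_)
    change (A 0 0 ≠ 0 ∨ A 1 1 ≠ 0) ↔ _
    tauto
  rw [Nat.card_congr e2, Nat.card_eq_fintype_card, Fintype.card_subtype_compl, h1, h2]

/-- [C5 F1b] PROOF: the two elements `A` and `(- A00, A01; A10, - A11)` are different because `2 ≠ 0`. -/
theorem clsF (hp : p ≠ 2) (A : F2 p) (h : (Par.F A).Ok) :
    Nat.card {B : {A : F2 p // (Par.F A).Ok} // (Par.F A).Rel (Par.F B.1)} = 2 := by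
  have hp3 : (2 : ZMod p) ≠ 0 := by
    intro h2
    have h3 : ((2 : ℕ) : ZMod p) = 0 := by exact_mod_cast h2
    rw [ZMod.natCast_eq_zero_iff] at h3
    exact hp ((Nat.prime_dvd_prime_iff_eq (Fact.out : p.Prime) Nat.prime_two).1 h3)
  have hA : A 0 0 ≠ 0 ∨ A 1 1 ≠ 0 := h
  have hneg : ∀ x : ZMod p, x ≠ 0 → x ≠ -x := by
    intro x hx he
    have h3 : 2 * x = 0 := by linear_combination he
    rcases mul_eq_zero.1 h3 with h4 | h4
    · exact hp3 h4
    · exact hx h4
  set A' : F2 p := !![-A 0 0, A 0 1; A 1 0, -A 1 1] with hA'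
  have hA'ok : (Par.F A').Ok := by
    change A' 0 0 ≠ 0 ∨ A' 1 1 ≠ 0
    rw [hA']
    simpa using hA
  have hne : A ≠ A' := by
    intro he
    have h0 := congrFun (congrFun he 0) 0
    have h1 := congrFun (congrFun he 1) 1
    rw [hA'] at h0 h1
    simp only [Matrix.of_apply, Matrix.cons_val', Matrix.cons_val_zero, Matrix.cons_val_fin_one,
      Matrix.cons_val_one] at h0 h1
    rcases hA with hA | hA
    · exact hneg _ hA h0
    · exact hneg _ hA h1
  rw [Nat.card_eq_two_iff]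
  refine ⟨⟨⟨A, h⟩, Or.inl rfl⟩, ⟨⟨A', hA'ok⟩, Or.inr rfl⟩, ?_, ?_⟩
  · intro he
    exact hne (congrArg (fun x => x.1.1) he)
  · rw [Set.eq_univ_iff_forall]
    rintro ⟨⟨B, hB⟩, hrel⟩
    rcases hrel with h1 | h1
    · left
      apply Subtype.ext
      apply Subtype.ext
      exact h1
    · right
      apply Subtype.ext
      apply Subtype.ext
      exact h1

end MP_02e52a.Cnt
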