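import Pool.Agent.Lib.MP_02e52a_al.Cnt.Defs

/-! # Family D -/

namespace MP_02e52a.Cnt

open MP_02e52a.M7

variable {p : ℕ} [Fact p.Prime]

/-- the parameters of the family `D` as a function -/
def parD (v : Fin 3 → ZMod p) : Par p := .D (v 0) (v 1) (v 2)

private theorem okD_iff (v : Fin 3 → ZMod p) : (parD v).Ok ↔
    v 2 ≠ 0 ∧ (v 0 ≠ 0 ∨ v 1 ≠ 0 ∨ ∀ r : ZMod p, r ^ 3 = 1 → r = 1) := Iff.rfl

private theorem relD_iff (v w : Fin 3 → ZMod p) : (parD v).Rel (parD w) ↔
    ∃ r : ZMod p, r ≠ 0 ∧ w 0 = r ^ 2 * v 0 ∧ w 1 = r ^ 4 * v 1 ∧ w 2 = r ^ 3 * v 2 := Iff.rfl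

private theorem cube_iff : (∀ r : ZMod p, r ^ 3 = 1 → r = 1) ↔ p % 3 ≠ 1 := by
  have hp := (Fact.out : p.Prime)
  constructor
  · intro h hm
    have hd : 3 ∣ Fintype.card (ZMod p)ˣ := by
      rw [ZMod.card_units]
      exact (Nat.modEq_iff_dvd' hp.one_lt.le).1 (show 1 % 3 = p % 3 by rw [hm])
    have : Fact (Nat.Prime 3) := ⟨Nat.prime_three⟩
    obtain ⟨x, hx⟩ := exists_prime_orderOf_dvd_card 3 hd
    have h1 : x ^ 3 = 1 := by rw [← hx]; exact pow_orderOf_eq_one x
    have h2 : (x : ZMod p) ^ 3 = 1 := by rw [← Units.val_pow_eq_pow_val, h1, Units.val_one]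
    have h3 : x = 1 := Units.ext (h _ h2)
    rw [h3, orderOf_one] at hx
    omega
  · intro h r hr
    have hr0 : r ≠ 0 := by
      rintro rfl
      simp at hr
    set x : (ZMod p)ˣ := Units.mk0 r hr0 with hxdef
    have hx : x ^ 3 = 1 := by
      apply Units.ext
      rw [Units.val_pow_eq_pow_val, hxdef, Units.val_mk0, hr, Units.val_one]
    have h1 : orderOf x ∣ 3 := orderOf_dvd_of_pow_eq_one hx
    rcases (Nat.dvd_prime Nat.prime_three).1 h1 with h2 | h2
    · have h3 : x = 1 := orderOf_eq_one_iff.1 h2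
      have h4 := congrArg Units.val h3
      rwa [hxdef, Units.val_mk0, Units.val_one] at h4
    · exfalso
      apply h
      have h3 : 3 ∣ p - 1 := by
        rw [← ZMod.card_units p, ← h2]
        exact orderOf_dvd_card
      have := hp.one_lt
      omega

/-- [C5 F2a] PROOF: `φ ≠ 0` (`p - 1` values); `(α, ε) ≠ 0`: `p² - 1`; `(α, ε) = 0` is allowed iff `r³ = 1` implies `r = 1`, i.e. iff `p % 3 ≠ 1` (cyclic group of order `p - 1`; for `p = 3` cubing is the identity). -/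
theorem cardD : Nat.card {v : Fin 3 → ZMod p // (parD v).Ok} =
    (p - 1) * (p ^ 2 - 1 + if p % 3 = 1 then 0 else 1) := by
  classical
  have hp := (Fact.out : p.Prime)
  let e : {v : Fin 3 → ZMod p // (parD v).Ok} ≃ {φ : ZMod p // φ ≠ 0} ×
      {q : ZMod p × ZMod p // q.1 ≠ 0 ∨ q.2 ≠ 0 ∨ ∀ r : ZMod p, r ^ 3 = 1 → r = 1} :=
    { toFun := fun v => (⟨v.1 2, v.2.1⟩, ⟨(v.1 0, v.1 1), v.2.2⟩)
      invFun := fun q => ⟨![q.2.1.1, q.2.1.2, q.1.1], ⟨q.1.2, q.2.2⟩⟩
      left_inv := by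
        rintro ⟨v, hv⟩
        apply Subtype.ext
        funext i
        fin_cases i <;> rfl
      right_inv := fun _ => rfl }
  rw [Nat.card_congr e, Nat.card_prod]
  congr 1
  · rw [Nat.card_eq_fintype_card, Fintype.card_subtype_compl, Fintype.card_subtype_eq, ZMod.card]
  · by_cases h : p % 3 = 1
    · rw [if_pos h, Nat.add_zero]
      have h1 : ¬ ∀ r : ZMod p, r ^ 3 = 1 → r = 1 := fun H => cube_iff.1 H h
      have e2 : {q : ZMod p × ZMod p // q.1 ≠ 0 ∨ q.2 ≠ 0 ∨ ∀ r : ZMod p, r ^ 3 = 1 → r = 1} ≃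
          {q : ZMod p × ZMod p // q ≠ 0} :=
        Equiv.subtypeEquivRight fun q => by
          constructor
          · rintro (H | H | H) rfl
            · exact H rfl
            · exact H rfl
            · exact h1 H
          · intro H
            by_contra hc
            push Not at hc
            exact H (Prod.ext hc.1 hc.2.1)
      rw [Nat.card_congr e2, Nat.card_eq_fintype_card, Fintype.card_subtype_compl, Fintype.card_subtype_eq,
        Fintype.card_prod, ZMod.card, _root_.sq]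
    · rw [if_neg h]
      have h1 : ∀ r : ZMod p, r ^ 3 = 1 → r = 1 := cube_iff.2 h
      have e2 : {q : ZMod p × ZMod p // q.1 ≠ 0 ∨ q.2 ≠ 0 ∨ ∀ r : ZMod p, r ^ 3 = 1 → r = 1} ≃
          ZMod p × ZMod p := Equiv.subtypeUnivEquiv fun q => Or.inr (Or.inr h1)
      rw [Nat.card_congr e2, Nat.card_eq_fintype_card, Fintype.card_prod, ZMod.card, _root_.sq]
      have : 1 ≤ p * p := Nat.mul_pos hp.pos hp.pos
      omega

/-- [C5 F2b] PROOF: the class consists of the `(r² α, r⁴ ε, r³ φ)`, `r ≠ 0`, and these are different for different `r`: if `(r² α, r⁴ ε, r³ φ) = (s² α, s⁴ ε, s³ φ)` then `t = r / s` has `t³ = 1` (`φ ≠ 0`) and `t² = 1` or `t⁴ = 1` or (every cube root of `1` is `1`), so `t = 1`. (All of them satisfy `Ok`.) -/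
theorem clsD (v : Fin 3 → ZMod p) (h : (parD v).Ok) :
    Nat.card {w : {v : Fin 3 → ZMod p // (parD v).Ok} // (parD v).Rel (parD w.1)} = p - 1 := by
  classical
  have h2 := h.1
  change v 2 ≠ 0 at h2
  have h3 : v 0 ≠ 0 ∨ v 1 ≠ 0 ∨ ∀ r : ZMod p, r ^ 3 = 1 → r = 1 := h.2
  let F : {r : ZMod p // r ≠ 0} → {w : {v : Fin 3 → ZMod p // (parD v).Ok} // (parD v).Rel (parD w.1)} :=
    fun r => ⟨⟨![r.1 ^ 2 * v 0, r.1 ^ 4 * v 1, r.1 ^ 3 * v 2],
      ⟨mul_ne_zero (pow_ne_zero _ r.2) h2, h3.imp (fun H => mul_ne_zero (pow_ne_zero _ r.2) H)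
        (fun H => H.imp (fun H => mul_ne_zero (pow_ne_zero _ r.2) H) id)⟩⟩, ⟨r.1, r.2, rfl, rfl, rfl⟩⟩
  have hF : Function.Bijective F := by
    constructor
    · rintro ⟨r, hr⟩ ⟨s, hs⟩ hrs
      have e0 : r ^ 2 * v 0 = s ^ 2 * v 0 := congrFun (congrArg (fun w => w.1.1) hrs) 0
      have e1 : r ^ 4 * v 1 = s ^ 4 * v 1 := congrFun (congrArg (fun w => w.1.1) hrs) 1
      have e2 : r ^ 3 * v 2 = s ^ 3 * v 2 := congrFun (congrArg (fun w => w.1.1) hrs) 2
      have e2' : r ^ 3 = s ^ 3 := mul_right_cancel₀ h2 e2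
      apply Subtype.ext
      change r = s
      rcases h3 with H | H | H
      · have e3 : r ^ 2 = s ^ 2 := mul_right_cancel₀ H e0
        have e4 : r ^ 2 * r = r ^ 2 * s := by
          calc r ^ 2 * r = r ^ 3 := by ring
            _ = s ^ 3 := e2'
            _ = s ^ 2 * s := by ring
            _ = r ^ 2 * s := by rw [e3]
        exact mul_left_cancel₀ (pow_ne_zero 2 hr) e4
      · have e3 : r ^ 4 = s ^ 4 := mul_right_cancel₀ H e1
        have e4 : r ^ 3 * r = r ^ 3 * s := by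
          calc r ^ 3 * r = r ^ 4 := by ring
            _ = s ^ 4 := e3
            _ = s ^ 3 * s := by ring
            _ = r ^ 3 * s := by rw [e2']
        exact mul_left_cancel₀ (pow_ne_zero 3 hr) e4
      · have e3 : (r / s) ^ 3 = 1 := by
          rw [div_pow, e2', div_self (pow_ne_zero 3 hs)]
        have e4 := H _ e3
        rwa [div_eq_one_iff_eq hs] at e4
    · rintro ⟨⟨w, hw⟩, r, hr, e0, e1, e2⟩
      refine ⟨⟨r, hr⟩, ?_⟩
      apply Subtype.ext
      apply Subtype.ext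
      funext i
      fin_cases i
      · exact e0.symm
      · exact e1.symm
      · exact e2.symm
  rw [← Nat.card_congr (Equiv.ofBijective F hF), Nat.card_eq_fintype_card, Fintype.card_subtype_compl,
    Fintype.card_subtype_eq, ZMod.card]

end MP_02e52a.Cnt
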