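import Pool.Agent.Lib.MP_02e52a_al.Cnt.Defs

/-! # Families H1, H2 -/

namespace MP_02e52a.Cnt

open MP_02e52a.M7

variable {p : ℕ} [Fact p.Prime]

def parH1 (v : Fin 4 → ZMod p) : Par p := .H1 (v 0) (v 1) (v 2) (v 3)
def parH2 (v : Fin 4 → ZMod p) : Par p := .H2 (v 0) (v 1) (v 2) (v 3)

private theorem okH1 (v : Fin 4 → ZMod p) : (parH1 v).Ok ↔ (v 0 + v 3 ≠ 0 ∨ v 1 + v 2 ≠ 0) := Iff.rfl
private theorem okH2 (v : Fin 4 → ZMod p) : (parH2 v).Ok ↔ (v 0 ≠ 0 ∨ v 3 ≠ 0) := Iff.rfl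

private theorem card_pair_ne : Nat.card {q : ZMod p × ZMod p // q.1 ≠ 0 ∨ q.2 ≠ 0} = p ^ 2 - 1 := by
  classical
  have e : {q : ZMod p × ZMod p // q.1 ≠ 0 ∨ q.2 ≠ 0} ≃ {q : ZMod p × ZMod p // ¬ (q = (0, 0))} :=
    Equiv.subtypeEquivRight fun q => by
      rw [Prod.ext_iff, not_and_or]
  rw [Nat.card_congr e, Nat.card_eq_fintype_card, Fintype.card_subtype_compl,
    Fintype.card_subtype_eq, Fintype.card_prod, ZMod.card, pow_two]

private theorem card_four (Q : ZMod p → ZMod p → Prop)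
    (hQ : Nat.card {q : ZMod p × ZMod p // Q q.1 q.2} = p ^ 2 - 1)
    (P : (Fin 4 → ZMod p) → Prop)
    (e : {v : Fin 4 → ZMod p // P v} ≃ {q : ZMod p × ZMod p // Q q.1 q.2} × (ZMod p × ZMod p)) :
    Nat.card {v : Fin 4 → ZMod p // P v} = (p ^ 2 - 1) * p ^ 2 := by
  rw [Nat.card_congr e, Nat.card_prod, hQ, Nat.card_prod, Nat.card_zmod, pow_two]

/-- [C5 F3a] PROOF: the complement is `d = - a, c = - b`: `p²` elements. -/
theorem cardH1 : Nat.card {v : Fin 4 → ZMod p // (parH1 v).Ok} = p ^ 4 - p ^ 2 := by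
  have h : Nat.card {v : Fin 4 → ZMod p // (parH1 v).Ok} = (p ^ 2 - 1) * p ^ 2 := by
    refine card_four (fun x y => x ≠ 0 ∨ y ≠ 0) card_pair_ne _
      { toFun := fun v => (⟨(v.1 0 + v.1 3, v.1 1 + v.1 2), v.2⟩, (v.1 0, v.1 1))
        invFun := fun q => ⟨![q.2.1, q.2.2, q.1.1.2 - q.2.2, q.1.1.1 - q.2.1], ?_⟩
        left_inv := ?_
        right_inv := ?_ }
    · have h1 := q.1.2
      rw [okH1]
      simpa using h1
    · intro v
      apply Subtype.ext
      funext i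
      fin_cases i <;> simp
    · intro q
      rcases q with ⟨⟨⟨a, b⟩, h⟩, c, d⟩
      simp
  rw [h, Nat.sub_mul, one_mul, ← pow_add]

/-- [C5 F3b] PROOF: `(a, b, c, d)` and `(- d, - c, - b, - a)` are different (`a + d ≠ 0` or `b + c ≠ 0`), both `Ok`. -/
theorem clsH1 (v : Fin 4 → ZMod p) (h : (parH1 v).Ok) :
    Nat.card {w : {v : Fin 4 → ZMod p // (parH1 v).Ok} // (parH1 v).Rel (parH1 w.1)} = 2 := by
  rw [Nat.card_eq_two_iff]
  have h' := (okH1 v).1 h
  have hσ : (parH1 (![-v 3, -v 2, -v 1, -v 0] : Fin 4 → ZMod p)).Ok := by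
    rw [okH1]
    rcases h' with h1 | h1
    · left
      intro h2
      apply h1
      have h3 : -v 3 + -v 0 = 0 := h2
      linear_combination -h3
    · right
      intro h2
      apply h1
      have h3 : -v 2 + -v 1 = 0 := h2
      linear_combination -h3
  refine ⟨⟨⟨v, h⟩, Or.inl ⟨rfl, rfl, rfl, rfl⟩⟩,
    ⟨⟨![-v 3, -v 2, -v 1, -v 0], hσ⟩, Or.inr ⟨rfl, rfl, rfl, rfl⟩⟩, ?_, ?_⟩
  · intro heq
    have h1 : v = ![-v 3, -v 2, -v 1, -v 0] := congrArg (fun x => x.1.1) heq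
    have h0 : v 0 = -v 3 := congrFun h1 0
    have h2 : v 1 = -v 2 := congrFun h1 1
    rcases h' with h3 | h3
    · apply h3
      rw [h0]
      ring
    · apply h3
      rw [h2]
      ring
  · apply Set.eq_univ_of_forall
    intro w
    rcases w with ⟨⟨w, hw⟩, hr⟩
    have hr' : (w 0 = v 0 ∧ w 1 = v 1 ∧ w 2 = v 2 ∧ w 3 = v 3) ∨
        (w 0 = -v 3 ∧ w 1 = -v 2 ∧ w 2 = -v 1 ∧ w 3 = -v 0) := hr
    rcases hr' with ⟨a, b, c, d⟩ | ⟨a, b, c, d⟩
    · left
      apply Subtype.ext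
      apply Subtype.ext
      funext i
      fin_cases i
      · exact a
      · exact b
      · exact c
      · exact d
    · right
      apply Subtype.ext
      apply Subtype.ext
      funext i
      fin_cases i
      · exact a
      · exact b
      · exact c
      · exact d

/-- [C5 F3c] PROOF: `(a, d) ≠ 0`, `b, c` arbitrary. -/
theorem cardH2 : Nat.card {v : Fin 4 → ZMod p // (parH2 v).Ok} = (p ^ 2 - 1) * p ^ 2 := by
  refine card_four (fun x y => x ≠ 0 ∨ y ≠ 0) card_pair_ne _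
    { toFun := fun v => (⟨(v.1 0, v.1 3), v.2⟩, (v.1 1, v.1 2))
      invFun := fun q => ⟨![q.1.1.1, q.2.1, q.2.2, q.1.1.2], q.1.2⟩
      left_inv := ?_
      right_inv := ?_ }
  · intro v
    apply Subtype.ext
    funext i
    fin_cases i <;> rfl
  · intro q
    rfl

/-- [C5 F3d] PROOF: the class consists of `(r a, r² b, c, r d)`, `r ≠ 0`, different for different `r`. -/
theorem clsH2 (v : Fin 4 → ZMod p) (h : (parH2 v).Ok) :
    Nat.card {w : {v : Fin 4 → ZMod p // (parH2 v).Ok} // (parH2 v).Rel (parH2 w.1)} = p - 1 := by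
  classical
  have h' := (okH2 v).1 h
  have hok : ∀ r : (ZMod p)ˣ, (parH2 (![(r : ZMod p) * v 0, (r : ZMod p) ^ 2 * v 1, v 2,
      (r : ZMod p) * v 3] : Fin 4 → ZMod p)).Ok := by
    intro r
    rw [okH2]
    rcases h' with h1 | h1
    · left
      exact mul_ne_zero r.ne_zero h1
    · right
      exact mul_ne_zero r.ne_zero h1
  have hcard : Nat.card (ZMod p)ˣ = p - 1 := by
    rw [Nat.card_eq_fintype_card, ZMod.card_units_eq_totient,
      Nat.totient_prime (Fact.out : p.Prime)]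
  rw [← hcard]
  symm
  refine Nat.card_congr (Equiv.ofBijective
    (fun r : (ZMod p)ˣ => (⟨⟨![(r : ZMod p) * v 0, (r : ZMod p) ^ 2 * v 1, v 2,
      (r : ZMod p) * v 3], hok r⟩, ⟨(r : ZMod p), r.ne_zero, rfl, rfl, rfl, rfl⟩⟩ :
      {w : {v : Fin 4 → ZMod p // (parH2 v).Ok} // (parH2 v).Rel (parH2 w.1)})) ⟨?_, ?_⟩)
  · intro r s hrs
    have h1 : (![(r : ZMod p) * v 0, (r : ZMod p) ^ 2 * v 1, v 2, (r : ZMod p) * v 3] :
        Fin 4 → ZMod p) = ![(s : ZMod p) * v 0, (s : ZMod p) ^ 2 * v 1, v 2, (s : ZMod p) * v 3] :=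
      congrArg (fun x => x.1.1) hrs
    have h0 : (r : ZMod p) * v 0 = (s : ZMod p) * v 0 := congrFun h1 0
    have h3 : (r : ZMod p) * v 3 = (s : ZMod p) * v 3 := congrFun h1 3
    apply Units.ext
    rcases h' with h2 | h2
    · exact mul_right_cancel₀ h2 h0
    · exact mul_right_cancel₀ h2 h3
  · rintro ⟨⟨w, hw⟩, r, hr, h0, h1, h2, h3⟩
    refine ⟨Units.mk0 r hr, ?_⟩
    apply Subtype.ext
    apply Subtype.ext
    funext i
    fin_cases i
    · exact h0.symm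
    · exact h1.symm
    · exact h2.symm
    · exact h3.symm

end MP_02e52a.Cnt
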