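import Pool.Agent.Lib.MP_02e52a_al.Cnt.F4D

/-! # Family H3: size of the classes -/

namespace MP_02e52a.Cnt

open MP_02e52a.M7

variable {p : ℕ} [Fact p.Prime]

private theorem f4_ok (v : Fin 7 → ZMod p) : (parH3 v).Ok ↔ ((v 5 ≠ 0 ∨ v 6 ≠ 0) ∧
      ∀ a1 a2 c2 : ZMod p, a1 ≠ 0 → a2 ≠ 0 → c2 ≠ 0 → a1 * a2 * v 0 = v 0 → a1 * v 4 = v 4 →
        a2 * v 6 = v 6 → a1 ^ 2 * a2 * v 5 = c2 * v 5 → a2 * c2 * v 2 = a1 * v 2 →
        a1 ^ 2 * a2 * (v 1 * v 6 - v 3 * v 5) = v 1 * v 6 - v 3 * v 5 →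
        a1 = 1 ∧ a2 = 1 ∧ c2 = 1) := Iff.rfl

private theorem f4_rel (v w : Fin 7 → ZMod p) : (parH3 v).Rel (parH3 w) ↔
      ∃ a1 a2 c2 r : ZMod p, a1 ≠ 0 ∧ a2 ≠ 0 ∧ c2 ≠ 0 ∧ w 0 = a1 * a2 * v 0 ∧ w 4 = a1 * v 4 ∧
        w 6 = a2 * v 6 ∧ c2 * w 5 = a1 ^ 2 * a2 * v 5 ∧ a1 * w 2 = a2 * c2 * v 2 ∧
        a2 * w 1 + w 5 * r = a1 ^ 2 * a2 * v 1 ∧ a2 * w 3 + w 6 * r = a2 * c2 * v 3 := Iff.rfl

/-- the image of a vector under the parameters -/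
private def f4_f (v : Fin 7 → ZMod p) (a1 a2 c2 r : ZMod p) : Fin 7 → ZMod p :=
  ![a1 * a2 * v 0, (a1 ^ 2 * a2 * v 1 - (a1 ^ 2 * a2 * v 5 * c2⁻¹) * r) * a2⁻¹, a2 * c2 * v 2 * a1⁻¹,
    (a2 * c2 * v 3 - (a2 * v 6) * r) * a2⁻¹, a1 * v 4, a1 ^ 2 * a2 * v 5 * c2⁻¹, a2 * v 6]

private theorem f4_relf (v : Fin 7 → ZMod p) (a1 a2 c2 r : ZMod p) (h1 : a1 ≠ 0) (h2 : a2 ≠ 0)
    (h3 : c2 ≠ 0) : (parH3 v).Rel (parH3 (f4_f v a1 a2 c2 r)) := by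
  rw [f4_rel]
  refine ⟨a1, a2, c2, r, h1, h2, h3, rfl, rfl, rfl, ?_, ?_, ?_, ?_⟩
  · change c2 * (a1 ^ 2 * a2 * v 5 * c2⁻¹) = _
    field_simp
  · change a1 * (a2 * c2 * v 2 * a1⁻¹) = _
    field_simp
  · change a2 * ((a1 ^ 2 * a2 * v 1 - (a1 ^ 2 * a2 * v 5 * c2⁻¹) * r) * a2⁻¹) +
      (a1 ^ 2 * a2 * v 5 * c2⁻¹) * r = _
    field_simp
    ring
  · change a2 * ((a2 * c2 * v 3 - (a2 * v 6) * r) * a2⁻¹) + (a2 * v 6) * r = _
    field_simp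
    ring

private theorem f4_okf (v : Fin 7 → ZMod p) (a1 a2 c2 r : ZMod p) (h1 : a1 ≠ 0) (h2 : a2 ≠ 0)
    (h3 : c2 ≠ 0) (h : (parH3 v).Ok) : (parH3 (f4_f v a1 a2 c2 r)).Ok := by
  rw [f4_ok] at h ⊢
  have e0 : f4_f v a1 a2 c2 r 0 = a1 * a2 * v 0 := rfl
  have e1 : f4_f v a1 a2 c2 r 1 = (a1 ^ 2 * a2 * v 1 - (a1 ^ 2 * a2 * v 5 * c2⁻¹) * r) * a2⁻¹ := rfl
  have e2 : f4_f v a1 a2 c2 r 2 = a2 * c2 * v 2 * a1⁻¹ := rfl
  have e3 : f4_f v a1 a2 c2 r 3 = (a2 * c2 * v 3 - (a2 * v 6) * r) * a2⁻¹ := rfl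
  have e4 : f4_f v a1 a2 c2 r 4 = a1 * v 4 := rfl
  have e5 : f4_f v a1 a2 c2 r 5 = a1 ^ 2 * a2 * v 5 * c2⁻¹ := rfl
  have e6 : f4_f v a1 a2 c2 r 6 = a2 * v 6 := rfl
  refine ⟨?_, ?_⟩
  · rw [e5, e6]
    rcases h.1 with h5 | h6
    · left
      exact mul_ne_zero (mul_ne_zero (mul_ne_zero (pow_ne_zero 2 h1) h2) h5) (inv_ne_zero h3)
    · right
      exact mul_ne_zero h2 h6
  · intro x1 x2 y2 hx1 hx2 hy2 g0 g4 g6 g5 g2 gd
    have hD : f4_f v a1 a2 c2 r 1 * f4_f v a1 a2 c2 r 6 - f4_f v a1 a2 c2 r 3 * f4_f v a1 a2 c2 r 5 =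
        a1 ^ 2 * a2 * (v 1 * v 6 - v 3 * v 5) := by
      rw [e1, e3, e5, e6]
      field_simp
      ring
    rw [hD] at gd
    rw [e0] at g0
    rw [e4] at g4
    rw [e6] at g6
    rw [e5] at g5
    rw [e2] at g2
    have k1 : a1 * a2 ≠ 0 := mul_ne_zero h1 h2
    have k2 : a1 ^ 2 * a2 ≠ 0 := mul_ne_zero (pow_ne_zero 2 h1) h2
    have k3 : a1 ^ 2 * a2 * c2⁻¹ ≠ 0 := mul_ne_zero k2 (inv_ne_zero h3)
    have k4 : a2 * c2 * a1⁻¹ ≠ 0 := mul_ne_zero (mul_ne_zero h2 h3) (inv_ne_zero h1)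
    apply h.2 x1 x2 y2 hx1 hx2 hy2
    · apply mul_left_cancel₀ k1; linear_combination g0
    · apply mul_left_cancel₀ h1; linear_combination g4
    · apply mul_left_cancel₀ h2; linear_combination g6
    · apply mul_left_cancel₀ k3; linear_combination g5
    · apply mul_left_cancel₀ k4; linear_combination g2
    · apply mul_left_cancel₀ k2; linear_combination gd

private theorem f4_surj (v w : Fin 7 → ZMod p) (h : (parH3 v).Rel (parH3 w)) :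
    ∃ a1 a2 c2 r : ZMod p, a1 ≠ 0 ∧ a2 ≠ 0 ∧ c2 ≠ 0 ∧ w = f4_f v a1 a2 c2 r := by
  rw [f4_rel] at h
  obtain ⟨a1, a2, c2, r, h1, h2, h3, g0, g4, g6, g5, g2, gb, gd⟩ := h
  have k5 : w 5 = a1 ^ 2 * a2 * v 5 * c2⁻¹ := by
    apply mul_left_cancel₀ h3
    rw [g5]; field_simp
  have k2 : w 2 = a2 * c2 * v 2 * a1⁻¹ := by
    apply mul_left_cancel₀ h1
    rw [g2]; field_simp
  have k1 : w 1 = (a1 ^ 2 * a2 * v 1 - (a1 ^ 2 * a2 * v 5 * c2⁻¹) * r) * a2⁻¹ := by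
    apply mul_left_cancel₀ h2
    rw [← k5, ← gb]; field_simp; ring
  have k3 : w 3 = (a2 * c2 * v 3 - (a2 * v 6) * r) * a2⁻¹ := by
    apply mul_left_cancel₀ h2
    rw [← g6, ← gd]; field_simp; ring
  refine ⟨a1, a2, c2, r, h1, h2, h3, ?_⟩
  funext i
  fin_cases i
  · exact g0
  · exact k1
  · exact k2
  · exact k3
  · exact g4
  · exact k5
  · exact g6

private theorem f4_inj (v : Fin 7 → ZMod p) (h : (parH3 v).Ok) (a1 a2 c2 r b1 b2 d2 r' : ZMod p)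
    (h1 : a1 ≠ 0) (h2 : a2 ≠ 0) (h3 : c2 ≠ 0) (k1 : b1 ≠ 0) (k2 : b2 ≠ 0) (k3 : d2 ≠ 0)
    (he : f4_f v a1 a2 c2 r = f4_f v b1 b2 d2 r') : a1 = b1 ∧ a2 = b2 ∧ c2 = d2 ∧ r = r' := by
  rw [f4_ok] at h
  have e0 : a1 * a2 * v 0 = b1 * b2 * v 0 := congrFun he 0
  have e1 : (a1 ^ 2 * a2 * v 1 - (a1 ^ 2 * a2 * v 5 * c2⁻¹) * r) * a2⁻¹ =
    (b1 ^ 2 * b2 * v 1 - (b1 ^ 2 * b2 * v 5 * d2⁻¹) * r') * b2⁻¹ := congrFun he 1
  have e2 : a2 * c2 * v 2 * a1⁻¹ = b2 * d2 * v 2 * b1⁻¹ := congrFun he 2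
  have e3 : (a2 * c2 * v 3 - (a2 * v 6) * r) * a2⁻¹ = (b2 * d2 * v 3 - (b2 * v 6) * r') * b2⁻¹ :=
    congrFun he 3
  have e4 : a1 * v 4 = b1 * v 4 := congrFun he 4
  have e5 : a1 ^ 2 * a2 * v 5 * c2⁻¹ = b1 ^ 2 * b2 * v 5 * d2⁻¹ := congrFun he 5
  have e6 : a2 * v 6 = b2 * v 6 := congrFun he 6
  have hDa : (a1 ^ 2 * a2 * v 1 - (a1 ^ 2 * a2 * v 5 * c2⁻¹) * r) * a2⁻¹ * (a2 * v 6) -
      (a2 * c2 * v 3 - (a2 * v 6) * r) * a2⁻¹ * (a1 ^ 2 * a2 * v 5 * c2⁻¹) =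
      a1 ^ 2 * a2 * (v 1 * v 6 - v 3 * v 5) := by
    field_simp
    ring
  have hDb : (b1 ^ 2 * b2 * v 1 - (b1 ^ 2 * b2 * v 5 * d2⁻¹) * r') * b2⁻¹ * (b2 * v 6) -
      (b2 * d2 * v 3 - (b2 * v 6) * r') * b2⁻¹ * (b1 ^ 2 * b2 * v 5 * d2⁻¹) =
      b1 ^ 2 * b2 * (v 1 * v 6 - v 3 * v 5) := by
    field_simp
    ring
  have eD : a1 ^ 2 * a2 * (v 1 * v 6 - v 3 * v 5) = b1 ^ 2 * b2 * (v 1 * v 6 - v 3 * v 5) := by
    rw [← hDa, ← hDb, e1, e3, e5, e6]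
  obtain ⟨q1, q2, q3⟩ := h.2 (a1 * b1⁻¹) (a2 * b2⁻¹) (c2 * d2⁻¹) (mul_ne_zero h1 (inv_ne_zero k1))
    (mul_ne_zero h2 (inv_ne_zero k2)) (mul_ne_zero h3 (inv_ne_zero k3))
    (by
      apply mul_left_cancel₀ (mul_ne_zero k1 k2)
      rw [← e0]; field_simp)
    (by
      apply mul_left_cancel₀ k1
      rw [← e4]; field_simp)
    (by
      apply mul_left_cancel₀ k2
      rw [← e6]; field_simp)
    (by
      have e5' : a1 ^ 2 * a2 * v 5 * d2 = b1 ^ 2 * b2 * v 5 * c2 := by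
        have := congrArg (fun z => z * (c2 * d2)) e5
        field_simp at this
        linear_combination this
      field_simp
      linear_combination e5')
    (by
      have e2' : a2 * c2 * v 2 * b1 = b2 * d2 * v 2 * a1 := by
        have := congrArg (fun z => z * (a1 * b1)) e2
        field_simp at this
        linear_combination this
      field_simp
      linear_combination e2')
    (by
      field_simp
      linear_combination eD)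
  have p1 : a1 = b1 := by
    have := congrArg (fun z => z * b1) q1
    simpa [mul_assoc, inv_mul_cancel₀ k1] using this
  have p2 : a2 = b2 := by
    have := congrArg (fun z => z * b2) q2
    simpa [mul_assoc, inv_mul_cancel₀ k2] using this
  have p3 : c2 = d2 := by
    have := congrArg (fun z => z * d2) q3
    simpa [mul_assoc, inv_mul_cancel₀ k3] using this
  subst p1 p2 p3
  refine ⟨rfl, rfl, rfl, ?_⟩
  rcases h.1 with h5 | h6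
  · have h7 := mul_right_cancel₀ (inv_ne_zero h2) e1
    have h8 : (a1 ^ 2 * a2 * v 5 * c2⁻¹) * r = (a1 ^ 2 * a2 * v 5 * c2⁻¹) * r' := by
      linear_combination -h7
    exact mul_left_cancel₀ (mul_ne_zero (mul_ne_zero (mul_ne_zero (pow_ne_zero 2 h1) h2) h5)
      (inv_ne_zero h3)) h8
  · have h7 := mul_right_cancel₀ (inv_ne_zero h2) e3
    have h8 : (a2 * v 6) * r = (a2 * v 6) * r' := by linear_combination -h7
    exact mul_left_cancel₀ (mul_ne_zero h2 h6) h8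

/-- [C5 F4] coordinates `(a, b, c, d, s, t, u)`. PROOF: the class of `v` is the image of the map which sends `(a1, a2, c2, r)` (`a1, a2, c2 ≠ 0`) to `a' = a1 a2 a, s' = a1 s, u' = a2 u, t' = a1² a2 t / c2, c' = a2 c2 c / a1, b' = (a1² a2 b - t' r) / a2, d' = (a2 c2 d - u' r) / a2`. The map is injective: if two quadruples give the same
element then the quotients `ρ1, ρ2, γ` of the first three parameters satisfy the conditions in `Ok` (for `b u - d t`: `b' u' - d' t' = a1² a2 (b u - d t)`), so they are `1`; then `t' r = t' r'`, `u' r = u' r'` and `(t', u') ≠ 0`. The image elements satisfy `Ok` (the conditions are the same: each coordinate is multiplied by a nonzero factor, and so is `b u - d t`). So the class has `(p - 1)³ p` elements. -/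
theorem clsH3 (v : Fin 7 → ZMod p) (h : (parH3 v).Ok) :
    Nat.card {w : {v : Fin 7 → ZMod p // (parH3 v).Ok} // (parH3 v).Rel (parH3 w.1)} = (p - 1) ^ 3 * p := by
  let F : (ZMod p)ˣ × (ZMod p)ˣ × (ZMod p)ˣ × ZMod p →
      {w : {v : Fin 7 → ZMod p // (parH3 v).Ok} // (parH3 v).Rel (parH3 w.1)} :=
    fun q => ⟨⟨f4_f v q.1 q.2.1 q.2.2.1 q.2.2.2,
      f4_okf v _ _ _ _ q.1.ne_zero q.2.1.ne_zero q.2.2.1.ne_zero h⟩,
      f4_relf v _ _ _ _ q.1.ne_zero q.2.1.ne_zero q.2.2.1.ne_zero⟩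
  have hF : Function.Bijective F := by
    constructor
    · rintro ⟨a1, a2, c2, r⟩ ⟨b1, b2, d2, r'⟩ he
      have he' : f4_f v (a1 : ZMod p) a2 c2 r = f4_f v b1 b2 d2 r' := congrArg (fun x => x.1.1) he
      obtain ⟨q1, q2, q3, q4⟩ := f4_inj v h _ _ _ _ _ _ _ _ a1.ne_zero a2.ne_zero c2.ne_zero
        b1.ne_zero b2.ne_zero d2.ne_zero he'
      rw [Units.ext q1, Units.ext q2, Units.ext q3, q4]
    · rintro ⟨⟨w, hw⟩, hrel⟩
      obtain ⟨a1, a2, c2, r, h1, h2, h3, hw'⟩ := f4_surj v w hrel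
      refine ⟨(Units.mk0 a1 h1, Units.mk0 a2 h2, Units.mk0 c2 h3, r), ?_⟩
      apply Subtype.ext
      apply Subtype.ext
      exact hw'.symm
  rw [← Nat.card_congr (Equiv.ofBijective F hF), Nat.card_prod, Nat.card_prod, Nat.card_prod,
    Nat.card_zmod]
  have hu : Nat.card (ZMod p)ˣ = p - 1 := by
    rw [Nat.card_eq_fintype_card, ZMod.card_units]
  rw [hu]
  ring

end MP_02e52a.Cnt
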