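import Pool.Agent.Lib.MP_02e52a_al.Cnt.Defs

/-! # Family H3: definitions -/

namespace MP_02e52a.Cnt

open MP_02e52a.M7

variable {p : ℕ} [Fact p.Prime]

def parH3 (v : Fin 7 → ZMod p) : Par p := .H3 (v 0) (v 1) (v 2) (v 3) (v 4) (v 5) (v 6)

end MP_02e52a.Cnt
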