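import Pool.Agent.Lib.MP_02e52a_al.Cnt.F4D

/-! # Family H3: number of parameters -/

namespace MP_02e52a.Cnt

open MP_02e52a.M7

variable {p : ℕ} [Fact p.Prime]

private def okB (δ a s c w t u : Bool) : Bool :=
  (t && u && (a || s || c)) || (t && !u && ((a && (s || c || w)) || (s && w) || (c && w && δ))) ||
    (!t && u && (c && (a || s)))

private theorem cube_of (h3 : p % 3 ≠ 1) (r : ZMod p) (hr : r ^ 3 = 1) : r = 1 := by
  have hp : p.Prime := Fact.out
  by_cases hp3 : p = 3
  · subst hp3
    have := ZMod.pow_card r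
    rw [hr] at this
    exact this.symm
  · have h0 : r ≠ 0 := by
      rintro rfl
      simp at hr
    have h1 : r ^ (p - 1) = 1 := ZMod.pow_card_sub_one_eq_one h0
    have h2 : orderOf r ∣ 3 := orderOf_dvd_of_pow_eq_one hr
    have h4 : orderOf r ∣ p - 1 := orderOf_dvd_of_pow_eq_one h1
    have h5 : Nat.Coprime 3 (p - 1) := by
      rw [Nat.Prime.coprime_iff_not_dvd Nat.prime_three]
      intro h6
      have h7 : p % 3 ≠ 0 := by
        intro h8
        have := (Nat.prime_dvd_prime_iff_eq Nat.prime_three hp).1 (Nat.dvd_of_mod_eq_zero h8)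
        exact hp3 this.symm
      have := hp.two_le
      omega
    have h6 : orderOf r ∣ 1 := by
      rw [← h5]
      exact Nat.dvd_gcd h2 h4
    exact orderOf_eq_one_iff.1 (Nat.dvd_one.1 h6)

private theorem cube_ex (h3 : p % 3 = 1) : ∃ r : ZMod p, r ^ 3 = 1 ∧ r ≠ 1 := by
  have hp : p.Prime := Fact.out
  have : Fact (Nat.Prime 3) := ⟨Nat.prime_three⟩
  have h1 : 3 ∣ Fintype.card (ZMod p)ˣ := by
    rw [ZMod.card_units p]
    omega
  obtain ⟨x, hx⟩ := exists_prime_orderOf_dvd_card 3 h1
  refine ⟨x, ?_, ?_⟩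
  · have := pow_orderOf_eq_one x
    rw [hx] at this
    have h2 := congrArg Units.val this
    simpa using h2
  · intro h
    have h2 : x = 1 := Units.ext h
    rw [h2, orderOf_one] at hx
    omega

private theorem core_iff (hp : p ≠ 2) (a c s t u w : ZMod p) :
    ((t ≠ 0 ∨ u ≠ 0) ∧
      ∀ a1 a2 c2 : ZMod p, a1 ≠ 0 → a2 ≠ 0 → c2 ≠ 0 → a1 * a2 * a = a → a1 * s = s → a2 * u = u →
        a1 ^ 2 * a2 * t = c2 * t → a2 * c2 * c = a1 * c → a1 ^ 2 * a2 * w = w →
        a1 = 1 ∧ a2 = 1 ∧ c2 = 1) ↔
    ((t ≠ 0 ∧ u ≠ 0 ∧ (a ≠ 0 ∨ s ≠ 0 ∨ c ≠ 0)) ∨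
      (t ≠ 0 ∧ u = 0 ∧ ((a ≠ 0 ∧ (s ≠ 0 ∨ c ≠ 0 ∨ w ≠ 0)) ∨ (s ≠ 0 ∧ w ≠ 0) ∨
        (c ≠ 0 ∧ w ≠ 0 ∧ p % 3 ≠ 1))) ∨
      (t = 0 ∧ u ≠ 0 ∧ (c ≠ 0 ∧ (a ≠ 0 ∨ s ≠ 0)))) := by
  have hpp : p.Prime := Fact.out
  have hm : (-1 : ZMod p) ≠ 1 := by
    intro h
    have h2 : ((2 : ℕ) : ZMod p) = 0 := by
      push_cast
      linear_combination -h
    rw [ZMod.natCast_eq_zero_iff] at h2
    exact hp ((Nat.prime_dvd_prime_iff_eq hpp Nat.prime_two).1 h2)
  have hm0 : (-1 : ZMod p) ≠ 0 := neg_ne_zero.2 one_ne_zero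
  have h10 : (1 : ZMod p) ≠ 0 := one_ne_zero
  have key : ∀ {x y z : ZMod p}, z ≠ 0 → x * z = y * z → x = y := fun hz h => mul_right_cancel₀ hz h
  have key1 : ∀ {x z : ZMod p}, z ≠ 0 → x * z = z → x = 1 := fun hz h =>
    mul_right_cancel₀ hz (h.trans (one_mul _).symm)
  constructor
  · rintro ⟨h1, h2⟩
    by_cases ht : t = 0
    · have hu : u ≠ 0 := by
        rcases h1 with h1 | h1
        · exact absurd ht h1
        · exact h1
      refine Or.inr (Or.inr ⟨ht, hu, ?_, ?_⟩)
      · intro hc
        exact hm (h2 1 1 (-1) h10 h10 hm0 (by ring) (by ring) (by ring) (by rw [ht]; ring)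
              (by rw [hc]; ring) (by ring)).2.2
      · by_contra hn
        push Not at hn
        obtain ⟨ha, hs⟩ := hn
        exact hm (h2 (-1) 1 (-1) hm0 h10 hm0 (by rw [ha]; ring) (by rw [hs]; ring) (by ring)
          (by rw [ht]; ring) (by ring) (by ring)).1
    · by_cases hu : u = 0
      · refine Or.inr (Or.inl ⟨ht, hu, ?_⟩)
        by_contra hn
        push Not at hn
        obtain ⟨n1, n2, n3⟩ := hn
        by_cases ha : a = 0
        · by_cases hw : w = 0
          · exact hm (h2 1 (-1) (-1) h10 hm0 hm0 (by rw [ha]; ring) (by ring) (by rw [hu]; ring)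
              (by ring) (by ring) (by rw [hw]; ring)).2.1
          · have hs : s = 0 := by
              by_contra h
              exact hw (n2 h)
            by_cases hc : c = 0
            · exact hm (h2 (-1) 1 1 hm0 h10 h10 (by rw [ha]; ring) (by rw [hs]; ring)
                (by rw [hu]; ring) (by ring) (by rw [hc]; ring) (by ring)).1
            · obtain ⟨z, hz, hz1⟩ := cube_ex (n3 hc hw)
              have hz0 : z ≠ 0 := by
                rintro rfl
                simp at hz
              exact hz1 (h2 z z 1 hz0 hz0 h10 (by rw [ha]; ring) (by rw [hs]; ring)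
                (by rw [hu]; ring) (by linear_combination t * hz) (by ring)
                (by linear_combination w * hz)).1
        · obtain ⟨hs, hc, hw⟩ := n1 ha
          exact hm (h2 (-1) (-1) (-1) hm0 hm0 hm0 (by ring) (by rw [hs]; ring) (by rw [hu]; ring)
            (by ring) (by rw [hc]; ring) (by rw [hw]; ring)).1
      · refine Or.inl ⟨ht, hu, ?_⟩
        by_contra hn
        push Not at hn
        obtain ⟨ha, hs, hc⟩ := hn
        exact hm (h2 (-1) 1 1 hm0 h10 h10 (by rw [ha]; ring) (by rw [hs]; ring) (by ring)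
          (by ring) (by rw [hc]; ring) (by ring)).1
  · rintro (⟨ht, hu, h⟩ | ⟨ht, hu, h⟩ | ⟨ht, hu, h⟩)
    · refine ⟨Or.inl ht, fun a1 a2 c2 h1 h2 hc2 ea es eu et ec ew => ?_⟩
      have e2 : a2 = 1 := key1 hu eu
      have e3 : a1 ^ 2 * a2 = c2 := key ht et
      subst e2
      have e1 : a1 = 1 := by
        rcases h with ha | hs | hc
        · simpa using key1 ha ea
        · exact key1 hs es
        · have h5 := key hc ec
          rw [← e3] at h5
          apply key1 h1
          linear_combination h5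
      subst e1
      exact ⟨rfl, rfl, by rw [← e3]; ring⟩
    · refine ⟨Or.inl ht, fun a1 a2 c2 h1 h2 hc2 ea es eu et ec ew => ?_⟩
      have e3 : a1 ^ 2 * a2 = c2 := key ht et
      have e12 : a1 = 1 ∧ a2 = 1 := by
        rcases h with ⟨ha, hs | hc | hw⟩ | ⟨hs, hw⟩ | ⟨hc, hw, h3⟩
        · have e4 := key1 ha ea
          have e5 := key1 hs es
          subst e5
          exact ⟨rfl, by simpa using e4⟩
        · have e4 := key1 ha ea
          have e5 := key hc ec
          rw [← e3] at e5
          have e6 : a1 = 1 := by linear_combination -e5 + (a1 * a2 + 1) * e4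
          subst e6
          exact ⟨rfl, by simpa using e4⟩
        · have e4 := key1 ha ea
          have e5 := key1 hw ew
          have e6 : a1 = 1 := by linear_combination e5 - a1 * e4
          subst e6
          exact ⟨rfl, by simpa using e4⟩
        · have e4 := key1 hs es
          have e5 := key1 hw ew
          subst e4
          exact ⟨rfl, by simpa using e5⟩
        · have e4 := key hc ec
          have e5 := key1 hw ew
          rw [← e3, e5, mul_one] at e4
          subst e4
          have e6 : a2 = 1 := cube_of h3 a2 (by linear_combination e5)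
          exact ⟨e6, e6⟩
      obtain ⟨e1, e2⟩ := e12
      subst e1 e2
      exact ⟨rfl, rfl, by rw [← e3]; ring⟩
    · refine ⟨Or.inr hu, fun a1 a2 c2 h1 h2 hc2 ea es eu et ec ew => ?_⟩
      have e2 : a2 = 1 := key1 hu eu
      subst e2
      obtain ⟨hc, h⟩ := h
      have e3 := key hc ec
      have e1 : a1 = 1 := by
        rcases h with ha | hs
        · simpa using key1 ha ea
        · exact key1 hs es
      subst e1
      exact ⟨rfl, rfl, by simpa using e3⟩

private theorem core_iff' (hp : p ≠ 2) (a b c d s t u : ZMod p) :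
    (Par.H3 a b c d s t u).Ok ↔ okB (decide (p % 3 ≠ 1)) (decide (a ≠ 0)) (decide (s ≠ 0))
      (decide (c ≠ 0)) (decide (b * u - d * t ≠ 0)) (decide (t ≠ 0)) (decide (u ≠ 0)) = true := by
  refine (core_iff hp a c s t u (b * u - d * t)).trans ?_
  simp only [okB, Bool.or_eq_true, Bool.and_eq_true, decide_eq_true_eq, Bool.not_eq_true',
    decide_eq_false_iff_not, not_not, ne_eq]
  tauto

private theorem sum_b (g : Bool → ℕ) :
    ∑ x : ZMod p, g (decide (x ≠ 0)) = g false + (p - 1) * g true := by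
  have hpp : p.Prime := Fact.out
  rw [← Finset.add_sum_erase _ _ (Finset.mem_univ (0 : ZMod p))]
  congr 1
  · simp
  · rw [Finset.sum_congr rfl (g := fun _ => g true)]
    · rw [Finset.sum_const, Finset.card_erase_of_mem (Finset.mem_univ _), Finset.card_univ,
        ZMod.card, smul_eq_mul]
    · intro x hx
      have : x ≠ 0 := Finset.ne_of_mem_erase hx
      simp [this]

private theorem sum_bd (g : Bool → ℕ) (t u : ZMod p) (h : t = 0 → u = 0 → ∀ b, g b = 0) :
    ∑ b : ZMod p, ∑ d : ZMod p, g (decide (b * u - d * t ≠ 0)) =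
      p * (g false + (p - 1) * g true) := by
  by_cases ht : t = 0
  · by_cases hu : u = 0
    · simp [h ht hu]
    · have h1 : ∀ b : ZMod p, ∑ d : ZMod p, g (decide (b * u - d * t ≠ 0)) =
          p * g (decide (b ≠ 0)) := by
        intro b
        simp [ht, hu, ZMod.card]
      rw [Finset.sum_congr rfl (fun b _ => h1 b), ← Finset.mul_sum, sum_b]
  · have h1 : ∀ b : ZMod p, ∑ d : ZMod p, g (decide (b * u - d * t ≠ 0)) =
        g false + (p - 1) * g true := by
      intro b
      rw [← sum_b]
      have hb : Function.Bijective (fun d : ZMod p => b * u - d * t) := by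
        refine (Finite.injective_iff_bijective).1 ?_
        intro x y hxy
        have h2 : b * u - x * t = b * u - y * t := hxy
        have h3 : x * t = y * t := by linear_combination -h2
        exact mul_right_cancel₀ ht h3
      exact hb.sum_comp (fun w => g (decide (w ≠ 0)))
    rw [Finset.sum_congr rfl (fun b _ => h1 b)]
    simp [ZMod.card]

private def evB (p : ℕ) (g : Bool → ℕ) : ℕ := g false + (p - 1) * g true

private theorem sum_5 (g : Bool → Bool → Bool → Bool → Bool → ℕ) :
    ∑ a : ZMod p, ∑ c : ZMod p, ∑ s : ZMod p, ∑ t : ZMod p, ∑ u : ZMod p,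
      g (decide (a ≠ 0)) (decide (c ≠ 0)) (decide (s ≠ 0)) (decide (t ≠ 0)) (decide (u ≠ 0)) =
    evB p fun a => evB p fun c => evB p fun s => evB p fun t => evB p fun u => g a c s t u := by
  have e1 : ∀ a c s t : Bool, ∑ u : ZMod p, g a c s t (decide (u ≠ 0)) =
    evB p fun u => g a c s t u := fun a c s t => sum_b _
  have e2 : ∀ a c s : Bool, ∑ t : ZMod p, (evB p fun u => g a c s (decide (t ≠ 0)) u) =
    evB p fun t => evB p fun u => g a c s t u := fun a c s =>
      sum_b (fun t => evB p fun u => g a c s t u)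
  have e3 : ∀ a c : Bool, ∑ s : ZMod p, (evB p fun t => evB p fun u =>
      g a c (decide (s ≠ 0)) t u) =
    evB p fun s => evB p fun t => evB p fun u => g a c s t u := fun a c =>
      sum_b (fun s => evB p fun t => evB p fun u => g a c s t u)
  have e4 : ∀ a : Bool, ∑ c : ZMod p, (evB p fun s => evB p fun t => evB p fun u =>
      g a (decide (c ≠ 0)) s t u) =
    evB p fun c => evB p fun s => evB p fun t => evB p fun u => g a c s t u := fun a =>
      sum_b (fun c => evB p fun s => evB p fun t => evB p fun u => g a c s t u)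
  simp only [e1, e2, e3, e4]
  exact sum_b (fun a => evB p fun c => evB p fun s => evB p fun t => evB p fun u => g a c s t u)

private def h3E : (ZMod p × ZMod p × ZMod p × ZMod p × ZMod p × ZMod p × ZMod p) ≃
    (Fin 7 → ZMod p) where
  toFun x := ![x.1, x.2.2.2.2.2.1, x.2.1, x.2.2.2.2.2.2, x.2.2.1, x.2.2.2.1, x.2.2.2.2.1]
  invFun v := (v 0, v 2, v 4, v 5, v 6, v 1, v 3)
  left_inv _ := rfl
  right_inv v := by
    funext i
    fin_cases i <;> rfl

/-- [C5 F5] number of admissible parameters of the family H3. The coordinates are `(a, b, c, d, s, t, u)`; for fixed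
`(t, u)` not both zero the map `(b, d) ↦ b u - d t` is onto with fibres of size `p`, and the rest is a count of the
patterns of zero coordinates (helper26). -/
theorem cardH3 (hp : p ≠ 2) : Nat.card {v : Fin 7 → ZMod p // (parH3 v).Ok} =
    p * (p - 1) ^ 3 * (p ^ 3 + 3 * p ^ 2 + 4 * p + 1 + if p % 3 = 1 then 0 else 1) := by
  classical
  have hpp : p.Prime := Fact.out
  have h1 : Nat.card {v : Fin 7 → ZMod p // (parH3 v).Ok} =
      ∑ a : ZMod p, ∑ c : ZMod p, ∑ s : ZMod p, ∑ t : ZMod p, ∑ u : ZMod p, ∑ b : ZMod p,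
        ∑ d : ZMod p, (okB (decide (p % 3 ≠ 1)) (decide (a ≠ 0)) (decide (s ≠ 0))
          (decide (c ≠ 0)) (decide (b * u - d * t ≠ 0)) (decide (t ≠ 0)) (decide (u ≠ 0))).toNat := by
    rw [Nat.card_eq_fintype_card, Fintype.card_subtype, Finset.card_filter,
      ← Equiv.sum_comp (h3E (p := p))]
    simp only [Fintype.sum_prod_type]
    refine Finset.sum_congr rfl fun a _ => Finset.sum_congr rfl fun c _ =>
      Finset.sum_congr rfl fun s _ => Finset.sum_congr rfl fun t _ =>
      Finset.sum_congr rfl fun u _ => Finset.sum_congr rfl fun b _ =>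
      Finset.sum_congr rfl fun d _ => ?_
    have h2 : (parH3 (h3E (a, c, s, t, u, b, d))).Ok ↔ _ := core_iff' hp a b c d s t u
    rw [if_congr h2 rfl rfl]
    cases okB (decide (p % 3 ≠ 1)) (decide (a ≠ 0)) (decide (s ≠ 0))
          (decide (c ≠ 0)) (decide (b * u - d * t ≠ 0)) (decide (t ≠ 0)) (decide (u ≠ 0)) <;> rfl
  rw [h1]
  have h2 : ∀ a c s t u : ZMod p, ∑ b : ZMod p,
        ∑ d : ZMod p, (okB (decide (p % 3 ≠ 1)) (decide (a ≠ 0)) (decide (s ≠ 0))
          (decide (c ≠ 0)) (decide (b * u - d * t ≠ 0)) (decide (t ≠ 0)) (decide (u ≠ 0))).toNat =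
      p * ((okB (decide (p % 3 ≠ 1)) (decide (a ≠ 0)) (decide (s ≠ 0))
          (decide (c ≠ 0)) false (decide (t ≠ 0)) (decide (u ≠ 0))).toNat +
        (p - 1) * (okB (decide (p % 3 ≠ 1)) (decide (a ≠ 0)) (decide (s ≠ 0))
          (decide (c ≠ 0)) true (decide (t ≠ 0)) (decide (u ≠ 0))).toNat) := by
    intro a c s t u
    refine sum_bd (fun w => (okB (decide (p % 3 ≠ 1)) (decide (a ≠ 0)) (decide (s ≠ 0))
          (decide (c ≠ 0)) w (decide (t ≠ 0)) (decide (u ≠ 0))).toNat) t u ?_
    intro ht hu b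
    simp [okB, ht, hu]
  simp only [h2]
  generalize hδ : decide (p % 3 ≠ 1) = δ
  rw [sum_5 (p := p) (fun a c s t u => p * ((okB δ a s c false t u).toNat +
    (p - 1) * (okB δ a s c true t u).toNat))]
  obtain ⟨q, hq⟩ : ∃ q, p = q + 1 := ⟨p - 1, by have := hpp.two_le; omega⟩
  have hq1 : p - 1 = q := by omega
  by_cases h3 : p % 3 = 1
  · have hδ' : δ = false := by rw [← hδ]; simp [h3]
    rw [if_pos h3]
    subst hδ'
    simp only [evB, okB, hq1, Bool.and_false, Bool.or_false, Bool.and_true, Bool.or_true,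
      Bool.not_false, Bool.not_true, Bool.toNat_false, Bool.toNat_true]
    rw [hq]
    ring
  · have hδ' : δ = true := by rw [← hδ]; simp [h3]
    rw [if_neg h3]
    subst hδ'
    simp only [evB, okB, hq1, Bool.and_false, Bool.or_false, Bool.and_true, Bool.or_true,
      Bool.not_false, Bool.not_true, Bool.toNat_false, Bool.toNat_true]
    rw [hq]
    ring

end MP_02e52a.Cnt
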