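import Pool.Agent.Lib.MP_02e52a_al.Cnt.L0

/-! # Stable planes, split case -/

namespace MP_02e52a.Cnt

open MP_02e52a.M7

variable {p : ℕ} [Fact p.Prime]

private theorem l2_lines {W : Type*} [AddCommGroup W] [Module (ZMod p) W] [Finite W]
    (hW : Module.finrank (ZMod p) W = 3) :
    Nat.card {Q : Submodule (ZMod p) W // Module.finrank (ZMod p) Q = 1} = p ^ 2 + p + 1 := by
  rw [← Nat.card_congr (Projectivization.equivSubmodule (ZMod p) W),
    Projectivization.card_of_finrank (ZMod p) W hW, Nat.card_eq_fintype_card, ZMod.card]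
  simp [Finset.sum_range_succ]
  ring

private theorem l2_planes {W : Type*} [AddCommGroup W] [Module (ZMod p) W] [Finite W]
    (hW : Module.finrank (ZMod p) W = 3) :
    Nat.card {Q : Submodule (ZMod p) W // Module.finrank (ZMod p) Q = 2} = p ^ 2 + p + 1 := by
  have h := card_planes 3 (by norm_num) hW
  have hp : 2 ≤ p := (Fact.out : p.Prime).two_le
  obtain ⟨k, rfl⟩ : ∃ k, p = k + 2 := ⟨p - 2, by omega⟩
  have e1 : (k + 2) ^ 2 - 1 = (k + 1) * (k + 3) := by
    rw [Nat.sub_eq_iff_eq_add (Nat.one_le_pow _ _ (by omega))]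
    ring
  have e2 : (k + 2) ^ 2 - (k + 2) = (k + 2) * (k + 1) := by
    rw [Nat.sub_eq_iff_eq_add (by nlinarith)]
    ring
  have e3 : (k + 2) ^ 3 - 1 = (k + 1) * ((k + 2) ^ 2 + (k + 2) + 1) := by
    rw [Nat.sub_eq_iff_eq_add (Nat.one_le_pow _ _ (by omega))]
    ring
  have e4 : (k + 2) ^ 3 - (k + 2) = (k + 2) * ((k + 1) * (k + 3)) := by
    rw [Nat.sub_eq_iff_eq_add (by nlinarith [sq_nonneg k])]
    ring
  rw [e1, e2, e3, e4] at h
  have hpos : 0 < (k + 1) * (k + 3) * ((k + 2) * (k + 1)) := by positivity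
  apply Nat.eq_of_mul_eq_mul_right hpos
  rw [h]
  ring

private theorem l2_zero {W : Type*} [AddCommGroup W] [Module (ZMod p) W] [Finite W] :
    Nat.card {Q : Submodule (ZMod p) W // Module.finrank (ZMod p) Q = 0} = 1 := by
  rw [Nat.card_eq_one_iff_unique]
  refine ⟨⟨?_⟩, ⟨⟨⊥, finrank_bot _ _⟩⟩⟩
  rintro ⟨a, ha⟩ ⟨b, hb⟩
  rw [Submodule.finrank_eq_zero] at ha hb
  subst ha
  subst hb
  rfl

/-- pairs of subspaces with total dimension two -/
private theorem l2_pairs {W W' : Type*} [AddCommGroup W] [Module (ZMod p) W] [Finite W]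
    [AddCommGroup W'] [Module (ZMod p) W'] [Finite W']
    (hW : Module.finrank (ZMod p) W = 3) (hW' : Module.finrank (ZMod p) W' = 3) :
    Nat.card {q : Submodule (ZMod p) W × Submodule (ZMod p) W' //
      Module.finrank (ZMod p) q.1 + Module.finrank (ZMod p) q.2 = 2} =
      (p ^ 2 + p + 1) * (p ^ 2 + p + 3) := by
  classical
  let X (i : ℕ) := {Q : Submodule (ZMod p) W // Module.finrank (ZMod p) Q = i}
  let Y (i : ℕ) := {Q : Submodule (ZMod p) W' // Module.finrank (ZMod p) Q = i}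
  let e : {q : Submodule (ZMod p) W × Submodule (ZMod p) W' //
      Module.finrank (ZMod p) q.1 + Module.finrank (ZMod p) q.2 = 2} ≃
      Σ i : Fin 3, X i × Y (2 - i) :=
    { toFun := fun q => ⟨⟨Module.finrank (ZMod p) q.1.1, by have := q.2; omega⟩, ⟨q.1.1, rfl⟩,
        ⟨q.1.2, by have := q.2; show _ = 2 - Module.finrank (ZMod p) q.1.1; omega⟩⟩
      invFun := fun r => ⟨(r.2.1.1, r.2.2.1), by
        have h1 := r.2.1.2
        have h2 := r.2.2.2
        have h3 := r.1.2
        show Module.finrank (ZMod p) r.2.1.1 + Module.finrank (ZMod p) r.2.2.1 = 2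
        rw [h1, h2]
        omega⟩
      left_inv := fun _ => rfl
      right_inv := by
        rintro ⟨⟨i, hi⟩, ⟨Q, hQ⟩, R, hR⟩
        have hQ' : Module.finrank (ZMod p) Q = i := hQ
        subst hQ'
        rfl }
  rw [Nat.card_congr e, Nat.card_sigma, Fin.sum_univ_three, Nat.card_prod, Nat.card_prod, Nat.card_prod]
  have x0 : Nat.card (X 0) = 1 := l2_zero
  have x1 : Nat.card (X 1) = p ^ 2 + p + 1 := l2_lines hW
  have x2 : Nat.card (X 2) = p ^ 2 + p + 1 := l2_planes hW
  have y0 : Nat.card (Y 0) = 1 := l2_zero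
  have y1 : Nat.card (Y 1) = p ^ 2 + p + 1 := l2_lines hW'
  have y2 : Nat.card (Y 2) = p ^ 2 + p + 1 := l2_planes hW'
  show Nat.card (X 0) * Nat.card (Y 2) + Nat.card (X 1) * Nat.card (Y 1) +
    Nat.card (X 2) * Nat.card (Y 0) = _
  rw [x0, x1, x2, y0, y1, y2]
  ring

private theorem l2_inf {V : Type*} [AddCommGroup V] [Module (ZMod p) V]
    {S T : Submodule (ZMod p) V} (hd : Disjoint S T) (Q R : Submodule (ZMod p) V)
    (hQ : Q ≤ S) (hR : R ≤ T) : (Q ⊔ R) ⊓ S = Q ∧ (Q ⊔ R) ⊓ T = R := by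
  constructor
  · rw [sup_inf_assoc_of_le R hQ]
    have h : R ⊓ S = ⊥ := by
      rw [eq_bot_iff, ← hd.eq_bot, inf_comm S T]
      exact inf_le_inf_right S hR
    rw [h, sup_bot_eq]
  · rw [sup_comm, sup_inf_assoc_of_le Q hR]
    have h : Q ⊓ T = ⊥ := by
      rw [eq_bot_iff, ← hd.eq_bot]
      exact inf_le_inf_right T hQ
    rw [h, sup_bot_eq]

private theorem l2_fr {V : Type*} [AddCommGroup V] [Module (ZMod p) V] [Finite V]
    {S T : Submodule (ZMod p) V} (hd : Disjoint S T) (Q : Submodule (ZMod p) S)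
    (R : Submodule (ZMod p) T) :
    Module.finrank (ZMod p) ↥(Q.map S.subtype ⊔ R.map T.subtype) =
      Module.finrank (ZMod p) Q + Module.finrank (ZMod p) R := by
  have hd' : Disjoint (Q.map S.subtype) (R.map T.subtype) :=
    hd.mono (Submodule.map_subtype_le _ _) (Submodule.map_subtype_le _ _)
  have h := Submodule.finrank_sup_add_finrank_inf_eq (Q.map S.subtype) (R.map T.subtype)
  rw [hd'.eq_bot, finrank_bot, add_zero, Submodule.finrank_map_subtype_eq,
    Submodule.finrank_map_subtype_eq] at h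
  exact h

/-- [C5 L2] PROOF: `V₊ = ker (A - c)`, `V₋ = ker (A + c)`, both of finrank 3 (hypotheses; `c ≠ 0`, `p ≠ 2`). For `x ∈ P` (P stable) the components `x₊ = (c x + A x) / (2 c)`,
`x₋ = (c x - A x) / (2 c)` lie in `P`. So `P = (P ⊓ V₊) ⊕ (P ⊓ V₋)`. The planes `P ≤ V₊` : by `card_planes` (n = 3) their number `N` satisfies
`N (p²-1)(p²-p) = (p³-1)(p³-p)`, i.e. `N = p² + p + 1`; same for `P ≤ V₋` (the two kinds are disjoint). All of them are stable. The other stable planes contain a nonzero `x ∈ V₊` and a nonzero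
`y ∈ V₋`, so `P = span {x, y}`: the number `M` of such planes satisfies `M (p-1)² = (p³-1)²` (count the pairs `(x, y)`; each such `P` has `P ⊓ V₊`, `P ⊓ V₋` of finrank 1).
Total `2 (p²+p+1) + (p²+p+1)²`. -/
theorem card_stable_sq (hp : p ≠ 2) {V : Type*} [AddCommGroup V] [Module (ZMod p) V] [Finite V]
    (A : V →ₗ[ZMod p] V) (c : ZMod p) (hc : c ≠ 0) (hA : ∀ x, A (A x) = c ^ 2 • x)
    (h1 : Module.finrank (ZMod p) (LinearMap.ker (A - c • LinearMap.id)) = 3)
    (h2 : Module.finrank (ZMod p) (LinearMap.ker (A + c • LinearMap.id)) = 3) :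
    Nat.card {P : Submodule (ZMod p) V // Module.finrank (ZMod p) P = 2 ∧ ∀ x ∈ P, A x ∈ P} =
      (p ^ 2 + p + 1) * (p ^ 2 + p + 3) := by
  classical
  set S := LinearMap.ker (A - c • LinearMap.id) with hS
  set T := LinearMap.ker (A + c • LinearMap.id) with hT
  have mS : ∀ x, x ∈ S ↔ A x = c • x := by
    intro x
    rw [hS, LinearMap.mem_ker, LinearMap.sub_apply, LinearMap.smul_apply, LinearMap.id_apply,
      sub_eq_zero]
  have mT : ∀ x, x ∈ T ↔ A x = -(c • x) := by
    intro x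
    rw [hT, LinearMap.mem_ker, LinearMap.add_apply, LinearMap.smul_apply, LinearMap.id_apply,
      add_eq_zero_iff_eq_neg]
  have h2c : (2 : ZMod p) * c ≠ 0 := by
    refine mul_ne_zero ?_ hc
    intro h
    have h' : ((2 : ℕ) : ZMod p) = 0 := by exact_mod_cast h
    exact hp ((Nat.prime_dvd_prime_iff_eq Fact.out Nat.prime_two).1
      ((ZMod.natCast_eq_zero_iff 2 p).1 h'))
  have hd : Disjoint S T := by
    rw [Submodule.disjoint_def]
    intro x hx hx'
    rw [mS] at hx
    rw [mT, hx, eq_neg_iff_add_eq_zero, ← add_smul, ← two_mul] at hx'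
    exact (smul_eq_zero.1 hx').resolve_left h2c
  -- stable subspaces are the sums of their parts
  have hst : ∀ P : Submodule (ZMod p) V, (∀ x ∈ P, A x ∈ P) → P = (P ⊓ S) ⊔ (P ⊓ T) := by
    intro P hP
    refine le_antisymm ?_ (sup_le inf_le_left inf_le_left)
    intro x hx
    rw [Submodule.mem_sup]
    refine ⟨(2 * c)⁻¹ • (c • x + A x), ⟨?_, ?_⟩, (2 * c)⁻¹ • (c • x - A x), ⟨?_, ?_⟩, ?_⟩
    · exact P.smul_mem _ (P.add_mem (P.smul_mem _ hx) (hP x hx))
    · show _ ∈ S
      rw [mS, map_smul, map_add, map_smul, hA]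
      module
    · exact P.smul_mem _ (P.sub_mem (P.smul_mem _ hx) (hP x hx))
    · show _ ∈ T
      rw [mT, map_smul, map_sub, map_smul, hA]
      module
    · have h : (2 * c)⁻¹ • (c • x + A x) + (2 * c)⁻¹ • (c • x - A x) = ((2 * c)⁻¹ * (2 * c)) • x := by
        module
      rw [h, inv_mul_cancel₀ h2c, one_smul]
  rw [← l2_pairs h1 h2]
  refine Nat.card_congr
    { toFun := fun P => ⟨(P.1.comap S.subtype, P.1.comap T.subtype), ?_⟩
      invFun := fun q => ⟨q.1.1.map S.subtype ⊔ q.1.2.map T.subtype, ?_, ?_⟩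
      left_inv := ?_
      right_inv := ?_ }
  · rw [← l2_fr hd, Submodule.map_comap_subtype, Submodule.map_comap_subtype, inf_comm S, inf_comm T,
      ← hst P.1 P.2.2]
    exact P.2.1
  · rw [l2_fr hd]
    exact q.2
  · intro x hx
    rw [Submodule.mem_sup] at hx ⊢
    obtain ⟨y, ⟨y', hy', rfl⟩, z, ⟨z', hz', rfl⟩, rfl⟩ := hx
    refine ⟨c • (y' : V), ⟨c • y', Submodule.smul_mem _ _ hy', rfl⟩, -(c • (z' : V)),
      ⟨-(c • z'), Submodule.neg_mem _ (Submodule.smul_mem _ _ hz'), rfl⟩, ?_⟩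
    rw [map_add]
    have e1 : A (S.subtype y') = c • (y' : V) := (mS _).1 y'.2
    have e2 : A (T.subtype z') = -(c • (z' : V)) := (mT _).1 z'.2
    rw [e1, e2]
  · rintro ⟨P, hP1, hP2⟩
    apply Subtype.ext
    show (P.comap S.subtype).map S.subtype ⊔ (P.comap T.subtype).map T.subtype = P
    rw [Submodule.map_comap_subtype, Submodule.map_comap_subtype, inf_comm S, inf_comm T, ← hst P hP2]
  · rintro ⟨⟨Q, R⟩, hq⟩
    apply Subtype.ext
    obtain ⟨h3, h4⟩ := l2_inf hd (Q.map S.subtype) (R.map T.subtype) (Submodule.map_subtype_le _ _)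
      (Submodule.map_subtype_le _ _)
    refine Prod.ext ?_ ?_
    · show (Q.map S.subtype ⊔ R.map T.subtype).comap S.subtype = Q
      apply Submodule.map_injective_of_injective S.injective_subtype
      rw [Submodule.map_comap_subtype, inf_comm, h3]
    · show (Q.map S.subtype ⊔ R.map T.subtype).comap T.subtype = R
      apply Submodule.map_injective_of_injective T.injective_subtype
      rw [Submodule.map_comap_subtype, inf_comm, h4]

end MP_02e52a.Cnt
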