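import Pool.Agent.Lib.MP_02e52a_al.Cnt.Stab

/-! # Facts on 2 x 2 matrices -/

namespace MP_02e52a.Cnt

open MP_02e52a.M7

variable {p : ℕ} [Fact p.Prime]

private theorem two_ne (hp : p ≠ 2) : (2 : ZMod p) ≠ 0 := by
  intro h
  have h1 : ((2 : ℕ) : ZMod p) = 0 := by exact_mod_cast h
  have h2 := (ZMod.natCast_eq_zero_iff 2 p).1 h1
  exact hp ((Nat.prime_dvd_prime_iff_eq Fact.out Nat.prime_two).1 h2)

private theorem mk_eq {a b c d a' b' c' d' : ZMod p} (h1 : a = a') (h2 : b = b') (h3 : c = c')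
    (h4 : d = d') : (!![a, b; c, d] : F2 p) = !![a', b'; c', d'] := by
  rw [h1, h2, h3, h4]

private theorem tr_form (z : F2 p) (h : z.trace = 0) : ∃ a b c : ZMod p, z = !![a, b; c, -a] :=
  ⟨_, _, _, eq_of_trace z h⟩

/-- [C5 M2a] traceless matrices: `s t + t s = tr (s t)`. PROOF: entries, `Matrix.trace_fin_two`, `ring`. -/
theorem anticomm (s t : F2 p) (hs : s.trace = 0) (ht : t.trace = 0) :
    s * t + t * s = (s * t).trace • (1 : F2 p) := by
  obtain ⟨a, b, c, rfl⟩ := tr_form s hs
  obtain ⟨a', b', c', rfl⟩ := tr_form t ht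
  ext i j
  fin_cases i <;> fin_cases j <;> simp [Matrix.trace_fin_two] <;> ring

/-- a traceless matrix commuting with a traceless invertible matrix is a multiple of it -/
private theorem comm_traceless (hp : p ≠ 2) (m r : F2 p) (hm : m.trace = 0) (hr : r.trace = 0)
    (hmd : m.det ≠ 0) (h : r * m = m * r) : ∃ c : ZMod p, r = c • m := by
  have h2 := two_ne hp
  have e1 := anticomm r m hr hm
  rw [← h] at e1
  have e2 : (2 : ZMod p) • (r * m) = (r * m).trace • (1 : F2 p) := by
    rw [two_smul]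
    exact e1
  have e3 : r * m = (2⁻¹ * (r * m).trace) • (1 : F2 p) := by
    rw [mul_smul, ← e2, smul_smul, inv_mul_cancel₀ h2, one_smul]
  have e4 : (-m.det) • r = (2⁻¹ * (r * m).trace) • m := by
    have e5 : r * m * m = (-m.det) • r := by
      rw [Matrix.mul_assoc, mul_self_of_trace m hm, Matrix.mul_smul, Matrix.mul_one]
    rw [← e5]
    nth_rewrite 1 [e3]
    rw [Matrix.smul_mul, Matrix.one_mul]
  refine ⟨(-m.det)⁻¹ * (2⁻¹ * (r * m).trace), ?_⟩
  rw [mul_smul, ← e4, smul_smul, inv_mul_cancel₀ (neg_ne_zero.2 hmd), one_smul]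

/-- [C5 M2b] the orthogonal complement of two anticommuting elements. PROOF: `m := s * t` is traceless, and
`tr (m s) = tr (m t) = 0` (e.g. `s t s = - s s t`), `m ≠ 0` (its determinant is nonzero). Traceless matrices `r = (r0, r1; r2, -r0)`
with `tr (r s) = 2 r0 s0 + r1 s2 + r2 s1 = 0`, `tr (r t) = 0`: two linear equations for `(r0, r1, r2)`, independent because `s`, `t`
are independent (`s = c t` would give `tr (s t) = c tr (t t) = -2 c det t ≠ 0`), so the solutions are the multiples of
`m` (`hp` is used here: `2 ≠ 0`). An explicit way: `r = c m` with `c = tr (r m) / tr (m m)`, `tr (m m) = - 2 det m`; check the three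
coordinates of `tr (m m) r - tr (r m) m` : it is orthogonal to `s`, `t`, `m` and the form `(x, y) ↦ tr (x y)` is nondegenerate on traceless
matrices. -/
theorem exists_smul_of_perp (hp : p ≠ 2) (s t r : F2 p) (hs : s.trace = 0) (ht : t.trace = 0) (hr : r.trace = 0)
    (hsd : s.det ≠ 0) (htd : t.det ≠ 0) (hst : (s * t).trace = 0) (h1 : (r * s).trace = 0)
    (h2 : (r * t).trace = 0) : ∃ c : ZMod p, r = c • (s * t) := by
  apply comm_traceless hp (s * t) r hst hr
  · rw [Matrix.det_mul]
    exact mul_ne_zero hsd htd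
  · have e1 := anticomm r s hr hs
    rw [h1, zero_smul] at e1
    have e2 := anticomm r t hr ht
    rw [h2, zero_smul] at e2
    have e3 : r * s = -(s * r) := eq_neg_of_add_eq_zero_left e1
    have e4 : r * t = -(t * r) := eq_neg_of_add_eq_zero_left e2
    calc r * (s * t) = (r * s) * t := (Matrix.mul_assoc _ _ _).symm
      _ = -(s * (r * t)) := by rw [e3, Matrix.neg_mul, Matrix.mul_assoc]
      _ = s * t * r := by rw [e4, Matrix.mul_neg, neg_neg, Matrix.mul_assoc]

/-- [C5 M2c] the orthogonal complement of `z` is `F[z] s`. PROOF: `t s` commutes with `z` (`z t s = - t z s = t s z`; anticommutation from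
`anticomm`), `z` is not a scalar (traceless, `det ≠ 0`, `p ≠ 2`), so `t s = α' + β' z` (the commutant of a non-scalar `2 × 2` matrix `z` consists
of the `α' + β' z`), and `t = (t s) s * (- det s)⁻¹` because `s s = - det s`. Alternatively solve for `α, β` explicitly. -/
theorem exists_comb (hp : p ≠ 2) (z s t : F2 p) (hz : z.trace = 0) (hs : s.trace = 0) (ht : t.trace = 0)
    (hzd : z.det ≠ 0) (hsd : s.det ≠ 0) (h1 : (z * s).trace = 0) (h2 : (z * t).trace = 0) :
    ∃ α β : ZMod p, t = (α • (1 : F2 p) + β • z) * s := by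
  have h20 := two_ne hp
  have e1 := anticomm z s hz hs
  rw [h1, zero_smul] at e1
  have e2 := anticomm z t hz ht
  rw [h2, zero_smul] at e2
  have e3 : z * s = -(s * z) := eq_neg_of_add_eq_zero_left e1
  have e4 : z * t = -(t * z) := eq_neg_of_add_eq_zero_left e2
  have hcomm : (t * s) * z = z * (t * s) := by
    calc (t * s) * z = t * (s * z) := Matrix.mul_assoc _ _ _
      _ = -(t * (z * s)) := by rw [e3, Matrix.mul_neg, neg_neg]
      _ = -((t * z) * s) := by rw [Matrix.mul_assoc]
      _ = (z * t) * s := by rw [e4, Matrix.neg_mul]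
      _ = z * (t * s) := Matrix.mul_assoc _ _ _
  let γ : ZMod p := 2⁻¹ * (t * s).trace
  let r : F2 p := t * s - γ • (1 : F2 p)
  have hr : r.trace = 0 := by
    change (t * s - γ • (1 : F2 p)).trace = 0
    rw [Matrix.trace_sub, Matrix.trace_smul, Matrix.trace_one, Fintype.card_fin, smul_eq_mul]
    change (t * s).trace - 2⁻¹ * (t * s).trace * ((2 : ℕ) : ZMod p) = 0
    push_cast
    field_simp
    ring
  have hrz : r * z = z * r := by
    change (t * s - γ • (1 : F2 p)) * z = z * (t * s - γ • (1 : F2 p))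
    rw [Matrix.sub_mul, Matrix.mul_sub, hcomm, Matrix.smul_mul, Matrix.mul_smul, Matrix.one_mul,
      Matrix.mul_one]
  obtain ⟨β, hβ⟩ := comm_traceless hp z r hz hr hzd hrz
  have hts : t * s = γ • (1 : F2 p) + β • z := by
    rw [← hβ]
    change t * s = γ • (1 : F2 p) + (t * s - γ • (1 : F2 p))
    abel
  have hD : -s.det ≠ 0 := neg_ne_zero.2 hsd
  have h5 : (-s.det) • t = (γ • (1 : F2 p) + β • z) * s := by
    rw [← hts, Matrix.mul_assoc, mul_self_of_trace s hs, Matrix.mul_smul, Matrix.mul_one]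
  refine ⟨(-s.det)⁻¹ * γ, (-s.det)⁻¹ * β, ?_⟩
  have h6 : t = (-s.det)⁻¹ • ((-s.det) • t) := by
    rw [smul_smul, inv_mul_cancel₀ hD, one_smul]
  rw [h6, h5, ← Matrix.smul_mul, smul_add, smul_smul, smul_smul]

/-- [C5 M2d] companion form of a traceless matrix. PROOF: `z` is not a scalar, so there is a vector `v` with `v, z v` independent
(one of `e0, e1, e0 + e1`); let `c = (v | z v)` (columns), then `z c = c (0, D; 1, 0)` with `D = - det z` (`z z = D`), `b = c⁻¹`. -/
theorem conj_comp (hp : p ≠ 2) (z : F2 p) (hz : z.trace = 0) (hzd : z.det ≠ 0) :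
    ∃ b : F2 p, b.det ≠ 0 ∧ cj b z = !![0, -z.det; 1, 0] := by
  have h20 := two_ne hp
  obtain ⟨a, b, c, rfl⟩ := tr_form z hz
  rw [Matrix.det_fin_two_of] at hzd ⊢
  by_cases hc : c = 0
  · by_cases hb : b = 0
    · subst hb
      subst hc
      have ha : a ≠ 0 := by
        intro ha
        apply hzd
        rw [ha]
        ring
      have hd : (!![-a, -a; -1, 1] : F2 p).det ≠ 0 := by
        rw [Matrix.det_fin_two_of]
        have : -a * 1 - -a * -1 = -(2 * a) := by ring
        rw [this]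
        exact neg_ne_zero.2 (mul_ne_zero h20 ha)
      refine ⟨!![-a, -a; -1, 1], hd, ?_⟩
      symm
      apply eq_cj _ hd
      rw [Matrix.mul_fin_two, Matrix.mul_fin_two]
      exact mk_eq (by ring) (by ring) (by ring) (by ring)
    · have hd : (!![-a, -b; -1, 0] : F2 p).det ≠ 0 := by
        rw [Matrix.det_fin_two_of]
        have : -a * 0 - -b * -1 = -b := by ring
        rw [this]
        exact neg_ne_zero.2 hb
      refine ⟨!![-a, -b; -1, 0], hd, ?_⟩
      symm
      apply eq_cj _ hd
      rw [Matrix.mul_fin_two, Matrix.mul_fin_two]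
      exact mk_eq (by ring) (by ring) (by ring) (by ring)
  · have hd : (!![c, -a; 0, 1] : F2 p).det ≠ 0 := by
      rw [Matrix.det_fin_two_of]
      have : c * 1 - -a * 0 = c := by ring
      rw [this]
      exact hc
    refine ⟨!![c, -a; 0, 1], hd, ?_⟩
    symm
    apply eq_cj _ hd
    rw [Matrix.mul_fin_two, Matrix.mul_fin_two]
    exact mk_eq (by ring) (by ring) (by ring) (by ring)

/-- nilpotent matrices are traceless -/
private theorem nilp_form (n : F2 p) (hn : n ≠ 0) (hn2 : n * n = 0) :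
    ∃ a b c : ZMod p, n = !![a, b; c, -a] ∧ a ^ 2 + b * c = 0 := by
  have e : ∀ i j, n i 0 * n 0 j + n i 1 * n 1 j = 0 := by
    intro i j
    have h := congrFun (congrFun hn2 i) j
    rw [Matrix.mul_apply, Fin.sum_univ_two] at h
    exact h
  have e00 := e 0 0
  have e01 := e 0 1
  have e10 := e 1 0
  have e11 := e 1 1
  have htr : n 0 0 + n 1 1 = 0 := by
    by_contra htr
    have h1 : n 0 1 = 0 := by
      have : (n 0 0 + n 1 1) * n 0 1 = 0 := by linear_combination e01
      exact (mul_eq_zero.1 this).resolve_left htr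
    have h2 : n 1 0 = 0 := by
      have : (n 0 0 + n 1 1) * n 1 0 = 0 := by linear_combination e10
      exact (mul_eq_zero.1 this).resolve_left htr
    rw [h1, zero_mul, add_zero] at e00
    rw [h2, zero_mul, zero_add] at e11
    have h3 : n 0 0 = 0 := mul_self_eq_zero.1 e00
    have h4 : n 1 1 = 0 := mul_self_eq_zero.1 e11
    apply htr
    rw [h3, h4, add_zero]
  refine ⟨n 0 0, n 0 1, n 1 0, ?_, ?_⟩
  · apply eq_of_trace
    rw [Matrix.trace_fin_two]
    exact htr
  · linear_combination e00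

/-- [C5 M2e] PROOF: choose `v` with `n v ≠ 0`, `c = (n v | v)` (columns): `n c = c (0, 1; 0, 0)`; `b = c⁻¹`. -/
theorem conj_nilp (n : F2 p) (hn : n ≠ 0) (hn2 : n * n = 0) :
    ∃ b : F2 p, b.det ≠ 0 ∧ cj b n = !![0, 1; 0, 0] := by
  obtain ⟨a, b, c, rfl, h⟩ := nilp_form n hn hn2
  by_cases hc : c = 0
  · subst hc
    have ha : a = 0 := by
      rw [mul_zero, add_zero] at h
      exact pow_eq_zero_iff (two_ne_zero) |>.1 h
    subst ha
    have hb : b ≠ 0 := by
      intro hb
      apply hn
      rw [hb, neg_zero]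
      ext i j
      fin_cases i <;> fin_cases j <;> rfl
    have hd : (!![1, 0; 0, b] : F2 p).det ≠ 0 := by
      rw [Matrix.det_fin_two_of]
      have : 1 * b - 0 * 0 = b := by ring
      rw [this]
      exact hb
    refine ⟨!![1, 0; 0, b], hd, ?_⟩
    symm
    apply eq_cj _ hd
    rw [Matrix.mul_fin_two, Matrix.mul_fin_two]
    exact mk_eq (by ring) (by ring) (by ring) (by ring)
  · have hd : (!![0, -1; -c, a] : F2 p).det ≠ 0 := by
      rw [Matrix.det_fin_two_of]
      have : 0 * a - -1 * -c = -c := by ring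
      rw [this]
      exact neg_ne_zero.2 hc
    refine ⟨!![0, -1; -c, a], hd, ?_⟩
    symm
    apply eq_cj _ hd
    rw [Matrix.mul_fin_two, Matrix.mul_fin_two]
    exact mk_eq (by ring) (by ring) (by ring) (by linear_combination h)

/-- [C5 M2f] two non-proportional nilpotent matrices. PROOF: let `v` span `ker n = im n` and `v'` span `ker n' = im n'`. If `v' ∝ v` then
`n, n'` are proportional (both are `v` times a linear form vanishing on `v`). So `c = (v | v')` is invertible, `n v = 0`, `n v' ∈ im n = F v`, `n' v' = 0`,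
`n' v ∈ F v'`. -/
theorem conj_nilp2 (n n' : F2 p) (hn : n ≠ 0) (hn2 : n * n = 0) (hn' : n' ≠ 0) (hn2' : n' * n' = 0)
    (h : ∀ c : ZMod p, n' ≠ c • n) :
    ∃ (b : F2 p) (c c' : ZMod p), b.det ≠ 0 ∧ c ≠ 0 ∧ c' ≠ 0 ∧ cj b n = !![0, c; 0, 0] ∧
      cj b n' = !![0, 0; c', 0] := by
  obtain ⟨b1, hb1, hc1⟩ := conj_nilp n hn hn2
  have hu : IsUnit b1.det := isUnit_iff_ne_zero.2 hb1
  have hinj : ∀ x : F2 p, cj b1 x = 0 → x = 0 := by
    intro x hx
    have h1 := cj_mul_self b1 hb1 x
    rw [hx, Matrix.zero_mul] at h1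
    calc x = b1⁻¹ * (b1 * x) := by
          rw [← Matrix.mul_assoc, Matrix.nonsing_inv_mul _ hu, Matrix.one_mul]
      _ = 0 := by rw [← h1, Matrix.mul_zero]
  have hm2 : cj b1 n' * cj b1 n' = 0 := by
    rw [← cj_mul b1 hb1, hn2']
    unfold cj
    rw [Matrix.mul_zero, Matrix.zero_mul]
  have hm : cj b1 n' ≠ 0 := fun e => hn' (hinj n' e)
  obtain ⟨a, b, c, hform, hab⟩ := nilp_form (cj b1 n') hm hm2
  have hc : c ≠ 0 := by
    intro hc
    subst hc
    have ha : a = 0 := by
      rw [mul_zero, add_zero] at hab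
      exact pow_eq_zero_iff (two_ne_zero) |>.1 hab
    subst ha
    apply h b
    have h3 : cj b1 (n' - b • n) = 0 := by
      have h4 : cj b1 (n' - b • n) = cj b1 n' - b • cj b1 n := by
        unfold cj
        rw [Matrix.mul_sub, Matrix.sub_mul, Matrix.mul_smul, Matrix.smul_mul]
      rw [h4, hform, hc1]
      ext i j
      fin_cases i <;> fin_cases j <;> simp
    exact sub_eq_zero.1 (hinj _ h3)
  have hd : (!![c, -a; 0, 1] : F2 p).det ≠ 0 := by
    rw [Matrix.det_fin_two_of]
    have : c * 1 - -a * 0 = c := by ring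
    rw [this]
    exact hc
  have hdd : (!![c, -a; 0, 1] * b1 : F2 p).det ≠ 0 := by
    rw [Matrix.det_mul]
    exact mul_ne_zero hd hb1
  refine ⟨!![c, -a; 0, 1] * b1, c, 1, hdd, hc, one_ne_zero, ?_, ?_⟩
  · symm
    apply eq_cj _ hdd
    have h5 : b1 * n = !![0, 1; 0, 0] * b1 := by rw [← hc1, cj_mul_self b1 hb1]
    rw [Matrix.mul_assoc, h5, ← Matrix.mul_assoc, ← Matrix.mul_assoc]
    congr 1
    rw [Matrix.mul_fin_two, Matrix.mul_fin_two]
    exact mk_eq (by ring) (by ring) (by ring) (by ring)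
  · symm
    apply eq_cj _ hdd
    have h5 : b1 * n' = !![a, b; c, -a] * b1 := by rw [← hform, cj_mul_self b1 hb1]
    rw [Matrix.mul_assoc, h5, ← Matrix.mul_assoc, ← Matrix.mul_assoc]
    congr 1
    rw [Matrix.mul_fin_two, Matrix.mul_fin_two]
    exact mk_eq (by ring) (by linear_combination -hab) (by ring) (by ring)

/-- [C5 M2g] diagonal form in the split case. PROOF: `z ≠ ± c` (its trace is `0`, `2 c ≠ 0`), choose columns `v ∈ im (z + c)`,
`v' ∈ im (z - c)` nonzero: `z v = c v`, `z v' = - c v'` as `z z = c²`. -/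
theorem conj_diag (hp : p ≠ 2) (z : F2 p) (hz : z.trace = 0) (c : ZMod p) (hc : c ≠ 0) (h : -z.det = c ^ 2) :
    ∃ b : F2 p, b.det ≠ 0 ∧ cj b z = !![c, 0; 0, -c] := by
  have h20 := two_ne hp
  obtain ⟨x, y, w, rfl⟩ := tr_form z hz
  rw [Matrix.det_fin_two_of] at h
  have h' : x ^ 2 + y * w = c ^ 2 := by linear_combination h
  by_cases hw : w = 0
  · subst hw
    rw [mul_zero, add_zero] at h'
    rcases sq_eq_sq_iff_eq_or_eq_neg.1 h' with hx | hx
    · subst hx
      have hd : (!![-(2 * x), -y; 0, 1] : F2 p).det ≠ 0 := by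
        rw [Matrix.det_fin_two_of]
        have : -(2 * x) * 1 - -y * 0 = -(2 * x) := by ring
        rw [this]
        exact neg_ne_zero.2 (mul_ne_zero h20 hc)
      refine ⟨!![-(2 * x), -y; 0, 1], hd, ?_⟩
      symm
      apply eq_cj _ hd
      rw [Matrix.mul_fin_two, Matrix.mul_fin_two]
      exact mk_eq (by ring) (by ring) (by ring) (by ring)
    · subst hx
      have hd : (!![0, -1; -(2 * c), y] : F2 p).det ≠ 0 := by
        rw [Matrix.det_fin_two_of]
        have : 0 * y - -1 * -(2 * c) = -(2 * c) := by ring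
        rw [this]
        exact neg_ne_zero.2 (mul_ne_zero h20 hc)
      refine ⟨!![0, -1; -(2 * c), y], hd, ?_⟩
      symm
      apply eq_cj _ hd
      rw [Matrix.mul_fin_two, Matrix.mul_fin_two]
      exact mk_eq (by ring) (by ring) (by ring) (by ring)
  · have hd : (!![w, c - x; -w, x + c] : F2 p).det ≠ 0 := by
      rw [Matrix.det_fin_two_of]
      have : w * (x + c) - (c - x) * -w = 2 * c * w := by ring
      rw [this]
      exact mul_ne_zero (mul_ne_zero h20 hc) hw
    refine ⟨!![w, c - x; -w, x + c], hd, ?_⟩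
    symm
    apply eq_cj _ hd
    rw [Matrix.mul_fin_two, Matrix.mul_fin_two]
    exact mk_eq (by ring) (by linear_combination -h') (by ring) (by linear_combination h')

end MP_02e52a.Cnt
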