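import Pool.Agent.Lib.MP_02e52a_al.Cnt.L1
import Pool.Agent.Lib.MP_02e52a_al.Cnt.L2
import Pool.Agent.Lib.MP_02e52a_al.Cnt.Mat2

/-! # Planes fixed by an involution -/

namespace MP_02e52a.Cnt

open MP_02e52a.M7

variable {p : ℕ} [Fact p.Prime]

private theorem fs_iff (s : F2 p) (hs : s.trace = 0) (hsd : s.det ≠ 0)
    (P : Submodule (ZMod p) (M6 p)) : s ∈ JJ P ↔ ∀ x ∈ P, actM s x ∈ P :=
  ⟨fun h => h.2.2, fun h => ⟨hs, hsd, h⟩⟩

private theorem fs_card (s : F2 p) (hs : s.trace = 0) (hsd : s.det ≠ 0) :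
    Nat.card {P : Gr p // s ∈ JJ P.1} =
      Nat.card {P : Submodule (ZMod p) (M6 p) // Module.finrank (ZMod p) P = 2 ∧
        ∀ x ∈ P, actM s x ∈ P} := by
  refine Nat.card_congr ?_
  refine (Equiv.subtypeSubtypeEquivSubtypeInter
    (fun P : Submodule (ZMod p) (M6 p) => Module.finrank (ZMod p) P = 2)
    (fun P => s ∈ JJ P)).trans (Equiv.subtypeEquivRight fun P => ?_)
  rw [fs_iff s hs hsd P]

private theorem fs_finrank : Module.finrank (ZMod p) (M6 p) = 6 := by
  rw [Module.finrank_matrix]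
  simp

/-- the coordinate embeddings -/
private def fs_g1 : (Fin 3 → ZMod p) →ₗ[ZMod p] M6 p where
  toFun v := !![0, v 0; 0, v 1; v 2, 0]
  map_add' u v := by
    ext i j
    fin_cases i <;> fin_cases j <;> simp
  map_smul' c v := by
    ext i j
    fin_cases i <;> fin_cases j <;> simp

private def fs_g2 : (Fin 3 → ZMod p) →ₗ[ZMod p] M6 p where
  toFun v := !![v 0, 0; v 1, 0; 0, v 2]
  map_add' u v := by
    ext i j
    fin_cases i <;> fin_cases j <;> simp
  map_smul' c v := by
    ext i j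
    fin_cases i <;> fin_cases j <;> simp

private theorem fs_inj1 : Function.Injective (fs_g1 (p := p)) := by
  intro u v h
  have h0 := congrFun (congrFun h 0) 1
  have h1 := congrFun (congrFun h 1) 1
  have h2 := congrFun (congrFun h 2) 0
  simp [fs_g1] at h0 h1 h2
  ext i
  fin_cases i
  · exact h0
  · exact h1
  · exact h2

private theorem fs_inj2 : Function.Injective (fs_g2 (p := p)) := by
  intro u v h
  have h0 := congrFun (congrFun h 0) 0
  have h1 := congrFun (congrFun h 1) 0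
  have h2 := congrFun (congrFun h 2) 1
  simp [fs_g2] at h0 h1 h2
  ext i
  fin_cases i
  · exact h0
  · exact h1
  · exact h2

private theorem fs_act (c : ZMod p) (T : M6 p) : actM (!![c, 0; 0, -c] : F2 p) T =
    !![-c ^ 3 * T 0 0, c ^ 3 * T 0 1; -c ^ 3 * T 1 0, c ^ 3 * T 1 1;
      c ^ 3 * T 2 0, -c ^ 3 * T 2 1] := by
  ext i j
  simp only [actM_entry, Matrix.adjugate_fin_two, M7.sq]
  fin_cases i <;> fin_cases j <;> simp <;> ring

private theorem fs_two (hp : p ≠ 2) : (2 : ZMod p) ≠ 0 := by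
  have h : (2 : ZMod p) = ((2 : ℕ) : ZMod p) := by norm_cast
  rw [h, Ne, ZMod.natCast_eq_zero_iff]
  intro h2
  have := (Nat.prime_dvd_prime_iff_eq (Fact.out : p.Prime) Nat.prime_two).1 h2
  exact hp this

private theorem fs_zero (hp : p ≠ 2) {c x : ZMod p} (hc : c ≠ 0) (h : -c ^ 3 * x = c ^ 3 * x) :
    x = 0 := by
  have h1 : (2 : ZMod p) * c ^ 3 * x = 0 := by linear_combination -h
  rcases mul_eq_zero.1 h1 with h2 | h2
  · exact absurd h2 (mul_ne_zero (fs_two hp) (pow_ne_zero 3 hc))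
  · exact h2

private theorem fs_ker1 (hp : p ≠ 2) (c : ZMod p) (hc : c ≠ 0) :
    LinearMap.ker (actM (!![c, 0; 0, -c] : F2 p) - (c ^ 3) • LinearMap.id) =
      LinearMap.range (fs_g1 (p := p)) := by
  ext T
  rw [LinearMap.mem_ker, LinearMap.sub_apply, LinearMap.smul_apply, LinearMap.id_apply,
    sub_eq_zero, fs_act, LinearMap.mem_range]
  constructor
  · intro h
    have h0 := congrFun (congrFun h 0) 0
    have h1 := congrFun (congrFun h 1) 0
    have h2 := congrFun (congrFun h 2) 1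
    simp only [Matrix.smul_apply, smul_eq_mul, Matrix.of_apply, Matrix.cons_val', Matrix.cons_val_zero,
      Matrix.cons_val_one, Matrix.cons_val_fin_one, Matrix.cons_val] at h0 h1 h2
    refine ⟨![T 0 1, T 1 1, T 2 0], ?_⟩
    ext i j
    fin_cases i <;> fin_cases j
    · simpa [fs_g1] using (fs_zero hp hc h0).symm
    · simp [fs_g1]
    · simpa [fs_g1] using (fs_zero hp hc h1).symm
    · simp [fs_g1]
    · simp [fs_g1]
    · simpa [fs_g1] using (fs_zero hp hc h2).symm
  · rintro ⟨v, rfl⟩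
    ext i j
    fin_cases i <;> fin_cases j <;> simp [fs_g1]

private theorem fs_ker2 (hp : p ≠ 2) (c : ZMod p) (hc : c ≠ 0) :
    LinearMap.ker (actM (!![c, 0; 0, -c] : F2 p) + (c ^ 3) • LinearMap.id) =
      LinearMap.range (fs_g2 (p := p)) := by
  ext T
  rw [LinearMap.mem_ker, LinearMap.add_apply, LinearMap.smul_apply, LinearMap.id_apply,
    add_eq_zero_iff_eq_neg, fs_act, LinearMap.mem_range]
  constructor
  · intro h
    have h0 := congrFun (congrFun h 0) 1
    have h1 := congrFun (congrFun h 1) 1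
    have h2 := congrFun (congrFun h 2) 0
    simp only [Matrix.neg_apply, Matrix.smul_apply, smul_eq_mul, Matrix.of_apply, Matrix.cons_val',
      Matrix.cons_val_zero, Matrix.cons_val_one, Matrix.cons_val_fin_one, Matrix.cons_val]
      at h0 h1 h2
    have e : ∀ x : ZMod p, c ^ 3 * x = -(c ^ 3 * x) → x = 0 := fun x hx =>
      fs_zero hp hc (by linear_combination -hx)
    refine ⟨![T 0 0, T 1 0, T 2 1], ?_⟩
    ext i j
    fin_cases i <;> fin_cases j
    · simp [fs_g2]
    · simpa [fs_g2] using (e _ h0).symm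
    · simp [fs_g2]
    · simpa [fs_g2] using (e _ h1).symm
    · simpa [fs_g2] using (e _ h2).symm
    · simp [fs_g2]
  · rintro ⟨v, rfl⟩
    ext i j
    fin_cases i <;> fin_cases j <;> simp [fs_g2]

/-- [C5 FS] PROOF. `A = actM s`, `A² = (- det s)³` (`actM_actM`). `s ∈ JJ P` iff `∀ x ∈ P, A x ∈ P` (trace and det are given). If `- det s` is not a square then `(- det s)³` is not a square
(`(- det s)³ = (- det s)² (- det s)`), use `card_stable_nonsq` (finrank of `M6` is 6). If `- det s = c²`: by `conj_diag` and `trG` (`JJ_cj`) we may assume `s = (c, 0; 0, -c)`; then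
`A T` has the entries `T00 ↦ - c³ T00, T01 ↦ c³ T01, T10 ↦ - c³ T10, T11 ↦ c³ T11, T20 ↦ c³ T20, T21 ↦ - c³ T21`, so both kernels `ker (A ∓ c³)` have finrank 3
(coordinate subspaces), and `A² = (c³)²`; use `card_stable_sq`. -/
theorem card_fix (hp : p ≠ 2) (s : F2 p) (hs : s.trace = 0) (hsd : s.det ≠ 0) :
    (IsSquare (-s.det) → Nat.card {P : Gr p // s ∈ JJ P.1} = (p ^ 2 + p + 1) * (p ^ 2 + p + 3)) ∧
    (¬ IsSquare (-s.det) → Nat.card {P : Gr p // s ∈ JJ P.1} = p ^ 4 + p ^ 2 + 1) := by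
  have hD : -s.det ≠ 0 := neg_ne_zero.2 hsd
  constructor
  · rintro ⟨c, hc⟩
    have hc0 : c ≠ 0 := by
      rintro rfl
      rw [mul_zero] at hc
      exact hD hc
    obtain ⟨b, hb, hbs⟩ := conj_diag hp s hs c hc0 (by rw [hc]; ring)
    have h1 : Nat.card {P : Gr p // s ∈ JJ P.1} =
        Nat.card {P : Gr p // (!![c, 0; 0, -c] : F2 p) ∈ JJ P.1} := by
      refine Nat.card_congr (Equiv.subtypeEquiv (trG b hb) fun P => ?_)
      rw [← hbs]
      exact (JJ_cj b hb P s).symm
    have ht : (!![c, 0; 0, -c] : F2 p).trace = 0 := by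
      rw [Matrix.trace_fin_two]
      simp
    have hd : (!![c, 0; 0, -c] : F2 p).det = -c ^ 2 := by
      rw [Matrix.det_fin_two]
      simp
      ring
    have hd0 : (!![c, 0; 0, -c] : F2 p).det ≠ 0 := by
      rw [hd]
      exact neg_ne_zero.2 (pow_ne_zero 2 hc0)
    rw [h1, fs_card _ ht hd0]
    refine card_stable_sq hp (actM (!![c, 0; 0, -c] : F2 p)) (c ^ 3) (pow_ne_zero 3 hc0) ?_ ?_ ?_
    · intro x
      rw [actM_actM _ ht, hd]
      congr 1
      ring
    · rw [fs_ker1 hp c hc0, LinearMap.finrank_range_of_inj fs_inj1]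
      simp
    · rw [fs_ker2 hp c hc0, LinearMap.finrank_range_of_inj fs_inj2]
      simp
  · intro hns
    rw [fs_card s hs hsd]
    refine card_stable_nonsq fs_finrank (actM s) ((-s.det) ^ 3) ?_ (fun x => actM_actM s hs x)
    rintro ⟨r, hr⟩
    apply hns
    refine ⟨r / (-s.det), ?_⟩
    rw [div_mul_div_comm, ← hr]
    field_simp

end MP_02e52a.Cnt
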