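import Pool.Agent.Lib.MP_02e52a_al.Cnt.L3
import Pool.Agent.Lib.MP_02e52a_al.Cnt.Mat2

/-! # Planes fixed by a four-group -/

namespace MP_02e52a.Cnt

open MP_02e52a.M7

variable {p : ℕ} [Fact p.Prime]

/-- [C5 FV] PROOF: `card_stable_quat` with `A = actM s`, `B = actM t`, `e = (- det s)³`, `f = (- det t)³`; `A B = - B A` because `s t = - t s` (`anticomm`) and `actM (- a) = - actM a`
(`actM_smul` with `c = -1`). `s ∈ JJ P` iff `∀ x ∈ P, A x ∈ P`. -/
theorem card_fix2 (hp : p ≠ 2) (s t : F2 p) (hs : s.trace = 0) (hsd : s.det ≠ 0) (ht : t.trace = 0)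
    (htd : t.det ≠ 0) (hst : (s * t).trace = 0) :
    Nat.card {P : Gr p // s ∈ JJ P.1 ∧ t ∈ JJ P.1} = p ^ 2 + p + 1 := by
  have hV : Module.finrank (ZMod p) (M6 p) = 6 := by
    rw [Module.finrank_matrix]; simp
  have hAB : ∀ x, actM s (actM t x) = - actM t (actM s x) := by
    intro x
    have h1 : s * t = (-1 : ZMod p) • (t * s) := by
      rw [neg_smul, one_smul]
      have h2 := anticomm s t hs ht
      rw [hst, zero_smul] at h2
      exact eq_neg_of_add_eq_zero_left h2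
    rw [← actM_mul, h1, actM_smul, actM_mul]
    norm_num
  rw [← card_stable_quat hp hV (actM s) (actM t) ((-s.det) ^ 3) ((-t.det) ^ 3)
    (pow_ne_zero 3 (neg_ne_zero.2 hsd)) (pow_ne_zero 3 (neg_ne_zero.2 htd))
    (actM_actM s hs) (actM_actM t ht) hAB]
  refine Nat.card_congr
    { toFun := fun P => ⟨P.1.1, P.1.2, P.2.1.2.2, P.2.2.2.2⟩
      invFun := fun P => ⟨⟨P.1, P.2.1⟩, ⟨hs, hsd, P.2.2.1⟩, ⟨ht, htd, P.2.2.2⟩⟩
      left_inv := fun _ => rfl
      right_inv := fun _ => rfl }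

end MP_02e52a.Cnt
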