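import Pool.Agent.Lib.MP_02e52a_al.Cnt.Mat2

/-! # Numbers of involutions and anticommuting pairs -/

namespace MP_02e52a.Cnt

open MP_02e52a.M7

variable {p : ℕ} [Fact p.Prime]

private theorem id_tr_self (hp : p ≠ 2) (s : F2 p) (hs : s.trace = 0) (hd : s.det ≠ 0) :
    (s * s).trace ≠ 0 := by
  rw [mul_self_of_trace s hs, Matrix.trace_smul, Matrix.trace_one, Fintype.card_fin, smul_eq_mul]
  have h2 : ((2 : ℕ) : ZMod p) ≠ 0 := by
    intro h
    rw [ZMod.natCast_eq_zero_iff] at h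
    exact hp ((Nat.prime_dvd_prime_iff_eq Fact.out Nat.prime_two).1 h)
  exact mul_ne_zero (neg_ne_zero.2 hd) h2

private theorem id_units : Nat.card (ZMod p)ˣ = p - 1 := by
  rw [Nat.card_eq_fintype_card, ZMod.card_units]

private theorem id_nz : ({c : ZMod p | c ≠ 0} : Set (ZMod p)).ncard = p - 1 := by
  have h1 : ({c : ZMod p | c ≠ 0} : Set (ZMod p)) = Set.range (fun u : (ZMod p)ˣ => (u : ZMod p)) := by
    ext c
    constructor
    · intro hc
      exact ⟨Units.mk0 c hc, rfl⟩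
    · rintro ⟨u, rfl⟩
      exact u.ne_zero
  rw [h1, Set.ncard_range_of_injective Units.val_injective, id_units]

/-- the punctured line through `s` -/
private def idL (s : F2 p) : Set (F2 p) := {t | ∃ c : ZMod p, c ≠ 0 ∧ t = c • s}

private theorem idL_card (s : F2 p) (hs : s ≠ 0) : (idL s).ncard = p - 1 := by
  have h1 : idL s = (fun c : ZMod p => c • s) '' {c : ZMod p | c ≠ 0} := by
    ext t
    constructor
    · rintro ⟨c, hc, rfl⟩
      exact ⟨c, hc, rfl⟩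
    · rintro ⟨c, hc, rfl⟩
      exact ⟨c, hc, rfl⟩
  rw [h1, Set.ncard_image_of_injective _ (fun c c' h => smul_left_injective _ hs h), id_nz]

private theorem id_ne_zero (s : F2 p) (hd : s.det ≠ 0) : s ≠ 0 := by
  rintro rfl
  exact hd (by simp)

private theorem id_smul_mem {P : Gr p} {s : F2 p} (hs : s ∈ JJ P.1) {c : ZMod p} (hc : c ≠ 0) :
    c • s ∈ JJ P.1 := by
  refine ⟨?_, hs.2.smul hc⟩
  rw [Matrix.trace_smul, hs.1, smul_zero]

private theorem id_ne_of_mem {P : Gr p} {s t : F2 p} (ht : t ∈ JJ P.1) {c : ZMod p} (h : t = c • s) :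
    c ≠ 0 := by
  rintro rfl
  rw [zero_smul] at h
  exact id_ne_zero t ht.2.1 h

/-- [C5 IDa] PROOF: `JJ P = {c • s : c ≠ 0}` (`St.smul`), and `tr (c s c' s) = - 2 c c' det s ≠ 0`. -/
theorem IDa (hp : p ≠ 2) (P : Gr p) (s : F2 p) (hs : s ∈ JJ P.1) (h : ∀ t ∈ JJ P.1, ∃ c : ZMod p, t = c • s) :
    3 * (p - 1) * (JJ P.1).ncard = (JP P.1).ncard + 3 * (p - 1) ^ 2 := by
  have h1 : JJ P.1 = idL s := by
    ext t
    constructor
    · intro ht
      obtain ⟨c, hc⟩ := h t ht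
      exact ⟨c, id_ne_of_mem ht hc, hc⟩
    · rintro ⟨c, hc, rfl⟩
      exact id_smul_mem hs hc
  have h2 : JP P.1 = ∅ := by
    ext q
    simp only [Set.mem_empty_iff_false, iff_false]
    rintro ⟨hq1, hq2, hq3⟩
    obtain ⟨c, hc⟩ := h _ hq1
    obtain ⟨c', hc'⟩ := h _ hq2
    have hc0 := id_ne_of_mem hq1 hc
    have hc0' := id_ne_of_mem hq2 hc'
    rw [hc, hc', Matrix.smul_mul, Matrix.mul_smul, Matrix.trace_smul, Matrix.trace_smul] at hq3
    exact (mul_ne_zero hc0 (mul_ne_zero hc0' (id_tr_self hp s hs.1 hs.2.1))) hq3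
  rw [h2, Set.ncard_empty, h1, idL_card s (id_ne_zero s hs.2.1)]
  ring

private theorem id_pairs (P : Gr p) (v : Fin 3 → F2 p)
    (h0 : ∀ i, (v i * v i).trace ≠ 0) (h1 : ∀ i j, i ≠ j → (v i * v j).trace = 0)
    (h2 : ∀ x, x ∈ JJ P.1 ↔ ∃ (i : Fin 3) (c : ZMod p), c ≠ 0 ∧ x = c • v i) :
    (JJ P.1).ncard = 3 * (p - 1) ∧ (JP P.1).ncard = 6 * (p - 1) ^ 2 := by
  have hinj : Function.Injective (fun q : Fin 3 × (ZMod p)ˣ => (q.2 : ZMod p) • v q.1) := by
    rintro ⟨i, c⟩ ⟨j, c'⟩ hq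
    have hq' : (c : ZMod p) • v i = (c' : ZMod p) • v j := hq
    have h3 := congrArg (fun m => (m * v j).trace) hq'
    simp only [Matrix.smul_mul, Matrix.trace_smul, smul_eq_mul] at h3
    by_cases hij : i = j
    · subst hij
      have h4 := mul_right_cancel₀ (h0 i) h3
      rw [Units.ext h4]
    · rw [h1 i j hij, mul_zero] at h3
      exact absurd h3.symm (mul_ne_zero c'.ne_zero (h0 j))
  have hJ : JJ P.1 = Set.range (fun q : Fin 3 × (ZMod p)ˣ => (q.2 : ZMod p) • v q.1) := by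
    ext x
    rw [h2]
    constructor
    · rintro ⟨i, c, hc, rfl⟩
      exact ⟨(i, Units.mk0 c hc), rfl⟩
    · rintro ⟨⟨i, c⟩, rfl⟩
      exact ⟨i, c, c.ne_zero, rfl⟩
  have e : {q : (Fin 3 × (ZMod p)ˣ) × (Fin 3 × (ZMod p)ˣ) // q.1.1 ≠ q.2.1} ≃
      {ij : Fin 3 × Fin 3 // ij.1 ≠ ij.2} × ((ZMod p)ˣ × (ZMod p)ˣ) :=
    { toFun := fun q => (⟨(q.1.1.1, q.1.2.1), q.2⟩, (q.1.1.2, q.1.2.2))
      invFun := fun r => ⟨((r.1.1.1, r.2.1), (r.1.1.2, r.2.2)), r.1.2⟩
      left_inv := fun _ => rfl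
      right_inv := fun _ => rfl }
  have hcard : Nat.card {q : (Fin 3 × (ZMod p)ˣ) × (Fin 3 × (ZMod p)ˣ) // q.1.1 ≠ q.2.1} =
      6 * (p - 1) ^ 2 := by
    rw [Nat.card_congr e, Nat.card_prod, Nat.card_prod, id_units]
    have h6 : Nat.card {ij : Fin 3 × Fin 3 // ij.1 ≠ ij.2} = 6 := by
      rw [Nat.card_eq_fintype_card]; decide
    rw [h6]; ring
  have hJP : JP P.1 = Set.range
      (fun q : {q : (Fin 3 × (ZMod p)ˣ) × (Fin 3 × (ZMod p)ˣ) // q.1.1 ≠ q.2.1} =>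
        ((q.1.1.2 : ZMod p) • v q.1.1.1, (q.1.2.2 : ZMod p) • v q.1.2.1)) := by
    ext ⟨x, y⟩
    constructor
    · rintro ⟨hx, hy, hxy⟩
      obtain ⟨i, c, hc, hx'⟩ := (h2 x).1 hx
      obtain ⟨j, c', hc', hy'⟩ := (h2 y).1 hy
      have hxy' : (x * y).trace = 0 := hxy
      have hij : i ≠ j := by
        rintro rfl
        rw [hx', hy', Matrix.smul_mul, Matrix.mul_smul, Matrix.trace_smul, Matrix.trace_smul] at hxy'
        exact (mul_ne_zero hc (mul_ne_zero hc' (h0 i))) hxy'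
      exact ⟨⟨((i, Units.mk0 c hc), (j, Units.mk0 c' hc')), hij⟩,
        Prod.ext hx'.symm hy'.symm⟩
    · rintro ⟨⟨⟨⟨i, c⟩, ⟨j, c'⟩⟩, hij⟩, hq⟩
      have hx : (c : ZMod p) • v i = x := congrArg Prod.fst hq
      have hy : (c' : ZMod p) • v j = y := congrArg Prod.snd hq
      refine ⟨(h2 x).2 ⟨i, c, c.ne_zero, hx.symm⟩, (h2 y).2 ⟨j, c', c'.ne_zero, hy.symm⟩, ?_⟩
      change (x * y).trace = 0
      rw [← hx, ← hy, Matrix.smul_mul, Matrix.mul_smul, Matrix.trace_smul, Matrix.trace_smul,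
        h1 i j hij, smul_zero, smul_zero]
  constructor
  · rw [hJ, Set.ncard_range_of_injective hinj, Nat.card_prod, id_units, Nat.card_eq_fintype_card,
      Fintype.card_fin]
  · rw [hJP, Set.ncard_range_of_injective, hcard]
    rintro ⟨⟨a, b⟩, hab⟩ ⟨⟨a', b'⟩, hab'⟩ hq
    have ha : a = a' := hinj (congrArg Prod.fst hq)
    have hb : b = b' := hinj (congrArg Prod.snd hq)
    subst ha
    subst hb
    rfl

/-- [C5 IDb] PROOF: `JJ P` is the disjoint union of the three sets `{c • s}`, `{c • t}`, `{c • (s * t)}`, `c ≠ 0` (`s t` is traceless, in the stabiliser), pairwise anticommuting and independent: `|JJ P| = 3 (p - 1)` and `JP P` consists of the pairs from two different sets: `6 (p - 1)²`. `9 (p-1)² = 6 (p-1)² + 3 (p-1)²`. -/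
theorem IDb (hp : p ≠ 2) (P : Gr p) (s t : F2 p) (hs : s ∈ JJ P.1) (ht : t ∈ JJ P.1) (hst : (s * t).trace = 0)
    (h : ∀ r ∈ JJ P.1, (∃ c : ZMod p, r = c • s) ∨ (∃ c : ZMod p, r = c • t) ∨ ∃ c : ZMod p, r = c • (s * t)) :
    3 * (p - 1) * (JJ P.1).ncard = (JP P.1).ncard + 3 * (p - 1) ^ 2 := by
  have hm : s * t ∈ JJ P.1 := ⟨hst, hs.2.mul ht.2⟩
  have hss := mul_self_of_trace s hs.1
  have htt := mul_self_of_trace t ht.1
  have hts : (t * s).trace = 0 := by rw [Matrix.trace_mul_comm]; exact hst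
  have h1 : (s * (s * t)).trace = 0 := by
    rw [← Matrix.mul_assoc, hss, Matrix.smul_mul, Matrix.one_mul, Matrix.trace_smul, ht.1, smul_zero]
  have h1' : ((s * t) * s).trace = 0 := by rw [Matrix.trace_mul_comm]; exact h1
  have h2' : ((s * t) * t).trace = 0 := by
    rw [Matrix.mul_assoc, htt, Matrix.mul_smul, Matrix.mul_one, Matrix.trace_smul, hs.1, smul_zero]
  have h2 : (t * (s * t)).trace = 0 := by rw [Matrix.trace_mul_comm]; exact h2'
  obtain ⟨hc1, hc2⟩ := id_pairs P ![s, t, s * t]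
    (by
      intro i
      fin_cases i
      · exact id_tr_self hp s hs.1 hs.2.1
      · exact id_tr_self hp t ht.1 ht.2.1
      · exact id_tr_self hp _ hst hm.2.1)
    (by
      intro i j hij
      fin_cases i <;> fin_cases j
      · exact absurd rfl hij
      · exact hst
      · exact h1
      · exact hts
      · exact absurd rfl hij
      · exact h2
      · exact h1'
      · exact h2'
      · exact absurd rfl hij)
    (by
      intro x
      constructor
      · intro hx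
        rcases h x hx with ⟨c, hc⟩ | ⟨c, hc⟩ | ⟨c, hc⟩
        · exact ⟨0, c, id_ne_of_mem hx hc, hc⟩
        · exact ⟨1, c, id_ne_of_mem hx hc, hc⟩
        · exact ⟨2, c, id_ne_of_mem hx hc, hc⟩
      · rintro ⟨i, c, hc, rfl⟩
        fin_cases i
        · exact id_smul_mem hs hc
        · exact id_smul_mem ht hc
        · exact id_smul_mem hm hc)
  rw [hc1, hc2]
  ring

/-- [C5 IDc] PROOF: let `N = {t | tr t = 0, det t ≠ 0, tr (z t) = 0}`, `m = |N|`. `JJ P = {c z : c ≠ 0} ∪ N` (disjoint, `tr (z z) ≠ 0`): `|JJ P| = (p - 1) + m`. `JP P`: pairs `(c z, t)`, `(t, c z)` with `t ∈ N`: `2 (p - 1) m`; pairs `(t, t')`, `t, t' ∈ N`, `tr (t t') = 0`: `t'` is orthogonal to `z` and `t`, so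
`t' = c (z t)` (`exists_smul_of_perp`), `c ≠ 0`: `m (p - 1)`. Total `3 (p - 1) m`. -/
theorem IDc (hp : p ≠ 2) (P : Gr p) (z : F2 p) (hz : z ∈ JJ P.1)
    (h1 : ∀ t : F2 p, t.trace = 0 → t.det ≠ 0 → (z * t).trace = 0 → t ∈ JJ P.1)
    (h2 : ∀ t ∈ JJ P.1, (∃ c : ZMod p, t = c • z) ∨ (z * t).trace = 0) :
    3 * (p - 1) * (JJ P.1).ncard = (JP P.1).ncard + 3 * (p - 1) ^ 2 := by
  obtain ⟨N, hN⟩ : ∃ N : Set (F2 p), N = {t | t.trace = 0 ∧ t.det ≠ 0 ∧ (z * t).trace = 0} := ⟨_, rfl⟩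
  have hNmem : ∀ t, t ∈ N ↔ t.trace = 0 ∧ t.det ≠ 0 ∧ (z * t).trace = 0 := by
    intro t; rw [hN]; exact Iff.rfl
  have hNJ : ∀ t ∈ N, t ∈ JJ P.1 := fun t ht => by
    obtain ⟨a, b, c⟩ := (hNmem t).1 ht
    exact h1 t a b c
  have hzz := mul_self_of_trace z hz.1
  have hzt := id_tr_self hp z hz.1 hz.2.1
  have hJ : JJ P.1 = idL z ∪ N := by
    ext t
    constructor
    · intro ht
      rcases h2 t ht with ⟨c, hc⟩ | h
      · exact Or.inl ⟨c, id_ne_of_mem ht hc, hc⟩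
      · exact Or.inr ((hNmem t).2 ⟨ht.1, ht.2.1, h⟩)
    · rintro (⟨c, hc, rfl⟩ | ht)
      · exact id_smul_mem hz hc
      · exact hNJ t ht
  have hLN : ∀ t, t ∈ idL z → t ∉ N := by
    rintro t ⟨c, hc, rfl⟩ ht
    have h3 := ((hNmem _).1 ht).2.2
    rw [Matrix.mul_smul, Matrix.trace_smul] at h3
    exact (mul_ne_zero hc hzt) h3
  have hdisj : Disjoint (idL z) N := Set.disjoint_left.2 hLN
  have hJc : (JJ P.1).ncard = (p - 1) + N.ncard := by
    rw [hJ, Set.ncard_union_eq hdisj, idL_card z (id_ne_zero z hz.2.1)]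
  -- the pairs inside `N`
  obtain ⟨T, hT⟩ : ∃ T : Set (F2 p × F2 p), T = {q | q.1 ∈ N ∧ q.2 ∈ N ∧ (q.1 * q.2).trace = 0} :=
    ⟨_, rfl⟩
  have hTim : T = (fun q : F2 p × ZMod p => (q.1, q.2 • (z * q.1))) '' (N ×ˢ {c : ZMod p | c ≠ 0}) := by
    rw [hT]
    ext ⟨t, t'⟩
    constructor
    · rintro ⟨ht, ht', htt'⟩
      obtain ⟨a1, a2, a3⟩ := (hNmem t).1 ht
      obtain ⟨b1, b2, b3⟩ := (hNmem t').1 ht'
      obtain ⟨c, hc⟩ := exists_smul_of_perp hp z t t' hz.1 a1 b1 hz.2.1 a2 a3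
        (by rw [Matrix.trace_mul_comm]; exact b3) (by rw [Matrix.trace_mul_comm]; exact htt')
      have hc0 : c ≠ 0 := by
        rintro rfl
        rw [zero_smul] at hc
        exact id_ne_zero t' b2 hc
      exact ⟨(t, c), ⟨ht, hc0⟩, Prod.ext rfl hc.symm⟩
    · rintro ⟨⟨s, c⟩, ⟨hs, hc⟩, hq⟩
      have hs1 : s = t := congrArg Prod.fst hq
      have hs2 : c • (z * s) = t' := congrArg Prod.snd hq
      subst hs1
      obtain ⟨a1, a2, a3⟩ := (hNmem s).1 hs
      refine ⟨hs, (hNmem t').2 ⟨?_, ?_, ?_⟩, ?_⟩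
      · rw [← hs2, Matrix.trace_smul, a3, smul_zero]
      · rw [← hs2, Matrix.det_smul, Matrix.det_mul]
        exact mul_ne_zero (pow_ne_zero _ hc) (mul_ne_zero hz.2.1 a2)
      · rw [← hs2, Matrix.mul_smul, ← Matrix.mul_assoc, hzz, Matrix.smul_mul, Matrix.one_mul,
          Matrix.trace_smul, Matrix.trace_smul, a1, smul_zero, smul_zero]
      · change (s * t').trace = 0
        rw [← hs2, Matrix.mul_smul, Matrix.trace_smul, Matrix.trace_mul_comm, Matrix.mul_assoc,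
          mul_self_of_trace s a1, Matrix.mul_smul, Matrix.mul_one, Matrix.trace_smul, hz.1, smul_zero,
          smul_zero]
  have hTc : T.ncard = N.ncard * (p - 1) := by
    rw [hTim, Set.InjOn.ncard_image, Set.ncard_prod, id_nz]
    rintro ⟨t, c⟩ ⟨ht, -⟩ ⟨t', c'⟩ - hq
    have e1 : t = t' := congrArg Prod.fst hq
    subst e1
    have e2 : c • (z * t) = c' • (z * t) := congrArg Prod.snd hq
    have h0 : z * t ≠ 0 := by
      apply id_ne_zero
      rw [Matrix.det_mul]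
      exact mul_ne_zero hz.2.1 ((hNmem t).1 ht).2.1
    rw [smul_left_injective _ h0 e2]
  have hJPeq : JP P.1 = (idL z ×ˢ N ∪ N ×ˢ idL z) ∪ T := by
    ext ⟨x, y⟩
    constructor
    · rintro ⟨hx, hy, hxy⟩
      have hx' : x ∈ idL z ∪ N := by rw [← hJ]; exact hx
      have hy' : y ∈ idL z ∪ N := by rw [← hJ]; exact hy
      have hxy' : (x * y).trace = 0 := hxy
      rcases hx' with hx' | hx'
      · rcases hy' with hy' | hy'
        · exfalso
          obtain ⟨c, hc, hc'⟩ := hx'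
          obtain ⟨d, hd, hd'⟩ := hy'
          rw [hc', hd', Matrix.smul_mul, Matrix.mul_smul, Matrix.trace_smul, Matrix.trace_smul] at hxy'
          exact (mul_ne_zero hc (mul_ne_zero hd hzt)) hxy'
        · exact Or.inl (Or.inl ⟨hx', hy'⟩)
      · rcases hy' with hy' | hy'
        · exact Or.inl (Or.inr ⟨hx', hy'⟩)
        · right
          rw [hT]
          exact ⟨hx', hy', hxy'⟩
    · rintro ((⟨hx, hy⟩ | ⟨hx, hy⟩) | hq)
      · obtain ⟨c, hc, hc'⟩ := hx
        have hx' : x = c • z := hc'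
        refine ⟨?_, hNJ _ hy, ?_⟩
        · change x ∈ _
          rw [hx']; exact id_smul_mem hz hc
        · change (x * y).trace = 0
          have h3 : (z * y).trace = 0 := ((hNmem _).1 hy).2.2
          rw [hx', Matrix.smul_mul, Matrix.trace_smul, h3, smul_zero]
      · obtain ⟨c, hc, hc'⟩ := hy
        have hy' : y = c • z := hc'
        refine ⟨hNJ _ hx, ?_, ?_⟩
        · change y ∈ _
          rw [hy']; exact id_smul_mem hz hc
        · change (x * y).trace = 0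
          have h3 : (z * x).trace = 0 := ((hNmem _).1 hx).2.2
          rw [hy', Matrix.mul_smul, Matrix.trace_smul, Matrix.trace_mul_comm, h3, smul_zero]
      · rw [hT] at hq
        exact ⟨hNJ _ hq.1, hNJ _ hq.2.1, hq.2.2⟩
  have hd1 : Disjoint (idL z ×ˢ N) (N ×ˢ idL z) := by
    rw [Set.disjoint_left]
    rintro ⟨x, y⟩ ⟨hx, -⟩ ⟨hx', -⟩
    exact hLN x hx hx'
  have hd2 : Disjoint (idL z ×ˢ N ∪ N ×ˢ idL z) T := by
    rw [Set.disjoint_left]
    rintro ⟨x, y⟩ (⟨hx, -⟩ | ⟨-, hy⟩) hq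
    · rw [hT] at hq
      exact hLN x hx hq.1
    · rw [hT] at hq
      exact hLN y hy hq.2.1
  have hJPc : (JP P.1).ncard = (p - 1) * N.ncard + N.ncard * (p - 1) + N.ncard * (p - 1) := by
    rw [hJPeq, Set.ncard_union_eq hd2, Set.ncard_union_eq hd1, Set.ncard_prod, Set.ncard_prod,
      idL_card z (id_ne_zero z hz.2.1), hTc]
  rw [hJc, hJPc]
  ring

end MP_02e52a.Cnt
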