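import Pool.Agent.Lib.MP_02e52a_al.Cnt.U1

/-! # Stabiliser of a plane fixed by a unipotent element -/

namespace MP_02e52a.Cnt

open MP_02e52a.M7

variable {p : ℕ} [Fact p.Prime]

private theorem u2_pow (n : F2 p) (h : n * n = 0) (k : ℕ) : (1 + n) ^ k = 1 + (k : ZMod p) • n := by
  induction k with
  | zero => simp
  | succ k ih =>
    rw [pow_succ, ih, mul_add, mul_one, add_mul, one_mul, Matrix.smul_mul, h, smul_zero, add_zero,
      Nat.cast_succ, add_smul, one_smul]
    abel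

private theorem u2_St (P : Submodule (ZMod p) (M6 p)) (n : F2 p) (hn : n ∈ KK P) (c : ZMod p) :
    St P (1 + c • n) := by
  have h1 : ∀ k : ℕ, St P ((1 + n) ^ k) := by
    intro k
    induction k with
    | zero => rw [pow_zero]; exact St.one
    | succ k ih => rw [pow_succ]; exact ih.mul hn.2.2
  have h2 := h1 c.val
  rwa [u2_pow n hn.2.1, ZMod.natCast_zmod_val] at h2

/-- [C5 U2a] PROOF: `⊆` is `eq_P0`. `⊇`: `1 + c n = (1 + n)^k` with `k = c.val`. -/
theorem KK_eq (hp : p ≠ 2) (P : Gr p) (hP : P.1 ≠ P0) (n : F2 p) (hn : n ∈ KK P.1) :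
    KK P.1 = {m | ∃ c : ZMod p, c ≠ 0 ∧ m = c • n} := by
  ext m
  constructor
  · intro hm
    by_contra h
    refine hP (eq_P0 hp P n m hn hm fun c hc => h ⟨c, ?_, hc⟩)
    rintro rfl
    rw [zero_smul] at hc
    exact hm.1 hc
  · rintro ⟨c, hc, rfl⟩
    refine ⟨smul_ne_zero hc hn.1, ?_, u2_St P.1 n hn c⟩
    rw [Matrix.smul_mul, Matrix.mul_smul, hn.2.1, smul_zero, smul_zero]

private theorem u2_P0 (b : F2 p) (hb : b.det ≠ 0) (P : Gr p) (hP : P.1 ≠ P0) :
    (trG b hb P).1 ≠ P0 := by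
  intro h
  apply hP
  ext x
  rw [← actM_mem_trG b hb P x, h]
  exact (St_P0 b hb).mem_iff x

/-- the case `n = e12` -/
private theorem u2_JJ (hp : p ≠ 2) (P : Gr p) (hP : P.1 ≠ P0) (hn : (!![0, 1; 0, 0] : F2 p) ∈ KK P.1)
    (hJ : (JJ P.1).Nonempty) :
    JJ P.1 = {t | t.trace = 0 ∧ t.det ≠ 0 ∧ t 1 0 = 0} := by
  have key : ∀ t ∈ JJ P.1, t 1 0 = 0 := by
    intro t ht
    obtain ⟨h1, h2⟩ := ht
    have hd : t.det ≠ 0 := h2.1
    have h3 : St P.1 (t.det⁻¹ • (t * (1 + !![0, 1; 0, 0]) * t.adjugate)) :=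
      (h2.conj hn.2.2).smul (inv_ne_zero hd)
    have h4 : t.det⁻¹ • (t * (1 + !![0, 1; 0, 0]) * t.adjugate) =
        1 + t.det⁻¹ • (t * !![0, 1; 0, 0] * t.adjugate) := by
      rw [mul_add, mul_one, add_mul, Matrix.mul_adjugate, smul_add, smul_smul, inv_mul_cancel₀ hd,
        one_smul]
    rw [h4] at h3
    have h5 : t.det⁻¹ • (t * !![0, 1; 0, 0] * t.adjugate) ∈ KK P.1 := by
      refine ⟨fun h => ?_, ?_, h3⟩
      · have h6 : t * !![0, 1; 0, 0] * t.adjugate = 0 := by
          rcases smul_eq_zero.1 h with h | h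
          · exact absurd h (inv_ne_zero hd)
          · exact h
        have h7 := congrArg (fun m => t.adjugate * m * t) h6
        simp only [mul_zero, zero_mul] at h7
        have h8 : t.adjugate * (t * !![0, 1; 0, 0] * t.adjugate) * t =
            (t.det * t.det) • (!![0, 1; 0, 0] : F2 p) := by
          calc t.adjugate * (t * !![0, 1; 0, 0] * t.adjugate) * t =
              (t.adjugate * t) * !![0, 1; 0, 0] * (t.adjugate * t) := by
                simp only [Matrix.mul_assoc]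
            _ = _ := by
              rw [Matrix.adjugate_mul, Matrix.smul_mul, Matrix.one_mul, Matrix.mul_smul,
                Matrix.mul_one, smul_smul]
        rw [h8] at h7
        have h9 := congrFun (congrFun h7 0) 1
        simp at h9
        exact hd h9
      · rw [Matrix.smul_mul, Matrix.mul_smul]
        have h8 : t * !![0, 1; 0, 0] * t.adjugate * (t * !![0, 1; 0, 0] * t.adjugate) = 0 := by
          calc t * !![0, 1; 0, 0] * t.adjugate * (t * !![0, 1; 0, 0] * t.adjugate) =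
              t * (!![0, 1; 0, 0] * (t.adjugate * t) * !![0, 1; 0, 0]) * t.adjugate := by
                simp only [Matrix.mul_assoc]
            _ = 0 := by
              rw [Matrix.adjugate_mul, Matrix.mul_smul, Matrix.mul_one, Matrix.smul_mul, hn.2.1]
              simp
        rw [h8, smul_zero, smul_zero]
    rw [KK_eq hp P hP _ hn] at h5
    obtain ⟨c, hc, h6⟩ := h5
    have h7 := congrArg (fun m => t.det • (m * t)) h6
    simp only [Matrix.smul_mul, smul_smul, Matrix.mul_assoc, Matrix.adjugate_mul,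
      Matrix.mul_smul, Matrix.mul_one] at h7
    rw [mul_comm t.det⁻¹, mul_inv_cancel₀ hd, mul_one] at h7
    have h8 := congrFun (congrFun h7 1) 1
    simp only [Matrix.smul_apply, Matrix.mul_apply, Fin.sum_univ_two] at h8
    simp at h8
    rcases h8 with h8 | h8
    · exact absurd h8 hd
    · exact h8
  ext t
  constructor
  · intro ht
    exact ⟨ht.1, ht.2.1, key t ht⟩
  · rintro ⟨h1, h2, h3⟩
    obtain ⟨s, hs⟩ := hJ
    have hs10 := key s hs
    have et := eq_of_trace t h1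
    have es := eq_of_trace s hs.1
    rw [h3] at et
    rw [hs10] at es
    have ht0 : t 0 0 ≠ 0 := by
      intro h
      apply h2
      rw [et, h, Matrix.det_fin_two]
      simp
    have hs0 : s 0 0 ≠ 0 := by
      intro h
      apply hs.2.1
      rw [es, h, Matrix.det_fin_two]
      simp
    refine ⟨h1, ?_⟩
    have e : t = (t 0 0 / s 0 0) • (s * (1 + (t 0 1 / t 0 0 - s 0 1 / s 0 0) •
        (!![0, 1; 0, 0] : F2 p))) := by
      generalize t 0 0 = t0 at *
      generalize t 0 1 = t1 at *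
      generalize s 0 0 = s0 at *
      generalize s 0 1 = s1 at *
      have e1 : (1 : F2 p) + (t1 / t0 - s1 / s0) • (!![0, 1; 0, 0] : F2 p) =
          !![1, t1 / t0 - s1 / s0; 0, 1] := by
        ext i j
        fin_cases i <;> fin_cases j <;> simp
      rw [et, es, e1, Matrix.mul_fin_two]
      ext i j
      fin_cases i <;> fin_cases j
      · simp
        field_simp
      · simp
        field_simp
        ring
      · simp
      · simp
        field_simp
    rw [e]
    exact (hs.2.mul (u2_St P.1 _ hn _)).smul (div_ne_zero ht0 hs0)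

private theorem u2_mul_e12 (t : F2 p) :
    (∃ c : ZMod p, t * !![0, 1; 0, 0] = c • (!![0, 1; 0, 0] : F2 p)) ↔ t 1 0 = 0 := by
  constructor
  · rintro ⟨c, h⟩
    have h1 := congrFun (congrFun h 1) 1
    simpa [Matrix.mul_apply, Fin.sum_univ_succ] using h1
  · intro h
    refine ⟨t 0 0, ?_⟩
    ext i j
    fin_cases i <;> fin_cases j <;> simp [Matrix.mul_apply, Fin.sum_univ_succ, h]

/-- [C5 U2b] PROOF: `⊆`: for `t ∈ JJ P` the element `t (1 + n) t⁻¹ = 1 + t n t⁻¹` is in the stabiliser (`St.conj`, scalars), so `t n t⁻¹ = c n` (`KK_eq`), hence `t` preserves `im n`, a line, and `t n = a n`.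
(By `conj_nilp` one may assume `n = e12`; then `t` is upper triangular.) `⊇`: let `t₀ ∈ JJ P`, `t₀ n = a n`; in the basis where `n = e12`: `t₀ = (a, b₀; 0, -a)`, `t = (c, b; 0, -c)`, `a, c ≠ 0`, and
`t = (c / a) t₀ (1 + k n)` for a suitable `k`. -/
theorem JJ_eq (hp : p ≠ 2) (P : Gr p) (hP : P.1 ≠ P0) (n : F2 p) (hn : n ∈ KK P.1) (hJ : (JJ P.1).Nonempty) :
    JJ P.1 = {t | t.trace = 0 ∧ t.det ≠ 0 ∧ ∃ c : ZMod p, t * n = c • n} := by
  obtain ⟨b, hb, hbn⟩ := conj_nilp n hn.1 hn.2.1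
  have hn' : (!![0, 1; 0, 0] : F2 p) ∈ KK (trG b hb P).1 := by
    rw [← hbn]; exact (KK_cj b hb P n).2 hn
  have h := u2_JJ hp (trG b hb P) (u2_P0 b hb P hP) hn' ((JJ_nonempty_trG b hb P).2 hJ)
  ext t
  rw [← JJ_cj b hb P t, h]
  change ((cj b t).trace = 0 ∧ (cj b t).det ≠ 0 ∧ cj b t 1 0 = 0) ↔
    (t.trace = 0 ∧ t.det ≠ 0 ∧ ∃ c : ZMod p, t * n = c • n)
  rw [cj_trace b hb, cj_det b hb, ← u2_mul_e12, ← hbn]
  refine and_congr_right fun _ => and_congr_right fun _ => exists_congr fun c => ?_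
  rw [← cj_mul b hb, ← cj_smul, cj_inj b hb]

private theorem u2_ncard_ne : ({c : ZMod p | c ≠ 0} : Set (ZMod p)).ncard = p - 1 := by
  have h1 : ({c : ZMod p | c ≠ 0} : Set (ZMod p)) = Set.univ \ {0} := by
    ext c; simp
  rw [h1, Set.ncard_sdiff (Set.subset_univ _), Set.ncard_singleton, Set.ncard_univ,
    Nat.card_zmod]

/-- [C5 U2d] PROOF: `KK_eq`. -/
theorem card_KK (hp : p ≠ 2) (P : Gr p) (hP : P.1 ≠ P0) (hK : (KK P.1).Nonempty) : (KK P.1).ncard = p - 1 := by
  obtain ⟨n, hn⟩ := hK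
  have h1 : KK P.1 = (fun c : ZMod p => c • n) '' {c | c ≠ 0} := by
    rw [KK_eq hp P hP n hn]
    ext m
    constructor
    · rintro ⟨c, hc, rfl⟩
      exact ⟨c, hc, rfl⟩
    · rintro ⟨c, hc, rfl⟩
      exact ⟨c, hc, rfl⟩
  rw [h1, Set.ncard_image_of_injective _ (smul_left_injective _ hn.1), u2_ncard_ne]

/-- [C5 U2c] PROOF: `KK_eq`, `JJ_eq`; for `n = e12` (`conj_nilp`) the set of `JJ_eq` is `{(c, b; 0, -c) : c ≠ 0}` and `tr (t t') = 2 c c' ≠ 0`. -/
theorem card_U2 (hp : p ≠ 2) (P : Gr p) (hP : P.1 ≠ P0) (hK : (KK P.1).Nonempty) (hJ : (JJ P.1).Nonempty) :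
    (KK P.1).ncard = p - 1 ∧ (JJ P.1).ncard = (p - 1) * p ∧ (JP P.1).ncard = 0 := by
  refine ⟨card_KK hp P hP hK, ?_⟩
  obtain ⟨n, hn⟩ := hK
  obtain ⟨b, hb, hbn⟩ := conj_nilp n hn.1 hn.2.1
  have hn' : (!![0, 1; 0, 0] : F2 p) ∈ KK (trG b hb P).1 := by
    rw [← hbn]; exact (KK_cj b hb P n).2 hn
  have h := u2_JJ hp (trG b hb P) (u2_P0 b hb P hP) hn' ((JJ_nonempty_trG b hb P).2 hJ)
  have two : (2 : ZMod p) ≠ 0 := by
    intro h2
    have h3 : ((2 : ℕ) : ZMod p) = 0 := by exact_mod_cast h2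
    rw [ZMod.natCast_eq_zero_iff] at h3
    exact hp ((Nat.prime_dvd_prime_iff_eq (Fact.out) Nat.prime_two).1 h3)
  constructor
  · have h1 : cj b '' JJ P.1 = JJ (trG b hb P).1 := by
      ext t
      obtain ⟨x, rfl⟩ := exists_cj b hb t
      rw [JJ_cj b hb P x]
      constructor
      · rintro ⟨y, hy, hxy⟩
        rwa [← (cj_inj b hb).1 hxy]
      · intro hx
        exact ⟨x, hx, rfl⟩
    have h2 : (JJ P.1).ncard = (JJ (trG b hb P).1).ncard := by
      rw [← h1, Set.ncard_image_of_injective _ (fun x y hxy => (cj_inj b hb).1 hxy)]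
    have h3 : JJ (trG b hb P).1 = (fun q : ZMod p × ZMod p => (!![q.1, q.2; 0, -q.1] : F2 p)) ''
        ({c | c ≠ 0} ×ˢ Set.univ) := by
      rw [h]
      ext t
      constructor
      · rintro ⟨h4, h5, h6⟩
        have et := eq_of_trace t h4
        rw [h6] at et
        refine ⟨(t 0 0, t 0 1), ⟨fun h7 => ?_, Set.mem_univ _⟩, et.symm⟩
        apply h5
        change t 0 0 = 0 at h7
        rw [et, h7, Matrix.det_fin_two]
        simp
      · rintro ⟨⟨c, d⟩, ⟨hc, _⟩, rfl⟩
        refine ⟨?_, ?_, ?_⟩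
        · simp [Matrix.trace_fin_two]
        · simpa [Matrix.det_fin_two] using hc
        · simp
    rw [h2, h3, Set.ncard_image_of_injective, Set.ncard_prod, u2_ncard_ne, Set.ncard_univ,
      Nat.card_zmod]
    rintro ⟨c, d⟩ ⟨c', d'⟩ hq
    have h4 := congrFun (congrFun hq 0) 0
    have h5 := congrFun (congrFun hq 0) 1
    simp at h4 h5
    rw [h4, h5]
  · have h1 : JP P.1 = ∅ := by
      rw [Set.eq_empty_iff_forall_notMem]
      rintro ⟨s, t⟩ ⟨h2, h3, h4⟩
      have h5 := (JJ_cj b hb P s).2 h2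
      have h6 := (JJ_cj b hb P t).2 h3
      change (s * t).trace = 0 at h4
      rw [← cj_trace b hb, cj_mul b hb] at h4
      rw [h] at h5 h6
      obtain ⟨h7, h8, h9⟩ := h5
      obtain ⟨h10, h11, h12⟩ := h6
      generalize cj b s = s' at *
      generalize cj b t = t' at *
      have es := eq_of_trace s' h7
      have et := eq_of_trace t' h10
      rw [h9] at es
      rw [h12] at et
      have hs0 : s' 0 0 ≠ 0 := by
        intro h
        apply h8
        rw [es, h, Matrix.det_fin_two]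
        simp
      have ht0 : t' 0 0 ≠ 0 := by
        intro h
        apply h11
        rw [et, h, Matrix.det_fin_two]
        simp
      rw [es, et, Matrix.trace_fin_two] at h4
      simp [Matrix.mul_apply, Fin.sum_univ_succ] at h4
      have h13 : 2 * (s' 0 0 * t' 0 0) = 0 := by linear_combination h4
      exact mul_ne_zero two (mul_ne_zero hs0 ht0) h13
    rw [h1, Set.ncard_empty]

end MP_02e52a.Cnt
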