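import Pool.Agent.Lib.MP_02e52a_al.Cnt.ID
import Pool.Agent.Lib.MP_02e52a_al.Cnt.CL
import Pool.Agent.Lib.MP_02e52a_al.Cnt.U2

/-! # The pointwise identity -/

namespace MP_02e52a.Cnt

open MP_02e52a.M7

variable {p : ℕ} [Fact p.Prime]

/-- [C5 ID2] PROOF: if `KK P` is not empty use `card_U2`: `3 (p-1) (p-1) p = 0 + 3 (p-1)² (p-1) + 3 (p-1)²` (`p - 1 + 1 = p`). If `KK P` is empty its `ncard` is `0` and `CL` with `IDa`, `IDb`, `IDc`. -/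
theorem pointwise (hp : p ≠ 2) (P : Gr p) (hP : P.1 ≠ P0) (hJ : (JJ P.1).Nonempty) :
    3 * (p - 1) * (JJ P.1).ncard = (JP P.1).ncard + 3 * (p - 1) ^ 2 * (KK P.1).ncard + 3 * (p - 1) ^ 2 := by
  by_cases hK : (KK P.1).Nonempty
  · obtain ⟨h1, h2, h3⟩ := card_U2 hp P hP hK hJ
    rw [h1, h2, h3]
    obtain ⟨q, hq⟩ : ∃ q, p = q + 1 := ⟨p - 1, by have := (Fact.out : p.Prime).pos; omega⟩
    rw [hq, Nat.add_sub_cancel]
    ring
  · have h0 : (KK P.1).ncard = 0 := by rw [Set.not_nonempty_iff_eq_empty.1 hK, Set.ncard_empty]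
    rw [h0, mul_zero, add_zero]
    rcases CL hp P hP hJ hK with ⟨s, hs, h⟩ | ⟨s, hs, t, ht, hst, h⟩ | ⟨z, hz, h1, h2⟩
    · exact IDa hp P s hs h
    · exact IDb hp P s t hs ht hst h
    · exact IDc hp P z hz h1 h2

end MP_02e52a.Cnt
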