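import Pool.Agent.Lib.MP_02e52a_al.Cnt.Defs

/-! # Number of planes -/

namespace MP_02e52a.Cnt

open MP_02e52a.M7

variable {p : ℕ} [Fact p.Prime]

private theorem l0_li {V : Type*} [AddCommGroup V] [Module (ZMod p) V] [Finite V] (n : ℕ) (hn : 2 ≤ n)
    (hV : Module.finrank (ZMod p) V = n) :
    Nat.card {s : Fin 2 → V // LinearIndependent (ZMod p) s} = (p ^ n - 1) * (p ^ n - p) := by
  rw [card_linearIndependent (by rw [hV]; exact hn), Fin.prod_univ_two, ZMod.card, hV]
  simp

/-- the family of the vectors of an independent family of a plane -/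
private def l0_f {V : Type*} [AddCommGroup V] [Module (ZMod p) V]
    (q : Σ P : {P : Submodule (ZMod p) V // Module.finrank (ZMod p) P = 2},
      {t : Fin 2 → P.1 // LinearIndependent (ZMod p) t}) :
    {s : Fin 2 → V // LinearIndependent (ZMod p) s} :=
  ⟨fun i => (q.2.1 i : V), q.2.2.map' q.1.1.subtype (Submodule.ker_subtype _)⟩

private theorem l0_span {V : Type*} [AddCommGroup V] [Module (ZMod p) V] [Finite V]
    (P : Submodule (ZMod p) V) (hP : Module.finrank (ZMod p) P = 2) (t : Fin 2 → P)
    (ht : LinearIndependent (ZMod p) t) :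
    Submodule.span (ZMod p) (Set.range fun i => (t i : V)) = P := by
  have h1 := ht.span_eq_top_of_card_eq_finrank (by rw [hP]; simp)
  have h2 : (Set.range fun i => (t i : V)) = P.subtype '' Set.range t := by
    rw [← Set.range_comp]
    rfl
  rw [h2, Submodule.span_image, h1, Submodule.map_subtype_top]

private theorem l0_bij {V : Type*} [AddCommGroup V] [Module (ZMod p) V] [Finite V] :
    Function.Bijective (l0_f (p := p) (V := V)) := by
  constructor
  · rintro ⟨⟨P, hP⟩, t, ht⟩ ⟨⟨P', hP'⟩, t', ht'⟩ h
    have h1 : (fun i => (t i : V)) = fun i => (t' i : V) := congrArg Subtype.val h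
    have h2 : P = P' := by
      rw [← l0_span P hP t ht, ← l0_span P' hP' t' ht', h1]
    subst h2
    have h3 : t = t' := by
      funext i
      exact Subtype.ext (congrFun h1 i)
    subst h3
    rfl
  · rintro ⟨s, hs⟩
    have hP : Module.finrank (ZMod p) (Submodule.span (ZMod p) (Set.range s)) = 2 := by
      rw [finrank_span_eq_card hs]
      simp
    have ht : LinearIndependent (ZMod p) (fun i => (⟨s i, Submodule.subset_span ⟨i, rfl⟩⟩ :
        Submodule.span (ZMod p) (Set.range s))) := by
      apply LinearIndependent.of_comp (Submodule.span (ZMod p) (Set.range s)).subtype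
      exact hs
    exact ⟨⟨⟨_, hP⟩, _, ht⟩, rfl⟩

/-- [C5 L0] PROOF: Mathlib `card_linearIndependent` (number of linearly independent families `Fin 2 → V`: `∏ i : Fin 2, (p ^ n - p ^ i)`), applied to `V` and to each
plane `P`. The map (independent pair) ↦ span is onto the set of planes and the fibre over `P` is the set of the independent pairs of `P`, which has
`(p² - 1)(p² - p)` elements (use `Nat.card_sigma` / `Equiv.sigmaFiberEquiv`). -/
theorem card_planes {V : Type*} [AddCommGroup V] [Module (ZMod p) V] [Finite V] (n : ℕ) (hn : 2 ≤ n)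
    (hV : Module.finrank (ZMod p) V = n) :
    Nat.card {P : Submodule (ZMod p) V // Module.finrank (ZMod p) P = 2} * ((p ^ 2 - 1) * (p ^ 2 - p)) =
      (p ^ n - 1) * (p ^ n - p) := by
  classical
  have : Fintype {P : Submodule (ZMod p) V // Module.finrank (ZMod p) P = 2} := Fintype.ofFinite _
  rw [← l0_li n hn hV, ← Nat.card_congr (Equiv.ofBijective _ (l0_bij (p := p) (V := V))), Nat.card_sigma]
  rw [Finset.sum_const_nat (m := (p ^ 2 - 1) * (p ^ 2 - p)), Finset.card_univ, Nat.card_eq_fintype_card]
  rintro ⟨P, hP⟩ _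
  exact l0_li 2 le_rfl hP

end MP_02e52a.Cnt
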