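import Pool.Agent.Lib.MP_02e52a_al.Cnt.Defs

/-! # Stable planes, nonsplit case -/

namespace MP_02e52a.Cnt

open MP_02e52a.M7

variable {p : ℕ} [Fact p.Prime]

private lemma L1_indep {V : Type*} [AddCommGroup V] [Module (ZMod p) V]
    (A : V →ₗ[ZMod p] V) (e : ZMod p) (he : ¬ IsSquare e)
    (hA : ∀ x, A (A x) = e • x) (v : V) (hv : v ≠ 0) : LinearIndependent (ZMod p) ![v, A v] := by
  rw [LinearIndependent.pair_iff]
  intro s t hst
  have ht : t = 0 := by
    by_contra ht
    have h1 : A v = (-(s / t)) • v := by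
      have h2 : t • A v = (-s) • v := by
        rw [neg_smul]
        exact eq_neg_of_add_eq_zero_right hst
      have h3 : A v = t⁻¹ • (t • A v) := by rw [smul_smul, inv_mul_cancel₀ ht, one_smul]
      rw [h3, h2, smul_smul]
      congr 1
      field_simp
    have h4 := hA v
    rw [h1, map_smul, h1, smul_smul] at h4
    have h5 : ((-(s / t)) * (-(s / t)) - e) • v = 0 := by rw [sub_smul, h4, sub_self]
    rcases smul_eq_zero.1 h5 with h6 | h6
    · exact he ⟨-(s / t), (sub_eq_zero.1 h6).symm⟩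
    · exact hv h6
  subst ht
  rw [zero_smul, add_zero] at hst
  rcases smul_eq_zero.1 hst with h6 | h6
  · exact ⟨h6, rfl⟩
  · exact absurd h6 hv

private lemma L1_finrank {V : Type*} [AddCommGroup V] [Module (ZMod p) V]
    (A : V →ₗ[ZMod p] V) (e : ZMod p) (he : ¬ IsSquare e)
    (hA : ∀ x, A (A x) = e • x) (v : V) (hv : v ≠ 0) :
    Module.finrank (ZMod p) (Submodule.span (ZMod p) {v, A v}) = 2 := by
  have h := finrank_span_eq_card (L1_indep A e he hA v hv)
  have h2 : Set.range ![v, A v] = {v, A v} := by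
    rw [Matrix.range_cons, Matrix.range_cons, Matrix.range_empty, Set.union_empty, Set.singleton_union]
  rw [h2] at h
  simpa using h

private lemma L1_stable {V : Type*} [AddCommGroup V] [Module (ZMod p) V]
    (A : V →ₗ[ZMod p] V) (e : ZMod p)
    (hA : ∀ x, A (A x) = e • x) (v : V) :
    ∀ x ∈ Submodule.span (ZMod p) {v, A v}, A x ∈ Submodule.span (ZMod p) {v, A v} := by
  have h : Submodule.span (ZMod p) {v, A v} ≤ (Submodule.span (ZMod p) {v, A v}).comap A := by
    rw [Submodule.span_le]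
    intro x hx
    rcases hx with hx | hx
    · subst hx
      exact Submodule.subset_span (Or.inr rfl)
    · rw [Set.mem_singleton_iff] at hx
      subst hx
      show A (A v) ∈ Submodule.span (ZMod p) {v, A v}
      rw [hA]
      exact Submodule.smul_mem _ _ (Submodule.subset_span (Or.inl rfl))
  exact h

private lemma L1_eq {V : Type*} [AddCommGroup V] [Module (ZMod p) V] [Finite V]
    (A : V →ₗ[ZMod p] V) (e : ZMod p) (he : ¬ IsSquare e)
    (hA : ∀ x, A (A x) = e • x) (v : V) (hv : v ≠ 0) (P : Submodule (ZMod p) V)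
    (hP : Module.finrank (ZMod p) P = 2) (hs : ∀ x ∈ P, A x ∈ P) (hvP : v ∈ P) :
    P = Submodule.span (ZMod p) {v, A v} := by
  symm
  apply Submodule.eq_of_le_of_finrank_eq
  · rw [Submodule.span_le]
    intro x hx
    rcases hx with hx | hx
    · subst hx; exact hvP
    · rw [Set.mem_singleton_iff] at hx
      subst hx
      exact hs _ hvP
  · rw [L1_finrank A e he hA v hv, hP]

private lemma L1_card {V : Type*} [AddCommGroup V] [Module (ZMod p) V] [Finite V] (n : ℕ)
    (h : Module.finrank (ZMod p) V = n) : Nat.card {x : V // x ≠ 0} = p ^ n - 1 := by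
  classical
  have h1 : Nat.card V = p ^ n := by
    rw [Module.natCard_eq_pow_finrank (K := ZMod p), h, Nat.card_zmod]
  have h2 := Nat.card_congr (Equiv.Set.univ V)
  have h3 : Nat.card {x : V // x = 0} + Nat.card {x : V // ¬ x = 0} = Nat.card V := by
    rw [← Nat.card_congr (Equiv.sumCompl (fun x : V => x = 0)), Nat.card_sum]
  have h4 : Nat.card {x : V // x = 0} = 1 := by
    rw [Nat.card_eq_one_iff_unique]
    exact ⟨⟨fun a b => Subtype.ext (a.2.trans b.2.symm)⟩, ⟨⟨0, rfl⟩⟩⟩
  have h5 : Nat.card {x : V // x ≠ 0} = Nat.card {x : V // ¬ x = 0} := rfl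
  omega

/-- [C5 L1] PROOF: let `X` be the set of these planes. Every `v ≠ 0` lies in exactly one `P ∈ X`, namely `span {v, A v}`: `A v = c v` would give `c² v = e v`, so
`v, A v` are independent; the span is stable as `A (A v) = e v`; a `P ∈ X` containing `v` contains the span and has the same finrank. Each `P ∈ X` has `p² - 1` nonzero
vectors. So `|X| (p² - 1) = p⁶ - 1 = (p² - 1)(p⁴ + p² + 1)`. -/
theorem card_stable_nonsq {V : Type*} [AddCommGroup V] [Module (ZMod p) V] [Finite V]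
    (hV : Module.finrank (ZMod p) V = 6) (A : V →ₗ[ZMod p] V) (e : ZMod p) (he : ¬ IsSquare e)
    (hA : ∀ x, A (A x) = e • x) :
    Nat.card {P : Submodule (ZMod p) V // Module.finrank (ZMod p) P = 2 ∧ ∀ x ∈ P, A x ∈ P} = p ^ 4 + p ^ 2 + 1 := by
  classical
  let X := {P : Submodule (ZMod p) V // Module.finrank (ZMod p) P = 2 ∧ ∀ x ∈ P, A x ∈ P}
  have hfin : Finite X := inferInstance
  have h1 : Nat.card (Σ P : X, {x : P.1 // x ≠ 0}) = Nat.card {v : V // v ≠ 0} := by
    refine Nat.card_congr (Equiv.ofBijective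
      (fun t => (⟨(t.2.1 : V), fun h => t.2.2 (Subtype.ext h)⟩ : {v : V // v ≠ 0})) ⟨?_, ?_⟩)
    · rintro ⟨P, ⟨x, hx⟩⟩ ⟨Q, ⟨y, hy⟩⟩ hxy
      have hxy' : (x : V) = (y : V) := congrArg Subtype.val hxy
      have hx0 : (x : V) ≠ 0 := fun h => hx (Subtype.ext h)
      have e1 : P.1 = Q.1 := by
        rw [L1_eq A e he hA (x : V) hx0 P.1 P.2.1 P.2.2 x.2,
          L1_eq A e he hA (x : V) hx0 Q.1 Q.2.1 Q.2.2 (by rw [hxy']; exact y.2)]
      have e2 : P = Q := Subtype.ext e1
      subst e2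
      have e3 : x = y := Subtype.ext hxy'
      subst e3
      rfl
    · rintro ⟨v, hv⟩
      refine ⟨⟨⟨Submodule.span (ZMod p) {v, A v}, L1_finrank A e he hA v hv, L1_stable A e hA v⟩,
        ⟨⟨v, Submodule.subset_span (Or.inl rfl)⟩, fun h => hv (congrArg Subtype.val h)⟩⟩, rfl⟩
  have h2 : Nat.card (Σ P : X, {x : P.1 // x ≠ 0}) = Nat.card X * (p ^ 2 - 1) := by
    have key : ∀ P : X, Nat.card {x : P.1 // x ≠ 0} = p ^ 2 - 1 := fun P => L1_card 2 P.2.1
    have := Fintype.ofFinite X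
    rw [Nat.card_sigma]
    rw [Finset.sum_congr rfl fun P _ => key P, Finset.sum_const, Finset.card_univ,
      Nat.card_eq_fintype_card, smul_eq_mul]
  have h3 : Nat.card {v : V // v ≠ 0} = p ^ 6 - 1 := L1_card 6 hV
  have hp : 2 ≤ p := (Fact.out : p.Prime).two_le
  have h4 : Nat.card X * (p ^ 2 - 1) = (p ^ 4 + p ^ 2 + 1) * (p ^ 2 - 1) := by
    rw [← h2, h1, h3]
    have h5 : 1 ≤ p ^ 2 := Nat.one_le_pow _ _ (by omega)
    have h6 : 1 ≤ p ^ 6 := Nat.one_le_pow _ _ (by omega)
    zify [h5, h6]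
    ring
  have h7 : 0 < p ^ 2 - 1 := by
    have : 2 ^ 2 ≤ p ^ 2 := Nat.pow_le_pow_left hp 2
    omega
  exact Nat.eq_of_mul_eq_mul_right h7 h4

end MP_02e52a.Cnt
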