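import Pool.Agent.Lib.MP_02e52a_al.Cnt.Defs

/-! # Stable planes of a quaternion action -/

namespace MP_02e52a.Cnt

open MP_02e52a.M7

section l3
variable {K V : Type*} [Field K] [AddCommGroup V] [Module K V]

private def l3_Vp (C : V →ₗ[K] V) : Submodule K V := LinearMap.eqLocus C LinearMap.id

private def l3_Vm (C : V →ₗ[K] V) : Submodule K V := LinearMap.eqLocus C (-LinearMap.id)

private theorem l3_mem_Vp (C : V →ₗ[K] V) (x : V) : x ∈ l3_Vp C ↔ C x = x := Iff.rfl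

private theorem l3_mem_Vm (C : V →ₗ[K] V) (x : V) : x ∈ l3_Vm C ↔ C x = -x := Iff.rfl

private theorem l3_inf (h2 : (2 : K) ≠ 0) (C : V →ₗ[K] V) : l3_Vp C ⊓ l3_Vm C = ⊥ := by
  rw [eq_bot_iff]
  rintro x ⟨h, h'⟩
  rw [SetLike.mem_coe, l3_mem_Vp] at h
  rw [SetLike.mem_coe, l3_mem_Vm] at h'
  rw [Submodule.mem_bot]
  have h3 : (2 : K) • x = 0 := by
    rw [two_smul]
    nth_rewrite 1 [← h]
    rw [h', neg_add_cancel]
  exact (smul_eq_zero.1 h3).resolve_left h2

private theorem l3_dec (h2 : (2 : K) ≠ 0) (C : V →ₗ[K] V) (x : V) :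
    x = (2 : K)⁻¹ • (x + C x) + (2 : K)⁻¹ • (x - C x) := by
  rw [← smul_add, add_add_sub_cancel, ← two_smul K x, smul_smul, inv_mul_cancel₀ h2, one_smul]

private theorem l3_map_le (C D : V →ₗ[K] V) (hCD : ∀ x, C (D x) = -D (C x))
    (L : Submodule K V) (hL : L ≤ l3_Vp C) : L.map D ≤ l3_Vm C := by
  rintro y ⟨x, hx, rfl⟩
  rw [l3_mem_Vm, hCD, (l3_mem_Vp C x).1 (hL hx)]

private theorem l3_inj (D : V →ₗ[K] V) (g : K) (hg : g ≠ 0) (hD : ∀ x, D (D x) = g • x) :
    Function.Injective D := by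
  intro x y h
  have h1 : g • x = g • y := by rw [← hD, ← hD, h]
  exact smul_right_injective V hg h1

private theorem l3_finrank_map (D : V →ₗ[K] V) (hD : Function.Injective D) (L : Submodule K V) :
    Module.finrank K (L.map D) = Module.finrank K L :=
  (Submodule.equivMapOfInjective D hD L).finrank_eq.symm

/-- the plane of a line -/
private theorem l3_plane (h2 : (2 : K) ≠ 0) [FiniteDimensional K V] (C D : V →ₗ[K] V) (g : K)
    (hg : g ≠ 0) (hD : ∀ x, D (D x) = g • x) (hCD : ∀ x, C (D x) = -D (C x))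
    (L : Submodule K V) (hL : L ≤ l3_Vp C) :
    Module.finrank K ↥(L ⊔ L.map D) = 2 * Module.finrank K L ∧
    (∀ x ∈ L ⊔ L.map D, C x ∈ L ⊔ L.map D) ∧ (∀ x ∈ L ⊔ L.map D, D x ∈ L ⊔ L.map D) ∧
    (L ⊔ L.map D) ⊓ l3_Vp C = L := by
  have hinj := l3_inj D g hg hD
  have hm := l3_map_le C D hCD L hL
  have hbot : L ⊓ L.map D = ⊥ := by
    rw [eq_bot_iff, ← l3_inf h2 C]
    exact inf_le_inf hL hm
  refine ⟨?_, ?_, ?_, ?_⟩
  · have h := Submodule.finrank_sup_add_finrank_inf_eq L (L.map D)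
    rw [hbot, finrank_bot, add_zero, l3_finrank_map D hinj] at h
    rw [h, two_mul]
  · intro x hx
    obtain ⟨y, hy, z, hz, rfl⟩ := Submodule.mem_sup.1 hx
    rw [map_add, (l3_mem_Vp C y).1 (hL hy), (l3_mem_Vm C z).1 (hm hz)]
    exact Submodule.add_mem_sup hy ((L.map D).neg_mem hz)
  · intro x hx
    obtain ⟨y, hy, z, ⟨w, hw, rfl⟩, rfl⟩ := Submodule.mem_sup.1 hx
    rw [map_add, hD, add_comm]
    exact Submodule.add_mem_sup (L.smul_mem g hw) ⟨y, hy, rfl⟩
  · apply le_antisymm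
    · rintro x ⟨hx, hx2⟩
      rw [SetLike.mem_coe] at hx hx2
      obtain ⟨y, hy, z, hz, rfl⟩ := Submodule.mem_sup.1 hx
      have hz2 : z ∈ l3_Vp C := by
        have := (l3_Vp C).sub_mem hx2 (hL hy)
        rwa [add_sub_cancel_left] at this
      have hz3 : z ∈ l3_Vp C ⊓ l3_Vm C := ⟨hz2, hm hz⟩
      rw [l3_inf h2 C, Submodule.mem_bot] at hz3
      rw [hz3, add_zero]
      exact hy
    · exact le_inf le_sup_left hL

/-- a stable subspace comes from its intersection with the eigenspace -/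
private theorem l3_rec (h2 : (2 : K) ≠ 0) (C D : V →ₗ[K] V) (g : K) (hg : g ≠ 0)
    (hC : ∀ x, C (C x) = x) (hD : ∀ x, D (D x) = g • x) (hCD : ∀ x, C (D x) = -D (C x))
    (P : Submodule K V) (h1 : ∀ x ∈ P, C x ∈ P) (h3 : ∀ x ∈ P, D x ∈ P) :
    (P ⊓ l3_Vp C) ⊔ (P ⊓ l3_Vp C).map D = P := by
  apply le_antisymm
  · apply sup_le inf_le_left
    rintro y ⟨x, ⟨hx, -⟩, rfl⟩
    exact h3 x hx
  · intro x hx
    rw [l3_dec h2 C x]
    refine Submodule.add_mem_sup ?_ ?_
    · refine ⟨P.smul_mem _ (P.add_mem hx (h1 x hx)), ?_⟩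
      rw [SetLike.mem_coe, l3_mem_Vp, map_smul, map_add, hC, add_comm]
    · refine ⟨g⁻¹ • D ((2 : K)⁻¹ • (x - C x)), ⟨?_, ?_⟩, ?_⟩
      · exact P.smul_mem _ (h3 _ (P.smul_mem _ (P.sub_mem hx (h1 x hx))))
      · rw [SetLike.mem_coe, l3_mem_Vp, map_smul, hCD, map_smul C, map_sub C, hC, ← map_neg D,
          ← smul_neg, neg_sub]
      · rw [map_smul, hD, smul_smul, inv_mul_cancel₀ hg, one_smul]

private theorem l3_finrank_Vp (h2 : (2 : K) ≠ 0) [FiniteDimensional K V]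
    (hV : Module.finrank K V = 6) (C D : V →ₗ[K] V) (g : K) (hg : g ≠ 0)
    (hC : ∀ x, C (C x) = x) (hD : ∀ x, D (D x) = g • x) (hCD : ∀ x, C (D x) = -D (C x)) :
    Module.finrank K (l3_Vp C) = 3 := by
  have h1 := l3_rec h2 C D g hg hC hD hCD ⊤ (fun _ _ => trivial) (fun _ _ => trivial)
  rw [top_inf_eq] at h1
  have h3 := (l3_plane h2 C D g hg hD hCD (l3_Vp C) le_rfl).1
  rw [h1, finrank_top, hV] at h3
  omega

private theorem l3_core [Finite K] (h2 : (2 : K) ≠ 0) [FiniteDimensional K V]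
    (hV : Module.finrank K V = 6) (C D : V →ₗ[K] V) (g : K) (hg : g ≠ 0)
    (hC : ∀ x, C (C x) = x) (hD : ∀ x, D (D x) = g • x) (hCD : ∀ x, C (D x) = -D (C x)) :
    Nat.card {P : Submodule K V // Module.finrank K P = 2 ∧ (∀ x ∈ P, C x ∈ P) ∧
      ∀ x ∈ P, D x ∈ P} = Nat.card K ^ 2 + Nat.card K + 1 := by
  have h3 := l3_finrank_Vp h2 hV C D g hg hC hD hCD
  have h4 : Nat.card {H : Submodule K (l3_Vp C) // Module.finrank K H = 1} =
      Nat.card K ^ 2 + Nat.card K + 1 := by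
    rw [← Nat.card_congr (Projectivization.equivSubmodule K (l3_Vp C)),
      Projectivization.card_of_finrank K (l3_Vp C) h3]
    simp [Finset.sum_range_succ]
    ring
  rw [← h4]
  symm
  have hle : ∀ H : Submodule K (l3_Vp C), H.map (l3_Vp C).subtype ≤ l3_Vp C := fun H =>
    Submodule.map_subtype_le _ _
  have hfr : ∀ H : Submodule K (l3_Vp C),
      Module.finrank K (H.map (l3_Vp C).subtype) = Module.finrank K H := fun H =>
    (Submodule.equivMapOfInjective _ (Submodule.injective_subtype _) H).finrank_eq.symm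
  let F : {H : Submodule K (l3_Vp C) // Module.finrank K H = 1} →
      {P : Submodule K V // Module.finrank K P = 2 ∧ (∀ x ∈ P, C x ∈ P) ∧ ∀ x ∈ P, D x ∈ P} :=
    fun H => ⟨H.1.map (l3_Vp C).subtype ⊔ (H.1.map (l3_Vp C).subtype).map D, by
      have h := l3_plane h2 C D g hg hD hCD _ (hle H.1)
      refine ⟨?_, h.2.1, h.2.2.1⟩
      rw [h.1, hfr, H.2]⟩
  apply Nat.card_eq_of_bijective F
  constructor
  · intro H H' h
    have h5 : H.1.map (l3_Vp C).subtype ⊔ (H.1.map (l3_Vp C).subtype).map D =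
        H'.1.map (l3_Vp C).subtype ⊔ (H'.1.map (l3_Vp C).subtype).map D := congrArg Subtype.val h
    have h6 := (l3_plane h2 C D g hg hD hCD _ (hle H.1)).2.2.2
    have h7 := (l3_plane h2 C D g hg hD hCD _ (hle H'.1)).2.2.2
    rw [h5, h7] at h6
    exact Subtype.ext (Submodule.map_injective_of_injective
      (Submodule.injective_subtype _) h6.symm)
  · rintro ⟨P, hP, hP1, hP2⟩
    have h5 := l3_rec h2 C D g hg hC hD hCD P hP1 hP2
    have h6 : ((P ⊓ l3_Vp C).comap (l3_Vp C).subtype).map (l3_Vp C).subtype = P ⊓ l3_Vp C := by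
      rw [Submodule.map_comap_subtype, inf_comm, inf_assoc, inf_idem]
    refine ⟨⟨(P ⊓ l3_Vp C).comap (l3_Vp C).subtype, ?_⟩, ?_⟩
    · rw [← hfr, h6]
      have h7 := (l3_plane h2 C D g hg hD hCD (P ⊓ l3_Vp C) inf_le_right).1
      rw [h5, hP] at h7
      omega
    · apply Subtype.ext
      change ((P ⊓ l3_Vp C).comap (l3_Vp C).subtype).map (l3_Vp C).subtype ⊔
        (((P ⊓ l3_Vp C).comap (l3_Vp C).subtype).map (l3_Vp C).subtype).map D = P
      rw [h6, h5]

end l3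

variable {p : ℕ} [Fact p.Prime]

private theorem l3_ab (hp : p ≠ 2) (e f : ZMod p) (he : e ≠ 0) (hf : f ≠ 0) :
    ∃ α β : ZMod p, α ^ 2 * e + β ^ 2 * f = 1 := by
  have h1 : (Polynomial.C e * Polynomial.X ^ 2 - 1 : Polynomial (ZMod p)).degree = 2 := by
    have : (Polynomial.C e * Polynomial.X ^ 2 - 1 : Polynomial (ZMod p)) =
        Polynomial.C e * Polynomial.X ^ 2 + Polynomial.C 0 * Polynomial.X + Polynomial.C (-1) := by
      simp [sub_eq_add_neg]
    rw [this]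
    exact Polynomial.degree_quadratic he
  have h2 : (Polynomial.C f * Polynomial.X ^ 2 : Polynomial (ZMod p)).degree = 2 :=
    Polynomial.degree_C_mul_X_pow 2 hf
  have hcard : Fintype.card (ZMod p) % 2 = 1 := by
    rw [ZMod.card]
    exact (Nat.Prime.eq_two_or_odd (Fact.out : p.Prime)).resolve_left hp
  obtain ⟨a, b, h⟩ := FiniteField.exists_root_sum_quadratic h1 h2 hcard
  refine ⟨a, b, ?_⟩
  simp only [Polynomial.eval_sub, Polynomial.eval_mul, Polynomial.eval_C, Polynomial.eval_pow,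
    Polynomial.eval_X, Polynomial.eval_one] at h
  linear_combination h

theorem card_stable_quat (hp : p ≠ 2) {V : Type*} [AddCommGroup V] [Module (ZMod p) V] [Finite V]
    (hV : Module.finrank (ZMod p) V = 6) (A B : V →ₗ[ZMod p] V) (e f : ZMod p) (he : e ≠ 0) (hf : f ≠ 0)
    (hA : ∀ x, A (A x) = e • x) (hB : ∀ x, B (B x) = f • x) (hAB : ∀ x, A (B x) = - B (A x)) :
    Nat.card {P : Submodule (ZMod p) V // Module.finrank (ZMod p) P = 2 ∧ (∀ x ∈ P, A x ∈ P) ∧
      ∀ x ∈ P, B x ∈ P} = p ^ 2 + p + 1 := by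
  have : Module.Finite (ZMod p) V := Module.Finite.of_finite
  have h2 : (2 : ZMod p) ≠ 0 := by
    have h : ((2 : ℕ) : ZMod p) ≠ 0 := by
      rw [Ne, ZMod.natCast_eq_zero_iff]
      intro h
      exact hp ((Nat.prime_dvd_prime_iff_eq Fact.out Nat.prime_two).1 h)
    exact_mod_cast h
  obtain ⟨α, β, hαβ⟩ := l3_ab hp e f he hf
  set C : V →ₗ[ZMod p] V := α • A + β • B with hCdef
  set D : V →ₗ[ZMod p] V := A ∘ₗ B with hDdef
  have hBA : ∀ x, B (A x) = - A (B x) := fun x => by rw [hAB, neg_neg]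
  have hCx : ∀ x, C x = α • A x + β • B x := fun x => rfl
  have hDx : ∀ x, D x = A (B x) := fun x => rfl
  have hC : ∀ x, C (C x) = x := by
    intro x
    rw [hCx, hCx, map_add, map_add, map_smul, map_smul, map_smul, map_smul, hA, hB, hBA]
    have : x = (α ^ 2 * e + β ^ 2 * f) • x := by rw [hαβ, one_smul]
    nth_rewrite 5 [this]
    module
  have hD : ∀ x, D (D x) = (-(e * f)) • x := by
    intro x
    rw [hDx, hDx, hBA, map_neg, hA, hB]
    module
  have hCD' : ∀ x, C (D x) = (α * e) • B x - (β * f) • A x := by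
    intro x
    rw [hCx, hDx, hA, hBA (B x), hB, map_smul]
    module
  have hCD : ∀ x, C (D x) = -D (C x) := by
    intro x
    rw [hCD', hDx, hCx, map_add, map_smul, map_smul, hBA, hB, map_add, map_smul, map_smul,
      map_neg, hA, map_smul]
    module
  have hA' : ∀ x, A x = (α * e) • C x - β • C (D x) := by
    intro x
    rw [hCD', hCx]
    have : A x = (α ^ 2 * e + β ^ 2 * f) • A x := by rw [hαβ, one_smul]
    nth_rewrite 1 [this]
    module
  have hB' : ∀ x, B x = (β * f) • C x + α • C (D x) := by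
    intro x
    rw [hCD', hCx]
    have : B x = (α ^ 2 * e + β ^ 2 * f) • B x := by rw [hαβ, one_smul]
    nth_rewrite 1 [this]
    module
  have hcore := l3_core h2 hV C D (-(e * f)) (neg_ne_zero.2 (mul_ne_zero he hf)) hC hD hCD
  rw [Nat.card_zmod] at hcore
  rw [← hcore]
  apply Nat.card_congr
  apply Equiv.subtypeEquivRight
  intro P
  refine and_congr_right fun _ => ⟨?_, ?_⟩
  · rintro ⟨h3, h4⟩
    refine ⟨fun x hx => ?_, fun x hx => ?_⟩
    · rw [hCx]
      exact P.add_mem (P.smul_mem _ (h3 x hx)) (P.smul_mem _ (h4 x hx))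
    · rw [hDx]
      exact h3 _ (h4 x hx)
  · rintro ⟨h3, h4⟩
    refine ⟨fun x hx => ?_, fun x hx => ?_⟩
    · rw [hA']
      exact P.sub_mem (P.smul_mem _ (h3 x hx)) (P.smul_mem _ (h3 _ (h4 x hx)))
    · rw [hB']
      exact P.add_mem (P.smul_mem _ (h3 x hx)) (P.smul_mem _ (h3 _ (h4 x hx)))

end MP_02e52a.Cnt
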