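import Pool.Agent.Lib.MP_02e52a_al.Cnt.Defs

/-! # Numbers of traceless matrices -/

namespace MP_02e52a.Cnt

open MP_02e52a.M7

variable {p : ℕ} [Fact p.Prime]

/-- traceless matrices as triples -/
private def n1_equiv (S : Set (ZMod p)) : {s : F2 p // s.trace = 0 ∧ -s.det ∈ S} ≃
    {x : ZMod p × ZMod p × ZMod p // x.2.1 ^ 2 + x.2.2 * x.1 ∈ S} where
  toFun s := ⟨(s.1 1 0, s.1 0 0, s.1 0 1), by
    obtain ⟨s, h1, h2⟩ := s
    rw [Matrix.trace_fin_two] at h1
    have h3 : s 1 1 = - s 0 0 := by linear_combination h1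
    rw [Matrix.det_fin_two, h3] at h2
    have h4 : s 0 0 ^ 2 + s 0 1 * s 1 0 = -(s 0 0 * -s 0 0 - s 0 1 * s 1 0) := by ring
    change s 0 0 ^ 2 + s 0 1 * s 1 0 ∈ S
    rw [h4]
    exact h2⟩
  invFun x := ⟨!![x.1.2.1, x.1.2.2; x.1.1, -x.1.2.1], by
    rw [Matrix.trace_fin_two_of]
    ring, by
    rw [Matrix.det_fin_two_of]
    have h4 : -(x.1.2.1 * -x.1.2.1 - x.1.2.2 * x.1.1) = x.1.2.1 ^ 2 + x.1.2.2 * x.1.1 := by ring
    rw [h4]
    exact x.2⟩
  left_inv s := by
    obtain ⟨s, h1, h2⟩ := s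
    rw [Matrix.trace_fin_two] at h1
    apply Subtype.ext
    change !![s 0 0, s 0 1; s 1 0, -s 0 0] = s
    ext i j
    fin_cases i <;> fin_cases j
    · rfl
    · rfl
    · rfl
    · change - s 0 0 = s 1 1
      linear_combination -h1
  right_inv x := by
    apply Subtype.ext
    rfl

/-- the number of traceless matrices with `- det` in `S` -/
private theorem n1_card (S : Set (ZMod p)) :
    Nat.card {s : F2 p // s.trace = 0 ∧ -s.det ∈ S} =
      p * Nat.card {a : ZMod p // a ^ 2 ∈ S} + (p - 1) * (p * Nat.card S) := by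
  classical
  have hS : Nat.card S = ∑ e : ZMod p, if e ∈ S then 1 else 0 := by
    rw [Nat.card_eq_fintype_card, Fintype.card_subtype, Finset.card_filter]
  have hR : Nat.card {a : ZMod p // a ^ 2 ∈ S} = ∑ a : ZMod p, if a ^ 2 ∈ S then 1 else 0 := by
    rw [Nat.card_eq_fintype_card, Fintype.card_subtype, Finset.card_filter]
  rw [Nat.card_congr (n1_equiv S), Nat.card_eq_fintype_card, Fintype.card_subtype,
    Finset.card_filter, Fintype.sum_prod_type, ← Finset.add_sum_erase _ _ (Finset.mem_univ 0)]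
  congr 1
  · rw [Fintype.sum_prod_type, hR, Finset.mul_sum]
    refine Finset.sum_congr rfl fun a _ => ?_
    simp only [mul_zero, add_zero]
    rw [Finset.sum_const, Finset.card_univ, ZMod.card, smul_eq_mul]
  · have h1 : ∀ c ∈ (Finset.univ : Finset (ZMod p)).erase 0,
        (∑ y : ZMod p × ZMod p, if y.1 ^ 2 + y.2 * c ∈ S then 1 else 0) = p * Nat.card S := by
      intro c hc
      have hc0 : c ≠ 0 := Finset.ne_of_mem_erase hc
      rw [Fintype.sum_prod_type]
      have h2 : ∀ a : ZMod p, (∑ b : ZMod p, if a ^ 2 + b * c ∈ S then 1 else 0) = Nat.card S := by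
        intro a
        rw [hS]
        exact Equiv.sum_comp ((Equiv.mulRight₀ c hc0).trans (Equiv.addLeft (a ^ 2)))
          (fun e => if e ∈ S then 1 else 0)
      rw [Finset.sum_congr rfl fun a _ => h2 a, Finset.sum_const, Finset.card_univ, ZMod.card,
        smul_eq_mul]
    refine (Finset.sum_congr rfl h1).trans ?_
    rw [Finset.sum_const, Finset.card_erase_of_mem (Finset.mem_univ _), Finset.card_univ,
      ZMod.card, smul_eq_mul]

/-- the numbers of nonzero squares and of nonsquares -/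
private theorem n1_squares (hp : p ≠ 2) :
    2 * Nat.card {D : ZMod p | D ≠ 0 ∧ IsSquare D} = p - 1 ∧
    2 * Nat.card {D : ZMod p | ¬ IsSquare D} = p - 1 := by
  classical
  have hchar : ringChar (ZMod p) ≠ 2 := by rwa [ZMod.ringChar_zmod_n]
  have h0 := quadraticChar_sum_zero hchar
  have h1 : ∀ D : ZMod p, quadraticChar (ZMod p) D =
      ((if D ≠ 0 ∧ IsSquare D then 1 else 0 : ℕ) : ℤ) - ((if ¬ IsSquare D then 1 else 0 : ℕ) : ℤ) := by
    intro D
    by_cases hD : D = 0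
    · subst hD
      simp
    · by_cases hs : IsSquare D
      · rw [(quadraticChar_one_iff_isSquare hD).2 hs]
        simp [hD, hs]
      · rw [quadraticChar_neg_one_iff_not_isSquare.2 hs]
        simp [hs]
  have h2 : ∀ D : ZMod p, (1 : ℕ) = (if D ≠ 0 ∧ IsSquare D then 1 else 0) +
      (if ¬ IsSquare D then 1 else 0) + (if D = 0 then 1 else 0) := by
    intro D
    by_cases hD : D = 0
    · subst hD
      simp
    · by_cases hs : IsSquare D <;> simp [hD, hs]
  have h3 : p = ∑ _D : ZMod p, 1 := by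
    rw [Finset.sum_const, Finset.card_univ, ZMod.card, smul_eq_mul, mul_one]
  rw [Finset.sum_congr rfl fun D _ => h2 D, Finset.sum_add_distrib, Finset.sum_add_distrib,
    Finset.sum_ite_eq' Finset.univ (0 : ZMod p), if_pos (Finset.mem_univ _)] at h3
  rw [Finset.sum_congr rfl fun D _ => h1 D, Finset.sum_sub_distrib] at h0
  have h4 : Nat.card {D : ZMod p | D ≠ 0 ∧ IsSquare D} =
      ∑ D : ZMod p, (if D ≠ 0 ∧ IsSquare D then 1 else 0) := by
    have h6 : Nat.card {D : ZMod p | D ≠ 0 ∧ IsSquare D} =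
        Nat.card {D : ZMod p // D ≠ 0 ∧ IsSquare D} := rfl
    rw [h6, Nat.card_eq_fintype_card, Fintype.card_subtype, Finset.card_filter]
  have h5 : Nat.card {D : ZMod p | ¬ IsSquare D} =
      ∑ D : ZMod p, (if ¬ IsSquare D then 1 else 0) := by
    have h6 : Nat.card {D : ZMod p | ¬ IsSquare D} =
        Nat.card {D : ZMod p // ¬ IsSquare D} := rfl
    rw [h6, Nat.card_eq_fintype_card, Fintype.card_subtype, Finset.card_filter]
  rw [← h4, ← h5] at h3
  rw [← Nat.cast_sum, ← Nat.cast_sum, ← h4, ← h5] at h0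
  omega

/-- [C5 N1a] `s = (a, b; c, -a)`, `- det s = a² + b c`. For fixed `D ≠ 0` the number of `(a, b, c)` with `a² + b c = D` is `p² + p` if `D` is a
square (for the two `a` with `a² = D` there are `2 p - 1` pairs with `b c = 0`, for the other `a` there are `p - 1` pairs) and `p² - p` otherwise.
The number of nonzero squares is `(p - 1) / 2`. -/
theorem card_split (hp : p ≠ 2) :
    2 * Nat.card {s : F2 p // s.trace = 0 ∧ s.det ≠ 0 ∧ IsSquare (-s.det)} = (p - 1) * p * (p + 1) := by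
  have h1 := n1_card (p := p) {D : ZMod p | D ≠ 0 ∧ IsSquare D}
  have h2 : Nat.card {a : ZMod p // a ^ 2 ∈ {D : ZMod p | D ≠ 0 ∧ IsSquare D}} = p - 1 := by
    classical
    rw [Nat.card_eq_fintype_card, Fintype.card_subtype]
    have h3 : (Finset.univ.filter fun a : ZMod p => a ^ 2 ∈ {D : ZMod p | D ≠ 0 ∧ IsSquare D}) =
        Finset.univ.erase 0 := by
      ext a
      rw [Finset.mem_filter, Finset.mem_erase]
      constructor
      · rintro ⟨_, h4, _⟩
        exact ⟨fun h => h4 (by rw [h]; ring), Finset.mem_univ _⟩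
      · rintro ⟨h4, _⟩
        exact ⟨Finset.mem_univ _, pow_ne_zero 2 h4, ⟨a, by ring⟩⟩
    rw [h3, Finset.card_erase_of_mem (Finset.mem_univ _), Finset.card_univ, ZMod.card]
  have h3 : Nat.card {s : F2 p // s.trace = 0 ∧ s.det ≠ 0 ∧ IsSquare (-s.det)} =
      Nat.card {s : F2 p // s.trace = 0 ∧ -s.det ∈ {D : ZMod p | D ≠ 0 ∧ IsSquare D}} := by
    refine Nat.card_congr (Equiv.subtypeEquivRight fun s => ?_)
    change _ ↔ (s.trace = 0 ∧ -s.det ≠ 0 ∧ IsSquare (-s.det))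
    rw [neg_ne_zero]
  have hp1 : 1 ≤ p := (Fact.out : p.Prime).one_lt.le
  obtain ⟨q, rfl⟩ : ∃ q, p = q + 1 := ⟨p - 1, by omega⟩
  have h4 := (n1_squares hp).1
  rw [h3, h1, h2]
  rw [Nat.add_sub_cancel] at h4 ⊢
  have h5 : 2 * ((q + 1) * q + q * ((q + 1) * Nat.card {D : ZMod (q + 1) | D ≠ 0 ∧ IsSquare D})) =
      2 * ((q + 1) * q) +
        q * (q + 1) * (2 * Nat.card {D : ZMod (q + 1) | D ≠ 0 ∧ IsSquare D}) := by ring
  rw [h5, h4]
  ring

/-- [C5 N1b] see `card_split`. -/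
theorem card_nonsplit (hp : p ≠ 2) :
    2 * Nat.card {s : F2 p // s.trace = 0 ∧ s.det ≠ 0 ∧ ¬ IsSquare (-s.det)} = (p - 1) ^ 2 * p := by
  have h1 := n1_card (p := p) {D : ZMod p | ¬ IsSquare D}
  have h2 : Nat.card {a : ZMod p // a ^ 2 ∈ {D : ZMod p | ¬ IsSquare D}} = 0 := by
    rw [Nat.card_eq_zero]
    left
    refine ⟨fun a => a.2 ⟨a.1, by ring⟩⟩
  have h3 : Nat.card {s : F2 p // s.trace = 0 ∧ s.det ≠ 0 ∧ ¬ IsSquare (-s.det)} =
      Nat.card {s : F2 p // s.trace = 0 ∧ -s.det ∈ {D : ZMod p | ¬ IsSquare D}} := by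
    refine Nat.card_congr (Equiv.subtypeEquivRight fun s => ?_)
    change _ ↔ (s.trace = 0 ∧ ¬ IsSquare (-s.det))
    constructor
    · rintro ⟨h4, _, h5⟩
      exact ⟨h4, h5⟩
    · rintro ⟨h4, h5⟩
      refine ⟨h4, fun h6 => h5 ?_, h5⟩
      rw [h6, neg_zero]
      exact ⟨0, by ring⟩
  have h4 := (n1_squares hp).2
  rw [h3, h1, h2]
  have h5 : 2 * (p * 0 + (p - 1) * (p * Nat.card {D : ZMod p | ¬ IsSquare D})) =
      (p - 1) * p * (2 * Nat.card {D : ZMod p | ¬ IsSquare D}) := by ring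
  rw [h5, h4]
  ring

private theorem n1_nilp (n : F2 p) : n * n = 0 ↔ n.trace = 0 ∧ n.det = 0 := by
  have hch : n * n = n.trace • n - n.det • (1 : F2 p) := by
    ext i j
    fin_cases i <;> fin_cases j <;>
      simp [Matrix.mul_apply, Fin.sum_univ_two, Matrix.trace_fin_two, Matrix.det_fin_two] <;> ring
  constructor
  · intro h
    have hd : n.det = 0 := by
      have h1 : (n * n).det = 0 := by
        rw [h]
        exact Matrix.det_zero
      rw [Matrix.det_mul] at h1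
      exact mul_self_eq_zero.1 h1
    rw [h, hd, zero_smul, sub_zero] at hch
    rcases smul_eq_zero.1 hch.symm with h1 | h1
    · exact ⟨h1, hd⟩
    · exact ⟨by rw [h1, Matrix.trace_zero], hd⟩
  · rintro ⟨h1, h2⟩
    rw [hch, h1, h2, zero_smul, zero_smul, sub_zero]

/-- [C5 N1c] nilpotent matrices: `(a, b; c, -a)` with `a² + b c = 0`, not zero. For `a = 0` there are `2 p - 1` pairs `(b, c)`, for `a ≠ 0` there are `p - 1`:
`2 p - 1 + (p - 1)² = p²`, minus the zero matrix. (`n * n = 0` iff trace and determinant vanish.) -/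
theorem card_nilp : Nat.card {n : F2 p // n ≠ 0 ∧ n * n = 0} = p ^ 2 - 1 := by
  have h1 := n1_card (p := p) {0}
  have h2 : Nat.card {a : ZMod p // a ^ 2 ∈ ({0} : Set (ZMod p))} = 1 := by
    rw [Nat.card_eq_one_iff_unique]
    refine ⟨⟨?_⟩, ⟨⟨0, by simp⟩⟩⟩
    rintro ⟨a, ha⟩ ⟨b, hb⟩
    apply Subtype.ext
    have ha' : a = 0 := pow_eq_zero_iff (two_ne_zero) |>.1 ha
    have hb' : b = 0 := pow_eq_zero_iff (two_ne_zero) |>.1 hb
    change a = b
    rw [ha', hb']
  have h3 : Nat.card ({0} : Set (ZMod p)) = 1 := by simp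
  have hp1 : 1 ≤ p := (Fact.out : p.Prime).one_lt.le
  rw [h2, h3] at h1
  have h4 : {n : F2 p | n ≠ 0 ∧ n * n = 0} =
      {n : F2 p | n.trace = 0 ∧ -n.det ∈ ({0} : Set (ZMod p))} \ {0} := by
    ext n
    constructor
    · rintro ⟨h5, h6⟩
      obtain ⟨h7, h8⟩ := (n1_nilp n).1 h6
      exact ⟨⟨h7, by rw [h8, neg_zero]; rfl⟩, h5⟩
    · rintro ⟨⟨h5, h6⟩, h7⟩
      exact ⟨h7, (n1_nilp n).2 ⟨h5, neg_eq_zero.1 h6⟩⟩
  have h5 : Nat.card {n : F2 p // n ≠ 0 ∧ n * n = 0} =
      ({n : F2 p | n ≠ 0 ∧ n * n = 0}).ncard := rfl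
  have h6 : ({n : F2 p | n.trace = 0 ∧ -n.det ∈ ({0} : Set (ZMod p))}).ncard =
      p * 1 + (p - 1) * (p * 1) := h1
  rw [h5, h4, Set.ncard_sdiff_singleton_of_mem, h6]
  · obtain ⟨q, rfl⟩ : ∃ q, p = q + 1 := ⟨p - 1, by omega⟩
    rw [Nat.add_sub_cancel]
    congr 1
    ring
  · exact ⟨Matrix.trace_zero _ _, by rw [Matrix.det_zero, neg_zero]; rfl⟩

end MP_02e52a.Cnt
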