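import Pool.Agent.Lib.MP_02e52a_al.Cnt.N1
import Pool.Agent.Lib.MP_02e52a_al.Cnt.Mat2

/-! # Anticommuting pairs -/

namespace MP_02e52a.Cnt

open MP_02e52a.M7

variable {p : ℕ} [Fact p.Prime]

/-- conjugation does not change the number -/
private theorem n2_cj (z b : F2 p) (hb : b.det ≠ 0) :
    Nat.card {t : F2 p // t.trace = 0 ∧ t.det ≠ 0 ∧ (z * t).trace = 0} =
      Nat.card {t : F2 p // t.trace = 0 ∧ t.det ≠ 0 ∧ (cj b z * t).trace = 0} := by
  refine Nat.card_congr (Equiv.subtypeEquiv (cjE b hb) fun t => ?_)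
  rw [cjE_apply, cj_trace b hb, cj_det b hb, ← cj_mul b hb, cj_trace b hb]

/-- the companion form -/
private theorem n2_comp (D : ZMod p) :
    Nat.card {t : F2 p // t.trace = 0 ∧ t.det ≠ 0 ∧ ((!![0, D; 1, 0] : F2 p) * t).trace = 0} =
      Nat.card {x : ZMod p × ZMod p // x.1 ^ 2 - D * x.2 ^ 2 ≠ 0} := by
  refine Nat.card_congr
    { toFun := fun t => ⟨(t.1 0 0, t.1 1 0), ?_⟩
      invFun := fun x => ⟨!![x.1.1, -D * x.1.2; x.1.2, -x.1.1], ?_, ?_, ?_⟩
      left_inv := ?_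
      right_inv := ?_ }
  · obtain ⟨t, h1, h2, h3⟩ := t
    rw [Matrix.trace_fin_two] at h1
    rw [Matrix.det_fin_two] at h2
    simp only [Matrix.trace_fin_two, Matrix.mul_apply, Fin.sum_univ_two, Matrix.of_apply,
      Matrix.cons_val_zero, Matrix.cons_val_one, Matrix.cons_val', Matrix.cons_val_fin_one,
      zero_mul, one_mul, zero_add, add_zero] at h3
    intro h4
    apply h2
    have h4 : t 0 0 ^ 2 - D * t 1 0 ^ 2 = 0 := h4
    have e1 : t 1 1 = - t 0 0 := eq_neg_of_add_eq_zero_right h1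
    have e2 : t 0 1 = - (D * t 1 0) := eq_neg_of_add_eq_zero_right h3
    rw [e1, e2]
    linear_combination -h4
  · simp [Matrix.trace_fin_two]
  · obtain ⟨x, hx⟩ := x
    intro h
    apply hx
    rw [Matrix.det_fin_two] at h
    simp only [Matrix.of_apply, Matrix.cons_val_zero, Matrix.cons_val_one, Matrix.cons_val',
      Matrix.cons_val_fin_one] at h
    linear_combination -h
  · obtain ⟨x, hx⟩ := x
    simp only [Matrix.trace_fin_two, Matrix.mul_apply, Fin.sum_univ_two, Matrix.of_apply,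
      Matrix.cons_val_zero, Matrix.cons_val_one, Matrix.cons_val', Matrix.cons_val_fin_one]
    ring
  · rintro ⟨t, h1, h2, h3⟩
    apply Subtype.ext
    rw [Matrix.trace_fin_two] at h1
    simp only [Matrix.trace_fin_two, Matrix.mul_apply, Fin.sum_univ_two, Matrix.of_apply,
      Matrix.cons_val_zero, Matrix.cons_val_one, Matrix.cons_val', Matrix.cons_val_fin_one,
      zero_mul, one_mul, zero_add, add_zero] at h3
    have e1 : t 1 1 = - t 0 0 := eq_neg_of_add_eq_zero_right h1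
    have e2 : t 0 1 = - (D * t 1 0) := eq_neg_of_add_eq_zero_right h3
    ext i j
    fin_cases i <;> fin_cases j
    · rfl
    · change -D * t 1 0 = t 0 1
      rw [e2]; ring
    · rfl
    · exact e1.symm
  · rintro ⟨x, hx⟩
    rfl

private theorem n2_ne : Nat.card {u : ZMod p // u ≠ 0} = p - 1 := by
  rw [← Nat.card_congr (unitsEquivNeZero (G₀ := ZMod p)), Nat.card_eq_fintype_card, ZMod.card_units]

private theorem n2_sq (hp : p ≠ 2) (c : ZMod p) (hc : c ≠ 0) :
    Nat.card {x : ZMod p × ZMod p // x.1 ^ 2 - c ^ 2 * x.2 ^ 2 ≠ 0} = (p - 1) ^ 2 := by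
  have h2 : (2 : ZMod p) ≠ 0 := by
    intro h
    have h3 : ((2 : ℕ) : ZMod p) = 0 := by exact_mod_cast h
    rw [ZMod.natCast_eq_zero_iff] at h3
    exact hp ((Nat.prime_dvd_prime_iff_eq Fact.out Nat.prime_two).1 h3)
  have e : {x : ZMod p × ZMod p // x.1 ^ 2 - c ^ 2 * x.2 ^ 2 ≠ 0} ≃
      {u : ZMod p // u ≠ 0} × {u : ZMod p // u ≠ 0} :=
    { toFun := fun x => (⟨x.1.1 - c * x.1.2, by
        intro h
        apply x.2
        linear_combination (x.1.1 + c * x.1.2) * h⟩, ⟨x.1.1 + c * x.1.2, by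
        intro h
        apply x.2
        linear_combination (x.1.1 - c * x.1.2) * h⟩)
      invFun := fun u => ⟨((u.1.1 + u.2.1) / 2, (u.2.1 - u.1.1) / (2 * c)), by
        obtain ⟨⟨u, hu⟩, ⟨v, hv⟩⟩ := u
        have : ((u + v) / 2) ^ 2 - c ^ 2 * ((v - u) / (2 * c)) ^ 2 = u * v := by
          field_simp
          ring
        change ((u + v) / 2) ^ 2 - c ^ 2 * ((v - u) / (2 * c)) ^ 2 ≠ 0
        rw [this]
        exact mul_ne_zero hu hv⟩
      left_inv := by
        rintro ⟨⟨a, b⟩, hx⟩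
        apply Subtype.ext
        apply Prod.ext
        · change ((a - c * b) + (a + c * b)) / 2 = a
          field_simp
          ring
        · change ((a + c * b) - (a - c * b)) / (2 * c) = b
          field_simp
          ring
      right_inv := by
        rintro ⟨⟨u, hu⟩, ⟨v, hv⟩⟩
        apply Prod.ext
        · apply Subtype.ext
          change (u + v) / 2 - c * ((v - u) / (2 * c)) = u
          field_simp
          ring
        · apply Subtype.ext
          change (u + v) / 2 + c * ((v - u) / (2 * c)) = v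
          field_simp
          ring }
  rw [Nat.card_congr e, Nat.card_prod, n2_ne, _root_.sq]

private theorem n2_nsq (D : ZMod p) (hD : ¬ IsSquare D) :
    Nat.card {x : ZMod p × ZMod p // x.1 ^ 2 - D * x.2 ^ 2 ≠ 0} = p ^ 2 - 1 := by
  classical
  have e : {x : ZMod p × ZMod p // x.1 ^ 2 - D * x.2 ^ 2 ≠ 0} ≃ {x : ZMod p × ZMod p // x ≠ 0} := by
    refine Equiv.subtypeEquivRight fun x => ?_
    obtain ⟨a, b⟩ := x
    constructor
    · rintro h h1
      simp only [Prod.mk_eq_zero] at h1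
      apply h
      rw [h1.1, h1.2]
      simp
    · intro h h1
      have h1 : a ^ 2 - D * b ^ 2 = 0 := h1
      apply h
      by_cases hb : b = 0
      · rw [hb] at h1 ⊢
        have h2 : a ^ 2 = 0 := by linear_combination h1
        rw [pow_eq_zero_iff (by norm_num)] at h2
        rw [h2]
        rfl
      · exfalso
        apply hD
        refine ⟨a / b, ?_⟩
        field_simp
        linear_combination -h1
  rw [Nat.card_congr e, Nat.card_eq_fintype_card]
  have h := Set.card_ne_eq (0 : ZMod p × ZMod p)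
  rw [Fintype.card_prod, ZMod.card, ← _root_.sq] at h
  exact h

/-- [C5 N2a] the nonisotropic elements of the orthogonal complement of `z`. PROOF: by conjugation (`conj_comp`, `cjE`, `cj_trace`, `cj_det`, `cj_mul`) let
`z = (0, D; 1, 0)`, `D = - det z`; then `t = (t0, - D t2; t2, - t0)` and `- det t = t0² - D t2²`. If `D` is not a square this vanishes only for
`t0 = t2 = 0`: `p² - 1` elements. If `D = c²`, `c ≠ 0`, then `t0² - D t2² = (t0 - c t2)(t0 + c t2)` and `(t0 - c t2, t0 + c t2)` runs over all pairs: `(p - 1)²` elements. -/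
theorem card_perp (hp : p ≠ 2) (z : F2 p) (hz : z.trace = 0) (hzd : z.det ≠ 0) :
    (IsSquare (-z.det) → Nat.card {t : F2 p // t.trace = 0 ∧ t.det ≠ 0 ∧ (z * t).trace = 0} = (p - 1) ^ 2) ∧
    (¬ IsSquare (-z.det) → Nat.card {t : F2 p // t.trace = 0 ∧ t.det ≠ 0 ∧ (z * t).trace = 0} = p ^ 2 - 1) := by
  obtain ⟨b, hb, hbz⟩ := conj_comp hp z hz hzd
  rw [n2_cj z b hb, hbz, n2_comp]
  constructor
  · rintro ⟨c, hc⟩
    have hc0 : c ≠ 0 := by
      rintro rfl
      apply hzd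
      have : -z.det = 0 := by rw [hc]; simp
      exact neg_eq_zero.1 this
    rw [hc, ← _root_.sq]
    exact n2_sq hp c hc0
  · exact n2_nsq _

/-- [C5 N2b] PROOF: sum of `card_perp` over `z` (`Nat.card_sigma`), `card_split`, `card_nonsplit`:
`2 N = (p-1) p (p+1) (p-1)² + (p-1)² p (p²-1) = 2 p (p²-1) (p-1)²`. -/
theorem card_anti (hp : p ≠ 2) : Nat.card {q : F2 p × F2 p // q.1.trace = 0 ∧ q.1.det ≠ 0 ∧ q.2.trace = 0 ∧
    q.2.det ≠ 0 ∧ (q.1 * q.2).trace = 0} = p * (p ^ 2 - 1) * (p - 1) ^ 2 := by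
  classical
  have e : {q : F2 p × F2 p // q.1.trace = 0 ∧ q.1.det ≠ 0 ∧ q.2.trace = 0 ∧
      q.2.det ≠ 0 ∧ (q.1 * q.2).trace = 0} ≃ Σ z : {z : F2 p // z.trace = 0 ∧ z.det ≠ 0},
        {t : F2 p // t.trace = 0 ∧ t.det ≠ 0 ∧ (z.1 * t).trace = 0} :=
    { toFun := fun q => ⟨⟨q.1.1, q.2.1, q.2.2.1⟩, q.1.2, q.2.2.2⟩
      invFun := fun x => ⟨(x.1.1, x.2.1), x.1.2.1, x.1.2.2, x.2.2⟩
      left_inv := fun _ => rfl
      right_inv := fun _ => rfl }
  have h1 : ∀ z : {z : F2 p // z.trace = 0 ∧ z.det ≠ 0},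
      Nat.card {t : F2 p // t.trace = 0 ∧ t.det ≠ 0 ∧ (z.1 * t).trace = 0} =
        if IsSquare (-z.1.det) then (p - 1) ^ 2 else p ^ 2 - 1 := by
    intro z
    have h := card_perp hp z.1 z.2.1 z.2.2
    split_ifs with h2
    · exact h.1 h2
    · exact h.2 h2
  rw [Nat.card_congr e, Nat.card_sigma, Finset.sum_congr rfl (fun z _ => h1 z), Finset.sum_ite,
    Finset.sum_const, Finset.sum_const, smul_eq_mul, smul_eq_mul]
  have h2 : (Finset.univ.filter (fun z : {z : F2 p // z.trace = 0 ∧ z.det ≠ 0} =>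
      IsSquare (-z.1.det))).card =
      Nat.card {s : F2 p // s.trace = 0 ∧ s.det ≠ 0 ∧ IsSquare (-s.det)} := by
    rw [← Fintype.card_subtype, ← Nat.card_eq_fintype_card]
    exact Nat.card_congr
      { toFun := fun s => ⟨s.1.1, s.1.2.1, s.1.2.2, s.2⟩
        invFun := fun s => ⟨⟨s.1, s.2.1, s.2.2.1⟩, s.2.2.2⟩
        left_inv := fun _ => rfl
        right_inv := fun _ => rfl }
  have h3 : (Finset.univ.filter (fun z : {z : F2 p // z.trace = 0 ∧ z.det ≠ 0} =>
      ¬ IsSquare (-z.1.det))).card =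
      Nat.card {s : F2 p // s.trace = 0 ∧ s.det ≠ 0 ∧ ¬ IsSquare (-s.det)} := by
    rw [← Fintype.card_subtype, ← Nat.card_eq_fintype_card]
    exact Nat.card_congr
      { toFun := fun s => ⟨s.1.1, s.1.2.1, s.1.2.2, s.2⟩
        invFun := fun s => ⟨⟨s.1, s.2.1, s.2.2.1⟩, s.2.2.2⟩
        left_inv := fun _ => rfl
        right_inv := fun _ => rfl }
  rw [h2, h3]
  have h4 := card_split (p := p) hp
  have h5 := card_nonsplit (p := p) hp
  obtain ⟨k, hk⟩ : ∃ k, p = k + 1 := ⟨p - 1, (Nat.sub_add_cancel (Fact.out : p.Prime).one_le).symm⟩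
  generalize Nat.card {s : F2 p // s.trace = 0 ∧ s.det ≠ 0 ∧ IsSquare (-s.det)} = a at h4 ⊢
  generalize Nat.card {s : F2 p // s.trace = 0 ∧ s.det ≠ 0 ∧ ¬ IsSquare (-s.det)} = b at h5 ⊢
  have e1 : p - 1 = k := by omega
  have e2 : p ^ 2 - 1 = k * (k + 2) := by
    rw [hk]
    have : (k + 1) ^ 2 = k * (k + 2) + 1 := by ring
    omega
  rw [e1] at h4 h5 ⊢
  rw [e2]
  rw [hk] at h4 h5 ⊢
  have h6 : 2 * (a * k ^ 2 + b * (k * (k + 2))) = 2 * ((k + 1) * (k * (k + 2)) * k ^ 2) := by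
    have : 2 * (a * k ^ 2 + b * (k * (k + 2))) = (2 * a) * k ^ 2 + (2 * b) * (k * (k + 2)) := by ring
    rw [this, h4, h5]
    ring
  exact Nat.eq_of_mul_eq_mul_left (by norm_num) h6

end MP_02e52a.Cnt
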