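import Pool.Agent.Lib.MP_02e52a_al.Cnt.Stab

/-! # Size of the orbits of regular planes -/

namespace MP_02e52a.Cnt

open MP_02e52a.M7

variable {p : ℕ} [Fact p.Prime]

/-- the orbit map -/
private noncomputable def ob_f (P : Gr p) (a : {a : F2 p // a.det ≠ 0}) :
    {P' : Gr p // ∃ a : F2 p, a.det ≠ 0 ∧ P.1.map (actM a) = P'.1} :=
  ⟨trG a.1 a.2 P, a.1, a.2, trG_val a.1 a.2 P⟩

private theorem ob_surj (P : Gr p) : Function.Surjective (ob_f P) := by
  rintro ⟨P', a, ha, h⟩
  refine ⟨⟨a, ha⟩, ?_⟩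
  apply Subtype.ext
  apply Subtype.ext
  exact h

private theorem ob_sc (a : F2 p) (h : Sc a) : a = (a 0 0) • (1 : F2 p) := by
  obtain ⟨h1, h2, h3⟩ := h
  ext i j
  fin_cases i <;> fin_cases j <;> simp [h1, h2, h3]

/-- two elements in the same fibre differ by a scalar -/
private theorem ob_eq (P : Gr p) (h : ∀ a, St P.1 a → Sc a) (a b : {a : F2 p // a.det ≠ 0})
    (hab : ob_f P a = ob_f P b) : ∃ c : ZMod p, c ≠ 0 ∧ b.1 = c • a.1 := by
  obtain ⟨a, ha⟩ := a
  obtain ⟨b, hb⟩ := b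
  have e : P.1.map (actM a) = P.1.map (actM b) := congrArg (fun q => q.1.1) hab
  have hst : St P.1 (a.adjugate * b) := by
    refine ⟨?_, fun x hx => ?_⟩
    · rw [Matrix.det_mul, Matrix.det_adjugate]
      exact mul_ne_zero (by simpa using ha) hb
    · have h1 : actM b x ∈ P.1.map (actM a) := by
        rw [e]; exact ⟨x, hx, rfl⟩
      obtain ⟨y, hy, hyx⟩ := h1
      rw [actM_mul, ← hyx, actM_adj]
      exact P.1.smul_mem _ hy
  have hsc := ob_sc _ (h _ hst)
  set c := (a.adjugate * b) 0 0 with hc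
  have h2 : a.det • b = c • a := by
    have h3 := congrArg (fun m => a * m) hsc
    simp only [← Matrix.mul_assoc, Matrix.mul_adjugate, Matrix.smul_mul, Matrix.one_mul, Matrix.mul_smul,
      Matrix.mul_one] at h3
    exact h3
  refine ⟨a.det⁻¹ * c, ?_, ?_⟩
  · intro h0
    have hc0 : c = 0 := by
      rcases mul_eq_zero.1 h0 with h0 | h0
      · exact absurd h0 (inv_ne_zero ha)
      · exact h0
    rw [hc0, zero_smul] at h2
    have h4 : b = 0 := by
      rcases smul_eq_zero.1 h2 with h5 | h5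
      · exact absurd h5 ha
      · exact h5
    apply hb
    show b.det = 0
    rw [h4, Matrix.det_zero]
  · show b = _
    rw [mul_smul, ← h2, smul_smul, inv_mul_cancel₀ ha, one_smul]

private theorem ob_map_smul (P : Gr p) (a : F2 p) (c : ZMod p) (hc : c ≠ 0) :
    P.1.map (actM (c • a)) = P.1.map (actM a) := by
  ext x
  constructor
  · rintro ⟨y, hy, rfl⟩
    exact ⟨c ^ 3 • y, P.1.smul_mem _ hy, by rw [map_smul, actM_smul]⟩
  · rintro ⟨y, hy, rfl⟩
    refine ⟨(c ^ 3)⁻¹ • y, P.1.smul_mem _ hy, ?_⟩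
    rw [actM_smul, map_smul, smul_smul, mul_inv_cancel₀ (pow_ne_zero 3 hc), one_smul]

private theorem ob_card_ne : Nat.card {c : ZMod p // c ≠ 0} = p - 1 := by
  have hp : p.Prime := Fact.out
  have hNe : NeZero p := ⟨hp.ne_zero⟩
  rw [Nat.card_eq_fintype_card, Fintype.card_subtype_compl, ZMod.card]
  simp

private theorem ob_fib (P : Gr p) (h : ∀ a, St P.1 a → Sc a) (b : {a : F2 p // a.det ≠ 0}) :
    Nat.card {a // ob_f P a = ob_f P b} = p - 1 := by
  rw [← ob_card_ne (p := p)]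
  symm
  have hdet : ∀ c : ZMod p, c ≠ 0 → (c • b.1).det ≠ 0 := fun c hc => by
    rw [Matrix.det_smul]; exact mul_ne_zero (pow_ne_zero _ hc) b.2
  have hb0 : b.1 ≠ 0 := by
    intro h0
    apply b.2
    rw [h0, Matrix.det_zero]
  refine Nat.card_congr (Equiv.ofBijective
    (fun c : {c : ZMod p // c ≠ 0} => (⟨⟨c.1 • b.1, hdet c.1 c.2⟩, ?_⟩ :
      {a // ob_f P a = ob_f P b})) ⟨?_, ?_⟩)
  · apply Subtype.ext
    apply Subtype.ext
    exact ob_map_smul P b.1 c.1 c.2
  · intro c c' hcc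
    have h1 : c.1 • b.1 = c'.1 • b.1 := congrArg (fun q => q.1.1) hcc
    apply Subtype.ext
    have h2 : (c.1 - c'.1) • b.1 = 0 := by rw [sub_smul, h1, sub_self]
    rcases smul_eq_zero.1 h2 with h3 | h3
    · exact sub_eq_zero.1 h3
    · exact absurd h3 hb0
  · rintro ⟨a, ha⟩
    obtain ⟨c, hc, hca⟩ := ob_eq P h b a ha.symm
    refine ⟨⟨c, hc⟩, ?_⟩
    apply Subtype.ext
    apply Subtype.ext
    exact hca.symm

private theorem ob_card_inv : Nat.card {a : F2 p // a.det ≠ 0} = (p ^ 2 - 1) * (p ^ 2 - p) := by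
  have hp : p.Prime := Fact.out
  have hNe : NeZero p := ⟨hp.ne_zero⟩
  have h1 := Matrix.card_GL_field (𝔽 := ZMod p) 2
  rw [Fin.prod_univ_two, ZMod.card] at h1
  simp only [Fin.val_zero, pow_zero, Fin.val_one, pow_one] at h1
  rw [← h1]
  refine Nat.card_congr
    { toFun := fun a => Matrix.GeneralLinearGroup.mkOfDetNeZero a.1 a.2
      invFun := fun g => ⟨g.1, ?_⟩
      left_inv := fun a => ?_
      right_inv := fun g => ?_ }
  · have h2 := g.isUnit
    have h3 := (Matrix.isUnit_iff_isUnit_det _).1 h2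
    exact h3.ne_zero
  · rfl
  · ext i j
    rfl

/-- [C5 OB] PROOF: the map `a ↦ trG a P` from the invertible matrices (there are `(p² - 1)(p² - p)`, `Matrix.card_GL_field`) onto the orbit; `trG a P = trG b P` iff `adj b a` stabilises `P` iff `a = c b` with `c ≠ 0` (hypothesis): fibres of size `p - 1`. (The statement lists the orbit as a set of planes.) -/
theorem card_orbit (P : Gr p) (h : ∀ a, St P.1 a → Sc a) :
    Nat.card {P' : Gr p // ∃ a : F2 p, a.det ≠ 0 ∧ P.1.map (actM a) = P'.1} = p * (p ^ 2 - 1) := by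
  classical
  have hp : p.Prime := Fact.out
  have hNe : NeZero p := ⟨hp.ne_zero⟩
  have : Fintype {P' : Gr p // ∃ a : F2 p, a.det ≠ 0 ∧ P.1.map (actM a) = P'.1} := Fintype.ofFinite _
  have h1 : Nat.card {a : F2 p // a.det ≠ 0} =
      Nat.card {P' : Gr p // ∃ a : F2 p, a.det ≠ 0 ∧ P.1.map (actM a) = P'.1} * (p - 1) := by
    rw [Nat.card_congr (Equiv.sigmaFiberEquiv (ob_f P)).symm, Nat.card_sigma,
      Finset.sum_const_nat (m := p - 1), Finset.card_univ, Nat.card_eq_fintype_card]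
    intro c _
    obtain ⟨b, rfl⟩ := ob_surj P c
    exact ob_fib P h b
  rw [ob_card_inv] at h1
  have h2 : p ^ 2 - p = p * (p - 1) := by
    rw [Nat.mul_sub, mul_one, pow_two]
  rw [h2, ← mul_assoc] at h1
  have h3 : 0 < p - 1 := Nat.sub_pos_of_lt hp.one_lt
  have h4 := Nat.eq_of_mul_eq_mul_right h3 h1
  rw [← h4, mul_comm]

end MP_02e52a.Cnt
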