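import Pool.Agent.Lib.MP_02e52a_al.Cnt.SM
import Pool.Agent.Lib.MP_02e52a_al.Cnt.ID2

/-! # Number of planes fixed by an involution or a unipotent element -/

namespace MP_02e52a.Cnt

open MP_02e52a.M7

variable {p : ℕ} [Fact p.Prime]

private theorem sn_sum {A X : Type*} [Fintype A] [Finite X] (R : A → Set X) :
    Nat.card {q : A × X // q.2 ∈ R q.1} = ∑ a, (R a).ncard := by
  have e : {q : A × X // q.2 ∈ R q.1} ≃ Σ a : A, {x : X // x ∈ R a} :=
    { toFun := fun q => ⟨q.1.1, q.1.2, q.2⟩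
      invFun := fun q => ⟨(q.1, q.2.1), q.2.2⟩
      left_inv := fun _ => rfl
      right_inv := fun _ => rfl }
  rw [Nat.card_congr e, Nat.card_sigma]
  rfl

/-- [C5 SNa] PROOF: sum `pointwise` over all `P ≠ P0` with `JJ P ≠ ∅` (`∑ P, (JJ P).ncard = Nat.card {q // q.2 ∈ JJ q.1}` etc., terms with `JJ P = ∅` vanish for `JJ` and `JP`; `P0` itself is subtracted with `P0_vals`, `JJ P0` is not empty). With `n` the number of planes with `JJ ≠ ∅`:
`3 (p-1) (ΣJJ - (p-1) p²) = (ΣJP - p (p²-1) (p-1)²) + 3 (p-1)² ((p²-1)(2p+1) - (p²-1)) + 3 (p-1)² (n - 1)`; insert `sum_JJ`, `sum_JP`, `sum_KK` and cancel `(p-1)²` (work in `ℤ`). -/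
theorem card_J (hp : p ≠ 2) : (6 * Nat.card {P : Gr p // (JJ P.1).Nonempty} : ℤ) =
    6 + 3 * p * (p + 1) * ((p ^ 2 + p + 1) * (p ^ 2 + p + 3) - 1) + 3 * p * (p - 1) * (p ^ 4 + p ^ 2) -
      2 * p ^ 2 * (p + 1) * (p ^ 2 - 1) - 12 * p * (p ^ 2 - 1) := by
  classical
  have : Fintype (Gr p) := Fintype.ofFinite _
  have hp1 : 1 < p := (Fact.out : p.Prime).one_lt
  obtain ⟨v1, v2, v3⟩ := P0_vals (p := p) hp
  obtain ⟨Z, hZ⟩ : ∃ Z : Gr p, Z = ⟨P0, finrank_P0⟩ := ⟨_, rfl⟩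
  have hZ1 : Z.1 = P0 := by rw [hZ]
  have hJZ : (JJ Z.1).Nonempty := by
    rw [hZ1]
    apply Set.nonempty_of_ncard_ne_zero
    rw [v1]
    exact Nat.mul_ne_zero (by omega) (pow_ne_zero _ (by omega))
  obtain ⟨S, hS⟩ : ∃ S : Finset (Gr p), S = Finset.univ.filter fun P : Gr p => (JJ P.1).Nonempty :=
    ⟨_, rfl⟩
  have hmem : ∀ P : Gr p, P ∈ S ↔ (JJ P.1).Nonempty := by
    intro P; rw [hS, Finset.mem_filter]; simp
  have hZS : Z ∈ S := (hmem Z).2 hJZ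
  have hcard : Nat.card {P : Gr p // (JJ P.1).Nonempty} = S.card := by
    rw [Nat.card_eq_fintype_card, Fintype.card_subtype, hS]
  -- the three sums
  have hA : ∑ P ∈ S, (JJ P.1).ncard = Nat.card {q : Gr p × F2 p // q.2 ∈ JJ q.1.1} := by
    rw [sn_sum (fun P : Gr p => JJ P.1)]
    apply Finset.sum_subset (Finset.subset_univ _)
    intro P _ hP
    rw [hmem, Set.not_nonempty_iff_eq_empty] at hP
    rw [hP, Set.ncard_empty]
  have hB : ∑ P ∈ S, (JP P.1).ncard = Nat.card {q : Gr p × (F2 p × F2 p) // q.2 ∈ JP q.1.1} := by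
    rw [sn_sum (fun P : Gr p => JP P.1)]
    apply Finset.sum_subset (Finset.subset_univ _)
    intro P _ hP
    rw [hmem, Set.not_nonempty_iff_eq_empty] at hP
    have h1 : JP P.1 = ∅ := by
      ext q
      simp only [Set.mem_empty_iff_false, iff_false]
      rintro ⟨h, -⟩
      rw [hP] at h
      exact h
    rw [h1, Set.ncard_empty]
  have hK : ∑ P ∈ S, (KK P.1).ncard =
      Nat.card {q : Gr p × F2 p // q.2 ∈ KK q.1.1 ∧ (JJ q.1.1).Nonempty} := by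
    have h0 := sn_sum (fun P : Gr p => {n : F2 p | n ∈ KK P.1 ∧ (JJ P.1).Nonempty})
    have h1 : Nat.card {q : Gr p × F2 p // q.2 ∈ KK q.1.1 ∧ (JJ q.1.1).Nonempty} =
        ∑ P : Gr p, ({n : F2 p | n ∈ KK P.1 ∧ (JJ P.1).Nonempty} : Set (F2 p)).ncard := h0
    rw [h1]
    have h2 : ∑ P ∈ S, (KK P.1).ncard =
        ∑ P ∈ S, ({n : F2 p | n ∈ KK P.1 ∧ (JJ P.1).Nonempty} : Set (F2 p)).ncard := by
      apply Finset.sum_congr rfl
      intro P hP
      congr 1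
      ext n
      exact ⟨fun h => ⟨h, (hmem P).1 hP⟩, fun h => h.1⟩
    rw [h2]
    apply Finset.sum_subset (Finset.subset_univ _)
    intro P _ hP
    have h3 : ({n : F2 p | n ∈ KK P.1 ∧ (JJ P.1).Nonempty} : Set (F2 p)) = ∅ := by
      ext n
      simp only [Set.mem_empty_iff_false, iff_false]
      rintro ⟨-, h⟩
      exact hP ((hmem P).2 h)
    rw [h3, Set.ncard_empty]
  -- the pointwise identities summed
  have hpt : ∑ P ∈ S.erase Z, 3 * (p - 1) * (JJ P.1).ncard =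
      ∑ P ∈ S.erase Z, ((JP P.1).ncard + 3 * (p - 1) ^ 2 * (KK P.1).ncard + 3 * (p - 1) ^ 2) := by
    apply Finset.sum_congr rfl
    intro P hP
    rw [Finset.mem_erase] at hP
    refine pointwise hp P (fun h => hP.1 (Subtype.ext (h.trans hZ1.symm))) ((hmem P).1 hP.2)
  rw [Finset.sum_add_distrib, Finset.sum_add_distrib, ← Finset.mul_sum, ← Finset.mul_sum,
    Finset.sum_const, Finset.card_erase_of_mem hZS, smul_eq_mul] at hpt
  have eA := Finset.add_sum_erase S (fun P : Gr p => (JJ P.1).ncard) hZS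
  have eB := Finset.add_sum_erase S (fun P : Gr p => (JP P.1).ncard) hZS
  have eK := Finset.add_sum_erase S (fun P : Gr p => (KK P.1).ncard) hZS
  simp only [hZ1] at eA eB eK
  rw [hA, v1] at eA
  rw [hB, v2] at eB
  rw [hK, v3] at eK
  have sJ := sum_JJ (p := p) hp
  have sP := sum_JP (p := p) hp
  have sK := (sum_KK (p := p) hp).1
  have hSpos : 1 ≤ S.card := Finset.card_pos.2 ⟨Z, hZS⟩
  rw [hcard]
  generalize ∑ P ∈ S.erase Z, (JJ P.1).ncard = a at *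
  generalize ∑ P ∈ S.erase Z, (JP P.1).ncard = b at *
  generalize ∑ P ∈ S.erase Z, (KK P.1).ncard = k at *
  generalize Nat.card {q : Gr p × F2 p // q.2 ∈ JJ q.1.1} = sa at *
  generalize Nat.card {q : Gr p × (F2 p × F2 p) // q.2 ∈ JP q.1.1} = sb at *
  generalize Nat.card {q : Gr p × F2 p // q.2 ∈ KK q.1.1 ∧ (JJ q.1.1).Nonempty} = sk at *
  generalize S.card = n at *
  obtain ⟨r, rfl⟩ : ∃ r, p = r + 1 := ⟨p - 1, by omega⟩
  obtain ⟨n', rfl⟩ : ∃ n', n = n' + 1 := ⟨n - 1, by omega⟩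
  have hr : 0 < r := by omega
  have hsq : (r + 1) ^ 2 - 1 = r * (r + 2) := by
    have : (r + 1) ^ 2 = r * (r + 2) + 1 := by ring
    omega
  rw [hsq] at eB eK sP sK
  simp only [Nat.add_sub_cancel] at hpt eA eB sJ sP
  have hrZ : (r : ℤ) ≠ 0 := by exact_mod_cast hr.ne'
  have hpt' : (3 * r * a : ℤ) = b + 3 * r ^ 2 * k + n' * (3 * r ^ 2) := by exact_mod_cast hpt
  have eA' : (r * (r + 1) ^ 2 + a : ℤ) = sa := by exact_mod_cast eA
  have eB' : ((r + 1) * (r * (r + 2)) * r ^ 2 + b : ℤ) = sb := by exact_mod_cast eB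
  have eK' : (r * (r + 2) + k : ℤ) = sk := by exact_mod_cast eK
  have sJ' : (2 * sa : ℤ) = r * (r + 1) * (r + 1 + 1) * (((r + 1) ^ 2 + (r + 1) + 1) *
      ((r + 1) ^ 2 + (r + 1) + 3)) + r ^ 2 * (r + 1) * ((r + 1) ^ 4 + (r + 1) ^ 2 + 1) := by
    exact_mod_cast sJ
  have sP' : (sb : ℤ) = (r + 1) * (r * (r + 2)) * r ^ 2 * ((r + 1) ^ 2 + (r + 1) + 1) := by
    exact_mod_cast sP
  have sK' : (sk : ℤ) = r * (r + 2) * (2 * (r + 1) + 1) := by exact_mod_cast sK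
  have key : (r : ℤ) ^ 2 * (6 * ((n' : ℤ) + 1)) = (r : ℤ) ^ 2 *
      (6 + 3 * (r + 1) * (r + 1 + 1) * (((r + 1) ^ 2 + (r + 1) + 1) * ((r + 1) ^ 2 + (r + 1) + 3) - 1) +
        3 * (r + 1) * (r + 1 - 1) * ((r + 1) ^ 4 + (r + 1) ^ 2) -
      2 * (r + 1) ^ 2 * (r + 1 + 1) * ((r + 1) ^ 2 - 1) - 12 * (r + 1) * ((r + 1) ^ 2 - 1)) := by
    linear_combination (-2 : ℤ) * hpt' + (6 * (r : ℤ)) * eA' - 2 * eB' - (6 * (r : ℤ) ^ 2) * eK' +
      (3 * (r : ℤ)) * sJ' - 2 * sP' - (6 * (r : ℤ) ^ 2) * sK'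
  have key2 := mul_left_cancel₀ (pow_ne_zero 2 hrZ) key
  push_cast
  exact key2

/-- [C5 SNb] PROOF: second part of `sum_KK` and `card_KK` (`P ≠ P0` because `JJ P0 ≠ ∅`): `N (p - 1) = (p²-1)(p²-p)`. -/
theorem card_K (hp : p ≠ 2) : Nat.card {P : Gr p // ¬ (JJ P.1).Nonempty ∧ (KK P.1).Nonempty} = p * (p ^ 2 - 1) := by
  classical
  have : Fintype (Gr p) := Fintype.ofFinite _
  have hp1 : 1 < p := (Fact.out : p.Prime).one_lt
  obtain ⟨v1, -, -⟩ := P0_vals (p := p) hp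
  have hJ0 : (JJ (P0 : Submodule (ZMod p) (M6 p))).Nonempty := by
    apply Set.nonempty_of_ncard_ne_zero
    rw [v1]
    exact Nat.mul_ne_zero (by omega) (pow_ne_zero _ (by omega))
  have h0 := sn_sum (fun P : Gr p => {n : F2 p | n ∈ KK P.1 ∧ ¬ (JJ P.1).Nonempty})
  have h1 : Nat.card {q : Gr p × F2 p // q.2 ∈ KK q.1.1 ∧ ¬ (JJ q.1.1).Nonempty} =
      ∑ P : Gr p, ({n : F2 p | n ∈ KK P.1 ∧ ¬ (JJ P.1).Nonempty} : Set (F2 p)).ncard := h0
  rw [(sum_KK (p := p) hp).2] at h1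
  have h2 : ∑ P : Gr p, ({n : F2 p | n ∈ KK P.1 ∧ ¬ (JJ P.1).Nonempty} : Set (F2 p)).ncard =
      ∑ P : Gr p, if (¬ (JJ P.1).Nonempty ∧ (KK P.1).Nonempty) then (p - 1) else 0 := by
    apply Finset.sum_congr rfl
    intro P _
    by_cases hc : ¬ (JJ P.1).Nonempty ∧ (KK P.1).Nonempty
    · rw [if_pos hc]
      have h3 : ({n : F2 p | n ∈ KK P.1 ∧ ¬ (JJ P.1).Nonempty} : Set (F2 p)) = KK P.1 := by
        ext n
        exact ⟨fun h => h.1, fun h => ⟨h, hc.1⟩⟩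
      rw [h3]
      refine card_KK hp P (fun h => hc.1 ?_) hc.2
      rw [h]; exact hJ0
    · rw [if_neg hc]
      have h3 : ({n : F2 p | n ∈ KK P.1 ∧ ¬ (JJ P.1).Nonempty} : Set (F2 p)) = ∅ := by
        ext n
        simp only [Set.mem_empty_iff_false, iff_false]
        rintro ⟨ha, hb⟩
        exact hc ⟨hb, n, ha⟩
      rw [h3, Set.ncard_empty]
  rw [h2, ← Finset.sum_filter, Finset.sum_const, smul_eq_mul] at h1
  rw [Nat.card_eq_fintype_card, Fintype.card_subtype]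
  obtain ⟨r, rfl⟩ : ∃ r, p = r + 1 := ⟨p - 1, by omega⟩
  have hr : 0 < r := by omega
  have hsq : (r + 1) ^ 2 - 1 = r * (r + 2) := by
    have : (r + 1) ^ 2 = r * (r + 2) + 1 := by ring
    omega
  have hsq2 : (r + 1) ^ 2 - (r + 1) = r * (r + 1) := by
    have : (r + 1) ^ 2 = r * (r + 1) + (r + 1) := by ring
    omega
  rw [hsq, hsq2, Nat.add_sub_cancel] at h1
  rw [hsq]
  apply Nat.eq_of_mul_eq_mul_right hr
  rw [← h1]
  ring

end MP_02e52a.Cnt
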