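import Pool.Agent.Lib.MP_02e52a_al.Cnt.C6
import Pool.Agent.Lib.MP_02e52a_al.Cnt.SN
import Pool.Agent.Lib.MP_02e52a_al.Cnt.L0

/-! # Number of regular planes -/

namespace MP_02e52a.Cnt

open MP_02e52a.M7

variable {p : ℕ} [Fact p.Prime]

/-- the plane has trivial stabiliser in `PGL2` -/
def Rg (P : Submodule (ZMod p) (M6 p)) : Prop :=
  ∀ a : F2 p, a.det ≠ 0 → P.map (actM a) = P → Sc a

/-- [C5 RGa] PROOF: `P.map (actM a) ≤ P` and equality of finranks (`trG`), scalar matrices fix everything. -/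
theorem Rg_iff (P : Gr p) : Rg P.1 ↔ ∀ a, St P.1 a → Sc a := by
  constructor
  · intro h a ha
    refine h a ha.1 (le_antisymm ?_ ?_)
    · rintro _ ⟨x, hx, rfl⟩
      exact ha.2 x hx
    · intro y hy
      obtain ⟨x, hx, hxy⟩ := ha.exists_pre hy
      exact ⟨x, hx, hxy⟩
  · intro h a ha hP
    refine h a ⟨ha, fun x hx => ?_⟩
    rw [← hP]
    exact ⟨x, hx, rfl⟩

private theorem rg_four {X : Type*} [Finite X] (R A B C : X → Prop)
    (h0 : ∀ x, R x ∨ A x ∨ B x ∨ C x)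
    (h1 : ∀ x, R x → ¬ A x ∧ ¬ B x ∧ ¬ C x) (h2 : ∀ x, A x → ¬ B x ∧ ¬ C x) (h3 : ∀ x, B x → ¬ C x) :
    Nat.card {x // R x} + Nat.card {x // A x} + Nat.card {x // B x} + Nat.card {x // C x} = Nat.card X := by
  classical
  have : Fintype X := Fintype.ofFinite X
  have key : ∀ Q : X → Prop, Nat.card {x // Q x} = ∑ x, if Q x then 1 else 0 := by
    intro Q
    rw [Nat.card_eq_fintype_card, Fintype.card_subtype, Finset.card_filter]
  rw [key R, key A, key B, key C, ← Finset.sum_add_distrib, ← Finset.sum_add_distrib,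
    ← Finset.sum_add_distrib, Nat.card_eq_fintype_card, ← Finset.card_univ, Finset.card_eq_sum_ones]
  refine Finset.sum_congr rfl fun x _ => ?_
  by_cases hR : R x
  · obtain ⟨a, b, c⟩ := h1 x hR
    simp [hR, a, b, c]
  · by_cases hA : A x
    · obtain ⟨b, c⟩ := h2 x hA
      simp [hR, hA, b, c]
    · by_cases hB : B x
      · have c := h3 x hB
        simp [hR, hA, hB, c]
      · have c : C x := by
          rcases h0 x with h | h | h | h
          · exact absurd h hR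
          · exact absurd h hA
          · exact absurd h hB
          · exact h
        simp [hR, hA, hB, c]

private theorem rg_JJ (hp : p ≠ 2) (P : Submodule (ZMod p) (M6 p)) (s : F2 p) (hs : s ∈ JJ P) : ¬ Sc s := by
  rintro ⟨h1, h2, h3⟩
  obtain ⟨ht, hd, -⟩ := hs
  rw [Matrix.trace_fin_two, h3, ← two_mul] at ht
  have h20 : (2 : ZMod p) ≠ 0 := by
    intro h
    have h4 : ((2 : ℕ) : ZMod p) = 0 := by exact_mod_cast h
    rw [ZMod.natCast_eq_zero_iff] at h4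
    exact hp ((Nat.prime_dvd_prime_iff_eq Fact.out Nat.prime_two).1 h4)
  have h5 : s 1 1 = 0 := (mul_eq_zero.1 ht).resolve_left h20
  apply hd
  rw [Matrix.det_fin_two, h1, h5]
  ring

private theorem rg_KK (P : Submodule (ZMod p) (M6 p)) (n : F2 p) (hn : n ∈ KK P) : ¬ Sc (1 + n) := by
  rintro ⟨h1, h2, h3⟩
  obtain ⟨hn0, hnn, -⟩ := hn
  simp only [Matrix.add_apply, Matrix.one_apply_eq] at h1 h2 h3
  rw [Matrix.one_apply_ne (by decide), zero_add] at h1 h2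
  have h4 : n 0 0 = n 1 1 := add_left_cancel h3
  have h5 := congrFun (congrFun hnn 0) 0
  rw [Matrix.mul_apply, Fin.sum_univ_two, h1, zero_mul, add_zero] at h5
  have h6 : n 0 0 = 0 := mul_self_eq_zero.1 h5
  apply hn0
  ext i j
  fin_cases i <;> fin_cases j
  · exact h6
  · exact h1
  · exact h2
  · exact h4 ▸ h6

/-- [C5 RGb] PROOF: the planes are partitioned into: `JJ ≠ ∅`; `JJ = ∅, KK ≠ ∅`; `NI` and a non-scalar stabiliser element; `Rg` (an element of `JJ` or `1 + n`, `n ∈ KK`, is not a scalar; `p ≠ 2`). -/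
theorem Rg_sum (hp : p ≠ 2) : Nat.card {P : Gr p // Rg P.1} + Nat.card {P : Gr p // (JJ P.1).Nonempty} +
    Nat.card {P : Gr p // ¬ (JJ P.1).Nonempty ∧ (KK P.1).Nonempty} +
    Nat.card {P : Gr p // NI P.1 ∧ ∃ g, St P.1 g ∧ ¬ Sc g} = Nat.card (Gr p) := by
  apply rg_four
  · intro P
    by_cases hJ : (JJ P.1).Nonempty
    · exact Or.inr (Or.inl hJ)
    · by_cases hK : (KK P.1).Nonempty
      · exact Or.inr (Or.inr (Or.inl ⟨hJ, hK⟩))
      · by_cases hg : ∃ g, St P.1 g ∧ ¬ Sc g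
        · exact Or.inr (Or.inr (Or.inr ⟨⟨hJ, hK⟩, hg⟩))
        · left
          rw [Rg_iff]
          intro a ha
          by_contra hc
          exact hg ⟨a, ha, hc⟩
  · intro P hR
    rw [Rg_iff] at hR
    refine ⟨?_, ?_, ?_⟩
    · rintro ⟨s, hs⟩
      exact rg_JJ hp P.1 s hs (hR s hs.2)
    · rintro ⟨-, n, hn⟩
      exact rg_KK P.1 n hn (hR _ hn.2.2)
    · rintro ⟨-, g, hg, hg'⟩
      exact hg' (hR g hg)
  · intro P hA
    exact ⟨fun h => h.1 hA, fun h => h.1.1 hA⟩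
  · intro P hB h
    exact h.1.2 hB.2

private theorem rg_card_Gr : (Nat.card (Gr p) : ℤ) =
    ((p : ℤ) ^ 4 + p ^ 2 + 1) * ((p : ℤ) ^ 4 + p ^ 3 + p ^ 2 + p + 1) := by
  have hp : p.Prime := Fact.out
  have hNe : NeZero p := ⟨hp.ne_zero⟩
  have h := card_planes (p := p) (V := M6 p) 6 (by norm_num)
    (by rw [Module.finrank_matrix]; simp)
  have h1 : 1 ≤ p := hp.one_lt.le
  have e1 : 1 ≤ p ^ 2 := Nat.one_le_pow _ _ h1
  have e2 : p ≤ p ^ 2 := by nlinarith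
  have e3 : 1 ≤ p ^ 6 := Nat.one_le_pow _ _ h1
  have e4 : p ≤ p ^ 6 := by
    calc p = p ^ 1 := (pow_one p).symm
      _ ≤ p ^ 6 := Nat.pow_le_pow_right h1 (by norm_num)
  have h2 : (Nat.card (Gr p) : ℤ) * (((p : ℤ) ^ 2 - 1) * ((p : ℤ) ^ 2 - p)) =
      ((p : ℤ) ^ 6 - 1) * ((p : ℤ) ^ 6 - p) := by
    have h3 := congrArg (Nat.cast : ℕ → ℤ) h
    push_cast [Nat.cast_sub e1, Nat.cast_sub e2, Nat.cast_sub e3, Nat.cast_sub e4] at h3
    exact h3
  have hp1 : (1 : ℤ) < p := by exact_mod_cast hp.one_lt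
  have h4 : (((p : ℤ) ^ 2 - 1) * ((p : ℤ) ^ 2 - p)) ≠ 0 := by
    have e5 : 0 < (p : ℤ) ^ 2 - 1 := by nlinarith
    have e6 : 0 < (p : ℤ) ^ 2 - p := by nlinarith
    exact (mul_pos e5 e6).ne'
  apply mul_right_cancel₀ h4
  rw [h2]
  ring

private theorem rg_arith (p : ℕ) (x j k c g : ℤ) (hs : x + j + k + c = g)
    (hg : g = ((p : ℤ) ^ 4 + p ^ 2 + 1) * ((p : ℤ) ^ 4 + p ^ 3 + p ^ 2 + p + 1))
    (hj : 6 * j = 6 + 3 * p * (p + 1) * (((p : ℤ) ^ 2 + p + 1) * (p ^ 2 + p + 3) - 1) +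
      3 * p * (p - 1) * ((p : ℤ) ^ 4 + p ^ 2) - 2 * p ^ 2 * (p + 1) * ((p : ℤ) ^ 2 - 1) -
      12 * p * ((p : ℤ) ^ 2 - 1))
    (hk : k = p * ((p : ℤ) ^ 2 - 1)) :
    6 * x = 2 * (p * ((p : ℤ) ^ 2 - 1) * (3 * p ^ 5 + 3 * p ^ 4 + 6 * p ^ 3 + 7 * p ^ 2 + 4 * p + 3)) - 6 * c := by
  have e : 6 * x = 6 * g - 6 * j - 6 * k - 6 * c := by linarith
  rw [e, hj, hk, hg]
  ring

/-- [C5 RGc] PROOF: `Rg_sum`, `card_J`, `card_K`, `card_C`, `card_planes` (`V = M6`, `n = 6`; `(p²-1)(p²-p)` divides out: `Nat.card (Gr p) = (p⁶-1)(p⁵-1)/((p²-1)(p-1)) = (p⁴+p²+1)(p⁴+p³+p²+p+1)`). Everything in `ℤ`; the identities are polynomial identities in `p`, checked by computer for `p = 3, 5, 7` (404, 4066, 20011 orbits). -/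
theorem card_Rg (hp : p ≠ 2) : 3 * Nat.card {P : Gr p // Rg P.1} = p * (p ^ 2 - 1) *
    (if p % 3 = 1 then 3 * p ^ 5 + 3 * p ^ 4 + 6 * p ^ 3 + 7 * p ^ 2 + p + 1
      else 3 * p ^ 5 + 3 * p ^ 4 + 6 * p ^ 3 + 7 * p ^ 2 + 4 * p + 3) := by
  have hpp : p.Prime := Fact.out
  have e1 : 1 ≤ p ^ 2 := Nat.one_le_pow _ _ hpp.one_lt.le
  have hs := congrArg (Nat.cast : ℕ → ℤ) (Rg_sum (p := p) hp)
  push_cast at hs
  have hk := congrArg (Nat.cast : ℕ → ℤ) (card_K (p := p) hp)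
  push_cast [Nat.cast_sub e1] at hk
  have hj := card_J (p := p) hp
  have key := rg_arith p _ _ _ _ _ hs rg_card_Gr hj hk
  have hC := card_C (p := p) hp
  apply Nat.cast_injective (R := ℤ)
  by_cases h : p % 3 = 1
  · rw [if_pos h]
    have hc := congrArg (Nat.cast : ℕ → ℤ) (hC.1 h)
    push_cast [Nat.cast_sub e1] at hc ⊢
    apply mul_left_cancel₀ (two_ne_zero (α := ℤ))
    linear_combination key - 2 * hc
  · rw [if_neg h]
    have hc := congrArg (Nat.cast : ℕ → ℤ) (hC.2 h)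
    push_cast [Nat.cast_sub e1] at hc ⊢
    rw [hc] at key
    linarith

end MP_02e52a.Cnt
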