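import Pool.Agent.Lib.MP_02e52a_al.Cnt.Mat2

/-! # Number of planes fixed by a unipotent element -/

namespace MP_02e52a.Cnt

open MP_02e52a.M7

variable {p : ℕ} [Fact p.Prime]

/-- the standard unipotent -/
private abbrev u3e : F2 p := !![0, 1; 0, 0]

private theorem u3_act (x : M6 p) : actM (1 + u3e) x - x =
    !![x 1 0 + x 2 0, x 1 1 + x 2 1 - x 0 0 - x 1 0 - x 2 0; 0, -x 1 0; 2 * x 1 0,
      2 * x 1 1 - 2 * x 1 0 - x 2 0] := by
  ext i j
  simp only [Matrix.sub_apply, actM_entry, Matrix.adjugate_fin_two, M7.sq]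
  fin_cases i <;> fin_cases j <;> simp <;> ring

private theorem u3_KK (P : Submodule (ZMod p) (M6 p)) :
    (u3e : F2 p) ∈ KK P ↔ ∀ x ∈ P, actM (1 + u3e) x - x ∈ P := by
  constructor
  · rintro ⟨_, _, h⟩ x hx
    exact P.sub_mem (h.2 x hx) hx
  · intro h
    refine ⟨?_, ?_, ?_, fun x hx => ?_⟩
    · intro h0
      have := congrFun (congrFun h0 0) 1
      simp at this
    · ext i j
      fin_cases i <;> fin_cases j <;> simp [Matrix.mul_apply, Fin.sum_univ_succ]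
    · simp [Matrix.det_fin_two]
    · have := P.add_mem (h x hx) hx
      rwa [sub_add_cancel] at this

private theorem u3_two (hp : p ≠ 2) : (2 : ZMod p) ≠ 0 := by
  intro h
  have h1 : ((2 : ℕ) : ZMod p) = 0 := by exact_mod_cast h
  rw [ZMod.natCast_eq_zero_iff] at h1
  have h2 := (Nat.prime_dvd_prime_iff_eq (Fact.out : p.Prime) Nat.prime_two).1 h1
  exact hp h2

private theorem u3_ker (hp : p ≠ 2) (P : Gr p) (h : (u3e : F2 p) ∈ KK P.1) (x : M6 p) (hx : x ∈ P.1) :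
    x 1 0 = 0 ∧ x 1 1 = x 2 0 := by
  rw [u3_KK] at h
  set N : M6 p →ₗ[ZMod p] M6 p := actM (1 + u3e) - LinearMap.id with hN
  have hNx : ∀ y, N y = !![y 1 0 + y 2 0, y 1 1 + y 2 1 - y 0 0 - y 1 0 - y 2 0; 0, -y 1 0; 2 * y 1 0,
      2 * y 1 1 - 2 * y 1 0 - y 2 0] := fun y => u3_act y
  let f : Module.End (ZMod p) P.1 := N.restrict h
  have hf : ∀ y : P.1, ((f y : P.1) : M6 p) = N y.1 := fun y => rfl
  have h4 : f ^ 4 = 0 := by
    ext1 y
    apply Subtype.ext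
    simp only [pow_succ, pow_zero, one_mul, Module.End.mul_apply, hf]
    rw [hNx (N (N (N y.1))), hNx (N (N y.1)), hNx (N y.1), hNx y.1]
    ext i j
    fin_cases i <;> fin_cases j <;> simp <;> ring
  have h2 : f ^ 2 = 0 := by
    have h5 := Module.End.ker_pow_le_ker_pow_finrank f 4
    rw [P.2, h4, LinearMap.ker_zero, top_le_iff, LinearMap.ker_eq_top] at h5
    exact h5
  have h6 : N (N x) = 0 := by
    have h7 := congrArg (fun g : Module.End (ZMod p) P.1 => ((g ⟨x, hx⟩ : P.1) : M6 p)) h2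
    simp only [pow_succ, pow_zero, one_mul, Module.End.mul_apply, hf] at h7
    exact h7
  rw [hNx (N x), hNx x] at h6
  have e1 := congrFun (congrFun h6 0) 0
  have e2 := congrFun (congrFun h6 0) 1
  simp at e1 e2
  have h20 := u3_two hp
  have e3 : x 1 0 = 0 := by
    rcases e1 with h | h
    · exact absurd h h20
    · exact h
  refine ⟨e3, ?_⟩
  rw [e3] at e2
  have : 2 * (x 1 1 - x 2 0) = 0 := by linear_combination e2
  rcases mul_eq_zero.1 this with h | h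
  · exact absurd h h20
  · exact sub_eq_zero.1 h

/-! ### the planes -/

private theorem u3_rank (u v : M6 p) (h : ∀ s t : ZMod p, s • u + t • v = 0 → s = 0 ∧ t = 0) :
    Module.finrank (ZMod p) (Submodule.span (ZMod p) {u, v}) = 2 := by
  have h : LinearIndependent (ZMod p) ![u, v] := by
    rw [LinearIndependent.pair_iff]
    exact h
  have h2 := finrank_span_eq_card h
  rw [Fintype.card_fin, Matrix.range_cons, Matrix.range_cons, Matrix.range_empty, Set.union_empty,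
    Set.singleton_union] at h2
  exact h2

/-- the kernel -/
private def u3A (p : ℕ) [Fact p.Prime] : Gr p :=
  ⟨Submodule.span (ZMod p) {!![0, 1; 0, 0; 0, 0], !![1, 0; 0, 0; 0, 1]}, u3_rank _ _ (by
    intro s t h
    have h1 := congrFun (congrFun h 0) 1
    have h2 := congrFun (congrFun h 0) 0
    simp at h1 h2
    exact ⟨h1, h2⟩)⟩

private def u3B (k : ZMod p) : Gr p :=
  ⟨Submodule.span (ZMod p) {!![0, 1; 0, 0; 0, 0], !![k, 0; 0, 0; 0, 1 + k]}, u3_rank _ _ (by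
    intro s t h
    have h1 := congrFun (congrFun h 0) 1
    have h2 := congrFun (congrFun h 0) 0
    have h3 := congrFun (congrFun h 2) 1
    simp at h1 h2 h3
    refine ⟨h1, ?_⟩
    by_contra ht
    have h4 := h2.resolve_left ht
    have h5 := h3.resolve_left ht
    rw [h4] at h5
    simp at h5)⟩

private def u3C (r k : ZMod p) : Gr p :=
  ⟨Submodule.span (ZMod p) {!![1, r; 0, 0; 0, 1], !![0, k; 0, 1; 1, r]}, u3_rank _ _ (by
    intro s t h
    have h1 := congrFun (congrFun h 0) 0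
    have h2 := congrFun (congrFun h 1) 1
    simp at h1 h2
    exact ⟨h1, h2⟩)⟩

private theorem u3_memA (x : M6 p) : x ∈ (u3A p).1 ↔
    x 1 0 = 0 ∧ x 1 1 = 0 ∧ x 2 0 = 0 ∧ x 2 1 = x 0 0 := by
  unfold u3A
  rw [Submodule.mem_span_pair]
  constructor
  · rintro ⟨a, b, rfl⟩
    simp
  · rintro ⟨h1, h2, h3, h4⟩
    refine ⟨x 0 1, x 0 0, ?_⟩
    ext i j
    fin_cases i <;> fin_cases j <;> simp [h1, h2, h3, h4]

private theorem u3_memB (k : ZMod p) (x : M6 p) : x ∈ (u3B k).1 ↔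
    x 1 0 = 0 ∧ x 1 1 = 0 ∧ x 2 0 = 0 ∧ k * x 2 1 = (1 + k) * x 0 0 := by
  unfold u3B
  rw [Submodule.mem_span_pair]
  constructor
  · rintro ⟨a, b, rfl⟩
    simp
    ring
  · rintro ⟨h1, h2, h3, h4⟩
    refine ⟨x 0 1, x 2 1 - x 0 0, ?_⟩
    ext i j
    fin_cases i <;> fin_cases j <;> simp [h1, h2, h3] <;> linear_combination h4

private theorem u3_memC (r k : ZMod p) (x : M6 p) : x ∈ (u3C r k).1 ↔
    x 1 0 = 0 ∧ x 1 1 = x 2 0 ∧ x 2 1 = x 0 0 + r * x 2 0 ∧ x 0 1 = r * x 0 0 + k * x 2 0 := by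
  unfold u3C
  rw [Submodule.mem_span_pair]
  constructor
  · rintro ⟨a, b, rfl⟩
    simp
    constructor <;> ring
  · rintro ⟨h1, h2, h3, h4⟩
    refine ⟨x 0 0, x 2 0, ?_⟩
    ext i j
    fin_cases i <;> fin_cases j <;> simp [h1, h2, h3, h4] <;> ring

private theorem u3_KA : (u3e : F2 p) ∈ KK (u3A p).1 := by
  rw [u3_KK]
  intro x hx
  rw [u3_act, u3_memA]
  rw [u3_memA] at hx
  obtain ⟨h1, h2, h3, h4⟩ := hx
  simp [h1, h2, h3, h4]

private theorem u3_KB (k : ZMod p) : (u3e : F2 p) ∈ KK (u3B k).1 := by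
  rw [u3_KK]
  intro x hx
  rw [u3_act, u3_memB]
  rw [u3_memB] at hx
  obtain ⟨h1, h2, h3, h4⟩ := hx
  simp [h1, h2, h3]

private theorem u3_KC (r k : ZMod p) : (u3e : F2 p) ∈ KK (u3C r k).1 := by
  rw [u3_KK]
  intro x hx
  rw [u3_act, u3_memC]
  rw [u3_memC] at hx
  obtain ⟨h1, h2, h3, h4⟩ := hx
  simp only [h1, h2, h3, Matrix.of_apply, Matrix.cons_val', Matrix.cons_val_zero, Matrix.cons_val_one]
  simp
  constructor <;> ring

private theorem u3_eq_of_le (P Q : Gr p) (h : Q.1 ≤ P.1) : P = Q := by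
  apply Subtype.ext
  exact (Submodule.eq_of_le_of_finrank_eq h (by rw [P.2, Q.2])).symm

private theorem u3_surj (hp : p ≠ 2) (P : Gr p) (h : (u3e : F2 p) ∈ KK P.1) :
    P = u3A p ∨ (∃ k, P = u3B k) ∨ ∃ r k, P = u3C r k := by
  have hk := u3_ker hp P h
  have hN := (u3_KK P.1).1 h
  by_cases hA : ∃ w ∈ P.1, w 2 0 ≠ 0
  · right; right
    obtain ⟨w, hw, hw0⟩ := hA
    have hw' : (w 2 0)⁻¹ • w ∈ P.1 := P.1.smul_mem _ hw
    set v := (w 2 0)⁻¹ • w with hv
    have hv20 : v 2 0 = 1 := by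
      rw [hv, Matrix.smul_apply, smul_eq_mul, inv_mul_cancel₀ hw0]
    obtain ⟨hv10, hv11⟩ := hk v hw'
    have hNv := hN v hw'
    rw [u3_act] at hNv
    set r := v 2 1 - v 0 0 with hr
    have e1 : (!![v 1 0 + v 2 0, v 1 1 + v 2 1 - v 0 0 - v 1 0 - v 2 0; 0, -v 1 0; 2 * v 1 0,
      2 * v 1 1 - 2 * v 1 0 - v 2 0] : M6 p) = !![1, r; 0, 0; 0, 1] := by
      ext i j
      fin_cases i <;> fin_cases j <;> simp [hv10, hv11, hv20, hr] <;> ring
    rw [e1] at hNv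
    refine ⟨r, v 0 1 - v 0 0 * r, u3_eq_of_le _ _ ?_⟩
    unfold u3C
    rw [Submodule.span_le]
    rintro y (rfl | rfl)
    · exact hNv
    · have h2 := P.1.sub_mem hw' (P.1.smul_mem (v 0 0) hNv)
      have e2 : v - v 0 0 • (!![1, r; 0, 0; 0, 1] : M6 p) =
          !![0, v 0 1 - v 0 0 * r; 0, 1; 1, r] := by
        ext i j
        fin_cases i <;> fin_cases j <;> simp [hv10, hv11, hv20, hr]
      rw [e2] at h2
      exact h2
  · push Not at hA
    by_cases hB : ∀ w ∈ P.1, w 2 1 = w 0 0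
    · left
      apply Subtype.ext
      refine Submodule.eq_of_le_of_finrank_eq (fun x hx => ?_) (by rw [P.2, (u3A p).2])
      rw [u3_memA]
      exact ⟨(hk x hx).1, by rw [(hk x hx).2, hA x hx], hA x hx, hB x hx⟩
    · push Not at hB
      right; left
      obtain ⟨w, hw, hw0⟩ := hB
      have hd : w 2 1 - w 0 0 ≠ 0 := sub_ne_zero.2 hw0
      have h20 := hA w hw
      obtain ⟨h10, h11⟩ := hk w hw
      rw [h20] at h11
      have hNv := P.1.smul_mem (w 2 1 - w 0 0)⁻¹ (hN w hw)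
      rw [u3_act] at hNv
      have e1 : (w 2 1 - w 0 0)⁻¹ • (!![w 1 0 + w 2 0, w 1 1 + w 2 1 - w 0 0 - w 1 0 - w 2 0; 0, -w 1 0; 2 * w 1 0,
        2 * w 1 1 - 2 * w 1 0 - w 2 0] : M6 p) = !![0, 1; 0, 0; 0, 0] := by
        ext i j
        fin_cases i <;> fin_cases j <;> simp [h10, h11, h20]
        exact inv_mul_cancel₀ hd
      rw [e1] at hNv
      refine ⟨(w 2 1 - w 0 0)⁻¹ * w 0 0, u3_eq_of_le _ _ ?_⟩
      unfold u3B
      rw [Submodule.span_le]
      rintro y (rfl | rfl)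
      · exact hNv
      · have h2 := P.1.sub_mem (P.1.smul_mem (w 2 1 - w 0 0)⁻¹ hw)
          (P.1.smul_mem ((w 2 1 - w 0 0)⁻¹ * w 0 1) hNv)
        have e2 : (w 2 1 - w 0 0)⁻¹ • w - ((w 2 1 - w 0 0)⁻¹ * w 0 1) • (!![0, 1; 0, 0; 0, 0] : M6 p) =
            !![(w 2 1 - w 0 0)⁻¹ * w 0 0, 0; 0, 0; 0, 1 + (w 2 1 - w 0 0)⁻¹ * w 0 0] := by
          ext i j
          fin_cases i <;> fin_cases j <;> simp [h10, h11, h20]
          field_simp
          ring
        rw [e2] at h2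
        exact h2

/-! ### involutions -/

private theorem u3_t0 (x : M6 p) : actM (!![1, 0; 0, -1] : F2 p) x =
    !![-x 0 0, x 0 1; -x 1 0, x 1 1; x 2 0, -x 2 1] := by
  ext i j
  simp only [actM_entry, Matrix.adjugate_fin_two, M7.sq]
  fin_cases i <;> fin_cases j <;> simp

private theorem u3_JJ (P : Gr p) (h : ∀ x ∈ P.1,
    (!![-x 0 0, x 0 1; -x 1 0, x 1 1; x 2 0, -x 2 1] : M6 p) ∈ P.1) : (JJ P.1).Nonempty := by
  refine ⟨!![1, 0; 0, -1], ?_, ?_, fun x hx => ?_⟩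
  · simp [Matrix.trace_fin_two]
  · simp [Matrix.det_fin_two]
  · rw [u3_t0]
    exact h x hx

private theorem u3_JA : (JJ (u3A p).1).Nonempty := by
  refine u3_JJ _ fun x hx => ?_
  rw [u3_memA] at hx ⊢
  obtain ⟨h1, h2, h3, h4⟩ := hx
  simp [h1, h2, h3, h4]

private theorem u3_JB (k : ZMod p) : (JJ (u3B k).1).Nonempty := by
  refine u3_JJ _ fun x hx => ?_
  rw [u3_memB] at hx ⊢
  obtain ⟨h1, h2, h3, h4⟩ := hx
  simp [h1, h2, h3]
  linear_combination h4

private theorem u3_JC (k : ZMod p) : (JJ (u3C 0 k).1).Nonempty := by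
  refine u3_JJ _ fun x hx => ?_
  rw [u3_memC] at hx ⊢
  obtain ⟨h1, h2, h3, h4⟩ := hx
  simp at h3 h4
  simp [h1, h2, h3, h4]

private theorem u3_JC' (hp : p ≠ 2) (r k : ZMod p) (h : (JJ (u3C r k).1).Nonempty) : r = 0 := by
  obtain ⟨t, ht, hd, hs⟩ := h
  by_contra hr
  rw [eq_of_trace t ht] at hd hs
  have hu : (!![1, r; 0, 0; 0, 1] : M6 p) ∈ (u3C r k).1 := by
    rw [u3_memC]; simp
  have h1 := hs _ hu
  rw [u3_memC] at h1
  simp only [actM_entry, Matrix.adjugate_fin_two, M7.sq] at h1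
  simp at h1
  obtain ⟨h2, h3, h4, h5⟩ := h1
  rw [Matrix.det_fin_two] at hd
  simp at hd
  have h20 := u3_two hp
  have hc : t 1 0 = 0 := by
    have : t 1 0 ^ 3 * r = 0 := by linear_combination (-1) * h2
    rcases mul_eq_zero.1 this with h | h
    · exact pow_eq_zero_iff (by norm_num) |>.1 h
    · exact absurd h hr
  rw [hc] at h2 h3 h4 h5 hd
  have ha : t 0 0 ≠ 0 := by
    intro h0
    rw [h0] at hd
    simp at hd
  have h6 : 2 * (t 0 0 ^ 3 * r) = 0 := by linear_combination h5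
  rcases mul_eq_zero.1 h6 with h | h
  · exact h20 h
  · rcases mul_eq_zero.1 h with h | h
    · exact ha (pow_eq_zero_iff (by norm_num) |>.1 h)
    · exact hr h

/-! ### counting -/

private def u3g1 : (ZMod p ⊕ (ZMod p ⊕ Unit)) → Gr p
  | .inl k => u3B k
  | .inr (.inl k) => u3C 0 k
  | .inr (.inr _) => u3A p

private def u3g2 : {r : ZMod p // r ≠ 0} × ZMod p → Gr p := fun x => u3C x.1.1 x.2

private theorem u3_AB (k : ZMod p) : u3A p ≠ u3B k := by
  intro h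
  have h1 : (!![k, 0; 0, 0; 0, 1 + k] : M6 p) ∈ (u3B k).1 := by
    rw [u3_memB]; simp; ring
  rw [← h, u3_memA] at h1
  simp at h1

private theorem u3_AC (r k : ZMod p) : u3A p ≠ u3C r k := by
  intro h
  have h1 : (!![0, k; 0, 1; 1, r] : M6 p) ∈ (u3C r k).1 := by
    rw [u3_memC]; simp
  rw [← h, u3_memA] at h1
  simp at h1

private theorem u3_BC (k' r k : ZMod p) : u3B k' ≠ u3C r k := by
  intro h
  have h1 : (!![0, k; 0, 1; 1, r] : M6 p) ∈ (u3C r k).1 := by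
    rw [u3_memC]; simp
  rw [← h, u3_memB] at h1
  simp at h1

private theorem u3_BB (k k' : ZMod p) (h : u3B k = u3B k') : k = k' := by
  have h1 : (!![k, 0; 0, 0; 0, 1 + k] : M6 p) ∈ (u3B k).1 := by
    rw [u3_memB]; simp; ring
  rw [h, u3_memB] at h1
  simp at h1
  linear_combination -h1

private theorem u3_CC (r k r' k' : ZMod p) (h : u3C r k = u3C r' k') : r = r' ∧ k = k' := by
  have h1 : (!![1, r; 0, 0; 0, 1] : M6 p) ∈ (u3C r k).1 := by
    rw [u3_memC]; simp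
  have h2 : (!![0, k; 0, 1; 1, r] : M6 p) ∈ (u3C r k).1 := by
    rw [u3_memC]; simp
  rw [h, u3_memC] at h1 h2
  simp at h1 h2
  exact ⟨h1, h2.2⟩

private theorem u3_g1 : Function.Injective (u3g1 (p := p)) := by
  rintro (k | k | k) (k' | k' | k') h
  · rw [u3_BB k k' h]
  · exact absurd h (u3_BC _ _ _)
  · exact absurd h.symm (u3_AB _)
  · exact absurd h.symm (u3_BC _ _ _)
  · rw [(u3_CC _ _ _ _ h).2]
  · exact absurd h.symm (u3_AC _ _)
  · exact absurd h (u3_AB _)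
  · exact absurd h (u3_AC _ _)
  · rfl

private theorem u3_g2 : Function.Injective (u3g2 (p := p)) := by
  rintro ⟨r, k⟩ ⟨r', k'⟩ h
  obtain ⟨h1, h2⟩ := u3_CC _ _ _ _ h
  exact Prod.ext (Subtype.ext h1) h2

private theorem u3_std (hp : p ≠ 2) :
    Nat.card {P : Gr p // (u3e : F2 p) ∈ KK P.1 ∧ (JJ P.1).Nonempty} = 2 * p + 1 ∧
    Nat.card {P : Gr p // (u3e : F2 p) ∈ KK P.1 ∧ ¬ (JJ P.1).Nonempty} = p ^ 2 - p := by
  have hpp : p.Prime := Fact.out
  have r1 : {P : Gr p | (u3e : F2 p) ∈ KK P.1 ∧ (JJ P.1).Nonempty} = Set.range u3g1 := by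
    ext P
    constructor
    · rintro ⟨h1, h2⟩
      rcases u3_surj hp P h1 with rfl | ⟨k, rfl⟩ | ⟨r, k, rfl⟩
      · exact ⟨.inr (.inr ()), rfl⟩
      · exact ⟨.inl k, rfl⟩
      · have := u3_JC' hp r k h2
        subst this
        exact ⟨.inr (.inl k), rfl⟩
    · rintro ⟨(k | k | k), rfl⟩
      · exact ⟨u3_KB k, u3_JB k⟩
      · exact ⟨u3_KC 0 k, u3_JC k⟩
      · exact ⟨u3_KA, u3_JA⟩
  have r2 : {P : Gr p | (u3e : F2 p) ∈ KK P.1 ∧ ¬ (JJ P.1).Nonempty} = Set.range u3g2 := by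
    ext P
    constructor
    · rintro ⟨h1, h2⟩
      rcases u3_surj hp P h1 with rfl | ⟨k, rfl⟩ | ⟨r, k, rfl⟩
      · exact absurd u3_JA h2
      · exact absurd (u3_JB k) h2
      · have : r ≠ 0 := by
          rintro rfl
          exact h2 (u3_JC k)
        exact ⟨(⟨r, this⟩, k), rfl⟩
    · rintro ⟨⟨⟨r, hr⟩, k⟩, rfl⟩
      exact ⟨u3_KC r k, fun h => hr (u3_JC' hp r k h)⟩
  constructor
  · change Nat.card ({P : Gr p | (u3e : F2 p) ∈ KK P.1 ∧ (JJ P.1).Nonempty} : Set (Gr p)) = _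
    rw [r1, Nat.card_range_of_injective u3_g1, Nat.card_sum, Nat.card_sum, Nat.card_zmod]
    simp
    ring
  · change Nat.card ({P : Gr p | (u3e : F2 p) ∈ KK P.1 ∧ ¬ (JJ P.1).Nonempty} : Set (Gr p)) = _
    rw [r2, Nat.card_range_of_injective u3_g2, Nat.card_prod, Nat.card_zmod]
    have : Nat.card {r : ZMod p // r ≠ 0} = p - 1 := by
      rw [Nat.card_eq_fintype_card, Fintype.card_subtype_compl, ZMod.card]
      simp
    rw [this, Nat.sub_mul, one_mul, pow_two]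

theorem card_U (hp : p ≠ 2) (n : F2 p) (hn : n ≠ 0) (hn2 : n * n = 0) :
    Nat.card {P : Gr p // n ∈ KK P.1 ∧ (JJ P.1).Nonempty} = 2 * p + 1 ∧
    Nat.card {P : Gr p // n ∈ KK P.1 ∧ ¬ (JJ P.1).Nonempty} = p ^ 2 - p := by
  obtain ⟨b, hb, hbn⟩ := conj_nilp n hn hn2
  obtain ⟨h1, h2⟩ := u3_std (p := p) hp
  rw [← h1, ← h2]
  constructor
  · refine Nat.card_congr ((trG b hb).subtypeEquiv fun P => ?_)
    rw [← KK_cj b hb P n, hbn, JJ_nonempty_trG]
  · refine Nat.card_congr ((trG b hb).subtypeEquiv fun P => ?_)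
    rw [← KK_cj b hb P n, hbn, JJ_nonempty_trG]

end MP_02e52a.Cnt
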