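import Pool.Agent.Lib.MP_02e52a_al.Cnt.FS
import Pool.Agent.Lib.MP_02e52a_al.Cnt.FV
import Pool.Agent.Lib.MP_02e52a_al.Cnt.U3
import Pool.Agent.Lib.MP_02e52a_al.Cnt.N2

/-! # Global sums -/

namespace MP_02e52a.Cnt

open MP_02e52a.M7

variable {p : ℕ} [Fact p.Prime]

private theorem card_pairs {A B : Type*} [Finite A] [Fintype B] (R : A → B → Prop) :
    Nat.card {q : A × B // R q.1 q.2} = ∑ b, Nat.card {a // R a b} := by
  rw [← Nat.card_sigma]
  exact Nat.card_congr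
    { toFun := fun q => ⟨q.1.2, q.1.1, q.2⟩
      invFun := fun q => ⟨(q.2.1, q.1), q.2.2⟩
      left_inv := fun _ => rfl
      right_inv := fun _ => rfl }

private theorem sum_two {B : Type*} [Fintype B] (f : B → ℕ) (X Y : B → Prop) (a b : ℕ)
    (hXY : ∀ s, X s → ¬ Y s)
    (hX : ∀ s, X s → f s = a) (hY : ∀ s, Y s → f s = b) (h0 : ∀ s, ¬ X s → ¬ Y s → f s = 0) :
    ∑ s, f s = Nat.card {s // X s} * a + Nat.card {s // Y s} * b := by
  classical
  have h : ∀ s, f s = (if X s then a else 0) + (if Y s then b else 0) := by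
    intro s
    by_cases h1 : X s
    · rw [hX s h1, if_pos h1, if_neg (hXY s h1), add_zero]
    · by_cases h2 : Y s
      · rw [hY s h2, if_neg h1, if_pos h2, zero_add]
      · rw [h0 s h1 h2, if_neg h1, if_neg h2]
  rw [Finset.sum_congr rfl fun s _ => h s, Finset.sum_add_distrib, ← Finset.sum_filter, ← Finset.sum_filter,
    Finset.sum_const, Finset.sum_const, Nat.card_eq_fintype_card,
    Nat.card_eq_fintype_card, Fintype.card_subtype, Fintype.card_subtype]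
  simp only [smul_eq_mul]

private theorem sum_one {B : Type*} [Fintype B] (f : B → ℕ) (X : B → Prop) (a : ℕ)
    (hX : ∀ s, X s → f s = a) (h0 : ∀ s, ¬ X s → f s = 0) :
    ∑ s, f s = Nat.card {s // X s} * a := by
  rw [sum_two f X (fun _ => False) a 0 (fun _ _ h => h) hX (fun _ h => h.elim) (fun s h _ => h0 s h)]
  simp

private theorem card_split' (hp : p ≠ 2) :
    2 * Nat.card {s : F2 p // s.trace = 0 ∧ s.det ≠ 0} = 2 * ((p - 1) * p ^ 2) := by
  classical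
  have h1 : Nat.card {s : F2 p // s.trace = 0 ∧ s.det ≠ 0} =
      Nat.card {s : F2 p // s.trace = 0 ∧ s.det ≠ 0 ∧ IsSquare (-s.det)} +
      Nat.card {s : F2 p // s.trace = 0 ∧ s.det ≠ 0 ∧ ¬ IsSquare (-s.det)} := by
    rw [Nat.card_eq_fintype_card, Nat.card_eq_fintype_card, Nat.card_eq_fintype_card, Fintype.card_subtype,
      Fintype.card_subtype, Fintype.card_subtype, ← Finset.card_union_of_disjoint]
    · congr 1
      ext s
      simp only [Finset.mem_filter, Finset.mem_union, Finset.mem_univ, true_and]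
      tauto
    · rw [Finset.disjoint_filter]
      rintro s _ ⟨_, _, h⟩ ⟨_, _, h'⟩
      exact h' h
  rw [h1, mul_add, card_split hp, card_nonsplit hp]
  obtain ⟨q, hq⟩ : ∃ q, p = q + 1 := ⟨p - 1, by have := (Fact.out : p.Prime).pos; omega⟩
  rw [hq, Nat.add_sub_cancel]
  ring

/-- [C5 SMa] PROOF: `Nat.card_sigma` over `s` (traceless, `det s ≠ 0`; other `s` contribute nothing), `card_fix`, `card_split`, `card_nonsplit`. -/
theorem sum_JJ (hp : p ≠ 2) : 2 * Nat.card {q : Gr p × F2 p // q.2 ∈ JJ q.1.1} =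
    (p - 1) * p * (p + 1) * ((p ^ 2 + p + 1) * (p ^ 2 + p + 3)) + (p - 1) ^ 2 * p * (p ^ 4 + p ^ 2 + 1) := by
  rw [card_pairs (fun (P : Gr p) (s : F2 p) => s ∈ JJ P.1),
    sum_two (fun s : F2 p => Nat.card {P : Gr p // s ∈ JJ P.1})
      (fun s => s.trace = 0 ∧ s.det ≠ 0 ∧ IsSquare (-s.det))
      (fun s => s.trace = 0 ∧ s.det ≠ 0 ∧ ¬ IsSquare (-s.det))
      ((p ^ 2 + p + 1) * (p ^ 2 + p + 3)) (p ^ 4 + p ^ 2 + 1), mul_add, ← mul_assoc, card_split hp, ← mul_assoc 2,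
      card_nonsplit hp]
  · rintro s ⟨_, _, h⟩ ⟨_, _, h'⟩
    exact h' h
  · rintro s ⟨h1, h2, h3⟩
    exact (card_fix hp s h1 h2).1 h3
  · rintro s ⟨h1, h2, h3⟩
    exact (card_fix hp s h1 h2).2 h3
  · intro s h1 h2
    have : IsEmpty {P : Gr p // s ∈ JJ P.1} := by
      constructor
      rintro ⟨P, hP1, hP2, -⟩
      by_cases h : IsSquare (-s.det)
      · exact h1 ⟨hP1, hP2, h⟩
      · exact h2 ⟨hP1, hP2, h⟩
    exact Nat.card_of_isEmpty

/-- [C5 SMb] PROOF: sum over the anticommuting pairs, `card_fix2`, `card_anti`. -/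
theorem sum_JP (hp : p ≠ 2) : Nat.card {q : Gr p × (F2 p × F2 p) // q.2 ∈ JP q.1.1} =
    p * (p ^ 2 - 1) * (p - 1) ^ 2 * (p ^ 2 + p + 1) := by
  rw [card_pairs (fun (P : Gr p) (q : F2 p × F2 p) => q ∈ JP P.1),
    sum_one (fun q : F2 p × F2 p => Nat.card {P : Gr p // q ∈ JP P.1})
      (fun q => q.1.trace = 0 ∧ q.1.det ≠ 0 ∧ q.2.trace = 0 ∧ q.2.det ≠ 0 ∧ (q.1 * q.2).trace = 0)
      (p ^ 2 + p + 1), card_anti hp]
  · rintro s ⟨h1, h2, h3, h4, h5⟩
    rw [← card_fix2 hp s.1 s.2 h1 h2 h3 h4 h5]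
    refine Nat.card_congr (Equiv.subtypeEquivRight fun P => ?_)
    exact ⟨fun h => ⟨h.1, h.2.1⟩, fun h => ⟨h.1, h.2, h5⟩⟩
  · intro s h1
    have : IsEmpty {P : Gr p // s ∈ JP P.1} := by
      constructor
      rintro ⟨P, ⟨hP1, hP2, -⟩, ⟨hP3, hP4, -⟩, h5⟩
      exact h1 ⟨hP1, hP2, hP3, hP4, h5⟩
    exact Nat.card_of_isEmpty

/-- [C5 SMc] PROOF: sum over the nilpotent `n ≠ 0` (`card_nilp`), `card_U`. -/
theorem sum_KK (hp : p ≠ 2) : Nat.card {q : Gr p × F2 p // q.2 ∈ KK q.1.1 ∧ (JJ q.1.1).Nonempty} =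
    (p ^ 2 - 1) * (2 * p + 1) ∧
    Nat.card {q : Gr p × F2 p // q.2 ∈ KK q.1.1 ∧ ¬ (JJ q.1.1).Nonempty} = (p ^ 2 - 1) * (p ^ 2 - p) := by
  constructor
  · rw [card_pairs (fun (P : Gr p) (n : F2 p) => n ∈ KK P.1 ∧ (JJ P.1).Nonempty),
      sum_one (fun n : F2 p => Nat.card {P : Gr p // n ∈ KK P.1 ∧ (JJ P.1).Nonempty})
        (fun n => n ≠ 0 ∧ n * n = 0) (2 * p + 1), card_nilp]
    · rintro n ⟨h1, h2⟩
      exact (card_U hp n h1 h2).1
    · intro n h1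
      have : IsEmpty {P : Gr p // n ∈ KK P.1 ∧ (JJ P.1).Nonempty} := by
        constructor
        rintro ⟨P, ⟨hP1, hP2, -⟩, -⟩
        exact h1 ⟨hP1, hP2⟩
      exact Nat.card_of_isEmpty
  · rw [card_pairs (fun (P : Gr p) (n : F2 p) => n ∈ KK P.1 ∧ ¬ (JJ P.1).Nonempty),
      sum_one (fun n : F2 p => Nat.card {P : Gr p // n ∈ KK P.1 ∧ ¬ (JJ P.1).Nonempty})
        (fun n => n ≠ 0 ∧ n * n = 0) (p ^ 2 - p), card_nilp]
    · rintro n ⟨h1, h2⟩
      exact (card_U hp n h1 h2).2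
    · intro n h1
      have : IsEmpty {P : Gr p // n ∈ KK P.1 ∧ ¬ (JJ P.1).Nonempty} := by
        constructor
        rintro ⟨P, ⟨hP1, hP2, -⟩, -⟩
        exact h1 ⟨hP1, hP2⟩
      exact Nat.card_of_isEmpty

private theorem det_one_add (n : F2 p) (h : n * n = 0) : (1 + n).det ≠ 0 := by
  have h1 : (1 + n) * (1 - n) = 1 := by
    rw [mul_sub, add_mul, add_mul, one_mul, mul_one, one_mul, h, add_zero]
    abel
  have h2 := congrArg Matrix.det h1
  rw [Matrix.det_mul, Matrix.det_one] at h2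
  exact left_ne_zero_of_mul_eq_one h2

/-- [C5 SMd] values for the plane `P0` (`St_P0`: everything invertible stabilises it). PROOF: `card_split + card_nonsplit`, `card_anti`, `card_nilp` (`det (1 + n) = 1` for nilpotent `n`). -/
theorem P0_vals (hp : p ≠ 2) : (JJ (P0 : Submodule (ZMod p) (M6 p))).ncard = (p - 1) * p ^ 2 ∧
    (JP (P0 : Submodule (ZMod p) (M6 p))).ncard = p * (p ^ 2 - 1) * (p - 1) ^ 2 ∧
    (KK (P0 : Submodule (ZMod p) (M6 p))).ncard = p ^ 2 - 1 := by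
  refine ⟨?_, ?_, ?_⟩
  · rw [← Nat.card_coe_set_eq]
    have h := card_split' (p := p) hp
    have h2 : Nat.card (JJ (P0 : Submodule (ZMod p) (M6 p))) = Nat.card {s : F2 p // s.trace = 0 ∧ s.det ≠ 0} :=
      Nat.card_congr (Equiv.subtypeEquivRight fun s => ⟨fun h => ⟨h.1, h.2.1⟩, fun h => ⟨h.1, St_P0 s h.2⟩⟩)
    omega
  · rw [← Nat.card_coe_set_eq, ← card_anti hp]
    exact Nat.card_congr (Equiv.subtypeEquivRight fun s =>
      ⟨fun h => ⟨h.1.1, h.1.2.1, h.2.1.1, h.2.1.2.1, h.2.2⟩,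
        fun h => ⟨⟨h.1, St_P0 _ h.2.1⟩, ⟨h.2.2.1, St_P0 _ h.2.2.2.1⟩, h.2.2.2.2⟩⟩)
  · rw [← Nat.card_coe_set_eq, ← card_nilp (p := p)]
    exact Nat.card_congr (Equiv.subtypeEquivRight fun s =>
      ⟨fun h => ⟨h.1, h.2.1⟩, fun h => ⟨h.1, h.2, St_P0 _ (det_one_add s h.2)⟩⟩)

end MP_02e52a.Cnt
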