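import Pool.Agent.Lib.MP_02e52a_al.Cnt.Basic

/-! # Stabilisers and transport -/

namespace MP_02e52a.Cnt

open MP_02e52a.M7

variable {p : ℕ} [Fact p.Prime]

theorem actM_adj (a : F2 p) (x : M6 p) : actM a.adjugate (actM a x) = a.det ^ 3 • x := by
  rw [← actM_mul, Matrix.adjugate_mul, actM_smul, actM_one]

theorem actM_adj' (a : F2 p) (x : M6 p) : actM a (actM a.adjugate x) = a.det ^ 3 • x := by
  rw [← actM_mul, Matrix.mul_adjugate, actM_smul, actM_one]

theorem actM_inj (a : F2 p) (ha : a.det ≠ 0) : Function.Injective (actM a) := by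
  intro x y h
  have := congrArg (actM a.adjugate) h
  rw [actM_adj, actM_adj] at this
  exact smul_right_injective _ (pow_ne_zero 3 ha) this

namespace St

variable {P : Submodule (ZMod p) (M6 p)} {a b : F2 p}

theorem one : St P 1 := ⟨by simp, fun x hx => by rwa [actM_one]⟩

theorem mul (h : St P a) (h' : St P b) : St P (a * b) :=
  ⟨by rw [Matrix.det_mul]; exact mul_ne_zero h.1 h'.1, fun x hx => by
    rw [actM_mul]; exact h.2 _ (h'.2 _ hx)⟩

theorem smul {c : ZMod p} (hc : c ≠ 0) (h : St P a) : St P (c • a) :=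
  ⟨by rw [Matrix.det_smul]; exact mul_ne_zero (pow_ne_zero _ hc) h.1, fun x hx => by
    rw [actM_smul]; exact P.smul_mem _ (h.2 _ hx)⟩

theorem of_smul {c : ZMod p} (hc : c ≠ 0) (h : St P (c • a)) : St P a := by
  have := h.smul (inv_ne_zero hc)
  rwa [smul_smul, inv_mul_cancel₀ hc, one_smul] at this

theorem smul_iff {c : ZMod p} (hc : c ≠ 0) : St P (c • a) ↔ St P a := ⟨of_smul hc, smul hc⟩

theorem exists_pre (h : St P a) {y : M6 p} (hy : y ∈ P) : ∃ x ∈ P, actM a x = y := by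
  let f : P →ₗ[ZMod p] P := (actM a).restrict h.2
  have hf : Function.Injective f := by
    intro x y hxy
    apply Subtype.ext
    exact actM_inj a h.1 (congrArg Subtype.val hxy)
  obtain ⟨x, hx⟩ := (LinearMap.injective_iff_surjective.1 hf) ⟨y, hy⟩
  exact ⟨x.1, x.2, congrArg Subtype.val hx⟩

theorem mem_iff (h : St P a) (x : M6 p) : actM a x ∈ P ↔ x ∈ P := by
  constructor
  · intro hx
    obtain ⟨y, hy, hxy⟩ := h.exists_pre hx
    rwa [← actM_inj a h.1 hxy]
  · exact h.2 x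

theorem adj (h : St P a) : St P a.adjugate := by
  refine ⟨?_, fun y hy => ?_⟩
  · rw [Matrix.det_adjugate]
    simpa using h.1
  · obtain ⟨x, hx, rfl⟩ := h.exists_pre hy
    rw [actM_adj]
    exact P.smul_mem _ hx

theorem cancel_left (h : St P a) (h' : St P (a * b)) : St P b := by
  have := h.adj.mul h'
  rw [← Matrix.mul_assoc, Matrix.adjugate_mul, Matrix.smul_mul, Matrix.one_mul] at this
  exact of_smul h.1 this

theorem cancel_right (h : St P b) (h' : St P (a * b)) : St P a := by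
  have := h'.mul h.adj
  rw [Matrix.mul_assoc, Matrix.mul_adjugate, Matrix.mul_smul, Matrix.mul_one] at this
  exact of_smul h.1 this

/-- conjugation inside the stabiliser -/
theorem conj (h : St P a) (h' : St P b) : St P (a * b * a.adjugate) := (h.mul h').mul h.adj

end St

/-- `actM b` as an equivalence -/
noncomputable def trE (b : F2 p) (hb : b.det ≠ 0) : M6 p ≃ₗ[ZMod p] M6 p :=
  LinearEquiv.ofBijective (actM b) ⟨actM_inj b hb, LinearMap.injective_iff_surjective.1 (actM_inj b hb)⟩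

theorem trE_apply (b : F2 p) (hb : b.det ≠ 0) (x : M6 p) : trE b hb x = actM b x := rfl

/-- transport of planes -/
noncomputable def trG (b : F2 p) (hb : b.det ≠ 0) : Gr p ≃ Gr p where
  toFun P := ⟨P.1.map (trE b hb).toLinearMap, by rw [LinearEquiv.finrank_map_eq]; exact P.2⟩
  invFun P := ⟨P.1.map (trE b hb).symm.toLinearMap, by rw [LinearEquiv.finrank_map_eq]; exact P.2⟩
  left_inv P := by
    apply Subtype.ext
    change (P.1.map (trE b hb).toLinearMap).map (trE b hb).symm.toLinearMap = P.1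
    rw [← Submodule.map_comp]
    simp
  right_inv P := by
    apply Subtype.ext
    change (P.1.map (trE b hb).symm.toLinearMap).map (trE b hb).toLinearMap = P.1
    rw [← Submodule.map_comp]
    simp

theorem trG_val (b : F2 p) (hb : b.det ≠ 0) (P : Gr p) : (trG b hb P).1 = P.1.map (actM b) := rfl

theorem mem_trG (b : F2 p) (hb : b.det ≠ 0) (P : Gr p) (x : M6 p) :
    x ∈ (trG b hb P).1 ↔ ∃ y ∈ P.1, actM b y = x := Iff.rfl

theorem actM_mem_trG (b : F2 p) (hb : b.det ≠ 0) (P : Gr p) (x : M6 p) :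
    actM b x ∈ (trG b hb P).1 ↔ x ∈ P.1 := by
  rw [mem_trG]
  constructor
  · rintro ⟨y, hy, h⟩
    rwa [← actM_inj b hb h]
  · exact fun h => ⟨x, h, rfl⟩

/-- transport of the stabiliser: if `a' b = b a` -/
theorem St_trG (b : F2 p) (hb : b.det ≠ 0) (P : Gr p) (a a' : F2 p) (h : a' * b = b * a) :
    St (trG b hb P).1 a' ↔ St P.1 a := by
  have hd : a'.det = a.det := by
    have := congrArg Matrix.det h
    rw [Matrix.det_mul, Matrix.det_mul, mul_comm b.det] at this
    exact mul_right_cancel₀ hb this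
  unfold St
  rw [hd]
  refine and_congr_right fun _ => ?_
  constructor
  · intro H x hx
    have := H (actM b x) ((actM_mem_trG b hb P x).2 hx)
    rw [← actM_mul, h, actM_mul] at this
    exact (actM_mem_trG b hb P _).1 this
  · rintro H _ ⟨x, hx, rfl⟩
    have e : actM a' ((actM b) x) = actM b (actM a x) := by rw [← actM_mul, h, actM_mul]
    change actM a' ((actM b) x) ∈ _
    rw [e]
    exact (actM_mem_trG b hb P _).2 (H x hx)

/-- conjugation -/
noncomputable def cj (b a : F2 p) : F2 p := b * a * b⁻¹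

theorem cj_mul_self (b : F2 p) (hb : b.det ≠ 0) (a : F2 p) : cj b a * b = b * a := by
  rw [cj, Matrix.mul_assoc, Matrix.nonsing_inv_mul _ (isUnit_iff_ne_zero.2 hb), Matrix.mul_one]

theorem eq_cj (b : F2 p) (hb : b.det ≠ 0) (a a' : F2 p) (h : a' * b = b * a) : a' = cj b a := by
  rw [cj, ← h, Matrix.mul_assoc, Matrix.mul_nonsing_inv _ (isUnit_iff_ne_zero.2 hb), Matrix.mul_one]

theorem St_cj (b : F2 p) (hb : b.det ≠ 0) (P : Gr p) (a : F2 p) :
    St (trG b hb P).1 (cj b a) ↔ St P.1 a := St_trG b hb P a _ (cj_mul_self b hb a)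

theorem cj_mul (b : F2 p) (hb : b.det ≠ 0) (x y : F2 p) : cj b (x * y) = cj b x * cj b y := by
  unfold cj
  have : b⁻¹ * b = 1 := Matrix.nonsing_inv_mul _ (isUnit_iff_ne_zero.2 hb)
  calc b * (x * y) * b⁻¹ = b * x * 1 * y * b⁻¹ := by simp only [Matrix.mul_one, Matrix.mul_assoc]
    _ = b * x * (b⁻¹ * b) * y * b⁻¹ := by rw [this]
    _ = _ := by simp only [Matrix.mul_assoc]

theorem cj_add (b x y : F2 p) : cj b (x + y) = cj b x + cj b y := by
  unfold cj; rw [Matrix.mul_add, Matrix.add_mul]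

theorem cj_smul (b : F2 p) (c : ZMod p) (x : F2 p) : cj b (c • x) = c • cj b x := by
  unfold cj; rw [Matrix.mul_smul, Matrix.smul_mul]

theorem cj_one (b : F2 p) (hb : b.det ≠ 0) : cj b 1 = 1 := by
  unfold cj; rw [Matrix.mul_one, Matrix.mul_nonsing_inv _ (isUnit_iff_ne_zero.2 hb)]

theorem cj_trace (b : F2 p) (hb : b.det ≠ 0) (x : F2 p) : (cj b x).trace = x.trace := by
  unfold cj; rw [Matrix.trace_mul_comm, ← Matrix.mul_assoc,
    Matrix.nonsing_inv_mul _ (isUnit_iff_ne_zero.2 hb), Matrix.one_mul]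

theorem cj_det (b : F2 p) (hb : b.det ≠ 0) (x : F2 p) : (cj b x).det = x.det := by
  have := congrArg Matrix.det (cj_mul_self b hb x)
  rw [Matrix.det_mul, Matrix.det_mul, mul_comm b.det] at this
  exact mul_right_cancel₀ hb this

/-- conjugation as a bijection of `F2` -/
noncomputable def cjE (b : F2 p) (hb : b.det ≠ 0) : F2 p ≃ F2 p where
  toFun := cj b
  invFun x := b⁻¹ * x * b
  left_inv x := by
    have h : b⁻¹ * b = 1 := Matrix.nonsing_inv_mul _ (isUnit_iff_ne_zero.2 hb)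
    change b⁻¹ * (b * x * b⁻¹) * b = x
    calc b⁻¹ * (b * x * b⁻¹) * b = (b⁻¹ * b) * x * (b⁻¹ * b) := by simp only [Matrix.mul_assoc]
      _ = x := by rw [h, Matrix.one_mul, Matrix.mul_one]
  right_inv x := by
    have h : b * b⁻¹ = 1 := Matrix.mul_nonsing_inv _ (isUnit_iff_ne_zero.2 hb)
    change b * (b⁻¹ * x * b) * b⁻¹ = x
    calc b * (b⁻¹ * x * b) * b⁻¹ = (b * b⁻¹) * x * (b * b⁻¹) := by simp only [Matrix.mul_assoc]
      _ = x := by rw [h, Matrix.one_mul, Matrix.mul_one]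

theorem cjE_apply (b : F2 p) (hb : b.det ≠ 0) (x : F2 p) : cjE b hb x = cj b x := rfl

theorem cj_inj (b : F2 p) (hb : b.det ≠ 0) {x y : F2 p} : cj b x = cj b y ↔ x = y :=
  (cjE b hb).injective.eq_iff

theorem cj_ne_zero (b : F2 p) (hb : b.det ≠ 0) (x : F2 p) : cj b x = 0 ↔ x = 0 := by
  have h0 : cj b 0 = 0 := by unfold cj; rw [Matrix.mul_zero, Matrix.zero_mul]
  rw [← h0, cj_inj b hb, h0]

theorem JJ_cj (b : F2 p) (hb : b.det ≠ 0) (P : Gr p) (a : F2 p) :
    cj b a ∈ JJ (trG b hb P).1 ↔ a ∈ JJ P.1 := by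
  change ((cj b a).trace = 0 ∧ St _ (cj b a)) ↔ (a.trace = 0 ∧ St _ a)
  rw [cj_trace b hb, St_cj]

theorem KK_cj (b : F2 p) (hb : b.det ≠ 0) (P : Gr p) (a : F2 p) :
    cj b a ∈ KK (trG b hb P).1 ↔ a ∈ KK P.1 := by
  have h1 : (1 : F2 p) + cj b a = cj b (1 + a) := by rw [cj_add, cj_one b hb]
  change (cj b a ≠ 0 ∧ cj b a * cj b a = 0 ∧ St _ (1 + cj b a)) ↔ (a ≠ 0 ∧ a * a = 0 ∧ St _ (1 + a))
  rw [h1, ← cj_mul b hb, cj_ne_zero b hb, St_cj, Ne, cj_ne_zero b hb]

theorem exists_cj (b : F2 p) (hb : b.det ≠ 0) (a : F2 p) : ∃ x, cj b x = a := (cjE b hb).surjective a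

theorem JJ_nonempty_trG (b : F2 p) (hb : b.det ≠ 0) (P : Gr p) :
    (JJ (trG b hb P).1).Nonempty ↔ (JJ P.1).Nonempty := by
  constructor
  · rintro ⟨a, ha⟩
    obtain ⟨x, rfl⟩ := exists_cj b hb a
    exact ⟨x, (JJ_cj b hb P x).1 ha⟩
  · rintro ⟨x, hx⟩
    exact ⟨_, (JJ_cj b hb P x).2 hx⟩

theorem KK_nonempty_trG (b : F2 p) (hb : b.det ≠ 0) (P : Gr p) :
    (KK (trG b hb P).1).Nonempty ↔ (KK P.1).Nonempty := by
  constructor
  · rintro ⟨a, ha⟩
    obtain ⟨x, rfl⟩ := exists_cj b hb a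
    exact ⟨x, (KK_cj b hb P x).1 ha⟩
  · rintro ⟨x, hx⟩
    exact ⟨_, (KK_cj b hb P x).2 hx⟩

/-! ### the plane `P0` -/

/-- the equivariant embedding of the column space -/
def phi (v : Fin 2 → ZMod p) : M6 p := !![v 0, 0; 0, v 1; v 1, v 0]

theorem mem_P0 (x : M6 p) : x ∈ (P0 : Submodule (ZMod p) (M6 p)) ↔ ∃ v, x = phi v := by
  rw [P0, Submodule.mem_span_pair]
  constructor
  · rintro ⟨a, b, rfl⟩
    refine ⟨![a, b], ?_⟩
    ext i j
    fin_cases i <;> fin_cases j <;> simp [phi]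
  · rintro ⟨v, rfl⟩
    refine ⟨v 0, v 1, ?_⟩
    ext i j
    fin_cases i <;> fin_cases j <;> simp [phi]

theorem actM_phi (a : F2 p) (v : Fin 2 → ZMod p) : actM a (phi v) = a.det • phi (a.mulVec v) := by
  ext i j
  simp only [Matrix.smul_apply, actM_entry, Matrix.adjugate_fin_two, M7.sq, phi, Matrix.mulVec, dotProduct,
    Fin.sum_univ_two]
  fin_cases i <;> fin_cases j <;> simp [Matrix.det_fin_two] <;> ring

theorem St_P0 (a : F2 p) (ha : a.det ≠ 0) : St P0 a := by
  refine ⟨ha, fun x hx => ?_⟩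
  obtain ⟨v, rfl⟩ := (mem_P0 x).1 hx
  rw [actM_phi]
  exact Submodule.smul_mem _ _ ((mem_P0 _).2 ⟨_, rfl⟩)

theorem finrank_P0 : Module.finrank (ZMod p) (P0 : Submodule (ZMod p) (M6 p)) = 2 := by
  have h : LinearIndependent (ZMod p) ![(!![1, 0; 0, 0; 0, 1] : M6 p), !![0, 0; 0, 1; 1, 0]] := by
    rw [LinearIndependent.pair_iff]
    intro s t h
    have h1 := congrFun (congrFun h 0) 0
    have h2 := congrFun (congrFun h 1) 1
    simp at h1 h2
    exact ⟨h1, h2⟩
  have h2 := finrank_span_eq_card h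
  rw [Fintype.card_fin, Matrix.range_cons, Matrix.range_cons, Matrix.range_empty, Set.union_empty,
    Set.singleton_union] at h2
  exact h2

end MP_02e52a.Cnt
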