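import Pool.Agent.Lib.MP_02e52a_al.Cnt.T1
import Pool.Agent.Lib.MP_02e52a_al.Cnt.T2

/-! # Planes fixed by a dihedral group -/

namespace MP_02e52a.Cnt

open MP_02e52a.M7

variable {p : ℕ} [Fact p.Prime]

private theorem T3_HH_stable (z : F2 p) (x : M6 p) (hx : x ∈ HH z) : actM z x ∈ HH z := by
  rw [mem_HH] at hx ⊢
  rw [← actM_dact_comm, ← map_smul, hx, map_smul]

private theorem T3_QQ_stable (z : F2 p) (x : M6 p) (hx : x ∈ QQ z) : actM z x ∈ QQ z := by
  rw [mem_QQ] at hx ⊢
  rw [← actM_dact_comm, ← map_smul, hx, map_neg]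

private theorem T3_le_of_pair (P : Gr p) (Q : Submodule (ZMod p) (M6 p)) (u v : M6 p) (hu : u ∈ P.1)
    (hv : v ∈ P.1) (hu' : u ∈ Q) (hv' : v ∈ Q)
    (h : ∀ c d : ZMod p, c • u + d • v = 0 → c = 0 ∧ d = 0) : P.1 ≤ Q := by
  have hli : LinearIndependent (ZMod p) ![u, v] := LinearIndependent.pair_iff.2 h
  have h2 := finrank_span_eq_card hli
  rw [Fintype.card_fin, Matrix.range_cons, Matrix.range_cons, Matrix.range_empty, Set.union_empty,
    Set.singleton_union] at h2
  have h3 : Submodule.span (ZMod p) {u, v} ≤ P.1 := by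
    rw [Submodule.span_le]
    intro x hx
    rcases hx with rfl | hx
    · exact hu
    · rw [Set.mem_singleton_iff] at hx
      rw [hx]; exact hv
  have h4 : Submodule.span (ZMod p) {u, v} = P.1 :=
    Submodule.eq_of_le_of_finrank_eq h3 (h2.trans P.2.symm)
  rw [← h4, Submodule.span_le]
  intro x hx
  rcases hx with rfl | hx
  · exact hu'
  · rw [Set.mem_singleton_iff] at hx
    rw [hx]; exact hv'

private theorem T3_dact_neg (z : F2 p) (x : M6 p) : dact (-z) x = - dact z x := by
  ext i j
  simp only [Matrix.neg_apply, dact_entry, Matrix.adjugate_fin_two, dsq]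
  fin_cases i <;> fin_cases j <;> simp <;> ring

private theorem T3_two (hp : p ≠ 2) : (2 : ZMod p) ≠ 0 := by
  intro h
  have h2 : ((2 : ℕ) : ZMod p) = 0 := by exact_mod_cast h
  rw [ZMod.natCast_eq_zero_iff] at h2
  exact hp ((Nat.prime_dvd_prime_iff_eq (Fact.out) Nat.prime_two).mp h2)

/-- [C5 T3a] PROOF: if every `x ∈ P` lies in `HH z` we are in the second case, `P = HH z` by `finrank_HH`, and `HH z` is stable under `actM z` (`actM_dact_comm`). Otherwise `T1_split` gives `0 ≠ q ∈ P ⊓ QQ z` with `ρ q ∈ P ⊓ QQ z` (`QQ z` is stable under `ρ`).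
If `ρ q` is not a multiple of `q` then `P = span {q, ρ q} ≤ QQ z`. If `ρ q = c q` (`c ≠ 0`) let `q' = actM s q ∈ P`: `s z = - z s` (`anticomm`, `Matrix.trace_mul_comm`) gives `ρ q' = - c q'` and `q' ∈ QQ z` (`actM_dact` with `b = s`, `z' = - z`; `dact (- z) = - dact z`),
so `q, q'` are independent and `P = span {q, q'} ≤ QQ z`. In that case every `x ∈ P` has `h = 0` in `T1_split` (`h = x - q ∈ HH z ⊓ QQ z`, `HH_inf_QQ`), so `ρ x ∈ P`. -/
theorem T3_cases (hp : p ≠ 2) (P : Gr p) (z s : F2 p) (hz : z.trace = 0) (hzd : z.det ≠ 0) (α β : ZMod p)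
    (hα : α ≠ 0) (hβ : β ≠ 0) (h1 : St P.1 (α • (1 : F2 p) + β • z)) (hs : s ∈ JJ P.1)
    (hsz : (s * z).trace = 0) : z ∈ JJ P.1 ∧ (P.1 ≤ QQ z ∨ P.1 ≤ HH z) := by
  classical
  by_cases hH : P.1 ≤ HH z
  · have hPH : P.1 = HH z := Submodule.eq_of_le_of_finrank_eq hH (P.2.trans (finrank_HH hp z hz hzd).symm)
    refine ⟨⟨hz, hzd, fun x hx => ?_⟩, Or.inr hH⟩
    rw [hPH] at hx ⊢
    exact T3_HH_stable z x hx
  · have hQ : P.1 ≤ QQ z := by
      obtain ⟨x0, hx0, hx0H⟩ := Set.not_subset.1 hH
      obtain ⟨h, q, hxq, hh, hq, hhP, hqP, hzq, -⟩ := T1_split hp P z hz hzd α β hα hβ h1 x0 hx0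
      have hq0 : q ≠ 0 := by
        rintro rfl
        rw [add_zero] at hxq
        rw [hxq] at hx0H
        exact hx0H hh
      by_cases hc : ∃ c : ZMod p, actM z q = c • q
      · obtain ⟨c, hc⟩ := hc
        have hzs : s * z = -(z * s) := by
          have h2 := anticomm s z hs.1 hz
          rw [hsz, zero_smul] at h2
          exact eq_neg_of_add_eq_zero_left h2
        have hact : actM (s * z) q = - actM (z * s) q := by
          rw [hzs, show -(z * s) = (-1 : ZMod p) • (z * s) by rw [neg_smul, one_smul], actM_smul]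
          rw [show ((-1 : ZMod p)) ^ 3 = -1 by ring, neg_smul, one_smul]
        have hzq' : actM z (actM s q) = (-c) • actM s q := by
          rw [← actM_mul, ← neg_neg (actM (z * s) q), ← hact, actM_mul, hc, map_smul, neg_smul]
        have hq' : actM s q ∈ QQ z := by
          rw [mem_QQ] at hq ⊢
          have h2 := actM_dact s z (-z) (by rw [hzs, neg_mul]) q
          rw [T3_dact_neg] at h2
          have h3 := congrArg (actM s) hq
          rw [map_smul, map_neg, h2, ← actM_mul, hact, neg_neg, actM_mul, smul_neg] at h3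
          rw [← h3, neg_neg]
        have hc0 : c ≠ 0 := by
          rintro rfl
          rw [zero_smul] at hc
          apply hq0
          apply actM_inj z hzd
          rw [hc, map_zero]
        refine T3_le_of_pair P (QQ z) q (actM s q) hqP (hs.2.2 q hqP) hq hq' ?_
        intro a b hab
        have h2 := congrArg (actM z) hab
        rw [map_add, map_smul, map_smul, hc, hzq', map_zero] at h2
        have h3 : (2 * a * c) • q = 0 := by
          have h4 : (2 * a * c) • q = c • (a • q + b • actM s q) + (a • c • q + b • (-c) • actM s q) := by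
            module
          rw [h4, hab, h2, smul_zero, add_zero]
        have ha : a = 0 := by
          rcases smul_eq_zero.1 h3 with h5 | h5
          · rcases mul_eq_zero.1 h5 with h6 | h6
            · rcases mul_eq_zero.1 h6 with h7 | h7
              · exact absurd h7 (T3_two hp)
              · exact h7
            · exact absurd h6 hc0
          · exact absurd h5 hq0
        refine ⟨ha, ?_⟩
        rw [ha, zero_smul, zero_add] at hab
        rcases smul_eq_zero.1 hab with h5 | h5
        · exact h5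
        · exfalso
          apply hq0
          apply actM_inj s hs.2.1
          rw [h5, map_zero]
      · refine T3_le_of_pair P (QQ z) q (actM z q) hqP hzq hq (T3_QQ_stable z q hq) ?_
        intro a b hab
        have hb : b = 0 := by
          by_contra hb
          apply hc
          refine ⟨-(b⁻¹ * a), ?_⟩
          have h2 : b • actM z q = -(a • q) := eq_neg_of_add_eq_zero_right hab
          have h3 := congrArg (fun m => b⁻¹ • m) h2
          simp only [smul_smul, smul_neg] at h3
          rw [inv_mul_cancel₀ hb, one_smul] at h3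
          rw [h3, neg_smul]
        refine ⟨?_, hb⟩
        rw [hb, zero_smul, add_zero] at hab
        rcases smul_eq_zero.1 hab with h5 | h5
        · exact h5
        · exact absurd h5 hq0
    refine ⟨⟨hz, hzd, fun x hx => ?_⟩, Or.inl hQ⟩
    obtain ⟨h, q, hxq, hh, hq, hhP, hqP, hzq, -⟩ := T1_split hp P z hz hzd α β hα hβ h1 x hx
    have h0 : h = 0 := HH_inf_QQ hp z hzd h hh (hQ hhP)
    rw [hxq, h0, zero_add]
    exact hzq

/-- [C5 T3b] PROOF: `actM_QQ`, `actM_HH`. -/
theorem T3_torus (P : Gr p) (z : F2 p) (hz : z ∈ JJ P.1) (h : P.1 ≤ QQ z ∨ P.1 ≤ HH z) (α β : ZMod p)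
    (hd : (α • (1 : F2 p) + β • z).det ≠ 0) : St P.1 (α • (1 : F2 p) + β • z) := by
  refine ⟨hd, fun x hx => ?_⟩
  have hzx := hz.2.2 x hx
  have hD : -z.det ≠ 0 := neg_ne_zero.2 hz.2.1
  have key : (-z.det) • actM (α • (1 : F2 p) + β • z) x ∈ P.1 := by
    rcases h with h | h
    · rw [actM_QQ z hz.1 hz.2.1 α β x (h hx)]
      exact P.1.smul_mem _ (P.1.sub_mem (P.1.smul_mem _ hx) (P.1.smul_mem _ hzx))
    · rw [actM_HH z hz.1 hz.2.1 α β x (h hx)]
      exact P.1.add_mem (P.1.smul_mem _ hx) (P.1.smul_mem _ hzx)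
  have := P.1.smul_mem (-z.det)⁻¹ key
  rwa [smul_smul, inv_mul_cancel₀ hD, one_smul] at this

end MP_02e52a.Cnt
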