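import Pool.Agent.Lib.MP_02e52a_al.Cnt.T2
import Pool.Agent.Lib.MP_02e52a_al.Cnt.T1

/-! # Two different tori fix only P0 -/

namespace MP_02e52a.Cnt

open MP_02e52a.M7

variable {p : ℕ} [Fact p.Prime]

private theorem t4_two (hp : p ≠ 2) : (2 : ZMod p) ≠ 0 := by
  intro h
  have h2 : ((2 : ℕ) : ZMod p) = 0 := by exact_mod_cast h
  rw [ZMod.natCast_eq_zero_iff] at h2
  exact hp ((Nat.prime_dvd_prime_iff_eq (Fact.out : p.Prime) Nat.prime_two).1 h2)

private theorem t4_scal {F : Type*} [Field F] (two : (2 : F) ≠ 0) (z0 z1 z2 y0 y1 y2 u0 u1 f0 f1 g0 g1 : F)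
    (hT : 2 * z0 * y0 + z1 * y2 + z2 * y1 = 0) (hdz : z0 ^ 2 + z1 * z2 ≠ 0) (hdy : y0 ^ 2 + y1 * y2 ≠ 0)
    (h00 : u0 - z1 * f0 + y1 * g0 = 0) (h01 : z1 * f1 = y1 * g1) (h10 : z2 * f0 = y2 * g0)
    (h11 : u1 + z2 * f1 = y2 * g1) (h20 : u1 + 2 * z0 * f0 = 2 * y0 * g0)
    (h21 : u0 + 2 * z0 * f1 = 2 * y0 * g1) : f0 = 0 ∧ f1 = 0 := by
  have k1 : (z2 * y0 - z0 * y2) * u0 - (z0 * y0 + z1 * y2) * u1 = 0 := by
    linear_combination (z2 * y0 - z0 * y2) * h00 - (z0 * y1 - z1 * y0) * h10 -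
      (z0 * y0 + z1 * y2) * h20 + (z0 * f0 - y0 * g0) * hT
  have k2 : (z0 * y0 + z1 * y2) * u0 + (z0 * y1 - z1 * y0) * u1 = 0 := by
    linear_combination (z2 * y0 - z0 * y2) * h01 + (z0 * y1 - z1 * y0) * h11 +
      (z0 * y0 + z1 * y2) * h21 - (z0 * f1 - y0 * g1) * hT
  have hdet : (z0 ^ 2 + z1 * z2) * (y0 ^ 2 + y1 * y2) ≠ 0 := mul_ne_zero hdz hdy
  have e0 : (z0 ^ 2 + z1 * z2) * (y0 ^ 2 + y1 * y2) * u0 = 0 := by
    linear_combination (-(z0 * y1 - z1 * y0)) * k1 - (z0 * y0 + z1 * y2) * k2 +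
      (z0 * y0 + z1 * y2) * u0 * hT
  have e1 : (z0 ^ 2 + z1 * z2) * (y0 ^ 2 + y1 * y2) * u1 = 0 := by
    linear_combination (z0 * y0 + z1 * y2) * k1 - (z2 * y0 - z0 * y2) * k2 +
      (z0 * y0 + z1 * y2) * u1 * hT
  have u0z : u0 = 0 := (mul_eq_zero.1 e0).resolve_left hdet
  have u1z : u1 = 0 := (mul_eq_zero.1 e1).resolve_left hdet
  subst u0z u1z
  have two' : (2 : F) * (z0 ^ 2 + z1 * z2) ≠ 0 := mul_ne_zero two hdz
  constructor
  · have : 2 * (z0 ^ 2 + z1 * z2) * f0 = 0 := by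
      linear_combination z0 * h20 + z1 * h10 - z2 * h00 + g0 * hT
    exact (mul_eq_zero.1 this).resolve_left two'
  · have : 2 * (z0 ^ 2 + z1 * z2) * f1 = 0 := by
      linear_combination z0 * h21 + z1 * h11 + z2 * h01 + g1 * hT
    exact (mul_eq_zero.1 this).resolve_left two'


/-- [C5 T4a] PROOF. For a traceless `a` let `L_a (S0, S1, S2) = a10 S0 - a01 S1 - a00 S2`, applied to the two columns of a `3 × 2` matrix. By `QQ_form`: `x = phi v + kap z φ = phi v' + kap y ψ`, so `phi (v - v') = kap y ψ - kap z φ`. Let `u = v - v'`, `a = z * y` (traceless, `det a ≠ 0`).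
`L_a` kills the columns of `kap z φ` (it gives `- tr (a z) φ_j`, and `z y z = - z z y`), of `kap y ψ` (`tr (z y y) = 0`), and on the columns of `phi u` it is `a10 u0 - a00 u1` and `- a00 u0 - a01 u1`. The determinant of this system is `- (a00² + a01 a10) = det a ≠ 0`, so `u = 0`.
Then `kap y ψ = kap z φ`; if `φ ≠ 0` then `z = c y` for some `c` (compare the columns: `φ_j (z01, z10, z00) = ψ_j (y01, y10, y00)`), but then `tr (z y) = c tr (y y) = - 2 c det y`, so `c = 0`, contradiction. So `kap z φ = 0` and `x = phi v ∈ P0`. -/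
theorem QQ_inf (hp : p ≠ 2) (z y : F2 p) (hz : z.trace = 0) (hzd : z.det ≠ 0) (hy : y.trace = 0) (hyd : y.det ≠ 0)
    (hzy : (z * y).trace = 0) (x : M6 p) (h1 : x ∈ QQ z) (h2 : x ∈ QQ y) : x ∈ (P0 : Submodule (ZMod p) (M6 p)) := by
  have two : (2 : ZMod p) ≠ 0 := t4_two hp
  obtain ⟨v, φ, e1⟩ := QQ_form hp z hz hzd x h1
  obtain ⟨v', ψ, e2⟩ := QQ_form hp y hy hyd x h2
  have hE := e1.symm.trans e2
  have hz11 : z 1 1 = - z 0 0 := by
    rw [Matrix.trace_fin_two] at hz
    linear_combination hz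
  have hy11 : y 1 1 = - y 0 0 := by
    rw [Matrix.trace_fin_two] at hy
    linear_combination hy
  have hT : 2 * z 0 0 * y 0 0 + z 0 1 * y 1 0 + z 1 0 * y 0 1 = 0 := by
    rw [Matrix.trace_fin_two] at hzy
    simp only [Matrix.mul_apply, Fin.sum_univ_two] at hzy
    rw [hz11, hy11] at hzy
    linear_combination hzy
  have hdz : z 0 0 ^ 2 + z 0 1 * z 1 0 ≠ 0 := by
    intro h
    apply hzd
    rw [Matrix.det_fin_two, hz11]
    linear_combination (-1 : ZMod p) * h
  have hdy : y 0 0 ^ 2 + y 0 1 * y 1 0 ≠ 0 := by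
    intro h
    apply hyd
    rw [Matrix.det_fin_two, hy11]
    linear_combination (-1 : ZMod p) * h
  have g00 := congrFun (congrFun hE 0) 0
  have g01 := congrFun (congrFun hE 0) 1
  have g10 := congrFun (congrFun hE 1) 0
  have g11 := congrFun (congrFun hE 1) 1
  have g20 := congrFun (congrFun hE 2) 0
  have g21 := congrFun (congrFun hE 2) 1
  simp [phi, kap] at g00 g01 g10 g11 g20 g21
  obtain ⟨f0, f1⟩ := t4_scal two (z 0 0) (z 0 1) (z 1 0) (y 0 0) (y 0 1) (y 1 0) (v 0 - v' 0)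
    (v 1 - v' 1) (φ 0) (φ 1) (ψ 0) (ψ 1) hT hdz hdy (by linear_combination g00)
    (by linear_combination g01) (by linear_combination g10) (by linear_combination g11)
    (by linear_combination g20) (by linear_combination g21)
  rw [mem_P0]
  refine ⟨v, ?_⟩
  rw [e1]
  ext i j
  fin_cases i <;> fin_cases j <;> simp [phi, kap, f0, f1]

/-- [C5 T4b] PROOF: `dact e12 x = (T20, T21 - T00; 0, - T10; 2 T10, 2 T11 - T20) = 0` and the analogous equations for `e21` (`dact e21 x = (-T01, 0; T20 - T11, T21; 2 T00 - T21, 2 T01)`) give `x = 0`. -/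
theorem dact_zero (hp : p ≠ 2) (x : M6 p) (h1 : dact !![0, 1; 0, 0] x = 0) (h2 : dact !![0, 0; 1, 0] x = 0) : x = 0 := by
  have a00 := congrFun (congrFun h1 0) 0
  have a01 := congrFun (congrFun h1 0) 1
  have a11 := congrFun (congrFun h1 1) 1
  have a21 := congrFun (congrFun h1 2) 1
  have b00 := congrFun (congrFun h2 0) 0
  have b10 := congrFun (congrFun h2 1) 0
  have b11 := congrFun (congrFun h2 1) 1
  simp [dact_entry, dsq, Matrix.adjugate_fin_two] at a00 a01 a11 a21 b00 b10 b11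
  ext i j
  fin_cases i <;> fin_cases j <;> simp_all

private theorem t4_lin (α β γ : ZMod p) (a b c : F2 p) (x : M6 p) :
    dact (α • a + β • b + γ • c) x = α • dact a x + β • dact b x + γ • dact c x := by
  ext i j
  simp only [Matrix.add_apply, Matrix.smul_apply, dact_entry, Matrix.adjugate_fin_two, dsq]
  fin_cases i <;> fin_cases j <;> simp <;> ring

private theorem t4_smul (α : ZMod p) (a : F2 p) (x : M6 p) : dact (α • a) x = α • dact a x := by
  have h := t4_lin α 0 0 a a a x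
  simpa using h

/-- first identity -/
private theorem t4_w (hp : p ≠ 2) (P : Submodule (ZMod p) (M6 p)) (z y : F2 p) (hz : St P z)
    (hy : St P y) (hzy : y * z = -(z * y)) (ε ε' : ZMod p)
    (h1 : ∀ x ∈ P, (-z.det) • dact z x = ε • actM z x)
    (h2 : ∀ x ∈ P, (-y.det) • dact y x = ε' • actM y x) (x : M6 p) (hx : x ∈ P) :
    ((-z.det) * (-y.det)) • dact (z * y) x = (ε * ε') • actM (z * y) x := by
  have two : (2 : ZMod p) ≠ 0 := t4_two hp
  have e1 : ((-z.det) * (-y.det)) • dact z (dact y x) = (ε * ε') • actM z (actM y x) := by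
    rw [mul_smul, ← map_smul, h2 x hx, map_smul, smul_comm, h1 _ (hy.2 x hx), smul_smul, mul_comm ε']
  have e2 : ((-z.det) * (-y.det)) • dact y (dact z x) = (ε * ε') • actM y (actM z x) := by
    rw [mul_comm (-z.det), mul_smul, ← map_smul, h1 x hx, map_smul, smul_comm, h2 _ (hz.2 x hx),
      smul_smul]
  have e3 := dact_lie z y x
  have e4 : z * y - y * z = (2 : ZMod p) • (z * y) := by rw [hzy, two_smul]; abel
  rw [e4, t4_smul] at e3
  have e5 : actM y (actM z x) = - actM (z * y) x := by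
    rw [← actM_mul, hzy, show -(z * y) = (-1 : ZMod p) • (z * y) by simp, actM_smul]
    norm_num
  rw [← actM_mul] at e1
  rw [e5] at e2
  have e6 : (2 : ZMod p) • (((-z.det) * (-y.det)) • dact (z * y) x) =
      (2 : ZMod p) • ((ε * ε') • actM (z * y) x) := by
    rw [smul_comm, ← e3, smul_sub, e1, e2]
    module
  exact smul_right_injective _ two e6

/-- second identity -/
private theorem t4_eps (hp : p ≠ 2) (P : Submodule (ZMod p) (M6 p)) (z y : F2 p) (hz : St P z)
    (hy : St P y) (hyt : y.trace = 0) (hzy : y * z = -(z * y)) (ε ε' : ZMod p)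
    (h1 : ∀ x ∈ P, (-z.det) • dact z x = ε • actM z x)
    (h2 : ∀ x ∈ P, (-y.det) • dact y x = ε' • actM y x) (x : M6 p) (hx : x ∈ P) (hx0 : x ≠ 0) :
    ε * (ε' ^ 2 - 1) = 0 := by
  have two : (2 : ZMod p) ≠ 0 := t4_two hp
  have hw := t4_w hp P z y hz hy hzy ε ε' h1 h2
  have hwP : ∀ x ∈ P, actM (z * y) x ∈ P := fun x hx => by
    rw [actM_mul]
    exact hz.2 _ (hy.2 _ hx)
  have hyy := mul_self_of_trace y hyt
  have m1 : y * (z * y) = (-(-y.det)) • z := by
    rw [← Matrix.mul_assoc, hzy, Matrix.neg_mul, Matrix.mul_assoc, hyy]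
    simp
  have m2 : (z * y) * y = (-y.det) • z := by
    rw [Matrix.mul_assoc, hyy]
    simp
  -- D E² R_y R_w x
  have e1 : ((-z.det) * (-y.det) ^ 2) • dact y (dact (z * y) x) =
      (-(ε * ε' ^ 2 * (-y.det) ^ 3)) • actM z x := by
    have : ((-z.det) * (-y.det) ^ 2) • dact y (dact (z * y) x) =
        (-y.det) • dact y (((-z.det) * (-y.det)) • dact (z * y) x) := by
      rw [map_smul, smul_smul]
      congr 1
      ring
    rw [this, hw x hx, map_smul, smul_comm, h2 _ (hwP x hx), ← actM_mul, m1, actM_smul, smul_smul,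
      smul_smul]
    congr 1
    ring
  have e2 : ((-z.det) * (-y.det) ^ 2) • dact (z * y) (dact y x) =
      (ε * ε' ^ 2 * (-y.det) ^ 3) • actM z x := by
    have : ((-z.det) * (-y.det) ^ 2) • dact (z * y) (dact y x) =
        ((-z.det) * (-y.det)) • dact (z * y) ((-y.det) • dact y x) := by
      rw [map_smul, smul_smul]
      congr 1
      ring
    rw [this, h2 x hx, map_smul, smul_comm, hw _ (hy.2 x hx), ← actM_mul, m2, actM_smul, smul_smul,
      smul_smul]
    congr 1
    ring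
  have e3 := dact_lie y (z * y) x
  have e4 : y * (z * y) - z * y * y = (-2 * (-y.det)) • z := by
    rw [m1, m2]
    module
  rw [e4, t4_smul] at e3
  have e5 : ((-z.det) * (-y.det) ^ 2) • ((-2 * (-y.det)) • dact z x) =
      (-(2 * ε * (-y.det) ^ 3)) • actM z x := by
    have : ((-z.det) * (-y.det) ^ 2) • ((-2 * (-y.det)) • dact z x) =
        (-2 * (-y.det) ^ 3) • ((-z.det) • dact z x) := by
      rw [smul_smul, smul_smul]
      congr 1
      ring
    rw [this, h1 x hx, smul_smul]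
    congr 1
    ring
  rw [← e3, smul_sub, e1, e2] at e5
  have e6 : (2 * (-y.det) ^ 3 * (ε * (ε' ^ 2 - 1))) • actM z x = 0 := by
    have : (2 * (-y.det) ^ 3 * (ε * (ε' ^ 2 - 1))) • actM z x =
        (-(2 * ε * (-y.det) ^ 3)) • actM z x -
        ((-(ε * ε' ^ 2 * (-y.det) ^ 3)) • actM z x - (ε * ε' ^ 2 * (-y.det) ^ 3) • actM z x) := by
      module
    rw [this, e5, sub_self]
  have hne : actM z x ≠ 0 := by
    intro h
    apply hx0
    apply actM_inj z hz.1
    rw [h, map_zero]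
  rcases smul_eq_zero.1 e6 with h | h
  · have hE : (2 : ZMod p) * (-y.det) ^ 3 ≠ 0 :=
      mul_ne_zero two (pow_ne_zero 3 (neg_ne_zero.2 hy.1))
    exact (mul_eq_zero.1 h).resolve_left hE
  · exact absurd h hne

/-- [C5 T4c] PROOF. Let `D = - det z`, `E = - det y`, `ε, ε' ∈ {-1, 3}` with `D R_z x = ε ρ_z x`, `E R_y x = ε' ρ_y x` for all `x ∈ P` (`ρ = actM`, `R = dact`). `w = z y = - y z` (`anticomm`). For `x ∈ P`:
`R_z R_y x - R_y R_z x = R_{zy - yz} x = 2 R_w x` (`dact_lie`); `ρ_y x, ρ_z x ∈ P`, so the left side is `(ε ε' / (D E)) (ρ_z ρ_y - ρ_y ρ_z) x = (2 ε ε' / (D E)) ρ_w x` (`ρ_z ρ_y = ρ_w`, `ρ_y ρ_z = ρ_{-w} = - ρ_w`). So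
`D E R_w x = ε ε' ρ_w x` on `P`. Next `y w - w y = - 2 E z` (`y z y = - z y y = - E z`), so `R_y R_w x - R_w R_y x = - 2 E R_z x`, and the left side is `(ε ε'² / (D E²)) (ρ_y ρ_w - ρ_w ρ_y) x = - (2 ε ε'² E / D) ρ_z x`
(`ρ_y ρ_w = actM (y z y) = - E³ ρ_z`, `ρ_w ρ_y = actM (z y y) = E³ ρ_z`). Hence `ε (ε'² - 1) = 0` (take `x ≠ 0`). By symmetry (exchange `z` and `y`) `ε' (ε² - 1) = 0`. If `ε = ε' = -1` use `QQ_inf` and finrank (`finrank_P0`).
If exactly one is `3`: `ε (ε'² - 1)` or `ε' (ε² - 1)` is `- 8 ≠ 0`. If `ε = ε' = 3`: `24 = 0`, so `3 = 0` in `ZMod p`, all of `R_z, R_y, R_w` vanish on `P`, and as `z, y, w` span the traceless matrices (`e12` is a combination: the coefficient of `a ∈ {z, y, w}` is `tr (e12 a) / tr (a a)`; or use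
linear independence), `dact e12` and `dact e21` vanish on `P` (`dact` is linear in its argument), so `P = 0` by `dact_zero`, contradiction. -/
theorem two_tori (hp : p ≠ 2) (P : Gr p) (z y : F2 p) (hz : z ∈ JJ P.1) (hy : y ∈ JJ P.1)
    (hzy : (z * y).trace = 0) (h1 : P.1 ≤ QQ z ∨ P.1 ≤ HH z) (h2 : P.1 ≤ QQ y ∨ P.1 ≤ HH y) : P.1 = P0 := by
  have two : (2 : ZMod p) ≠ 0 := t4_two hp
  obtain ⟨hzt, hzs⟩ := hz
  obtain ⟨hyt, hys⟩ := hy
  have hac : y * z = -(z * y) := by
    have h := anticomm z y hzt hyt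
    rw [hzy, zero_smul] at h
    exact eq_neg_of_add_eq_zero_right h
  have hac' : z * y = -(y * z) := by rw [hac, neg_neg]
  obtain ⟨x, hx, hx0⟩ : ∃ x ∈ P.1, x ≠ 0 := by
    by_contra hcon
    push Not at hcon
    have hbot : P.1 = ⊥ := (Submodule.eq_bot_iff _).2 hcon
    have h := P.2
    rw [hbot, finrank_bot] at h
    omega
  have q1 : P.1 ≤ QQ z → ∀ x ∈ P.1, (-z.det) • dact z x = (-1 : ZMod p) • actM z x := by
    intro h x hx
    rw [(mem_QQ z x).1 (h hx), neg_one_smul]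
  have q2 : P.1 ≤ QQ y → ∀ x ∈ P.1, (-y.det) • dact y x = (-1 : ZMod p) • actM y x := by
    intro h x hx
    rw [(mem_QQ y x).1 (h hx), neg_one_smul]
  have q3 : P.1 ≤ HH z → ∀ x ∈ P.1, (-z.det) • dact z x = (3 : ZMod p) • actM z x :=
    fun h x hx => (mem_HH z x).1 (h hx)
  have q4 : P.1 ≤ HH y → ∀ x ∈ P.1, (-y.det) • dact y x = (3 : ZMod p) • actM y x :=
    fun h x hx => (mem_HH y x).1 (h hx)
  have h8 : (8 : ZMod p) ≠ 0 := by
    have : (8 : ZMod p) = 2 * 2 * 2 := by norm_num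
    rw [this]
    exact mul_ne_zero (mul_ne_zero two two) two
  rcases h1 with h1 | h1 <;> rcases h2 with h2 | h2
  · have hle : P.1 ≤ P0 := fun x hx =>
      QQ_inf hp z y hzt hzs.1 hyt hys.1 hzy x (h1 hx) (h2 hx)
    exact Submodule.eq_of_le_of_finrank_eq hle (by rw [P.2, finrank_P0])
  · exfalso
    have := t4_eps hp P.1 z y hzs hys hyt hac (-1) 3 (q1 h1) (q4 h2) x hx hx0
    apply h8
    linear_combination (-1 : ZMod p) * this
  · exfalso
    have := t4_eps hp P.1 y z hys hzs hzt hac' (-1) 3 (q2 h2) (q3 h1) x hx hx0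
    apply h8
    linear_combination (-1 : ZMod p) * this
  · exfalso
    have h24 := t4_eps hp P.1 z y hzs hys hyt hac 3 3 (q3 h1) (q4 h2) x hx hx0
    have h3 : (3 : ZMod p) = 0 := by
      have : (8 : ZMod p) * 3 = 0 := by linear_combination h24
      exact (mul_eq_zero.1 this).resolve_left h8
    have hD : -z.det ≠ 0 := neg_ne_zero.2 hzs.1
    have hE : -y.det ≠ 0 := neg_ne_zero.2 hys.1
    have rz : dact z x = 0 := by
      have := q3 h1 x hx
      rw [h3, zero_smul] at this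
      exact (smul_eq_zero.1 this).resolve_left hD
    have ry : dact y x = 0 := by
      have := q4 h2 x hx
      rw [h3, zero_smul] at this
      exact (smul_eq_zero.1 this).resolve_left hE
    have rw' : dact (z * y) x = 0 := by
      have := t4_w hp P.1 z y hzs hys hac 3 3 (q3 h1) (q4 h2) x hx
      rw [h3, zero_mul, zero_smul] at this
      exact (smul_eq_zero.1 this).resolve_left (mul_ne_zero hD hE)
    have hz11 : z 1 1 = - z 0 0 := by
      rw [Matrix.trace_fin_two] at hzt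
      linear_combination hzt
    have hy11 : y 1 1 = - y 0 0 := by
      rw [Matrix.trace_fin_two] at hyt
      linear_combination hyt
    have hT : 2 * z 0 0 * y 0 0 + z 0 1 * y 1 0 + z 1 0 * y 0 1 = 0 := by
      rw [Matrix.trace_fin_two] at hzy
      simp only [Matrix.mul_apply, Fin.sum_univ_two] at hzy
      rw [hz11, hy11] at hzy
      linear_combination hzy
    have hc : (2 : ZMod p) * (-z.det) * (-y.det) ≠ 0 := mul_ne_zero (mul_ne_zero two hD) hE
    have c12 : (2 * (-z.det) * (-y.det)) • (!![0, 1; 0, 0] : F2 p) =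
        ((-y.det) * z 1 0) • z + ((-z.det) * y 1 0) • y + (-((z * y) 1 0)) • (z * y) := by
      rw [Matrix.det_fin_two z, Matrix.det_fin_two y, hz11, hy11]
      ext i j
      fin_cases i <;> fin_cases j
      · simp [Matrix.mul_apply, Fin.sum_univ_two, hz11, hy11]
        linear_combination (-(z 0 0 * y 1 0)) * hT
      · simp [Matrix.mul_apply, Fin.sum_univ_two, hz11, hy11]
        linear_combination (z 0 0 * y 0 0) * hT
      · simp [Matrix.mul_apply, Fin.sum_univ_two, hz11, hy11]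
        linear_combination (-(z 1 0 * y 1 0)) * hT
      · simp [Matrix.mul_apply, Fin.sum_univ_two, hz11, hy11]
        linear_combination (z 1 0 * y 0 0) * hT
    have c21 : (2 * (-z.det) * (-y.det)) • (!![0, 0; 1, 0] : F2 p) =
        ((-y.det) * z 0 1) • z + ((-z.det) * y 0 1) • y + (-((z * y) 0 1)) • (z * y) := by
      rw [Matrix.det_fin_two z, Matrix.det_fin_two y, hz11, hy11]
      ext i j
      fin_cases i <;> fin_cases j
      · simp [Matrix.mul_apply, Fin.sum_univ_two, hz11, hy11]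
        linear_combination (-(z 0 1 * y 0 0)) * hT
      · simp [Matrix.mul_apply, Fin.sum_univ_two, hz11, hy11]
        linear_combination (-(z 0 1 * y 0 1)) * hT
      · simp [Matrix.mul_apply, Fin.sum_univ_two, hz11, hy11]
        linear_combination (z 0 0 * y 0 0) * hT
      · simp [Matrix.mul_apply, Fin.sum_univ_two, hz11, hy11]
        linear_combination (z 0 0 * y 0 1) * hT
    apply hx0
    apply dact_zero hp x
    · have h := t4_lin ((-y.det) * z 1 0) ((-z.det) * y 1 0) (-((z * y) 1 0)) z y (z * y) x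
      rw [← c12, rz, ry, rw', t4_smul, smul_zero, smul_zero, smul_zero, add_zero, add_zero] at h
      exact (smul_eq_zero.1 h).resolve_left hc
    · have h := t4_lin ((-y.det) * z 0 1) ((-z.det) * y 0 1) (-((z * y) 0 1)) z y (z * y) x
      rw [← c21, rz, ry, rw', t4_smul, smul_zero, smul_zero, smul_zero, add_zero, add_zero] at h
      exact (smul_eq_zero.1 h).resolve_left hc

end MP_02e52a.Cnt
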