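import Pool.Agent.Lib.MP_02e52a_al.Cnt.Mat2

/-! # Planes fixed by two unipotent groups -/

namespace MP_02e52a.Cnt

open MP_02e52a.M7

variable {p : ℕ} [Fact p.Prime]

private theorem U_pow (P : Submodule (ZMod p) (M6 p)) (c : ZMod p)
    (h : St P (1 + !![0, c; 0, 0])) (m : ℕ) : St P !![1, (m : ZMod p) * c; 0, 1] := by
  induction m with
  | zero =>
    have : (!![1, ((0 : ℕ) : ZMod p) * c; 0, 1] : F2 p) = 1 := by
      ext i j
      fin_cases i <;> fin_cases j <;> simp
    rw [this]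
    exact St.one
  | succ m ih =>
    have := h.mul ih
    have e : (1 + !![0, c; 0, 0] : F2 p) * !![1, (m : ZMod p) * c; 0, 1]
        = !![1, ((m + 1 : ℕ) : ZMod p) * c; 0, 1] := by
      ext i j
      fin_cases i <;> fin_cases j <;> simp [Matrix.mul_apply, Fin.sum_univ_two]
      ring
    rwa [e] at this

private theorem L_pow (P : Submodule (ZMod p) (M6 p)) (c : ZMod p)
    (h : St P (1 + !![0, 0; c, 0])) (m : ℕ) : St P !![1, 0; (m : ZMod p) * c, 1] := by
  induction m with
  | zero =>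
    have : (!![1, 0; ((0 : ℕ) : ZMod p) * c, 1] : F2 p) = 1 := by
      ext i j
      fin_cases i <;> fin_cases j <;> simp
    rw [this]
    exact St.one
  | succ m ih =>
    have := h.mul ih
    have e : (1 + !![0, 0; c, 0] : F2 p) * !![1, 0; (m : ZMod p) * c, 1]
        = !![1, 0; ((m + 1 : ℕ) : ZMod p) * c, 1] := by
      ext i j
      fin_cases i <;> fin_cases j <;> simp [Matrix.mul_apply, Fin.sum_univ_two]
      ring
    rwa [e] at this

private theorem U_all (P : Submodule (ZMod p) (M6 p)) (c : ZMod p) (hc : c ≠ 0)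
    (h : St P (1 + !![0, c; 0, 0])) (k : ZMod p) : St P !![1, k; 0, 1] := by
  have := U_pow P c h (k * c⁻¹).val
  rw [ZMod.natCast_zmod_val] at this
  rwa [mul_assoc, inv_mul_cancel₀ hc, mul_one] at this

private theorem L_all (P : Submodule (ZMod p) (M6 p)) (c : ZMod p) (hc : c ≠ 0)
    (h : St P (1 + !![0, 0; c, 0])) (k : ZMod p) : St P !![1, 0; k, 1] := by
  have := L_pow P c h (k * c⁻¹).val
  rw [ZMod.natCast_zmod_val] at this
  rwa [mul_assoc, inv_mul_cancel₀ hc, mul_one] at this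

private theorem actU (x : M6 p) : actM (!![1, 1; 0, 1] : F2 p) x - x =
    !![x 1 0 + x 2 0, x 1 1 + x 2 1 - x 0 0 - x 1 0 - x 2 0; 0, -x 1 0;
      2 * x 1 0, 2 * x 1 1 - 2 * x 1 0 - x 2 0] := by
  ext i j
  simp only [Matrix.sub_apply, actM_entry, Matrix.adjugate_fin_two, M7.sq]
  fin_cases i <;> fin_cases j <;> simp <;> ring

private theorem actL (a b k : ZMod p) : actM (!![1, 0; k, 1] : F2 p) !![b, a; 0, 0; 0, b] =
    !![b - k * a, a; -k ^ 3 * a, k ^ 2 * a + k * b; k * b - 2 * k ^ 2 * a, 2 * k * a + b] := by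
  ext i j
  simp only [actM_entry, Matrix.adjugate_fin_two, M7.sq]
  fin_cases i <;> fin_cases j <;> simp <;> ring

/-- the kernel of `actM (1 + e12) - 1` -/
private theorem ker_N (hp : p ≠ 2) (x : M6 p) (h : actM (!![1, 1; 0, 1] : F2 p) x - x = 0) :
    x = !![x 0 0, x 0 1; 0, 0; 0, x 0 0] := by
  rw [actU] at h
  have h2 : (2 : ZMod p) ≠ 0 := by
    intro h2
    have : ((2 : ℕ) : ZMod p) = 0 := by exact_mod_cast h2
    rw [ZMod.natCast_eq_zero_iff] at this
    exact hp ((Nat.prime_dvd_prime_iff_eq (Fact.out) Nat.prime_two).1 this)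
  have h00 := congrFun (congrFun h 0) 0
  have h01 := congrFun (congrFun h 0) 1
  have h11 := congrFun (congrFun h 1) 1
  have h21 := congrFun (congrFun h 2) 1
  simp at h00 h01 h11 h21
  have e10 : x 1 0 = 0 := h11
  have e20 : x 2 0 = 0 := by
    rw [e10, zero_add] at h00
    exact h00
  have e11 : x 1 1 = 0 := by
    rw [e10, e20] at h21
    simp at h21
    rcases h21 with h | h
    · exact absurd h h2
    · exact h
  have e21 : x 2 1 = x 0 0 := by
    rw [e10, e20, e11] at h01
    linear_combination h01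
  ext i j
  fin_cases i <;> fin_cases j <;> simp [e10, e20, e11, e21]

/-- nonzero fixed vector -/
private theorem exists_fix (P : Gr p) (hU : St P.1 !![1, 1; 0, 1]) :
    ∃ x ∈ P.1, x ≠ 0 ∧ actM (!![1, 1; 0, 1] : F2 p) x - x = 0 := by
  have hne : P.1 ≠ ⊥ := by
    intro h
    have h2 := P.2
    rw [h, finrank_bot] at h2
    exact absurd h2 (by norm_num)
  obtain ⟨y, hy, hy0⟩ := (Submodule.ne_bot_iff _).1 hne
  let N : M6 p → M6 p := fun x => actM (!![1, 1; 0, 1] : F2 p) x - x
  have hN : ∀ x ∈ P.1, N x ∈ P.1 := fun x hx => P.1.sub_mem (hU.2 x hx) hx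
  have hN4 : ∀ x, N (N (N (N x))) = 0 := by
    intro x
    simp only [N, actU]
    ext i j
    fin_cases i <;> fin_cases j <;> simp
  by_cases h1 : N y = 0
  · exact ⟨y, hy, hy0, h1⟩
  by_cases h2 : N (N y) = 0
  · exact ⟨N y, hN y hy, h1, h2⟩
  by_cases h3 : N (N (N y)) = 0
  · exact ⟨_, hN _ (hN y hy), h2, h3⟩
  exact ⟨_, hN _ (hN _ (hN y hy)), h3, hN4 y⟩

private theorem main (hp : p ≠ 2) (P : Gr p) (hU : ∀ k, St P.1 !![1, k; 0, 1])
    (hL : ∀ k, St P.1 !![1, 0; k, 1]) : P.1 = P0 := by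
  have h2 : (2 : ZMod p) ≠ 0 := by
    intro h2
    have : ((2 : ℕ) : ZMod p) = 0 := by exact_mod_cast h2
    rw [ZMod.natCast_eq_zero_iff] at this
    exact hp ((Nat.prime_dvd_prime_iff_eq (Fact.out) Nat.prime_two).1 this)
  obtain ⟨x, hx, hx0, hfix⟩ := exists_fix P (hU 1)
  have hxe := ker_N hp x hfix
  set b := x 0 0 with hb
  set a := x 0 1 with ha
  have hact : ∀ k : ZMod p, (!![b - k * a, a; -k ^ 3 * a, k ^ 2 * a + k * b;
      k * b - 2 * k ^ 2 * a, 2 * k * a + b] : M6 p) ∈ P.1 := by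
    intro k
    rw [← actL, ← hxe]
    exact (hL k).2 x hx
  have ha0 : a = 0 := by
    by_contra ha0
    let v : Fin 3 → P.1 := ![⟨_, hact 0⟩, ⟨_, hact 1⟩, ⟨_, hact (-1)⟩]
    have hv : LinearIndependent (ZMod p) v := by
      rw [Fintype.linearIndependent_iff]
      intro g hg
      rw [Fin.sum_univ_three] at hg
      have hg' := congrArg Subtype.val hg
      simp only [v, Submodule.coe_add, Submodule.coe_smul, Matrix.cons_val_zero,
        Matrix.cons_val_one, Matrix.cons_val_two, Matrix.head_cons, Matrix.tail_cons,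
        Submodule.coe_zero] at hg'
      have e01 := congrFun (congrFun hg' 0) 1
      have e10 := congrFun (congrFun hg' 1) 0
      have e11 := congrFun (congrFun hg' 1) 1
      simp at e01 e10 e11
      have f1 : a * (g 2 - g 1) = 0 := by linear_combination e10
      have f2 : g 2 = g 1 := by
        rcases mul_eq_zero.1 f1 with h | h
        · exact absurd h ha0
        · exact sub_eq_zero.1 h
      have f3 : 2 * (a * g 1) = 0 := by
        rw [f2] at e11
        linear_combination e11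
      have f4 : g 1 = 0 := by
        rcases mul_eq_zero.1 f3 with h | h
        · exact absurd h h2
        · rcases mul_eq_zero.1 h with h | h
          · exact absurd h ha0
          · exact h
      have f5 : a * g 0 = 0 := by
        rw [f2, f4] at e01
        linear_combination e01
      have f6 : g 0 = 0 := by
        rcases mul_eq_zero.1 f5 with h | h
        · exact absurd h ha0
        · exact h
      intro i
      fin_cases i
      · exact f6
      · exact f4
      · exact f2.trans f4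
    have := hv.fintype_card_le_finrank
    rw [P.2, Fintype.card_fin] at this
    exact absurd this (by norm_num)
  have hb0 : b ≠ 0 := by
    intro hb0
    apply hx0
    rw [hxe, hb0, ha0]
    ext i j
    fin_cases i <;> fin_cases j <;> simp
  have hm0 : (!![1, 0; 0, 0; 0, 1] : M6 p) ∈ P.1 := by
    have := P.1.smul_mem b⁻¹ (hact 0)
    have e : b⁻¹ • (!![b - 0 * a, a; -0 ^ 3 * a, 0 ^ 2 * a + 0 * b;
      0 * b - 2 * 0 ^ 2 * a, 2 * 0 * a + b] : M6 p) = !![1, 0; 0, 0; 0, 1] := by
      ext i j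
      fin_cases i <;> fin_cases j <;> simp [ha0, hb0]
    rwa [e] at this
  have hm1 : (!![0, 0; 0, 1; 1, 0] : M6 p) ∈ P.1 := by
    have h3 := P.1.smul_mem b⁻¹ (P.1.sub_mem (hact 1) (hact 0))
    have e : b⁻¹ • ((!![b - 1 * a, a; -1 ^ 3 * a, 1 ^ 2 * a + 1 * b;
      1 * b - 2 * 1 ^ 2 * a, 2 * 1 * a + b] : M6 p) - !![b - 0 * a, a; -0 ^ 3 * a, 0 ^ 2 * a + 0 * b;
      0 * b - 2 * 0 ^ 2 * a, 2 * 0 * a + b]) = !![0, 0; 0, 1; 1, 0] := by
      ext i j
      fin_cases i <;> fin_cases j <;> simp [ha0, hb0]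
    rwa [e] at h3
  have hle : (P0 : Submodule (ZMod p) (M6 p)) ≤ P.1 := by
    rw [P0, Submodule.span_le]
    intro y hy
    rcases hy with rfl | hy
    · exact hm0
    · rw [Set.mem_singleton_iff] at hy
      rw [hy]
      exact hm1
  exact (Submodule.eq_of_le_of_finrank_eq hle (by rw [finrank_P0, P.2])).symm

/-- [C5 U1] PROOF. By `conj_nilp2` and `trG` (`P0` is fixed by every `actM b`: `actM_phi`) we may assume `n = (0, c; 0, 0)`, `n' = (0, 0; c', 0)`. `(1 + n)^k = 1 + k n`, so `P` is stable under `1 + k e12`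
and `1 + k e21` for all `k : ZMod p` (write `k = (m : ZMod p) c`). `N = actM (1 + e12) - 1` is nilpotent: `N T = (T10 + T20, T11 + T21 - T00 - T10 - T20; 0, - T10; 2 T10, 2 T11 - 2 T10 - T20)`,
`N³ = 0` on a plane or simply: `N` is nilpotent on `P` so there is `0 ≠ x ∈ P` with `N x = 0`; the kernel of `N` is `{T10 = T20 = T11 = 0, T21 = T00}`: `x = a E01 + b (E00 + E21)`. If `a ≠ 0` then
`x, actM (1 + e21) x, actM (1 - e21) x` are linearly independent (compute: with `k = ±1`, the entries of `actM (1 + k e21) x` are polynomials in `k`; e.g. for `x = a E01 + b phi e0`: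
`actM (1 + k e21) x = a (−k, 1; −k³, k²; −2 k², 2 k) + b phi (1, k)`), which is impossible in a plane. So `a = 0`, `phi e0 ∈ P` and
`actM (1 + e21) (phi e0) = phi (e0 + e1) ∈ P`, so `P0 ≤ P` and `P = P0` by finrank (`finrank_P0`). -/
theorem eq_P0 (hp : p ≠ 2) (P : Gr p) (n n' : F2 p) (hn : n ∈ KK P.1) (hn' : n' ∈ KK P.1)
    (h : ∀ c : ZMod p, n' ≠ c • n) : P.1 = P0 := by
  obtain ⟨b, c, c', hb, hc, hc', e1, e2⟩ :=
    conj_nilp2 n n' hn.1 hn.2.1 hn'.1 hn'.2.1 h
  have k1 := (KK_cj b hb P n).2 hn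
  have k2 := (KK_cj b hb P n').2 hn'
  rw [e1] at k1
  rw [e2] at k2
  have hmain := main hp (trG b hb P) (U_all _ c hc k1.2.2) (L_all _ c' hc' k2.2.2)
  have hle : P.1 ≤ P0 := by
    intro x hx
    have h3 := (actM_mem_trG b hb P x).2 hx
    rw [hmain] at h3
    exact ((St_P0 b hb).mem_iff x).1 h3
  exact Submodule.eq_of_le_of_finrank_eq hle (by rw [finrank_P0, P.2])

end MP_02e52a.Cnt
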