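import Pool.Agent.Lib.MP_02e52a_al.Cnt.T3
import Pool.Agent.Lib.MP_02e52a_al.Cnt.T4
import Pool.Agent.Lib.MP_02e52a_al.Cnt.U1

/-! # Involutions of a plane fixed by a dihedral group -/

namespace MP_02e52a.Cnt

open MP_02e52a.M7

variable {p : ℕ} [Fact p.Prime]

private theorem t5_two (hp : p ≠ 2) : (2 : ZMod p) ≠ 0 := by
  intro h
  have h1 : ((2 : ℕ) : ZMod p) = 0 := by exact_mod_cast h
  rw [ZMod.natCast_eq_zero_iff] at h1
  exact hp ((Nat.prime_dvd_prime_iff_eq Fact.out Nat.prime_two).1 h1)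

private theorem t5_prop (y m : F2 p) (hy : y ≠ 0) (hyt : y.trace = 0) (hmt : m.trace = 0)
    (h : y * m = 0) : ∃ c : ZMod p, m = c • y := by
  have hy1 : y 1 1 = - y 0 0 := by
    rw [Matrix.trace_fin_two] at hyt
    linear_combination hyt
  have hm1 : m 1 1 = - m 0 0 := by
    rw [Matrix.trace_fin_two] at hmt
    linear_combination hmt
  have e00 := congrFun (congrFun h 0) 0
  have e01 := congrFun (congrFun h 0) 1
  have e10 := congrFun (congrFun h 1) 0
  have e11 := congrFun (congrFun h 1) 1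
  simp only [Matrix.mul_apply, Fin.sum_univ_two, Matrix.zero_apply, hy1, hm1] at e00 e01 e10 e11
  by_cases h0 : y 0 0 = 0
  · by_cases h1 : y 0 1 = 0
    · have h2 : y 1 0 ≠ 0 := by
        intro h2
        apply hy
        ext i j
        fin_cases i <;> fin_cases j
        · exact h0
        · exact h1
        · exact h2
        · change y 1 1 = 0
          rw [hy1, h0, neg_zero]
      refine ⟨m 1 0 / y 1 0, ?_⟩
      have k0 : m 0 0 = m 1 0 / y 1 0 * y 0 0 := by
        field_simp
        linear_combination e10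
      have k1 : m 0 1 = m 1 0 / y 1 0 * y 0 1 := by
        field_simp
        linear_combination e11 - e00
      have k2 : m 1 0 = m 1 0 / y 1 0 * y 1 0 := by
        field_simp
      ext i j
      fin_cases i <;> fin_cases j
      · exact k0
      · exact k1
      · exact k2
      · change m 1 1 = m 1 0 / y 1 0 * y 1 1
        rw [hm1, hy1]
        linear_combination -k0
    · refine ⟨m 0 1 / y 0 1, ?_⟩
      have k0 : m 0 0 = m 0 1 / y 0 1 * y 0 0 := by
        field_simp
        linear_combination -e01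
      have k1 : m 0 1 = m 0 1 / y 0 1 * y 0 1 := by
        field_simp
      have k2 : m 1 0 = m 0 1 / y 0 1 * y 1 0 := by
        field_simp
        linear_combination e00 - e11
      ext i j
      fin_cases i <;> fin_cases j
      · exact k0
      · exact k1
      · exact k2
      · change m 1 1 = m 0 1 / y 0 1 * y 1 1
        rw [hm1, hy1]
        linear_combination -k0
  · refine ⟨m 0 0 / y 0 0, ?_⟩
    have k0 : m 0 0 = m 0 0 / y 0 0 * y 0 0 := by
      field_simp
    have k1 : m 0 1 = m 0 0 / y 0 0 * y 0 1 := by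
      field_simp
      linear_combination e01
    have k2 : m 1 0 = m 0 0 / y 0 0 * y 1 0 := by
      field_simp
      linear_combination -e10
    ext i j
    fin_cases i <;> fin_cases j
    · exact k0
    · exact k1
    · exact k2
    · change m 1 1 = m 0 0 / y 0 0 * y 1 1
      rw [hm1, hy1]
      linear_combination -k0

/-- [C5 T5] PROOF. Let `D = - det z`, `η = tr (t z) / (2 D)`, `t' = t - η z`, so `tr (t' z) = 0` (`tr (z z) = 2 D`). If `η = 0` then `tr (z t) = 0`. If `t' = 0` then `t = η z`. So assume `η ≠ 0`, `t' ≠ 0`. `g = z t = η D + y` with `y = z t'`, `z y = D t' = - y z`, so `y` is traceless, `tr (z y) = 0`, `y ≠ 0`,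
and `St P g` (`St.mul`). If `det y ≠ 0`: `T3_cases` for `(y, s := z, α := η D, β := 1)` gives `y ∈ JJ P` and `P ≤ QQ y ∨ P ≤ HH y`, and `two_tori` gives `P = P0`. If `det y = 0` (`y y = 0`): `n := (η D)⁻¹ y ∈ KK P`
(`1 + n = (η D)⁻¹ g`, `St.smul`). The element `n' := s n s⁻¹` (up to the scalar: `s n adj s / det s`) is in `KK P` (`St.conj`). It is not proportional to `n`: `z n = c n` for some `c` with `c² = D` (`n` is nilpotent and anticommutes with `z`: `z` preserves the line `im n`; `c ≠ 0` as `z` is invertible), hence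
`z n' = z s n s⁻¹ = - s z n s⁻¹ = - c n'`, and `n' = k n` would give `- c n' = z n' = k z n = c n'`, so `n' = 0`. Then `eq_P0` gives `P = P0`. -/
theorem T5 (hp : p ≠ 2) (P : Gr p) (hP : P.1 ≠ P0) (z s t : F2 p) (hz : z ∈ JJ P.1) (hs : s ∈ JJ P.1)
    (hzs : (z * s).trace = 0) (h : P.1 ≤ QQ z ∨ P.1 ≤ HH z) (ht : t ∈ JJ P.1) :
    (∃ c : ZMod p, t = c • z) ∨ (z * t).trace = 0 := by
  have h2 : (2 : ZMod p) ≠ 0 := t5_two hp
  obtain ⟨hzt, hzS⟩ := hz
  obtain ⟨hst, hsS⟩ := hs
  obtain ⟨htt, htS⟩ := ht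
  have hzd : z.det ≠ 0 := hzS.1
  obtain ⟨D, hD⟩ : ∃ D, D = -z.det := ⟨_, rfl⟩
  have hD0 : D ≠ 0 := by rw [hD]; exact neg_ne_zero.2 hzd
  have hzz : z * z = D • (1 : F2 p) := by rw [hD]; exact mul_self_of_trace z hzt
  obtain ⟨η, hη⟩ : ∃ η, η = (z * t).trace / (2 * D) := ⟨_, rfl⟩
  obtain ⟨t', ht'⟩ : ∃ t', t' = t - η • z := ⟨_, rfl⟩
  by_cases hη0 : η = 0
  · right
    rw [hη, div_eq_zero_iff] at hη0
    rcases hη0 with h0 | h0
    · exact h0
    · exact absurd h0 (mul_ne_zero h2 hD0)
  by_cases ht0 : t' = 0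
  · left
    exact ⟨η, sub_eq_zero.1 (ht'.symm.trans ht0)⟩
  exfalso
  apply hP
  have htt' : t'.trace = 0 := by
    rw [ht', Matrix.trace_sub, Matrix.trace_smul, htt, hzt]
    simp
  have hzt' : (z * t').trace = 0 := by
    rw [ht', Matrix.mul_sub, Matrix.mul_smul, hzz, Matrix.trace_sub, Matrix.trace_smul,
      Matrix.trace_smul, Matrix.trace_one, hη]
    simp only [Fintype.card_fin, smul_eq_mul]
    push_cast
    field_simp
    ring
  have hanti : z * t' = - (t' * z) := by
    have h3 := anticomm z t' hzt htt'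
    rw [hzt', zero_smul] at h3
    exact eq_neg_of_add_eq_zero_left h3
  obtain ⟨y, hy⟩ : ∃ y, y = z * t' := ⟨_, rfl⟩
  have hyt : y.trace = 0 := by rw [hy]; exact hzt'
  have hzy : z * y = D • t' := by
    rw [hy, ← Matrix.mul_assoc, hzz, Matrix.smul_mul, Matrix.one_mul]
  have hyz : y * z = - (z * y) := by
    rw [hzy, hy, hanti, Matrix.neg_mul, Matrix.mul_assoc, hzz, Matrix.mul_smul, Matrix.mul_one]
  have hzyt : (z * y).trace = 0 := by
    rw [hzy, Matrix.trace_smul, htt', smul_zero]
  have hy0 : y ≠ 0 := by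
    intro h0
    rw [h0, Matrix.mul_zero] at hzy
    exact (smul_ne_zero hD0 ht0) hzy.symm
  have hg : z * t = (η * D) • (1 : F2 p) + (1 : ZMod p) • y := by
    have h3 : t = t' + η • z := by rw [ht']; abel
    rw [h3, Matrix.mul_add, ← hy, Matrix.mul_smul, hzz, smul_smul, one_smul]
    abel
  have hgS : St P.1 ((η * D) • (1 : F2 p) + (1 : ZMod p) • y) := by
    rw [← hg]
    exact hzS.mul htS
  have hηD : η * D ≠ 0 := mul_ne_zero hη0 hD0
  by_cases hyd : y.det = 0
  · -- the nilpotent case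
    have hyy : y * y = 0 := by
      rw [mul_self_of_trace y hyt, hyd, neg_zero, zero_smul]
    obtain ⟨n, hn⟩ : ∃ n, n = (η * D)⁻¹ • y := ⟨_, rfl⟩
    have hn1 : 1 + n = (η * D)⁻¹ • ((η * D) • (1 : F2 p) + (1 : ZMod p) • y) := by
      rw [hn, smul_add, smul_smul, smul_smul, inv_mul_cancel₀ hηD, one_smul, mul_one]
    have hnS : St P.1 (1 + n) := by
      rw [hn1]
      exact hgS.smul (inv_ne_zero hηD)
    have hn0 : n ≠ 0 := by rw [hn]; exact smul_ne_zero (inv_ne_zero hηD) hy0
    have hnn : n * n = 0 := by rw [hn, Matrix.smul_mul, Matrix.mul_smul, hyy, smul_zero, smul_zero]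
    have hsd : s.det ≠ 0 := hsS.1
    obtain ⟨m, hm⟩ : ∃ m, m = s * n * s.adjugate := ⟨_, rfl⟩
    have hms : m * s = s.det • (s * n) := by
      rw [hm, Matrix.mul_assoc, Matrix.adjugate_mul, Matrix.mul_smul, Matrix.mul_one]
    have hsm : s.adjugate * m = s.det • (n * s.adjugate) := by
      rw [hm, Matrix.mul_assoc, ← Matrix.mul_assoc, Matrix.adjugate_mul, Matrix.smul_mul,
        Matrix.one_mul]
    have hm0 : m ≠ 0 := by
      intro h0
      rw [h0, Matrix.zero_mul] at hms
      have h3 : s * n = 0 := by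
        rcases smul_eq_zero.1 hms.symm with h3 | h3
        · exact absurd h3 hsd
        · exact h3
      have h4 := congrArg (fun x => s.adjugate * x) h3
      simp only [Matrix.mul_zero] at h4
      rw [← Matrix.mul_assoc, Matrix.adjugate_mul, Matrix.smul_mul, Matrix.one_mul] at h4
      rcases smul_eq_zero.1 h4 with h5 | h5
      · exact hsd h5
      · exact hn0 h5
    have hmm : m * m = 0 := by
      have h3 : m * m = s * (n * (s.adjugate * m)) := by
        calc m * m = (s * n * s.adjugate) * m := by rw [← hm]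
          _ = s * (n * (s.adjugate * m)) := by simp only [Matrix.mul_assoc]
      rw [h3, hsm, Matrix.mul_smul, ← Matrix.mul_assoc n n, hnn, Matrix.zero_mul, smul_zero,
        Matrix.mul_zero]
    obtain ⟨n', hn'⟩ : ∃ n', n' = s.det⁻¹ • m := ⟨_, rfl⟩
    have hn'1 : 1 + n' = s.det⁻¹ • (s * (1 + n) * s.adjugate) := by
      rw [hn', Matrix.mul_add, Matrix.mul_one, Matrix.add_mul, ← hm, Matrix.mul_adjugate, smul_add,
        smul_smul, inv_mul_cancel₀ hsd, one_smul]
    have hn'S : St P.1 (1 + n') := by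
      rw [hn'1]
      exact (hsS.conj hnS).smul (inv_ne_zero hsd)
    have hn'0 : n' ≠ 0 := by rw [hn']; exact smul_ne_zero (inv_ne_zero hsd) hm0
    have hn'n : n' * n' = 0 := by
      rw [hn', Matrix.smul_mul, Matrix.mul_smul, hmm, smul_zero, smul_zero]
    refine eq_P0 hp P n n' ⟨hn0, hnn, hnS⟩ ⟨hn'0, hn'n, hn'S⟩ fun k hk => ?_
    -- z n = c n
    have hyzy : y * (z * y) = 0 := by
      rw [← Matrix.mul_assoc, hyz, Matrix.neg_mul, Matrix.mul_assoc, hyy, Matrix.mul_zero, neg_zero]
    obtain ⟨c, hc⟩ := t5_prop y (z * y) hy0 hyt hzyt hyzy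
    have hzn : z * n = c • n := by
      rw [hn, Matrix.mul_smul, hc, smul_smul, smul_smul, mul_comm]
    have hc0 : c ≠ 0 := by
      intro h0
      rw [h0, zero_smul] at hzn
      have h4 := congrArg (fun x => z * x) hzn
      simp only [Matrix.mul_zero] at h4
      rw [← Matrix.mul_assoc, hzz, Matrix.smul_mul, Matrix.one_mul] at h4
      rcases smul_eq_zero.1 h4 with h5 | h5
      · exact hD0 h5
      · exact hn0 h5
    have hzs' : z * s = - (s * z) := by
      have h3 := anticomm z s hzt hst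
      rw [hzs, zero_smul] at h3
      exact eq_neg_of_add_eq_zero_left h3
    have hzm : z * m = -(c • m) := by
      rw [hm, ← Matrix.mul_assoc, ← Matrix.mul_assoc, hzs', Matrix.neg_mul, Matrix.mul_assoc s z n,
        hzn, Matrix.mul_smul, Matrix.neg_mul, Matrix.smul_mul]
    have hzn' : z * n' = -(c • n') := by
      rw [hn', Matrix.mul_smul, hzm, smul_neg, smul_smul, smul_smul, mul_comm]
    have hzn'' : z * n' = c • n' := by
      rw [hk, Matrix.mul_smul, hzn, smul_smul, smul_smul, mul_comm]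
    have h5 : (2 * c) • n' = 0 := by
      have h6 : c • n' + c • n' = 0 := by
        nth_rewrite 1 [← hzn'']
        rw [hzn']
        exact neg_add_cancel _
      rw [two_mul, add_smul]
      exact h6
    rcases smul_eq_zero.1 h5 with h6 | h6
    · exact mul_ne_zero h2 hc0 h6
    · exact hn'0 h6
  · obtain ⟨hyJ, hyH⟩ := T3_cases hp P y z hyt hyd (η * D) 1 hηD one_ne_zero hgS ⟨hzt, hzS⟩ hzyt
    exact two_tori hp P z y ⟨hzt, hzS⟩ hyJ hzyt h hyH

end MP_02e52a.Cnt
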